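import Pool.Agent.H.MP_640201_an.Packet

/-! MP_640201_an: the functions `xip` are Hermitian forms in `Wf`. -/

open Complex Matrix
open scoped ComplexConjugate

namespace MP640201

theorem herm_inv_sq (q : Hs) : ((‖yy q‖ ^ 2 : ℝ) : ℂ)⁻¹ = Yf q * conj (Yf q) := by
  rw [Yf, map_inv₀, ← mul_inv, Complex.mul_conj, Complex.normSq_eq_norm_sq]

theorem herm_yy (q : Hs) : yy q = 1 + q.2 * conj q.2 - I * (q.1 : ℂ) := by
  rw [yy, Complex.mul_conj, Complex.normSq_eq_norm_sq]

theorem herm_yy_conj (q : Hs) : conj (yy q) = 1 + q.2 * conj q.2 + I * (q.1 : ℂ) := by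
  rw [herm_yy]
  simp only [map_sub, map_add, map_one, map_mul, conj_conj, conj_I, conj_ofReal]
  ring

theorem herm_rel (q : Hs) : Yf q * (1 + q.2 * conj q.2 - I * (q.1 : ℂ)) = 1 := by
  rw [← herm_yy]
  exact inv_mul_cancel₀ (yy_ne_zero q)

theorem herm_rel' (q : Hs) : conj (Yf q) * (1 + q.2 * conj q.2 + I * (q.1 : ℂ)) = 1 := by
  rw [← herm_yy_conj, ← map_mul, Yf, inv_mul_cancel₀ (yy_ne_zero q), map_one]

theorem xi_herm (j : Fin 4) : ∃ h : Matrix (Fin 3) (Fin 3) ℂ, h.IsHermitian ∧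
    ∀ q, (xi j q : ℂ) = ∑ a, ∑ b, conj (vv q a) * h a b * vv q b := by
  fin_cases j
  · refine ⟨!![0, -I / 4, 0; I / 4, 0, 0; 0, 0, 0], ?_, fun q => ?_⟩
    · ext a b
      fin_cases a <;> fin_cases b <;> simp [Matrix.conjTranspose_apply, neg_div]
    · have h1 := herm_rel q
      have h2 := herm_rel' q
      have h3 : ((xi 0 q : ℝ) : ℂ) = (q.1 : ℂ) * (Yf q * conj (Yf q)) := by
        rw [← herm_inv_sq]
        simp [xi, div_eq_mul_inv]
      show ((xi 0 q : ℝ) : ℂ) = _
      rw [h3]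
      simp only [Fin.sum_univ_three, vv, Matrix.of_apply, Matrix.cons_val', Matrix.cons_val_zero,
        Matrix.cons_val_one, Matrix.cons_val, map_one, map_sub, map_mul, map_ofNat]
      simp only [mul_zero, zero_mul, add_zero, zero_add, one_mul, mul_one]
      linear_combination ((I / 2) * conj (Yf q)) * h1 + (-(I / 2) * Yf q) * h2 +
        ((q.1 : ℂ) * (Yf q * conj (Yf q))) * I_sq
  · refine ⟨!![0, 0, 1 / 8; 0, 0, 1 / 8; 1 / 8, 1 / 8, 0], ?_, fun q => ?_⟩
    · ext a b
      fin_cases a <;> fin_cases b <;> simp [Matrix.conjTranspose_apply]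
    · have h3 : ((xi 1 q : ℝ) : ℂ) = (q.2.re : ℂ) * (Yf q * conj (Yf q)) := by
        rw [← herm_inv_sq]
        simp [xi, div_eq_mul_inv]
      show ((xi 1 q : ℝ) : ℂ) = _
      rw [h3, Complex.re_eq_add_conj]
      simp only [Fin.sum_univ_three, vv, Vf, Matrix.of_apply, Matrix.cons_val', Matrix.cons_val_zero,
        Matrix.cons_val_one, Matrix.cons_val, map_one, map_sub, map_mul, map_ofNat]
      ring
  · refine ⟨!![0, 0, -I / 8; 0, 0, -I / 8; I / 8, I / 8, 0], ?_, fun q => ?_⟩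
    · ext a b
      fin_cases a <;> fin_cases b <;> simp [Matrix.conjTranspose_apply, neg_div]
    · have h3 : ((xi 2 q : ℝ) : ℂ) = (q.2.im : ℂ) * (Yf q * conj (Yf q)) := by
        rw [← herm_inv_sq]
        simp [xi, div_eq_mul_inv]
      show ((xi 2 q : ℝ) : ℂ) = _
      have h4 : (q.2.im : ℂ) = -I / 2 * (q.2 - conj q.2) := by
        rw [Complex.sub_conj]
        push_cast
        linear_combination (q.2.im : ℂ) * I_sq
      rw [h3, h4]
      simp only [Fin.sum_univ_three, vv, Vf, Matrix.of_apply, Matrix.cons_val', Matrix.cons_val_zero,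
        Matrix.cons_val_one, Matrix.cons_val, map_one, map_sub, map_mul, map_ofNat]
      ring
  · refine ⟨!![1 / 4, 1 / 4, 0; 1 / 4, 1 / 4, 0; 0, 0, 0], ?_, fun q => ?_⟩
    · ext a b
      fin_cases a <;> fin_cases b <;> simp [Matrix.conjTranspose_apply]
    · have h3 : ((xi 3 q : ℝ) : ℂ) = Yf q * conj (Yf q) := by
        rw [← herm_inv_sq]
        simp [xi]
      show ((xi 3 q : ℝ) : ℂ) = _
      rw [h3]
      simp only [Fin.sum_univ_three, vv, Matrix.of_apply, Matrix.cons_val', Matrix.cons_val_zero,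
        Matrix.cons_val_one, Matrix.cons_val, map_one, map_sub, map_mul, map_ofNat]
      ring

theorem xip_herm (m : ℕ) (φ : Fin m → Fin 4) :
    ∃ E : Matrix (Fin m → Fin 3) (Fin m → Fin 3) ℂ, E.IsHermitian ∧
      ∀ q, (xip m φ q : ℂ) = ∑ f, ∑ g, conj (Wf m q f) * E f g * Wf m q g := by
  choose h hh hq using xi_herm
  refine ⟨fun f g => ∏ i, h (φ i) (f i) (g i), ?_, fun q => ?_⟩
  · ext f g
    rw [Matrix.conjTranspose_apply]
    show star (∏ i, h (φ i) (g i) (f i)) = ∏ i, h (φ i) (f i) (g i)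
    rw [star_prod]
    refine Finset.prod_congr rfl fun i _ => ?_
    exact (hh (φ i)).apply (f i) (g i)
  · have h1 : (xip m φ q : ℂ) = ∏ i, ∑ a, ∑ b, conj (vv q a) * h (φ i) a b * vv q b := by
      rw [xip]
      push_cast
      exact Finset.prod_congr rfl fun i _ => hq (φ i) q
    rw [h1, Finset.prod_univ_sum, Fintype.piFinset_univ]
    refine Finset.sum_congr rfl fun f _ => ?_
    rw [Finset.prod_univ_sum, Fintype.piFinset_univ]
    refine Finset.sum_congr rfl fun g _ => ?_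
    have h2 : ∀ f : Fin m → Fin 3, Wf m q f = ∏ i, vv q (f i) := fun f => rfl
    rw [h2, h2, map_prod, Finset.prod_mul_distrib, Finset.prod_mul_distrib]

end MP640201
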