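import Pool.Agent.H.MP_640201_an.Jets
import Pool.Agent.H.MP_640201_an.Herm

/-! MP_640201_an: the amplitude lemma. -/

open Complex Matrix
open scoped ComplexConjugate

namespace MP640201

private lemma form_bound {ι : Type*} [Fintype ι] (H : Matrix ι ι ℂ) (cs : ℝ) (hcs : 0 ≤ cs)
    (hH : ∀ f g, ‖H f g‖ ≤ cs) (x : ι → ℂ) :
    ‖∑ f, ∑ g, conj (x f) * H f g * x g‖ ≤ cs * (Fintype.card ι * ∑ f, ‖x f‖ ^ 2) := by
  calc ‖∑ f, ∑ g, conj (x f) * H f g * x g‖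
      ≤ ∑ f, ∑ g, ‖conj (x f) * H f g * x g‖ :=
        (norm_sum_le _ _).trans (Finset.sum_le_sum fun f _ => norm_sum_le _ _)
    _ ≤ ∑ f, ∑ g, cs * (‖x f‖ * ‖x g‖) := by
        refine Finset.sum_le_sum fun f _ => Finset.sum_le_sum fun g _ => ?_
        rw [norm_mul, norm_mul, RCLike.norm_conj]
        calc ‖x f‖ * ‖H f g‖ * ‖x g‖ ≤ ‖x f‖ * cs * ‖x g‖ := by
              gcongr
              exact hH f g
          _ = cs * (‖x f‖ * ‖x g‖) := by ring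
    _ = cs * (∑ f, ‖x f‖) ^ 2 := by
        rw [sq, Finset.sum_mul_sum, Finset.mul_sum]
        refine Finset.sum_congr rfl fun f _ => ?_
        rw [Finset.mul_sum]
    _ ≤ cs * (Fintype.card ι * ∑ f, ‖x f‖ ^ 2) := by
        refine mul_le_mul_of_nonneg_left ?_ hcs
        have := sq_sum_le_card_mul_sum_sq (s := (Finset.univ : Finset ι)) (f := fun f => ‖x f‖)
        simpa using this

open scoped MatrixOrder ComplexOrder in
private lemma exists_factor {ι : Type*} [Fintype ι] [DecidableEq ι] (M : Matrix ι ι ℂ)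
    (hMh : M.IsHermitian) (h : ∀ x : ι → ℂ, 0 ≤ (star x ⬝ᵥ (M *ᵥ x)).re) :
    ∃ B : Matrix ι ι ℂ, M = Bᴴ * B := by
  have hM : M.PosSemidef := by
    refine Matrix.PosSemidef.of_dotProduct_mulVec_nonneg hMh fun x => ?_
    have him : (star x ⬝ᵥ (M *ᵥ x)).im = 0 := hMh.im_star_dotProduct_mulVec_self x
    rw [Complex.le_def]
    exact ⟨h x, by rw [him]; rfl⟩
  obtain ⟨B, hB⟩ := CStarAlgebra.nonneg_iff_eq_star_mul_self.mp hM.nonneg
  exact ⟨B, hB⟩

private lemma dotProduct_star_self_ofReal {ι : Type*} [Fintype ι] (x : ι → ℂ) :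
    star x ⬝ᵥ x = ((∑ f, ‖x f‖ ^ 2 : ℝ) : ℂ) := by
  simp only [dotProduct, Pi.star_apply, RCLike.star_def, Complex.ofReal_sum]
  refine Finset.sum_congr rfl fun f _ => ?_
  rw [mul_comm, Complex.mul_conj, Complex.normSq_eq_norm_sq]

/-- Small Hermitian perturbations of `2^{-m}` are Gram matrices. -/
theorem exists_gram (m : ℕ) (hm : 1 ≤ m) : ∃ cs : ℝ, 0 < cs ∧
    ∀ H : Matrix (Fin m → Fin 3) (Fin m → Fin 3) ℂ, H.IsHermitian → (∀ f g, ‖H f g‖ ≤ cs) →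
      ∃ B : CI m →L[ℂ] CI m, ‖B‖ ≤ 1 ∧
        ∀ x : CI m, ((‖B x‖ ^ 2 : ℝ) : ℂ) = ((‖x‖ ^ 2 / 2 ^ m : ℝ) : ℂ) +
          ∑ f, ∑ g, conj (x f) * H f g * x g := by
  refine ⟨(2 ^ m * 3 ^ m)⁻¹, by positivity, fun H hH hHb => ?_⟩
  have hbd : ∀ x : (Fin m → Fin 3) → ℂ,
      ‖∑ f, ∑ g, conj (x f) * H f g * x g‖ ≤ (∑ f, ‖x f‖ ^ 2) / 2 ^ m := by
    intro x
    refine (form_bound H _ (by positivity) hHb x).trans (le_of_eq ?_)
    simp only [Fintype.card_pi, Finset.prod_const, Finset.card_univ, Fintype.card_fin]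
    push_cast
    have h3 : (3 : ℝ) ^ m ≠ 0 := by positivity
    have h2 : (2 : ℝ) ^ m ≠ 0 := by positivity
    field_simp
  set M : Matrix (Fin m → Fin 3) (Fin m → Fin 3) ℂ := (((2 ^ m)⁻¹ : ℝ) : ℂ) • 1 + H with hMdef
  have hMh : M.IsHermitian := by
    have h1 : ((((2 ^ m)⁻¹ : ℝ) : ℂ) • (1 : Matrix (Fin m → Fin 3) (Fin m → Fin 3) ℂ)).IsHermitian := by
      unfold Matrix.IsHermitian
      rw [conjTranspose_smul, conjTranspose_one]
      simp
    exact h1.add hH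
  have hquad : ∀ x : (Fin m → Fin 3) → ℂ,
      star x ⬝ᵥ (H *ᵥ x) = ∑ f, ∑ g, conj (x f) * H f g * x g := by
    intro x
    simp only [dotProduct, mulVec, Pi.star_apply, RCLike.star_def, Finset.mul_sum]
    refine Finset.sum_congr rfl fun f _ => Finset.sum_congr rfl fun g _ => ?_
    ring
  have hform : ∀ x : (Fin m → Fin 3) → ℂ,
      star x ⬝ᵥ (M *ᵥ x) = (((∑ f, ‖x f‖ ^ 2) / 2 ^ m : ℝ) : ℂ) +
        ∑ f, ∑ g, conj (x f) * H f g * x g := by
    intro x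
    rw [hMdef, add_mulVec, dotProduct_add, smul_mulVec, one_mulVec, dotProduct_smul,
      dotProduct_star_self_ofReal, hquad, smul_eq_mul, ← Complex.ofReal_mul]
    congr 2
    ring
  have hre : ∀ x : (Fin m → Fin 3) → ℂ, 0 ≤ (star x ⬝ᵥ (M *ᵥ x)).re := by
    intro x
    rw [hform, Complex.add_re, Complex.ofReal_re]
    have h1 := hbd x
    have h2 := Complex.abs_re_le_norm (∑ f, ∑ g, conj (x f) * H f g * x g)
    have h3 := neg_abs_le (∑ f, ∑ g, conj (x f) * H f g * x g).re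
    linarith
  obtain ⟨B₀, hB₀⟩ := exists_factor M hMh hre
  set B : CI m →L[ℂ] CI m := Matrix.toEuclideanCLM (n := (Fin m → Fin 3)) (𝕜 := ℂ) B₀ with hB
  have hBn : ∀ x : CI m, ((‖B x‖ ^ 2 : ℝ) : ℂ) = ((‖x‖ ^ 2 / 2 ^ m : ℝ) : ℂ) +
          ∑ f, ∑ g, conj (x f) * H f g * x g := by
    intro x
    have h1 : ‖B x‖ ^ 2 = ∑ f, ‖(B₀ *ᵥ (WithLp.ofLp x)) f‖ ^ 2 := by
      rw [EuclideanSpace.norm_sq_eq]
      rfl
    have h2 : ‖x‖ ^ 2 = ∑ f, ‖x f‖ ^ 2 := EuclideanSpace.norm_sq_eq x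
    rw [h1, h2, ← hform (WithLp.ofLp x), ← dotProduct_star_self_ofReal, hB₀,
      ← mulVec_mulVec, dotProduct_mulVec _ _ (B₀ *ᵥ WithLp.ofLp x), vecMul_conjTranspose, star_star]
  refine ⟨B, ?_, hBn⟩
  refine ContinuousLinearMap.opNorm_le_bound _ zero_le_one fun x => ?_
  rw [one_mul]
  refine (sq_le_sq₀ (norm_nonneg _) (norm_nonneg _)).1 ?_
  have h1 : ‖B x‖ ^ 2 = ‖x‖ ^ 2 / 2 ^ m + (∑ f, ∑ g, conj (x f) * H f g * x g).re := by
    have := congrArg Complex.re (hBn x)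
    rwa [Complex.add_re, Complex.ofReal_re, Complex.ofReal_re] at this
  have h2 := hbd (WithLp.ofLp x)
  have h3 : ‖x‖ ^ 2 = ∑ f, ‖x f‖ ^ 2 := EuclideanSpace.norm_sq_eq x
  have h4 := Complex.re_le_norm (∑ f, ∑ g, conj (x f) * H f g * x g)
  rw [← h3] at h2
  have h5 : (2 : ℝ) ≤ 2 ^ m := by
    calc (2 : ℝ) = 2 ^ 1 := by norm_num
      _ ≤ 2 ^ m := pow_le_pow_right₀ (by norm_num) hm
  have h6 : ‖x‖ ^ 2 / 2 ^ m ≤ ‖x‖ ^ 2 / 2 := div_le_div_of_nonneg_left (sq_nonneg _) (by norm_num) h5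
  linarith

theorem amplitude (m : ℕ) (hm : 1 ≤ m) : ∃ C : ℝ, 1 ≤ C ∧ ∃ cs : ℝ, 0 < cs ∧
    ∀ (c : ℝ) (F : Hs → ℝ), c ≤ cs → Adm m (fun _ => c) F →
      ∃ B : CI m →L[ℂ] CI m, ‖B‖ ≤ 1 ∧ Gr m (C * c) (fun q => F q - (‖B (Wf m q)‖ ^ 2 - 1)) := by
  obtain ⟨Cj, hCj, hj⟩ := jet_match m
  obtain ⟨Cx, hCx, hx⟩ := adm_xip m m
  choose E hE hEx using xip_herm m
  obtain ⟨cs₀, hcs₀, hgram⟩ := exists_gram m hm
  set K : ℝ := ∑ φ, ∑ f, ∑ g, ‖E φ f g‖ with hK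
  have hK0 : 0 ≤ K := by positivity
  set N : ℝ := (Fintype.card (Fin m → Fin 4) : ℝ) with hN
  have hN0 : 0 ≤ N := Nat.cast_nonneg _
  refine ⟨1 + N * (Cj * Cx), by nlinarith [mul_nonneg hN0 (mul_nonneg hCj hCx)],
    cs₀ / (Cj * K + 1), by positivity, fun c F hc hF => ?_⟩
  have hc0 : 0 ≤ c := hF.nonneg 0
  obtain ⟨a, ha, hV⟩ := hj c F hF
  set H : Matrix (Fin m → Fin 3) (Fin m → Fin 3) ℂ := ∑ φ, ((a φ : ℝ) : ℂ) • E φ with hH
  have hHh : H.IsHermitian := by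
    rw [hH]
    unfold Matrix.IsHermitian
    rw [conjTranspose_sum]
    refine Finset.sum_congr rfl fun φ _ => ?_
    rw [conjTranspose_smul, (hE φ).eq]
    simp
  have hHe : ∀ f g, H f g = ∑ φ, ((a φ : ℝ) : ℂ) * E φ f g := by
    intro f g
    rw [hH, Matrix.sum_apply]
    rfl
  have hHb : ∀ f g, ‖H f g‖ ≤ cs₀ := by
    intro f g
    rw [hHe]
    calc ‖∑ φ, ((a φ : ℝ) : ℂ) * E φ f g‖ ≤ ∑ φ, ‖((a φ : ℝ) : ℂ) * E φ f g‖ := norm_sum_le _ _
      _ ≤ ∑ φ, Cj * c * (∑ f, ∑ g, ‖E φ f g‖) := by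
          refine Finset.sum_le_sum fun φ _ => ?_
          rw [norm_mul, Complex.norm_real, Real.norm_eq_abs]
          refine mul_le_mul (ha φ) ?_ (norm_nonneg _) (mul_nonneg hCj hc0)
          calc ‖E φ f g‖ ≤ ∑ g, ‖E φ f g‖ :=
                Finset.single_le_sum (f := fun g => ‖E φ f g‖) (fun _ _ => norm_nonneg _)
                  (Finset.mem_univ g)
            _ ≤ ∑ f, ∑ g, ‖E φ f g‖ :=
                Finset.single_le_sum (f := fun f => ∑ g, ‖E φ f g‖)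
                  (fun _ _ => Finset.sum_nonneg fun _ _ => norm_nonneg _) (Finset.mem_univ f)
      _ = Cj * K * c := by rw [← Finset.mul_sum]; ring
      _ ≤ (Cj * K + 1) * c := by nlinarith
      _ ≤ (Cj * K + 1) * (cs₀ / (Cj * K + 1)) := by
          refine mul_le_mul_of_nonneg_left hc ?_
          positivity
      _ = cs₀ := by
          have : Cj * K + 1 ≠ 0 := by positivity
          field_simp
  obtain ⟨B, hB1, hB⟩ := hgram H hHh hHb
  refine ⟨B, hB1, ?_⟩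
  have hkey : ∀ q, ‖B (Wf m q)‖ ^ 2 - 1 = ∑ φ, a φ * xip m φ q := by
    intro q
    have h1 := hB (Wf m q)
    have h2 : (∑ f, ∑ g, conj (Wf m q f) * H f g * Wf m q g)
        = ((∑ φ, a φ * xip m φ q : ℝ) : ℂ) := by
      rw [Complex.ofReal_sum]
      simp only [Complex.ofReal_mul, hEx, hHe]
      calc ∑ f, ∑ g, conj (Wf m q f) * (∑ φ, ((a φ : ℝ) : ℂ) * E φ f g) * Wf m q g
          = ∑ f, ∑ g, ∑ φ, ((a φ : ℝ) : ℂ) * (conj (Wf m q f) * E φ f g * Wf m q g) := by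
            refine Finset.sum_congr rfl fun f _ => Finset.sum_congr rfl fun g _ => ?_
            rw [Finset.mul_sum, Finset.sum_mul]
            refine Finset.sum_congr rfl fun φ _ => ?_
            ring
        _ = ∑ f, ∑ φ, ∑ g, ((a φ : ℝ) : ℂ) * (conj (Wf m q f) * E φ f g * Wf m q g) := by
            refine Finset.sum_congr rfl fun f _ => ?_
            exact Finset.sum_comm
        _ = ∑ φ, ∑ f, ∑ g, ((a φ : ℝ) : ℂ) * (conj (Wf m q f) * E φ f g * Wf m q g) :=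
            Finset.sum_comm
        _ = _ := by
            refine Finset.sum_congr rfl fun φ _ => ?_
            rw [Finset.mul_sum]
            refine Finset.sum_congr rfl fun f _ => ?_
            rw [Finset.mul_sum]
    rw [h2, ← Complex.ofReal_add] at h1
    have h3 := Complex.ofReal_injective h1
    rw [h3, norm_sq_Wf]
    have : (2 : ℝ) ^ m ≠ 0 := by positivity
    rw [div_self this]
    ring
  have hfun : (fun q => F q - (‖B (Wf m q)‖ ^ 2 - 1)) = fun q => F q - ∑ φ, a φ * xip m φ q := by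
    funext q
    rw [hkey]
  rw [hfun]
  have hS : Adm m (fun _ : Hs => ∑ _φ : Fin m → Fin 4, Cj * c * Cx)
      (fun q => ∑ φ, a φ * xip m φ q) := by
    refine Adm.sum Finset.univ (φ := fun _ _ => Cj * c * Cx) (F := fun φ q => a φ * xip m φ q) fun φ _ => ?_
    have := (hx φ).clm (a φ • ContinuousLinearMap.id ℝ ℝ) (K := Cj * c) ?_
    · simpa using this
    · refine (norm_smul_le (a φ) (ContinuousLinearMap.id ℝ ℝ)).trans ?_
      calc ‖a φ‖ * ‖ContinuousLinearMap.id ℝ ℝ‖ ≤ ‖a φ‖ * 1 :=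
            mul_le_mul_of_nonneg_left ContinuousLinearMap.norm_id_le (norm_nonneg _)
        _ ≤ Cj * c := by rw [mul_one, Real.norm_eq_abs]; exact ha φ
  have hD := hF.sub hS
  have hD' : Adm m (fun _ => (1 + N * (Cj * Cx)) * c) (fun q => F q - ∑ φ, a φ * xip m φ q) := by
    refine hD.mono fun q => le_of_eq ?_
    simp only [Finset.sum_const, Finset.card_univ, nsmul_eq_mul, hN]
    ring
  exact gr_of_top_van hD'.top hV

end MP640201
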