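import Pool.Agent.H.MP_640201_an.Defs

/-! MP_640201_an: group identities, weights, rules for the fields. -/

open Complex
open scoped ComplexConjugate

namespace MP640201

theorem hmul_assoc (a b c : Hs) : hmul (hmul a b) c = hmul a (hmul b c) := by
  ext <;> simp [hmul] <;> ring

theorem hmul_zero (a : Hs) : hmul a 0 = a := by
  ext <;> simp [hmul]

theorem zero_hmul (a : Hs) : hmul 0 a = a := by
  ext <;> simp [hmul]

theorem hinv_hmul (a : Hs) : hmul (hinv a) a = 0 := by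
  ext <;> simp [hmul, hinv] <;> ring

theorem hmul_hinv (a : Hs) : hmul a (hinv a) = 0 := by
  ext <;> simp [hmul, hinv] <;> ring

theorem hinv_hinv (a : Hs) : hinv (hinv a) = a := by
  ext <;> simp [hinv]

theorem hinv_hmul_rev (a b : Hs) : hinv (hmul a b) = hmul (hinv b) (hinv a) := by
  ext <;> simp [hmul, hinv] <;> ring

theorem dil_hmul (r : ℝ) (a b : Hs) : dil r (hmul a b) = hmul (dil r a) (dil r b) := by
  ext <;> simp [hmul, dil] <;> ring

theorem dil_dil (r s : ℝ) (q : Hs) : dil r (dil s q) = dil (r * s) q := by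
  ext <;> simp [dil] <;> ring

theorem dil_one (q : Hs) : dil 1 q = q := by
  ext <;> simp [dil]

theorem dil_zero (r : ℝ) : dil r 0 = 0 := by
  ext <;> simp [dil]

theorem norm_dil_le {r : ℝ} (h0 : 0 ≤ r) (h1 : r ≤ 1) (q : Hs) : ‖dil r q‖ ≤ r * ‖q‖ := by
  simp only [Prod.norm_def, dil, norm_mul, Complex.norm_real, Real.norm_eq_abs, abs_pow,
    abs_of_nonneg h0]
  apply max_le
  · calc r ^ 2 * |q.1| ≤ r * |q.1| := by
          apply mul_le_mul_of_nonneg_right _ (abs_nonneg _); nlinarith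
      _ ≤ r * max |q.1| ‖q.2‖ := mul_le_mul_of_nonneg_left (le_max_left _ _) h0
  · exact mul_le_mul_of_nonneg_left (le_max_right _ _) h0

theorem contDiff_hmul (p : Hs) {n : WithTop ℕ∞} : ContDiff ℝ n (hmul p) := by
  have : hmul p = fun q : Hs => (p.1 + q.1 + 2 * (p.2.im * q.2.re - p.2.re * q.2.im), p.2 + q.2) := by
    funext q; ext <;> simp [hmul] <;> ring
  rw [this]
  have h1 : ContDiff ℝ n (fun q : Hs => q.2.re) := Complex.reCLM.contDiff.comp contDiff_snd
  have h2 : ContDiff ℝ n (fun q : Hs => q.2.im) := Complex.imCLM.contDiff.comp contDiff_snd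
  fun_prop

theorem contDiff_dil (r : ℝ) {n : WithTop ℕ∞} : ContDiff ℝ n (dil r) := by
  unfold dil
  fun_prop

theorem one_le_vw (q : Hs) : 1 ≤ vw q := by
  unfold vw; nlinarith [abs_nonneg q.1, sq_nonneg ‖q.2‖]

theorem vw_pos (q : Hs) : 0 < vw q := lt_of_lt_of_le one_pos (one_le_vw q)

theorem vw_hinv (q : Hs) : vw (hinv q) = vw q := by simp [vw, hinv]

theorem vw_hmul_le (a b : Hs) : vw (hmul a b) ≤ 3 * vw a * vw b := by
  have h1 : ‖a.2 + b.2‖ ≤ ‖a.2‖ + ‖b.2‖ := norm_add_le _ _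
  have h1' : ‖a.2 + b.2‖ ^ 2 ≤ 2 * ‖a.2‖ ^ 2 + 2 * ‖b.2‖ ^ 2 := by
    nlinarith [sq_nonneg (‖a.2‖ - ‖b.2‖), norm_nonneg (a.2 + b.2), norm_nonneg a.2,
      norm_nonneg b.2]
  have h2 : |(a.2 * conj b.2).im| ≤ ‖a.2‖ * ‖b.2‖ := by
    refine (Complex.abs_im_le_norm _).trans ?_
    simp
  have h3 : |a.1 + b.1 + 2 * (a.2 * conj b.2).im| ≤ |a.1| + |b.1| + 2 * (‖a.2‖ * ‖b.2‖) := by
    refine (abs_add_le _ _).trans ?_
    refine add_le_add (abs_add_le _ _) ?_
    rw [abs_mul]; simpa using h2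
  have h4 : 2 * (‖a.2‖ * ‖b.2‖) ≤ ‖a.2‖ ^ 2 + ‖b.2‖ ^ 2 := by nlinarith [sq_nonneg (‖a.2‖ - ‖b.2‖)]
  have ha := abs_nonneg a.1
  have hb := abs_nonneg b.1
  have ha2 := sq_nonneg ‖a.2‖
  have hb2 := sq_nonneg ‖b.2‖
  simp only [vw, hmul]
  nlinarith [mul_nonneg ha hb, mul_nonneg ha hb2, mul_nonneg ha2 hb, mul_nonneg ha2 hb2]

theorem norm_le_vw (q : Hs) : ‖q‖ ≤ vw q := by
  rw [Prod.norm_def, vw]
  apply max_le
  · rw [Real.norm_eq_abs]; nlinarith [sq_nonneg ‖q.2‖]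
  · nlinarith [sq_nonneg (‖q.2‖ - 1), abs_nonneg q.1]

theorem wp_nonneg (p : ℕ) (q : Hs) : 0 ≤ wp p q := pow_nonneg (inv_nonneg.2 (vw_pos q).le) p

theorem wp_pos (p : ℕ) (q : Hs) : 0 < wp p q := pow_pos (inv_pos.2 (vw_pos q)) p

theorem wp_anti {p p' : ℕ} (h : p ≤ p') (q : Hs) : wp p' q ≤ wp p q :=
  pow_le_pow_of_le_one (inv_nonneg.2 (vw_pos q).le) (inv_le_one_of_one_le₀ (one_le_vw q)) h

theorem wp_le_one (p : ℕ) (q : Hs) : wp p q ≤ 1 :=
  pow_le_one₀ (inv_nonneg.2 (vw_pos q).le) (inv_le_one_of_one_le₀ (one_le_vw q))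

theorem wp_add (p p' : ℕ) (q : Hs) : wp (p + p') q = wp p q * wp p' q := pow_add _ _ _

theorem vw_pow_mul_wp (p p' : ℕ) (q : Hs) : vw q ^ p * wp (p + p') q = wp p' q := by
  rw [wp_add, wp, ← mul_assoc, ← mul_pow, mul_inv_cancel₀ (vw_pos q).ne', one_pow, one_mul]

theorem wp_le_hmul (p : ℕ) (a q : Hs) : wp p q ≤ (3 * vw a) ^ p * wp p (hmul a q) := by
  rw [wp, wp, ← mul_pow]
  apply pow_le_pow_left₀ (inv_nonneg.2 (vw_pos q).le)
  rw [inv_le_iff_one_le_mul₀ (vw_pos q)]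
  have := vw_hmul_le a q
  have h2 := vw_pos (hmul a q)
  rw [← sub_nonneg] at this ⊢
  have : 0 ≤ (3 * vw a * vw q - vw (hmul a q)) * (vw (hmul a q))⁻¹ :=
    mul_nonneg this (inv_nonneg.2 h2.le)
  rw [sub_mul, mul_inv_cancel₀ h2.ne'] at this
  linarith [this]

theorem continuous_vw : Continuous vw := by unfold vw; fun_prop

theorem continuous_wp (p : ℕ) : Continuous (wp p) :=
  (continuous_vw.inv₀ fun q => (vw_pos q).ne').pow p

@[simp] theorem fld_zero (q : Hs) : fld 0 q = (1, 0) := rfl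
@[simp] theorem fld_one (q : Hs) : fld 1 q = (2 * q.2.im, 1) := rfl
@[simp] theorem fld_two (q : Hs) : fld 2 q = (-2 * q.2.re, I) := rfl
@[simp] theorem deg_zero : deg 0 = 2 := rfl
@[simp] theorem deg_one : deg 1 = 1 := rfl
@[simp] theorem deg_two : deg 2 = 1 := rfl

theorem deg_pos (i : Fin 3) : 1 ≤ deg i := by fin_cases i <;> simp
theorem deg_le (i : Fin 3) : deg i ≤ 2 := by fin_cases i <;> simp

theorem contDiff_fld (i : Fin 3) {n : WithTop ℕ∞} : ContDiff ℝ n (fld i) := by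
  have h1 : ContDiff ℝ n (fun q : Hs => q.2.re) := Complex.reCLM.contDiff.comp contDiff_snd
  have h2 : ContDiff ℝ n (fun q : Hs => q.2.im) := Complex.imCLM.contDiff.comp contDiff_snd
  fin_cases i
  · exact contDiff_const (c := ((1, 0) : Hs))
  · show ContDiff ℝ n (fun q : Hs => ((2 * q.2.im, 1) : Hs))
    fun_prop
  · show ContDiff ℝ n (fun q : Hs => ((-2 * q.2.re, I) : Hs))
    fun_prop

section Rules
variable {E E₁ E₂ E₃ : Type*} [NormedAddCommGroup E] [NormedSpace ℝ E]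
  [NormedAddCommGroup E₁] [NormedSpace ℝ E₁] [NormedAddCommGroup E₂] [NormedSpace ℝ E₂]
  [NormedAddCommGroup E₃] [NormedSpace ℝ E₃]

theorem dX_const (i : Fin 3) (c : E) : dX i (fun _ : Hs => c) = fun _ => 0 := by
  funext q; simp [dX]

theorem dX_add (i : Fin 3) {F G : Hs → E} (hF : Differentiable ℝ F) (hG : Differentiable ℝ G) :
    dX i (fun q => F q + G q) = fun q => dX i F q + dX i G q := by
  funext q; simp [dX, fderiv_fun_add (hF q) (hG q)]

theorem dX_sub (i : Fin 3) {F G : Hs → E} (hF : Differentiable ℝ F) (hG : Differentiable ℝ G) :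
    dX i (fun q => F q - G q) = fun q => dX i F q - dX i G q := by
  funext q; simp [dX, fderiv_fun_sub (hF q) (hG q)]

theorem dX_neg (i : Fin 3) (F : Hs → E) :
    dX i (fun q => -F q) = fun q => -dX i F q := by
  funext q; simp [dX]

theorem dX_sum {ι : Type*} (s : Finset ι) (i : Fin 3) {F : ι → Hs → E}
    (hF : ∀ j ∈ s, Differentiable ℝ (F j)) :
    dX i (fun q => ∑ j ∈ s, F j q) = fun q => ∑ j ∈ s, dX i (F j) q := by
  funext q; simp [dX, fderiv_fun_sum (fun j hj => hF j hj q)]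

theorem dX_clm (i : Fin 3) (L : E₁ →L[ℝ] E₂) {F : Hs → E₁} (hF : Differentiable ℝ F) :
    dX i (fun q => L (F q)) = fun q => L (dX i F q) := by
  funext q
  have : fderiv ℝ (fun q => L (F q)) q = L.comp (fderiv ℝ F q) :=
    (L.hasFDerivAt.comp q (hF q).hasFDerivAt).fderiv
  simp [dX, this]

theorem dX_bilin (i : Fin 3) (B : E₁ →L[ℝ] E₂ →L[ℝ] E₃) {F : Hs → E₁} {G : Hs → E₂}
    (hF : Differentiable ℝ F) (hG : Differentiable ℝ G) :
    dX i (fun q => B (F q) (G q)) = fun q => B (dX i F q) (G q) + B (F q) (dX i G q) := by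
  funext q
  have := (B.hasFDerivAt_of_bilinear (hF q).hasFDerivAt (hG q).hasFDerivAt).fderiv
  simp [dX, this, add_comm]

/-- The linear part of the left translation. -/
noncomputable def hlin (p : Hs) : Hs →L[ℝ] Hs :=
  ((ContinuousLinearMap.fst ℝ ℝ ℂ) +
    (2 * p.2.im) • (Complex.reCLM.comp (ContinuousLinearMap.snd ℝ ℝ ℂ)) -
    (2 * p.2.re) • (Complex.imCLM.comp (ContinuousLinearMap.snd ℝ ℝ ℂ))).prod
    (ContinuousLinearMap.snd ℝ ℝ ℂ)

theorem hlin_apply (p v : Hs) :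
    hlin p v = (v.1 + 2 * p.2.im * v.2.re - 2 * p.2.re * v.2.im, v.2) := by
  simp [hlin]

theorem hmul_eq (p q : Hs) : hmul p q = p + hlin p q := by
  rw [hlin_apply]
  ext <;> simp [hmul] <;> ring

theorem hasFDerivAt_hmul (p q : Hs) : HasFDerivAt (hmul p) (hlin p) q := by
  have : hmul p = fun q => p + hlin p q := by funext q; exact hmul_eq p q
  rw [this]
  exact (hlin p).hasFDerivAt.const_add p

theorem hlin_fld (i : Fin 3) (p q : Hs) : hlin p (fld i q) = fld i (hmul p q) := by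
  rw [hlin_apply]
  fin_cases i <;> ext <;> simp [hmul] <;> ring

theorem dX_hmul (i : Fin 3) (p : Hs) {F : Hs → E} (hF : Differentiable ℝ F) :
    dX i (fun q => F (hmul p q)) = fun q => dX i F (hmul p q) := by
  funext q
  have := ((hF (hmul p q)).hasFDerivAt.comp q (hasFDerivAt_hmul p q)).fderiv
  show fderiv ℝ (F ∘ hmul p) q (fld i q) = _
  rw [this]
  simp [dX, hlin_fld]

/-- The dilation as a linear map. -/
noncomputable def dlin (r : ℝ) : Hs →L[ℝ] Hs :=
  (r ^ 2 • ContinuousLinearMap.fst ℝ ℝ ℂ).prod (r • ContinuousLinearMap.snd ℝ ℝ ℂ)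

theorem dlin_apply (r : ℝ) (v : Hs) : dlin r v = dil r v := by
  simp [dlin, dil]

theorem hasFDerivAt_dil (r : ℝ) (q : Hs) : HasFDerivAt (dil r) (dlin r) q := by
  have : dil r = fun q => dlin r q := by funext q; exact (dlin_apply r q).symm
  rw [this]
  exact (dlin r).hasFDerivAt

theorem dil_fld (i : Fin 3) (r : ℝ) (q : Hs) : dil r (fld i q) = r ^ deg i • fld i (dil r q) := by
  fin_cases i <;> ext <;> simp [dil] <;> ring

theorem dX_dil (i : Fin 3) (r : ℝ) {F : Hs → E} (hF : Differentiable ℝ F) :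
    dX i (fun q => F (dil r q)) = fun q => r ^ deg i • dX i F (dil r q) := by
  funext q
  have := ((hF (dil r q)).hasFDerivAt.comp q (hasFDerivAt_dil r q)).fderiv
  show fderiv ℝ (F ∘ dil r) q (fld i q) = _
  rw [this, ContinuousLinearMap.comp_apply, dlin_apply, dil_fld, map_smul]
  rfl

/-- The frame spans: any tangent vector in terms of the fields. -/
theorem fderiv_eq_dX (F : Hs → E) (q v : Hs) :
    fderiv ℝ F q v = (v.1 - 2 * q.2.im * v.2.re + 2 * q.2.re * v.2.im) • dX 0 F q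
      + v.2.re • dX 1 F q + v.2.im • dX 2 F q := by
  simp only [dX, ← map_smul, ← map_add]
  congr 1
  ext <;> simp <;> ring

theorem contDiff_dX (i : Fin 3) {n : WithTop ℕ∞} {F : Hs → E} (hF : ContDiff ℝ (n + 1) F) :
    ContDiff ℝ n (dX i F) := by
  unfold dX
  exact (hF.fderiv_right le_rfl).clm_apply (contDiff_fld i)

end Rules

end MP640201
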