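import Pool.Agent.H.MP_640201_an.Classes

/-! MP_640201_an: words in the fields versus iterated derivatives at the origin. -/

open Complex
open scoped ComplexConjugate

namespace MP640201

variable {E : Type*} [NormedAddCommGroup E] [NormedSpace ℝ E]

/-- The coframe. -/
noncomputable def cd_al : Fin 3 → Hs → (Hs →L[ℝ] ℝ)
  | 0, q => ContinuousLinearMap.fst ℝ ℝ ℂ
      - (2 * q.2.im) • (Complex.reCLM.comp (ContinuousLinearMap.snd ℝ ℝ ℂ))
      + (2 * q.2.re) • (Complex.imCLM.comp (ContinuousLinearMap.snd ℝ ℝ ℂ))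
  | 1, _ => Complex.reCLM.comp (ContinuousLinearMap.snd ℝ ℝ ℂ)
  | 2, _ => Complex.imCLM.comp (ContinuousLinearMap.snd ℝ ℝ ℂ)

theorem cd_contDiff_al (i : Fin 3) {n : WithTop ℕ∞} : ContDiff ℝ n (cd_al i) := by
  have h1 : ContDiff ℝ n (fun q : Hs => q.2.re) := Complex.reCLM.contDiff.comp contDiff_snd
  have h2 : ContDiff ℝ n (fun q : Hs => q.2.im) := Complex.imCLM.contDiff.comp contDiff_snd
  fin_cases i
  · show ContDiff ℝ n (fun q : Hs => ContinuousLinearMap.fst ℝ ℝ ℂ
      - (2 * q.2.im) • (Complex.reCLM.comp (ContinuousLinearMap.snd ℝ ℝ ℂ))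
      + (2 * q.2.re) • (Complex.imCLM.comp (ContinuousLinearMap.snd ℝ ℝ ℂ)))
    exact (contDiff_const.sub ((contDiff_const.mul h2).smul contDiff_const)).add
      ((contDiff_const.mul h1).smul contDiff_const)
  · exact contDiff_const (c := Complex.reCLM.comp (ContinuousLinearMap.snd ℝ ℝ ℂ))
  · exact contDiff_const (c := Complex.imCLM.comp (ContinuousLinearMap.snd ℝ ℝ ℂ))

theorem cd_fderiv (F : Hs → ℝ) :
    fderiv ℝ F = fun q => ∑ i ∈ (Finset.univ : Finset (Fin 3)), dX i F q • cd_al i q := by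
  funext q
  refine ContinuousLinearMap.ext fun v => ?_
  rw [fderiv_eq_dX, Fin.sum_univ_three]
  simp [cd_al]
  ring

theorem cd_step (j : ℕ) : ∃ C : ℝ, 0 ≤ C ∧
    ∀ (c : ℝ) (F : Hs → ℝ), Adm j (fun _ => c) F → ‖iteratedFDeriv ℝ j F 0‖ ≤ C * c := by
  induction j using Nat.strong_induction_on with
  | _ j ih =>
    cases j with
    | zero =>
      refine ⟨1, zero_le_one, fun c F hF => ?_⟩
      rw [norm_iteratedFDeriv_zero, one_mul]
      exact hF.bound 0
    | succ j =>
      choose! Cf hC0 hC using ih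
      refine ⟨∑ i : Fin 3, ∑ l ∈ Finset.range (j + 1),
        (j.choose l : ℝ) * Cf l * ‖iteratedFDeriv ℝ (j - l) (cd_al i) 0‖, ?_, ?_⟩
      · refine Finset.sum_nonneg fun i _ => Finset.sum_nonneg fun l hl => ?_
        have := hC0 l (Finset.mem_range.1 hl)
        positivity
      · intro c F hF
        have hd : ∀ i, ContDiff ℝ j (dX i F) := fun i => (hF.2.2 i).contDiff
        rw [← norm_iteratedFDeriv_fderiv, cd_fderiv,
          iteratedFDeriv_sum (f := fun i q => dX i F q • cd_al i q)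
            (fun i _ => (hd i).smul (cd_contDiff_al i)), Finset.sum_apply, Finset.sum_mul]
        refine (norm_sum_le _ _).trans (Finset.sum_le_sum fun i _ => ?_)
        refine (norm_iteratedFDeriv_smul_le (hd i) (cd_contDiff_al i) 0 le_rfl).trans ?_
        rw [Finset.sum_mul]
        refine Finset.sum_le_sum fun l hl => ?_
        have hl' := Finset.mem_range.1 hl
        have h1 := hC l hl' c (dX i F) ((hF.2.2 i).of_le (Nat.lt_succ_iff.1 hl'))
        calc (j.choose l : ℝ) * ‖iteratedFDeriv ℝ l (dX i F) 0‖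
              * ‖iteratedFDeriv ℝ (j - l) (cd_al i) 0‖
            ≤ (j.choose l : ℝ) * (Cf l * c) * ‖iteratedFDeriv ℝ (j - l) (cd_al i) 0‖ := by
              gcongr
          _ = _ := by ring

/-- Iterated derivatives at the origin are controlled by words. -/
theorem norm_iteratedFDeriv_zero_le (m : ℕ) : ∃ C : ℝ, 0 ≤ C ∧
    ∀ (c : ℝ) (F : Hs → ℝ), Adm m (fun _ => c) F → ∀ j ≤ m, ‖iteratedFDeriv ℝ j F 0‖ ≤ C * c := by
  choose Cf hC0 hC using cd_step
  refine ⟨∑ j ∈ Finset.range (m + 1), Cf j, Finset.sum_nonneg fun j _ => hC0 j, ?_⟩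
  intro c F hF j hj
  have hc : 0 ≤ c := hF.nonneg 0
  refine (hC j c F (hF.of_le hj)).trans (mul_le_mul_of_nonneg_right ?_ hc)
  exact Finset.single_le_sum (f := Cf) (fun j _ => hC0 j) (Finset.mem_range.2 (by omega))

/-- If all iterated derivatives of order `< m` vanish at the origin then all words of length
`< m` vanish there. -/
theorem van_of_iteratedFDeriv {m : ℕ} {F : Hs → ℝ} (hF : ContDiff ℝ m F)
    (h : ∀ j < m, iteratedFDeriv ℝ j F 0 = 0) : Van m 0 F := by
  induction m generalizing F with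
  | zero => exact trivial
  | succ m ih =>
    have hF' : ContDiff ℝ ((m : WithTop ℕ∞) + 1) F := by
      have := hF
      push_cast at this
      exact this
    refine ⟨?_, fun i => ?_⟩
    · have h0 := h 0 (Nat.succ_pos m)
      have h1 : ‖iteratedFDeriv ℝ 0 F 0‖ = ‖F 0‖ := norm_iteratedFDeriv_zero
      rw [h0, norm_zero] at h1
      exact norm_eq_zero.1 h1.symm
    · refine ih (contDiff_dX i hF') fun l hl => ?_
      rw [← norm_eq_zero]
      refine le_antisymm ?_ (norm_nonneg _)
      have hfd : ContDiff ℝ m (fderiv ℝ F) := hF'.fderiv_right le_rfl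
      have h1 := norm_iteratedFDeriv_clm_apply (n := l) hfd (contDiff_fld i (n := (m : WithTop ℕ∞)))
        (0 : Hs) (by exact_mod_cast hl.le)
      refine h1.trans (le_of_eq (Finset.sum_eq_zero fun k hk => ?_))
      have hk' := Finset.mem_range.1 hk
      rw [norm_iteratedFDeriv_fderiv, h (k + 1) (by omega), norm_zero]
      ring

end MP640201
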