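import Pool.Agent.H.MP_640201_an.Basic

/-! MP_640201_an: rules for CR functions. -/

open Complex
open scoped ComplexConjugate

namespace MP640201

variable {V W : Type*} [NormedAddCommGroup V] [NormedSpace ℂ V] [NormedAddCommGroup W]
  [NormedSpace ℂ W]

theorem isCR_const (c : V) : IsCR (fun _ : Hs => c) := by
  intro q
  simp [dX_const]

theorem IsCR.add {F G : Hs → V} (hF : IsCR F) (hG : IsCR G) (dF : Differentiable ℝ F)
    (dG : Differentiable ℝ G) : IsCR (fun q => F q + G q) := by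
  intro q
  rw [dX_add 2 dF dG, dX_add 1 dF dG]
  simp only [hF q, hG q, smul_add]

theorem IsCR.clm {F : Hs → V} (hF : IsCR F) (dF : Differentiable ℝ F) (L : V →L[ℂ] W) :
    IsCR (fun q => L (F q)) := by
  intro q
  have h1 := dX_clm 1 (L.restrictScalars ℝ) dF
  have h2 := dX_clm 2 (L.restrictScalars ℝ) dF
  simp only [ContinuousLinearMap.coe_restrictScalars'] at h1 h2
  rw [h1, h2]
  simp only [hF q, map_smul]

/-- Derivation rule for `smul`. -/
theorem dX_smul' (i : Fin 3) {F : Hs → ℂ} {G : Hs → V} (dF : Differentiable ℝ F)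
    (dG : Differentiable ℝ G) :
    dX i (fun q => F q • G q) = fun q => dX i F q • G q + F q • dX i G q := by
  funext q
  have := ((dF q).hasFDerivAt.smul (dG q).hasFDerivAt).fderiv
  show fderiv ℝ (fun q => F q • G q) q (fld i q) = _
  rw [show (fun q => F q • G q) = F • G from rfl, this]
  simp [dX, add_comm]

theorem IsCR.smul {F : Hs → ℂ} {G : Hs → V} (hF : IsCR F) (hG : IsCR G)
    (dF : Differentiable ℝ F) (dG : Differentiable ℝ G) : IsCR (fun q => F q • G q) := by
  intro q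
  rw [dX_smul' 2 dF dG, dX_smul' 1 dF dG]
  simp only [hF q, hG q, smul_add, smul_smul, smul_eq_mul]
  rw [mul_comm (F q) I]

theorem IsCR.mul {F G : Hs → ℂ} (hF : IsCR F) (hG : IsCR G)
    (dF : Differentiable ℝ F) (dG : Differentiable ℝ G) : IsCR (fun q => F q * G q) :=
  IsCR.smul hF hG dF dG

theorem IsCR.pow {F : Hs → ℂ} (hF : IsCR F) (dF : Differentiable ℝ F) (M : ℕ) :
    IsCR (fun q => F q ^ M) := by
  induction M with
  | zero => simpa using isCR_const (1 : ℂ)
  | succ M ih =>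
    simp only [pow_succ]
    exact IsCR.mul ih hF (dF.pow M) dF

theorem IsCR.prod {ι : Type*} (s : Finset ι) {F : ι → Hs → ℂ} (hF : ∀ j ∈ s, IsCR (F j))
    (dF : ∀ j ∈ s, Differentiable ℝ (F j)) : IsCR (fun q => ∏ j ∈ s, F j q) := by
  classical
  induction s using Finset.induction_on with
  | empty => simpa using isCR_const (1 : ℂ)
  | insert a s ha ih =>
    simp only [Finset.prod_insert ha]
    refine IsCR.mul (hF a (Finset.mem_insert_self a s))
      (ih (fun j hj => hF j (Finset.mem_insert_of_mem hj))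
        (fun j hj => dF j (Finset.mem_insert_of_mem hj)))
      (dF a (Finset.mem_insert_self a s)) ?_
    have hd : ∀ t : Finset ι, (∀ j ∈ t, Differentiable ℝ (F j)) →
        Differentiable ℝ (fun q => ∏ j ∈ t, F j q) := by
      intro t
      induction t using Finset.induction_on with
      | empty => intro _; simp
      | insert b t hb iht =>
        intro h
        simp only [Finset.prod_insert hb]
        exact (h b (Finset.mem_insert_self b t)).mul
          (iht fun j hj => h j (Finset.mem_insert_of_mem hj))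
    exact hd s fun j hj => dF j (Finset.mem_insert_of_mem hj)

theorem dX_comp_hol (i : Fin 3) {F : Hs → ℂ} (dF : Differentiable ℝ F) {φ φ' : ℂ → ℂ} (q : Hs)
    (h : HasDerivAt φ (φ' (F q)) (F q)) :
    dX i (fun q => φ (F q)) q = φ' (F q) * dX i F q := by
  have h1 : HasFDerivAt φ ((ContinuousLinearMap.toSpanSingleton ℂ (φ' (F q))).restrictScalars ℝ)
      (F q) := h.hasFDerivAt.restrictScalars ℝ
  have h2 := (h1.comp q (dF q).hasFDerivAt).fderiv
  show fderiv ℝ (φ ∘ F) q (fld i q) = _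
  rw [h2]
  simp [dX, mul_comm]

theorem IsCR.inv {F : Hs → ℂ} (hF : IsCR F) (dF : Differentiable ℝ F) (h0 : ∀ q, F q ≠ 0) :
    IsCR (fun q => (F q)⁻¹) := by
  intro q
  have h : HasDerivAt (fun z : ℂ => z⁻¹) (-((F q) ^ 2)⁻¹) (F q) := hasDerivAt_inv (h0 q)
  have e : ∀ i, dX i (fun q => (F q)⁻¹) q = -((F q) ^ 2)⁻¹ * dX i F q := fun i =>
    dX_comp_hol i dF (φ := fun z : ℂ => z⁻¹) (φ' := fun z => -(z ^ 2)⁻¹) q h
  rw [e, e, hF q]
  simp only [smul_eq_mul]
  ring

theorem IsCR.cexp {F : Hs → ℂ} (hF : IsCR F) (dF : Differentiable ℝ F) :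
    IsCR (fun q => Complex.exp (F q)) := by
  intro q
  have e : ∀ i, dX i (fun q => Complex.exp (F q)) q = Complex.exp (F q) * dX i F q := fun i =>
    dX_comp_hol i dF (φ := Complex.exp) (φ' := Complex.exp) q (Complex.hasDerivAt_exp (F q))
  rw [e, e, hF q]
  simp only [smul_eq_mul]
  ring

theorem isCR_pi {κ : Type*} [Fintype κ] {F : Hs → EuclideanSpace ℂ κ}
    (dF : Differentiable ℝ F) (h : ∀ k, IsCR (fun q => F q k)) : IsCR F := by
  intro q
  ext k
  have e : ∀ i, dX i (fun q => F q k) q = (dX i F q) k := by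
    intro i
    have := dX_clm i ((EuclideanSpace.proj (𝕜 := ℂ) k).restrictScalars ℝ) dF
    exact congrFun this q
  have := h k q
  rw [e, e] at this
  simpa using this

theorem IsCR.hmul {F : Hs → V} (hF : IsCR F) (dF : Differentiable ℝ F) (p : Hs) :
    IsCR (fun q => F (hmul p q)) := by
  intro q
  rw [dX_hmul 2 p dF, dX_hmul 1 p dF]
  exact hF _

theorem IsCR.dil {F : Hs → V} (hF : IsCR F) (dF : Differentiable ℝ F) (r : ℝ) :
    IsCR (fun q => F (dil r q)) := by
  intro q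
  rw [dX_dil 2 r dF, dX_dil 1 r dF]
  simp only [deg_one, deg_two, pow_one, hF (MP640201.dil r q)]
  rw [smul_comm]

/-- `z₁ = t + i|ζ|²` is CR. -/
theorem isCR_z1 : IsCR (fun q : Hs => (q.1 : ℂ) + I * ((‖q.2‖ ^ 2 : ℝ) : ℂ)) := by
  intro q
  have h1 : HasFDerivAt (fun q : Hs => ‖q.2‖ ^ 2)
      ((2 * q.2.re) • (Complex.reCLM.comp (ContinuousLinearMap.snd ℝ ℝ ℂ))
        + (2 * q.2.im) • (Complex.imCLM.comp (ContinuousLinearMap.snd ℝ ℝ ℂ))) q := by
    have e : (fun q : Hs => ‖q.2‖ ^ 2) = fun q : Hs => q.2.re ^ 2 + q.2.im ^ 2 := by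
      funext q
      rw [← Complex.normSq_eq_norm_sq, Complex.normSq_apply]; ring
    rw [e]
    have hr : HasFDerivAt (fun q : Hs => q.2.re) (Complex.reCLM.comp
        (ContinuousLinearMap.snd ℝ ℝ ℂ)) q :=
      (Complex.reCLM.comp (ContinuousLinearMap.snd ℝ ℝ ℂ)).hasFDerivAt
    have hi : HasFDerivAt (fun q : Hs => q.2.im) (Complex.imCLM.comp
        (ContinuousLinearMap.snd ℝ ℝ ℂ)) q :=
      (Complex.imCLM.comp (ContinuousLinearMap.snd ℝ ℝ ℂ)).hasFDerivAt
    have hs : HasFDerivAt (fun q : Hs => q.2.re ^ 2 + q.2.im ^ 2) _ q := (hr.pow 2).add (hi.pow 2)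
    refine hs.congr_fderiv ?_
    ext <;> simp
  have h2 : HasFDerivAt (fun q : Hs => (q.1 : ℂ) + I * ((‖q.2‖ ^ 2 : ℝ) : ℂ))
      ((Complex.ofRealCLM.comp (ContinuousLinearMap.fst ℝ ℝ ℂ)) +
        I • (Complex.ofRealCLM.comp
          ((2 * q.2.re) • (Complex.reCLM.comp (ContinuousLinearMap.snd ℝ ℝ ℂ))
        + (2 * q.2.im) • (Complex.imCLM.comp (ContinuousLinearMap.snd ℝ ℝ ℂ))))) q := by
    have ha : HasFDerivAt (fun q : Hs => (q.1 : ℂ)) (Complex.ofRealCLM.comp
        (ContinuousLinearMap.fst ℝ ℝ ℂ)) q :=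
      (Complex.ofRealCLM.comp (ContinuousLinearMap.fst ℝ ℝ ℂ)).hasFDerivAt
    have hb := (Complex.ofRealCLM.hasFDerivAt.comp q h1).const_mul I
    exact ha.add hb
  simp only [dX, h2.fderiv]
  simp
  ring_nf
  simp

/-- `z₂ = ζ` is CR. -/
theorem isCR_z2 : IsCR (fun q : Hs => q.2) := by
  intro q
  have h : HasFDerivAt (fun q : Hs => q.2) (ContinuousLinearMap.snd ℝ ℝ ℂ) q :=
    (ContinuousLinearMap.snd ℝ ℝ ℂ).hasFDerivAt
  simp only [dX, h.fderiv]
  simp

end MP640201
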