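import Pool.Agent.H.MP_640201_an.Basic

/-! MP_640201_an: calculus of the classes Adm, Top, Van, Gr. -/

open Complex
open scoped ComplexConjugate

namespace MP640201

variable {E E₁ E₂ E₃ : Type*} [NormedAddCommGroup E] [NormedSpace ℝ E]
  [NormedAddCommGroup E₁] [NormedSpace ℝ E₁] [NormedAddCommGroup E₂] [NormedSpace ℝ E₂]
  [NormedAddCommGroup E₃] [NormedSpace ℝ E₃]

theorem Adm.bound {m : ℕ} {φ : Hs → ℝ} {F : Hs → E} (h : Adm m φ F) (q : Hs) : ‖F q‖ ≤ φ q := by
  cases m with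
  | zero => exact h.2 q
  | succ m => exact h.2.1 q

theorem Adm.nonneg {m : ℕ} {φ : Hs → ℝ} {F : Hs → E} (h : Adm m φ F) (q : Hs) : 0 ≤ φ q :=
  (norm_nonneg _).trans (h.bound q)

theorem Adm.mono {m : ℕ} {φ ψ : Hs → ℝ} {F : Hs → E} (h : Adm m φ F) (hφ : ∀ q, φ q ≤ ψ q) :
    Adm m ψ F := by
  induction m generalizing F with
  | zero => exact ⟨h.1, fun q => (h.2 q).trans (hφ q)⟩
  | succ m ih => exact ⟨h.1, fun q => (h.2.1 q).trans (hφ q), fun i => ih (h.2.2 i)⟩

theorem Adm.continuous {m : ℕ} {φ : Hs → ℝ} {F : Hs → E} (h : Adm m φ F) : Continuous F := by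
  cases m with
  | zero => exact h.1
  | succ m => exact h.1.continuous

theorem Adm.pred {m : ℕ} {φ : Hs → ℝ} {F : Hs → E} (h : Adm (m + 1) φ F) : Adm m φ F := by
  induction m generalizing F with
  | zero => exact ⟨h.1.continuous, h.2.1⟩
  | succ m ih => exact ⟨h.1, h.2.1, fun i => ih (h.2.2 i)⟩

theorem Adm.of_le {m m' : ℕ} {φ : Hs → ℝ} {F : Hs → E} (h : Adm m φ F) (hm : m' ≤ m) :
    Adm m' φ F := by
  induction m with
  | zero => rwa [Nat.le_zero.1 hm]
  | succ m ih =>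
    rcases Nat.lt_or_ge m' (m + 1) with h1 | h1
    · exact ih h.pred (Nat.lt_succ_iff.1 h1)
    · rwa [le_antisymm hm h1]

theorem adm_zero (m : ℕ) {φ : Hs → ℝ} (hφ : ∀ q, 0 ≤ φ q) : Adm m φ (fun _ : Hs => (0 : E)) := by
  induction m with
  | zero => exact ⟨continuous_const, fun q => by simpa using hφ q⟩
  | succ m ih =>
    refine ⟨contDiff_const, fun q => by simpa using hφ q, fun i => ?_⟩
    rw [dX_const]; exact ih

theorem adm_const' (m : ℕ) (c : E) {K : ℝ} (hK : ‖c‖ ≤ K) :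
    Adm m (fun _ => K) (fun _ : Hs => c) := by
  cases m with
  | zero => exact ⟨continuous_const, fun q => hK⟩
  | succ m =>
    refine ⟨contDiff_const, fun q => hK, fun i => ?_⟩
    rw [dX_const]; exact adm_zero m fun _ => (norm_nonneg c).trans hK

theorem adm_const (m : ℕ) (c : E) : Adm m (fun _ => ‖c‖) (fun _ : Hs => c) :=
  adm_const' m c le_rfl

theorem Adm.diff {m : ℕ} {φ : Hs → ℝ} {F : Hs → E} (h : Adm (m + 1) φ F) :
    Differentiable ℝ F := h.1.differentiable (by simp)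

theorem Adm.add {m : ℕ} {φ ψ : Hs → ℝ} {F G : Hs → E} (hF : Adm m φ F) (hG : Adm m ψ G) :
    Adm m (fun q => φ q + ψ q) (fun q => F q + G q) := by
  induction m generalizing F G with
  | zero => exact ⟨hF.1.add hG.1, fun q => (norm_add_le _ _).trans (add_le_add (hF.2 q) (hG.2 q))⟩
  | succ m ih =>
    refine ⟨hF.1.add hG.1, fun q => (norm_add_le _ _).trans
      (add_le_add (hF.2.1 q) (hG.2.1 q)), fun i => ?_⟩
    rw [dX_add i hF.diff hG.diff]
    exact ih (hF.2.2 i) (hG.2.2 i)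

theorem Adm.neg {m : ℕ} {φ : Hs → ℝ} {F : Hs → E} (hF : Adm m φ F) :
    Adm m φ (fun q => -F q) := by
  induction m generalizing F with
  | zero => exact ⟨hF.1.neg, fun q => by simpa using hF.2 q⟩
  | succ m ih =>
    refine ⟨hF.1.neg, fun q => by simpa using hF.2.1 q, fun i => ?_⟩
    rw [dX_neg i F]
    exact ih (hF.2.2 i)

theorem Adm.sub {m : ℕ} {φ ψ : Hs → ℝ} {F G : Hs → E} (hF : Adm m φ F) (hG : Adm m ψ G) :
    Adm m (fun q => φ q + ψ q) (fun q => F q - G q) := by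
  simp only [sub_eq_add_neg]
  exact hF.add hG.neg

theorem Adm.sum {ι : Type*} (s : Finset ι) {m : ℕ} {φ : ι → Hs → ℝ} {F : ι → Hs → E}
    (hF : ∀ j ∈ s, Adm m (φ j) (F j)) :
    Adm m (fun q => ∑ j ∈ s, φ j q) (fun q => ∑ j ∈ s, F j q) := by
  classical
  induction s using Finset.induction_on with
  | empty => simpa using adm_zero m (φ := fun _ => 0) fun _ => le_rfl
  | insert a s ha ih =>
    simp only [Finset.sum_insert ha]
    exact (hF a (Finset.mem_insert_self _ _)).add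
      (ih fun j hj => hF j (Finset.mem_insert_of_mem hj))

theorem Adm.clm {m : ℕ} {φ : Hs → ℝ} {F : Hs → E₁} (hF : Adm m φ F) (L : E₁ →L[ℝ] E₂) {K : ℝ}
    (hL : ‖L‖ ≤ K) : Adm m (fun q => K * φ q) (fun q => L (F q)) := by
  have key : ∀ F : Hs → E₁, ∀ q, ‖F q‖ ≤ φ q → ‖L (F q)‖ ≤ K * φ q := fun F q h =>
    (L.le_opNorm _).trans (mul_le_mul hL h (norm_nonneg _) ((norm_nonneg _).trans hL))
  induction m generalizing F with
  | zero => exact ⟨L.continuous.comp hF.1, fun q => key F q (hF.2 q)⟩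
  | succ m ih =>
    refine ⟨L.contDiff.comp hF.1, fun q => key F q (hF.2.1 q), fun i => ?_⟩
    rw [dX_clm i L hF.diff]
    exact ih (hF.2.2 i)

theorem Adm.bilin {m : ℕ} {φ ψ : Hs → ℝ} {F : Hs → E₁} {G : Hs → E₂} (hF : Adm m φ F)
    (hG : Adm m ψ G) (B : E₁ →L[ℝ] E₂ →L[ℝ] E₃) {K : ℝ} (hB : ‖B‖ ≤ K) :
    Adm m (fun q => 2 ^ m * K * (φ q * ψ q)) (fun q => B (F q) (G q)) := by
  have hK : 0 ≤ K := (norm_nonneg B).trans hB
  have key : ∀ (F : Hs → E₁) (G : Hs → E₂), ∀ q, ‖F q‖ ≤ φ q → ‖G q‖ ≤ ψ q →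
      ‖B (F q) (G q)‖ ≤ K * (φ q * ψ q) := fun F G q h1 h2 => by
    refine (B.le_opNorm₂ _ _).trans ?_
    rw [mul_assoc]
    exact mul_le_mul hB (mul_le_mul h1 h2 (norm_nonneg _) ((norm_nonneg _).trans h1))
      (mul_nonneg (norm_nonneg _) (norm_nonneg _)) hK
  have h0 : ∀ q, 0 ≤ K * (φ q * ψ q) := fun q =>
    mul_nonneg hK (mul_nonneg (hF.nonneg q) (hG.nonneg q))
  induction m generalizing F G with
  | zero =>
    refine ⟨(B.isBoundedBilinearMap.continuous.comp (hF.1.prodMk hG.1)), fun q => ?_⟩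
    simpa using key F G q (hF.2 q) (hG.2 q)
  | succ m ih =>
    refine ⟨B.isBoundedBilinearMap.contDiff.comp (hF.1.prodMk hG.1), fun q => ?_, fun i => ?_⟩
    · refine (key F G q (hF.2.1 q) (hG.2.1 q)).trans ?_
      show K * (φ q * ψ q) ≤ 2 ^ (m + 1) * K * (φ q * ψ q)
      rw [mul_assoc (2 ^ (m + 1))]
      exact le_mul_of_one_le_left (h0 q) (one_le_pow₀ one_le_two)
    · rw [dX_bilin i B hF.diff hG.diff]
      refine ((ih (hF.2.2 i) hG.pred).add (ih hF.pred (hG.2.2 i))).mono fun q => le_of_eq ?_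
      ring

/-- Leibniz for complex scalar multiplication. -/
theorem Adm.smulC {V : Type*} [NormedAddCommGroup V] [NormedSpace ℂ V] {m : ℕ} {φ ψ : Hs → ℝ}
    {F : Hs → ℂ} {G : Hs → V} (hF : Adm m φ F) (hG : Adm m ψ G) :
    Adm m (fun q => 2 ^ m * (φ q * ψ q)) (fun q => F q • G q) := by
  have h := hF.bilin hG (ContinuousLinearMap.lsmul ℝ ℂ : ℂ →L[ℝ] V →L[ℝ] V) (K := 1)
    ContinuousLinearMap.opNorm_lsmul_le
  simpa using h

theorem Adm.mulC {m : ℕ} {φ ψ : Hs → ℝ} {F G : Hs → ℂ} (hF : Adm m φ F) (hG : Adm m ψ G) :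
    Adm m (fun q => 2 ^ m * (φ q * ψ q)) (fun q => F q * G q) := by
  have h := hF.bilin hG (ContinuousLinearMap.mul ℝ ℂ) (K := 1) (ContinuousLinearMap.opNorm_mul_le ℝ ℂ)
  simpa using h

theorem Adm.mulR {m : ℕ} {φ ψ : Hs → ℝ} {F G : Hs → ℝ} (hF : Adm m φ F) (hG : Adm m ψ G) :
    Adm m (fun q => 2 ^ m * (φ q * ψ q)) (fun q => F q * G q) := by
  have h := hF.bilin hG (ContinuousLinearMap.mul ℝ ℝ) (K := 1) (ContinuousLinearMap.opNorm_mul_le ℝ ℝ)
  simpa using h

theorem Adm.smulR {m : ℕ} {φ ψ : Hs → ℝ} {F : Hs → ℝ} {G : Hs → E} (hF : Adm m φ F)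
    (hG : Adm m ψ G) :
    Adm m (fun q => 2 ^ m * (φ q * ψ q)) (fun q => F q • G q) := by
  have h := hF.bilin hG (ContinuousLinearMap.lsmul ℝ ℝ : ℝ →L[ℝ] E →L[ℝ] E) (K := 1)
    ContinuousLinearMap.opNorm_lsmul_le
  simpa using h

section Inner
variable {V : Type*} [NormedAddCommGroup V] [InnerProductSpace ℂ V]

theorem abs_rip_le (x y : V) : |rip x y| ≤ ‖x‖ * ‖y‖ :=
  (Complex.abs_re_le_norm _).trans (norm_inner_le_norm x y)

/-- `rip` as a bounded bilinear map. -/
noncomputable def ripL (V : Type*) [NormedAddCommGroup V] [InnerProductSpace ℂ V] :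
    V →L[ℝ] V →L[ℝ] ℝ :=
  LinearMap.mkContinuous₂
    (LinearMap.mk₂ ℝ (fun x y : V => rip x y)
      (fun x x' y => by simp only [rip, inner_add_left, Complex.add_re])
      (fun c x y => by
        have : c • x = (c : ℂ) • x := rfl
        rw [rip, rip, this, inner_smul_left, Complex.conj_ofReal, Complex.re_ofReal_mul,
          smul_eq_mul])
      (fun x y y' => by simp only [rip, inner_add_right, Complex.add_re])
      (fun c x y => by
        have : c • y = (c : ℂ) • y := rfl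
        rw [rip, rip, this, inner_smul_right, Complex.re_ofReal_mul, smul_eq_mul]))
    1 (fun x y => by simpa using abs_rip_le x y)

theorem ripL_apply (x y : V) : ripL V x y = rip x y := rfl

theorem norm_ripL_le : ‖ripL V‖ ≤ 1 := LinearMap.mkContinuous₂_norm_le _ zero_le_one _

theorem rip_self (x : V) : rip x x = ‖x‖ ^ 2 := by
  unfold rip
  rw [inner_self_eq_norm_sq_to_K]
  norm_cast

theorem rip_comm (x y : V) : rip x y = rip y x := by
  rw [rip, rip, ← inner_conj_symm x y, Complex.conj_re]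

theorem norm_add_sq_rip (x y : V) : ‖x + y‖ ^ 2 = ‖x‖ ^ 2 + 2 * rip x y + ‖y‖ ^ 2 := by
  rw [← rip_self, ← rip_self, ← rip_self]
  have h1 : rip (x + y) (x + y) = rip x x + rip x y + rip y x + rip y y := by
    simp only [rip, inner_add_left, inner_add_right, Complex.add_re]; ring
  rw [h1, rip_comm y x]; ring

end Inner

theorem Adm.rip {V : Type*} [NormedAddCommGroup V] [InnerProductSpace ℂ V] {m : ℕ}
    {φ ψ : Hs → ℝ} {F G : Hs → V} (hF : Adm m φ F) (hG : Adm m ψ G) :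
    Adm m (fun q => 2 ^ m * (φ q * ψ q)) (fun q => MP640201.rip (F q) (G q)) := by
  have h := hF.bilin hG (ripL V) norm_ripL_le
  simpa only [ripL_apply, mul_one] using h

theorem Adm.normSq {V : Type*} [NormedAddCommGroup V] [InnerProductSpace ℂ V] {m : ℕ}
    {φ : Hs → ℝ} {F : Hs → V} (hF : Adm m φ F) :
    Adm m (fun q => 2 ^ m * (φ q * φ q)) (fun q => ‖F q‖ ^ 2) := by
  have h := hF.rip hF
  simpa only [rip_self] using h

theorem Adm.hmul {m : ℕ} {φ : Hs → ℝ} {F : Hs → E} (hF : Adm m φ F) (p : Hs) :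
    Adm m (fun q => φ (hmul p q)) (fun q => F (hmul p q)) := by
  induction m generalizing F with
  | zero => exact ⟨hF.1.comp (contDiff_hmul p (n := 0)).continuous, fun q => hF.2 _⟩
  | succ m ih =>
    refine ⟨hF.1.comp (contDiff_hmul p), fun q => hF.2.1 _, fun i => ?_⟩
    rw [dX_hmul i p hF.diff]
    exact ih (hF.2.2 i)

theorem norm_smul_id_le {r : ℝ} (h0 : 0 ≤ r) :
    ‖r • ContinuousLinearMap.id ℝ E‖ ≤ r := by
  refine ContinuousLinearMap.opNorm_le_bound _ h0 fun x => ?_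
  simp [norm_smul, abs_of_nonneg h0]

theorem Adm.dil {m : ℕ} {φ : Hs → ℝ} {F : Hs → E} (hF : Adm m φ F) {r : ℝ} (h0 : 0 ≤ r)
    (h1 : r ≤ 1) : Adm m (fun q => φ (dil r q)) (fun q => F (dil r q)) := by
  induction m generalizing F with
  | zero => exact ⟨hF.1.comp (contDiff_dil r (n := 0)).continuous, fun q => hF.2 _⟩
  | succ m ih =>
    refine ⟨hF.1.comp (contDiff_dil r), fun q => hF.2.1 _, fun i => ?_⟩
    rw [dX_dil i r hF.diff]
    have h2 := (ih (hF.2.2 i)).clm ((r ^ deg i) • ContinuousLinearMap.id ℝ E) (K := 1)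
      ((norm_smul_id_le (pow_nonneg h0 _)).trans (pow_le_one₀ h0 h1))
    simpa using h2

theorem Adm.dil_big {m : ℕ} {C : ℝ} {F : Hs → E} (hF : Adm m (fun _ => C) F) {R : ℝ}
    (h1 : 1 ≤ R) : Adm m (fun _ => R ^ (2 * m) * C) (fun q => F (MP640201.dil R q)) := by
  have hC : 0 ≤ C := hF.nonneg 0
  induction m generalizing F with
  | zero => exact ⟨hF.1.comp (contDiff_dil R (n := 0)).continuous, fun q => by simpa using hF.2 _⟩
  | succ m ih =>
    refine ⟨hF.1.comp (contDiff_dil R), fun q => (hF.2.1 _).trans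
      (le_mul_of_one_le_left hC (one_le_pow₀ h1)), fun i => ?_⟩
    rw [dX_dil i R hF.diff]
    have h2 := (ih (hF.2.2 i)).clm ((R ^ deg i) • ContinuousLinearMap.id ℝ E) (K := R ^ 2)
      ((norm_smul_id_le (pow_nonneg (zero_le_one.trans h1) _)).trans
        (pow_le_pow_right₀ h1 (deg_le i)))
    refine (Adm.mono (F := fun q => R ^ deg i • dX i F (MP640201.dil R q)) (by simpa using h2)
      fun q => le_of_eq ?_)
    rw [← mul_assoc, ← pow_add]
    congr 2
    ring

/-- The dual frame. -/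
noncomputable def alpha : Fin 3 → Hs → (Hs →L[ℝ] ℝ)
  | 0, q => ContinuousLinearMap.fst ℝ ℝ ℂ
      - (2 * q.2.im) • (Complex.reCLM.comp (ContinuousLinearMap.snd ℝ ℝ ℂ))
      + (2 * q.2.re) • (Complex.imCLM.comp (ContinuousLinearMap.snd ℝ ℝ ℂ))
  | 1, _ => Complex.reCLM.comp (ContinuousLinearMap.snd ℝ ℝ ℂ)
  | 2, _ => Complex.imCLM.comp (ContinuousLinearMap.snd ℝ ℝ ℂ)

theorem contDiff_alpha (i : Fin 3) {n : WithTop ℕ∞} : ContDiff ℝ n (alpha i) := by
  have h1 : ContDiff ℝ n (fun q : Hs => q.2.re) := Complex.reCLM.contDiff.comp contDiff_snd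
  have h2 : ContDiff ℝ n (fun q : Hs => q.2.im) := Complex.imCLM.contDiff.comp contDiff_snd
  fin_cases i
  · show ContDiff ℝ n (fun q : Hs => ContinuousLinearMap.fst ℝ ℝ ℂ
      - (2 * q.2.im) • (Complex.reCLM.comp (ContinuousLinearMap.snd ℝ ℝ ℂ))
      + (2 * q.2.re) • (Complex.imCLM.comp (ContinuousLinearMap.snd ℝ ℝ ℂ)))
    fun_prop
  · exact contDiff_const (c := Complex.reCLM.comp (ContinuousLinearMap.snd ℝ ℝ ℂ))
  · exact contDiff_const (c := Complex.imCLM.comp (ContinuousLinearMap.snd ℝ ℝ ℂ))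

theorem fderiv_eq_alpha (F : Hs → E) :
    fderiv ℝ F = fun q => ∑ i, (alpha i q).smulRight (dX i F q) := by
  funext q
  refine ContinuousLinearMap.ext fun v => ?_
  rw [fderiv_eq_dX F q v]
  simp [Fin.sum_univ_three, alpha]

theorem contDiff_succ_of_dX {m : ℕ} {F : Hs → E} (hF : ContDiff ℝ 1 F)
    (h : ∀ i, ContDiff ℝ m (dX i F)) : ContDiff ℝ (m + 1 : ℕ) F := by
  have h1 : ContDiff ℝ m (fderiv ℝ F) := by
    rw [fderiv_eq_alpha]
    refine ContDiff.sum fun i _ => ?_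
    exact (contDiff_alpha i).smulRight (h i)
  have h2 : ((m + 1 : ℕ) : WithTop ℕ∞) = (m : WithTop ℕ∞) + 1 := by norm_cast
  rw [h2, contDiff_succ_iff_fderiv]
  exact ⟨hF.differentiable (by simp), by simp, h1⟩

/-- Finite regularity in the usual sense. -/
theorem Adm.contDiff {m : ℕ} {φ : Hs → ℝ} {F : Hs → E} (hF : Adm m φ F) :
    ContDiff ℝ m F := by
  induction m generalizing F with
  | zero => exact contDiff_zero.2 hF.1
  | succ m ih => exact contDiff_succ_of_dX hF.1 fun i => ih (hF.2.2 i)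

theorem Top.contDiff {m : ℕ} {C : ℝ} {F : Hs → E} (hF : Top m C F) :
    ContDiff ℝ m F := by
  induction m generalizing F with
  | zero => exact contDiff_zero.2 hF.1
  | succ m ih => exact contDiff_succ_of_dX hF.1 fun i => ih (hF.2 i)

theorem Top.diff {m : ℕ} {C : ℝ} {F : Hs → E} (h : Top (m + 1) C F) :
    Differentiable ℝ F := h.1.differentiable (by simp)

theorem Top.mono {m : ℕ} {C C' : ℝ} {F : Hs → E} (h : Top m C F) (hC : C ≤ C') :
    Top m C' F := by
  induction m generalizing F with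
  | zero => exact ⟨h.1, fun q => (h.2 q).trans hC⟩
  | succ m ih => exact ⟨h.1, fun i => ih (h.2 i)⟩

theorem Top.nonneg {m : ℕ} {C : ℝ} {F : Hs → E} (h : Top m C F) : 0 ≤ C := by
  induction m generalizing F with
  | zero => exact (norm_nonneg _).trans (h.2 0)
  | succ m ih => exact ih (h.2 0)

theorem Adm.top {m : ℕ} {C : ℝ} {F : Hs → E} (hF : Adm m (fun _ => C) F) : Top m C F := by
  induction m generalizing F with
  | zero => exact hF
  | succ m ih => exact ⟨hF.1, fun i => ih (hF.2.2 i)⟩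

theorem Top.add {m : ℕ} {C C' : ℝ} {F G : Hs → E} (hF : Top m C F) (hG : Top m C' G) :
    Top m (C + C') (fun q => F q + G q) := by
  induction m generalizing F G with
  | zero => exact ⟨hF.1.add hG.1, fun q => (norm_add_le _ _).trans (add_le_add (hF.2 q) (hG.2 q))⟩
  | succ m ih =>
    refine ⟨hF.1.add hG.1, fun i => ?_⟩
    rw [dX_add i hF.diff hG.diff]
    exact ih (hF.2 i) (hG.2 i)

theorem Top.clm {m : ℕ} {C : ℝ} {F : Hs → E₁} (hF : Top m C F) (L : E₁ →L[ℝ] E₂) {K : ℝ}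
    (hL : ‖L‖ ≤ K) : Top m (K * C) (fun q => L (F q)) := by
  induction m generalizing F with
  | zero => exact ⟨L.continuous.comp hF.1, fun q => (L.le_opNorm _).trans
      (mul_le_mul hL (hF.2 q) (norm_nonneg _) ((norm_nonneg _).trans hL))⟩
  | succ m ih =>
    refine ⟨L.contDiff.comp hF.1, fun i => ?_⟩
    rw [dX_clm i L hF.diff]
    exact ih (hF.2 i)

theorem Top.sub {m : ℕ} {C C' : ℝ} {F G : Hs → E} (hF : Top m C F) (hG : Top m C' G) :
    Top m (C + C') (fun q => F q - G q) := by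
  have h := hF.add (hG.clm (-ContinuousLinearMap.id ℝ E) (K := 1)
    (by rw [norm_neg]; exact ContinuousLinearMap.norm_id_le))
  simpa [sub_eq_add_neg] using h

theorem Top.hmul {m : ℕ} {C : ℝ} {F : Hs → E} (hF : Top m C F) (p : Hs) :
    Top m C (fun q => F (MP640201.hmul p q)) := by
  induction m generalizing F with
  | zero => exact ⟨hF.1.comp (contDiff_hmul p (n := 0)).continuous, fun q => hF.2 _⟩
  | succ m ih =>
    refine ⟨hF.1.comp (contDiff_hmul p), fun i => ?_⟩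
    rw [dX_hmul i p hF.diff]
    exact ih (hF.2 i)

theorem Top.dil {m : ℕ} {C : ℝ} {F : Hs → E} (hF : Top m C F) {r : ℝ} (h0 : 0 ≤ r)
    (h1 : r ≤ 1) : Top m (r ^ m * C) (fun q => F (MP640201.dil r q)) := by
  have hC := hF.nonneg
  induction m generalizing F with
  | zero => exact ⟨hF.1.comp (contDiff_dil r (n := 0)).continuous, fun q => by simpa using hF.2 _⟩
  | succ m ih =>
    refine ⟨hF.1.comp (contDiff_dil r), fun i => ?_⟩
    rw [dX_dil i r hF.diff]
    have h2 := (ih (hF.2 i)).clm ((r ^ deg i) • ContinuousLinearMap.id ℝ E) (K := r)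
      ((norm_smul_id_le (pow_nonneg h0 _)).trans
        (by simpa using pow_le_pow_of_le_one h0 h1 (deg_pos i)))
    have h3 : Top m (r * (r ^ m * C)) (fun q => r ^ deg i • dX i F (MP640201.dil r q)) := by
      simpa using h2
    rwa [show r ^ (m + 1) * C = r * (r ^ m * C) by ring]

theorem Van.hmul {m : ℕ} {C : ℝ} {F : Hs → E} {p : Hs} (hT : Top m C F) (hF : Van m p F) :
    Van m 0 (fun q => F (MP640201.hmul p q)) := by
  induction m generalizing F with
  | zero => trivial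
  | succ m ih =>
    refine ⟨by simpa only [hmul_zero] using hF.1, fun i => ?_⟩
    rw [dX_hmul i p hT.diff]
    exact ih (hT.2 i) (hF.2 i)

theorem Gr.nonneg {m : ℕ} {C : ℝ} {F : Hs → E} (h : Gr m C F) : 0 ≤ C := by
  induction m generalizing F with
  | zero => exact (norm_nonneg _).trans (h.2 0)
  | succ m ih => exact ih (h.2.2 0)

theorem Gr.mono {m : ℕ} {C C' : ℝ} {F : Hs → E} (h : Gr m C F) (hC : C ≤ C') :
    Gr m C' F := by
  induction m generalizing F with
  | zero => exact ⟨h.1, fun q => (h.2 q).trans hC⟩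
  | succ m ih => exact ⟨h.1, fun q => (h.2.1 q).trans
      (mul_le_mul_of_nonneg_right hC (by positivity)), fun i => ih (h.2.2 i)⟩

theorem Gr.diff {m : ℕ} {C : ℝ} {F : Hs → E} (h : Gr (m + 1) C F) :
    Differentiable ℝ F := h.1.differentiable (by simp)

theorem Gr.bound {m : ℕ} {C : ℝ} {F : Hs → E} (h : Gr m C F) (q : Hs) :
    ‖F q‖ ≤ C * (3 * ‖q‖) ^ m := by
  cases m with
  | zero => simpa using h.2 q
  | succ m => exact h.2.1 q

theorem Gr.clm {m : ℕ} {C : ℝ} {F : Hs → E₁} (hF : Gr m C F) (L : E₁ →L[ℝ] E₂) {K : ℝ}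
    (hL : ‖L‖ ≤ K) : Gr m (K * C) (fun q => L (F q)) := by
  have hK : 0 ≤ K := (norm_nonneg _).trans hL
  induction m generalizing F with
  | zero => exact ⟨L.continuous.comp hF.1, fun q => (L.le_opNorm _).trans
      (mul_le_mul hL (hF.2 q) (norm_nonneg _) hK)⟩
  | succ m ih =>
    refine ⟨L.contDiff.comp hF.1, fun q => ?_, fun i => ?_⟩
    · rw [mul_assoc]
      exact (L.le_opNorm _).trans (mul_le_mul hL (hF.2.1 q) (norm_nonneg _) hK)
    · rw [dX_clm i L hF.diff]
      exact ih (hF.2.2 i)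

/-- Derivative along rays through the origin. -/
theorem fderiv_ray (F : Hs → E) (s : ℝ) (q : Hs) :
    fderiv ℝ F (s • q) q = q.1 • dX 0 F (s • q) + q.2.re • dX 1 F (s • q)
      + q.2.im • dX 2 F (s • q) := by
  rw [fderiv_eq_dX F (s • q) q]
  congr 3
  simp
  ring

theorem abs_le_norm_fst (q : Hs) : |q.1| ≤ ‖q‖ := norm_fst_le q
theorem abs_re_le_norm_snd (q : Hs) : |q.2.re| ≤ ‖q‖ :=
  (Complex.abs_re_le_norm _).trans (norm_snd_le q)
theorem abs_im_le_norm_snd (q : Hs) : |q.2.im| ≤ ‖q‖ :=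
  (Complex.abs_im_le_norm _).trans (norm_snd_le q)

/-- Mean value estimate along the ray. -/
theorem norm_sub_zero_le {F : Hs → E} (hF : ContDiff ℝ 1 F) (q : Hs) {K : ℝ}
    (hX : ∀ i, ∀ s ∈ Set.Icc (0 : ℝ) 1, ‖dX i F (s • q)‖ ≤ K) :
    ‖F q - F 0‖ ≤ 3 * K * ‖q‖ := by
  have hd : ∀ s ∈ Set.Icc (0 : ℝ) 1, HasDerivWithinAt (fun s : ℝ => F (s • q))
      (fderiv ℝ F (s • q) q) (Set.Icc 0 1) s := by
    intro s _
    have h1 : HasDerivAt (fun s : ℝ => s • q) q s := by
      simpa using (hasDerivAt_id s).smul_const q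
    exact (((hF.differentiable (by simp)) (s • q)).hasFDerivAt.comp_hasDerivAt s
      h1).hasDerivWithinAt
  have hb : ∀ s ∈ Set.Ico (0 : ℝ) 1, ‖fderiv ℝ F (s • q) q‖ ≤ 3 * K * ‖q‖ := by
    intro s hs
    have hs' : s ∈ Set.Icc (0 : ℝ) 1 := ⟨hs.1, hs.2.le⟩
    have hK : 0 ≤ K := (norm_nonneg _).trans (hX 0 s hs')
    rw [fderiv_ray]
    refine (norm_add₃_le).trans ?_
    have e1 : ‖q.1 • dX 0 F (s • q)‖ ≤ ‖q‖ * K := by
      rw [norm_smul]
      exact mul_le_mul (abs_le_norm_fst q) (hX 0 s hs') (norm_nonneg _) (norm_nonneg _)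
    have e2 : ‖q.2.re • dX 1 F (s • q)‖ ≤ ‖q‖ * K := by
      rw [norm_smul]
      exact mul_le_mul (abs_re_le_norm_snd q) (hX 1 s hs') (norm_nonneg _) (norm_nonneg _)
    have e3 : ‖q.2.im • dX 2 F (s • q)‖ ≤ ‖q‖ * K := by
      rw [norm_smul]
      exact mul_le_mul (abs_im_le_norm_snd q) (hX 2 s hs') (norm_nonneg _) (norm_nonneg _)
    linarith
  have := norm_image_sub_le_of_norm_deriv_le_segment' hd hb 1 (by simp)
  simpa using this

/-- Taylor estimate along the one-parameter subgroups. -/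
theorem gr_of_top_van {m : ℕ} {C : ℝ} {F : Hs → E} (hT : Top m C F) (hV : Van m 0 F) :
    Gr m C F := by
  have hC := hT.nonneg
  induction m generalizing F with
  | zero => exact hT
  | succ m ih =>
    have h1 : ∀ i, Gr m C (dX i F) := fun i => ih (hT.2 i) (hV.2 i)
    refine ⟨hT.1, fun q => ?_, h1⟩
    have h2 := norm_sub_zero_le hT.1 q (K := C * (3 * ‖q‖) ^ m) (fun i s hs => by
      refine ((h1 i).bound (s • q)).trans ?_
      refine mul_le_mul_of_nonneg_left (pow_le_pow_left₀ (by positivity) ?_ m) hC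
      rw [norm_smul, Real.norm_of_nonneg hs.1]
      have := mul_le_of_le_one_left (norm_nonneg q) hs.2
      linarith)
    rw [hV.1, sub_zero] at h2
    refine h2.trans (le_of_eq ?_)
    ring

theorem Gr.dil {m : ℕ} {C : ℝ} {F : Hs → E} (hF : Gr m C F) {r : ℝ} (h0 : 0 ≤ r)
    (h1 : r ≤ 1) : Gr m (C * r ^ m) (fun q => F (MP640201.dil r q)) := by
  have hC := hF.nonneg
  induction m generalizing F with
  | zero => exact ⟨hF.1.comp (contDiff_dil r (n := 0)).continuous, fun q => by simpa using hF.2 _⟩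
  | succ m ih =>
    refine ⟨hF.1.comp (contDiff_dil r), fun q => ?_, fun i => ?_⟩
    · refine (hF.2.1 _).trans ?_
      rw [mul_assoc, ← mul_pow]
      refine mul_le_mul_of_nonneg_left (pow_le_pow_left₀ (by positivity) ?_ _) hC
      have := norm_dil_le h0 h1 q
      linarith
    · rw [dX_dil i r hF.diff]
      have h2 := (ih (hF.2.2 i)).clm ((r ^ deg i) • ContinuousLinearMap.id ℝ E) (K := r)
        ((norm_smul_id_le (pow_nonneg h0 _)).trans
          (by simpa using pow_le_pow_of_le_one h0 h1 (deg_pos i)))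
      have h3 : Gr m (r * (C * r ^ m)) (fun q => r ^ deg i • dX i F (MP640201.dil r q)) := by
        simpa using h2
      rwa [show C * r ^ (m + 1) = r * (C * r ^ m) by ring]

theorem Gr.adm {m : ℕ} {C : ℝ} {F : Hs → E} (hF : Gr m C F) :
    Adm m (fun q => C * (1 + 3 * ‖q‖) ^ m) F := by
  have hC := hF.nonneg
  induction m generalizing F with
  | zero => exact ⟨hF.1, fun q => by simpa using hF.2 q⟩
  | succ m ih =>
    refine ⟨hF.1, fun q => (hF.2.1 q).trans ?_, fun i => (ih (hF.2.2 i)).mono fun q => ?_⟩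
    · exact mul_le_mul_of_nonneg_left (pow_le_pow_left₀ (by positivity) (by linarith) _) hC
    · refine mul_le_mul_of_nonneg_left (pow_le_pow_right₀ ?_ (Nat.le_succ m)) hC
      have := norm_nonneg q
      linarith

/-- Mean value estimate at the origin. -/
theorem norm_sub_le_of_dX {C : ℝ} {F : Hs → E} (hF : ContDiff ℝ 1 F)
    (hX : ∀ i q, ‖dX i F q‖ ≤ C) (q : Hs) : ‖F q - F 0‖ ≤ 3 * C * ‖q‖ :=
  norm_sub_zero_le hF q fun i s _ => hX i (s • q)

end MP640201
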