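import Pool.Agent.H.MP_640201_an.Defs

/-! MP_640201_an: existence of coloured spaces. -/

open Complex
open scoped ComplexConjugate

namespace MP640201

theorem exists_coloured (D m : ℕ) (hD : 1 ≤ D) :
    ∃ K : ℕ, Nonempty (Coloured D m (EuclideanSpace ℂ (Fin K))) := by
  classical
  have : NeZero D := ⟨by omega⟩
  set n : ℕ := 2 * 3 ^ m with hn
  let e : Col D × Fin n ≃ Fin (Fintype.card (Col D × Fin n)) := Fintype.equivFin _
  refine ⟨Fintype.card (Col D × Fin n), ⟨⟨fun b =>
    { carrier := {x | ∀ k, (e.symm k).1 ≠ b → x k = 0}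
      add_mem' := ?_
      zero_mem' := ?_
      smul_mem' := ?_ }, ?_, ?_⟩⟩⟩
  · intro x y hx hy k hk
    simp [hx k hk, hy k hk]
  · intro k _
    simp
  · intro c x hx k hk
    simp [hx k hk]
  · intro b b' hb x hx y hy
    rw [PiLp.inner_apply]
    apply Finset.sum_eq_zero
    intro k _
    by_cases h : (e.symm k).1 = b
    · have h2 : y k = 0 := hy k (by rw [h]; exact hb)
      rw [h2, inner_zero_right]
    · have h2 : x k = 0 := hx k h
      rw [h2, inner_zero_left]
  · intro b
    set U : Submodule ℂ (EuclideanSpace ℂ (Fin (Fintype.card (Col D × Fin n)))) :=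
      { carrier := {x | ∀ k, (e.symm k).1 ≠ b → x k = 0}
        add_mem' := _
        zero_mem' := _
        smul_mem' := _ } with hU
    have hmem : ∀ i : Fin n, EuclideanSpace.basisFun (Fin (Fintype.card (Col D × Fin n))) ℂ
        (e (b, i)) ∈ U := by
      intro i k hk
      rw [EuclideanSpace.basisFun_apply, PiLp.single_apply, if_neg]
      intro h
      apply hk
      rw [h]
      simp
    let v : Fin n → U := fun i => ⟨_, hmem i⟩
    have hv : LinearIndependent ℂ v := by
      apply LinearIndependent.of_comp U.subtype
      have h1 := (EuclideanSpace.basisFun (Fin (Fintype.card (Col D × Fin n))) ℂ).orthonormal.linearIndependent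
      refine h1.comp (fun i : Fin n => e (b, i)) ?_
      intro i j hij
      simpa using hij
    have h2 := hv.fintype_card_le_finrank
    simpa using h2

end MP640201
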