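import Pool.Agent.H.MP_640201_an.Lattice

/-! MP_640201_an: sums of coloured families. -/

open Complex
open scoped ComplexConjugate

namespace MP640201

/-- Off-diagonal pairs of the same colour. -/
abbrev OffP (D : ℕ) : Type := {o : Idx × Idx // o.1 ≠ o.2 ∧ col D o.1 = col D o.2}

variable {D m : ℕ} {V : Type*} [NormedAddCommGroup V] [InnerProductSpace ℂ V]

theorem colored_tsum_subtype_le {α : Type*} (p : α → Prop) {f : α → ℝ} (h0 : ∀ a, 0 ≤ f a)
    (hf : Summable f) : ∑' a : {a // p a}, f a.1 ≤ ∑' a, f a := by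
  have h1 : ∑' a : {a // p a}, f a.1 = ∑' a, Set.indicator {a | p a} f a :=
    tsum_subtype {a | p a} f
  rw [h1]
  refine (hf.indicator _).tsum_le_tsum (fun a => ?_) hf
  exact Set.indicator_le_self' (fun _ _ => h0 _) a

theorem colored_norm_sq [CompleteSpace V] (U : Coloured D m V) (v : Idx → V)
    (hv : Summable (fun n => ‖v n‖)) (hU : ∀ n, v n ∈ U.U (col D n)) :
    Summable (fun n => ‖v n‖ ^ 2) ∧ Summable (fun o : OffP D => ‖v o.1.1‖ * ‖v o.1.2‖) ∧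
      ‖∑' n, v n‖ ^ 2 = ∑' n, ‖v n‖ ^ 2 + ∑' o : OffP D, rip (v o.1.1) (v o.1.2) := by
  classical
  have hpr : Summable (fun o : Idx × Idx => ‖v o.1‖ * ‖v o.2‖) :=
    hv.mul_of_nonneg hv (fun n => norm_nonneg _) (fun n => norm_nonneg _)
  have hinj : Function.Injective (fun n : Idx => (n, n)) := fun a b h => (Prod.ext_iff.1 h).1
  have hdiag : Summable (fun n => ‖v n‖ ^ 2) := by
    have h1 := hpr.comp_injective hinj
    refine h1.congr fun n => ?_
    simp only [Function.comp_apply]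
    ring
  have hoff : Summable (fun o : OffP D => ‖v o.1.1‖ * ‖v o.1.2‖) :=
    hpr.comp_injective Subtype.val_injective
  refine ⟨hdiag, hoff, ?_⟩
  set f : Idx × Idx → ℝ := fun o => rip (v o.1) (v o.2) with hf
  have hfs : Summable f := by
    refine Summable.of_norm_bounded hpr fun o => ?_
    rw [Real.norm_eq_abs]
    exact abs_rip_le _ _
  have hvs : Summable v := hv.of_norm
  have h1 : ‖∑' n, v n‖ ^ 2 = ∑' o, f o := by
    rw [hfs.tsum_prod, ← rip_self, rip_comm, ← ripL_apply]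
    have h2 : ∀ x : V, ripL V x (∑' n, v n) = ∑' n, rip x (v n) := by
      intro x
      rw [ContinuousLinearMap.map_tsum _ hvs]
      rfl
    rw [h2]
    refine tsum_congr fun n => ?_
    rw [rip_comm, ← ripL_apply, h2]
  have h3 : ∀ o, f o = Set.indicator {o : Idx × Idx | o.1 = o.2} f o +
      Set.indicator {o : Idx × Idx | o.1 ≠ o.2 ∧ col D o.1 = col D o.2} f o := by
    intro o
    by_cases ho : o.1 = o.2
    · have h4 : o ∈ {o : Idx × Idx | o.1 = o.2} := ho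
      have h5 : o ∉ {o : Idx × Idx | o.1 ≠ o.2 ∧ col D o.1 = col D o.2} := fun h => h.1 ho
      rw [Set.indicator_of_mem h4, Set.indicator_of_notMem h5, add_zero]
    · have h4 : o ∉ {o : Idx × Idx | o.1 = o.2} := ho
      rw [Set.indicator_of_notMem h4, zero_add]
      by_cases hc : col D o.1 = col D o.2
      · have h5 : o ∈ {o : Idx × Idx | o.1 ≠ o.2 ∧ col D o.1 = col D o.2} := ⟨ho, hc⟩
        rw [Set.indicator_of_mem h5]
      · have h5 : o ∉ {o : Idx × Idx | o.1 ≠ o.2 ∧ col D o.1 = col D o.2} := fun h => hc h.2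
        rw [Set.indicator_of_notMem h5, hf]
        have := U.orth _ _ hc _ (hU o.1) _ (hU o.2)
        simp only [rip, this, Complex.zero_re]
  rw [h1, tsum_congr h3, (hfs.indicator _).tsum_add (hfs.indicator _)]
  congr 1
  · rw [(hfs.indicator _).tsum_prod]
    refine tsum_congr fun n => ?_
    rw [tsum_eq_single n]
    · have h4 : (n, n) ∈ {o : Idx × Idx | o.1 = o.2} := rfl
      rw [Set.indicator_of_mem h4, hf]
      exact rip_self _
    · intro k hk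
      have h4 : (n, k) ∉ {o : Idx × Idx | o.1 = o.2} := fun h : n = k => hk h.symm
      exact Set.indicator_of_notMem h4 f
  · exact (tsum_subtype {o : Idx × Idx | o.1 ≠ o.2 ∧ col D o.1 = col D o.2} f).symm

/-- The off-diagonal sum is small for many colours. -/
theorem off_sum : ∃ C : ℝ, 1 ≤ C ∧ ∀ N D : ℕ, 1 ≤ N → 1 ≤ D → ∀ z : Hs,
    Summable (fun o : OffP D => wp 5 (lq N o.1.1 z) * wp 5 (lq N o.1.2 z)) ∧
      ∑' o : OffP D, wp 5 (lq N o.1.1 z) * wp 5 (lq N o.1.2 z) ≤ C * (N : ℝ) ^ 10 / D := by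
  obtain ⟨C, hC, hlat⟩ := lat_sum
  refine ⟨3 * C ^ 2, by nlinarith, fun N D hN hD z => ?_⟩
  obtain ⟨hs, hle⟩ := hlat N hN z
  have hD0 : (0 : ℝ) < D := by exact_mod_cast hD
  have hN0 : (0 : ℝ) < N := by exact_mod_cast hN
  have hpr : Summable (fun o : Idx × Idx => wp 4 (lq N o.1 z) * wp 4 (lq N o.2 z)) :=
    hs.mul_of_nonneg hs (fun n => wp_nonneg _ _) (fun n => wp_nonneg _ _)
  have hpt : ∀ o : OffP D, wp 5 (lq N o.1.1 z) * wp 5 (lq N o.1.2 z) ≤
      3 * (N : ℝ) ^ 2 / D * (wp 4 (lq N o.1.1 z) * wp 4 (lq N o.1.2 z)) := by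
    intro o
    have h1 := sep hN hD o.2.1 o.2.2 z
    have h2 : ∀ q : Hs, wp 5 q = wp 1 q * wp 4 q := fun q => wp_add 1 4 q
    rw [h2, h2]
    have h3 : 0 ≤ wp 4 (lq N o.1.1 z) * wp 4 (lq N o.1.2 z) :=
      mul_nonneg (wp_nonneg _ _) (wp_nonneg _ _)
    calc wp 1 (lq N o.1.1 z) * wp 4 (lq N o.1.1 z) * (wp 1 (lq N o.1.2 z) * wp 4 (lq N o.1.2 z))
        = (wp 1 (lq N o.1.1 z) * wp 1 (lq N o.1.2 z)) *
          (wp 4 (lq N o.1.1 z) * wp 4 (lq N o.1.2 z)) := by ring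
      _ ≤ _ := mul_le_mul_of_nonneg_right h1 h3
  have hoff : Summable (fun o : OffP D => wp 4 (lq N o.1.1 z) * wp 4 (lq N o.1.2 z)) :=
    hpr.comp_injective Subtype.val_injective
  have hsum : Summable (fun o : OffP D => wp 5 (lq N o.1.1 z) * wp 5 (lq N o.1.2 z)) :=
    Summable.of_nonneg_of_le (fun o => mul_nonneg (wp_nonneg _ _) (wp_nonneg _ _)) hpt
      (hoff.mul_left _)
  refine ⟨hsum, ?_⟩
  have h1 : ∑' o : OffP D, wp 5 (lq N o.1.1 z) * wp 5 (lq N o.1.2 z) ≤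
      3 * (N : ℝ) ^ 2 / D * ∑' o : OffP D, wp 4 (lq N o.1.1 z) * wp 4 (lq N o.1.2 z) := by
    rw [← tsum_mul_left]
    exact hsum.tsum_le_tsum hpt (hoff.mul_left _)
  have h2 : ∑' o : OffP D, wp 4 (lq N o.1.1 z) * wp 4 (lq N o.1.2 z) ≤
      ∑' o : Idx × Idx, wp 4 (lq N o.1 z) * wp 4 (lq N o.2 z) :=
    colored_tsum_subtype_le (fun o : Idx × Idx => o.1 ≠ o.2 ∧ col D o.1 = col D o.2)
      (f := fun o : Idx × Idx => wp 4 (lq N o.1 z) * wp 4 (lq N o.2 z))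
      (fun o => mul_nonneg (wp_nonneg _ _) (wp_nonneg _ _)) hpr
  have h3 : ∑' o : Idx × Idx, wp 4 (lq N o.1 z) * wp 4 (lq N o.2 z) =
      (∑' n, wp 4 (lq N n z)) * ∑' n, wp 4 (lq N n z) := (hs.tsum_mul_tsum hs hpr).symm
  have h4 : (0 : ℝ) ≤ ∑' n, wp 4 (lq N n z) := tsum_nonneg fun n => wp_nonneg _ _
  have h5 : (∑' n, wp 4 (lq N n z)) * ∑' n, wp 4 (lq N n z) ≤
      (C * (N : ℝ) ^ 4) * (C * (N : ℝ) ^ 4) :=
    mul_le_mul hle hle h4 (by positivity)
  have h6 : (0 : ℝ) ≤ 3 * (N : ℝ) ^ 2 / D := by positivity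
  have h7 := mul_le_mul_of_nonneg_left ((h2.trans_eq h3).trans h5) h6
  refine (h1.trans h7).trans (le_of_eq ?_)
  field_simp

theorem lus_off {N : ℕ} (hN : 1 ≤ N) (D : ℕ) (K : ℝ) (hK : 0 ≤ K) :
    LUS (fun (o : OffP D) (q : Hs) => K * (wp 5 (lq N o.1.1 q) * wp 5 (lq N o.1.2 q))) := by
  intro q₀
  obtain ⟨u, hu, hev⟩ := lus_lq hN (p := 5) (by norm_num) 1 zero_le_one q₀
  simp only [one_mul] at hev
  have hu0 : ∀ n, 0 ≤ u n := by
    intro n
    exact (wp_nonneg _ _).trans (hev.self_of_nhds n)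
  have hpr : Summable (fun o : Idx × Idx => u o.1 * u o.2) := hu.mul_of_nonneg hu hu0 hu0
  refine ⟨fun o => K * (u o.1.1 * u o.1.2),
    (hpr.comp_injective Subtype.val_injective).mul_left K, ?_⟩
  filter_upwards [hev] with q hq o
  exact mul_le_mul_of_nonneg_left (mul_le_mul (hq o.1.1) (hq o.1.2) (wp_nonneg _ _) (hu0 _)) hK

/-- Bound for sums of coloured families with wave packet decay. -/
theorem colored_bound : ∃ C : ℝ, 1 ≤ C ∧ ∀ (N D m : ℕ), 1 ≤ N → 1 ≤ D →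
    ∀ (V : Type) [NormedAddCommGroup V] [InnerProductSpace ℂ V] [FiniteDimensional ℂ V]
      (U : Coloured D m V) (v : Idx → V) (K : ℝ) (z : Hs), 0 ≤ K →
      (∀ n, v n ∈ U.U (col D n)) → (∀ n, ‖v n‖ ≤ K * wp 5 (lq N n z)) →
      ‖∑' n, v n‖ ^ 2 ≤ K ^ 2 * (C * (N : ℝ) ^ 4 + C * (N : ℝ) ^ 10 / D) := by
  obtain ⟨C₀, hC₀, hlat⟩ := lat_sum
  obtain ⟨C₁, hC₁, hoff⟩ := off_sum
  refine ⟨max C₀ C₁, hC₀.trans (le_max_left _ _), ?_⟩
  intro N D m hN hD V _ _ _ U v K z hK hU hv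
  have : CompleteSpace V := FiniteDimensional.complete ℂ V
  obtain ⟨hs, hle⟩ := hlat N hN z
  obtain ⟨hso, hlo⟩ := hoff N D hN hD z
  have hD0 : (0 : ℝ) < D := by exact_mod_cast hD
  have hN0 : (0 : ℝ) < N := by exact_mod_cast hN
  have hvs : Summable (fun n => ‖v n‖) := by
    refine Summable.of_nonneg_of_le (fun n => norm_nonneg _) (fun n => ?_) (hs.mul_left K)
    exact (hv n).trans (mul_le_mul_of_nonneg_left (wp_anti (by norm_num) _) hK)
  obtain ⟨h1, h2, h3⟩ := colored_norm_sq U v hvs hU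
  rw [h3]
  have h4 : ∑' n, ‖v n‖ ^ 2 ≤ K ^ 2 * (C₀ * (N : ℝ) ^ 4) := by
    have h5 : ∀ n, ‖v n‖ ^ 2 ≤ K ^ 2 * wp 4 (lq N n z) := by
      intro n
      have h6 : ‖v n‖ ^ 2 ≤ (K * wp 5 (lq N n z)) ^ 2 :=
        pow_le_pow_left₀ (norm_nonneg _) (hv n) 2
      have h7 : wp 5 (lq N n z) ^ 2 ≤ wp 4 (lq N n z) := by
        have h8 : wp 5 (lq N n z) ^ 2 = wp 10 (lq N n z) := by
          rw [pow_two, ← wp_add]
        rw [h8]
        exact wp_anti (by norm_num) _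
      rw [mul_pow] at h6
      exact h6.trans (mul_le_mul_of_nonneg_left h7 (sq_nonneg K))
    refine (h1.tsum_le_tsum h5 (hs.mul_left _)).trans ?_
    rw [tsum_mul_left]
    exact mul_le_mul_of_nonneg_left hle (sq_nonneg K)
  have h5 : ∑' o : OffP D, rip (v o.1.1) (v o.1.2) ≤ K ^ 2 * (C₁ * (N : ℝ) ^ 10 / D) := by
    have hrs : Summable (fun o : OffP D => rip (v o.1.1) (v o.1.2)) := by
      refine Summable.of_norm_bounded h2 fun o => ?_
      rw [Real.norm_eq_abs]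
      exact abs_rip_le _ _
    have h6 : ∀ o : OffP D, rip (v o.1.1) (v o.1.2) ≤
        K ^ 2 * (wp 5 (lq N o.1.1 z) * wp 5 (lq N o.1.2 z)) := by
      intro o
      refine ((le_abs_self _).trans (abs_rip_le _ _)).trans ?_
      refine (mul_le_mul (hv _) (hv _) (norm_nonneg _)
        (mul_nonneg hK (wp_nonneg _ _))).trans (le_of_eq ?_)
      ring
    refine (hrs.tsum_le_tsum h6 (hso.mul_left _)).trans ?_
    rw [tsum_mul_left]
    exact mul_le_mul_of_nonneg_left hlo (sq_nonneg K)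
  have h6 : K ^ 2 * (C₀ * (N : ℝ) ^ 4) ≤ K ^ 2 * (max C₀ C₁ * (N : ℝ) ^ 4) :=
    mul_le_mul_of_nonneg_left (mul_le_mul_of_nonneg_right (le_max_left _ _) (by positivity))
      (sq_nonneg K)
  have h7 : K ^ 2 * (C₁ * (N : ℝ) ^ 10 / D) ≤ K ^ 2 * (max C₀ C₁ * (N : ℝ) ^ 10 / D) := by
    refine mul_le_mul_of_nonneg_left ?_ (sq_nonneg K)
    refine div_le_div_of_nonneg_right ?_ hD0.le
    exact mul_le_mul_of_nonneg_right (le_max_right _ _) (by positivity)
  rw [mul_add]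
  linarith

end MP640201
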