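import Pool.Agent.H.MP_640201_an.QDefs

/-! MP_640201_an: the standard quadrics satisfy the cone condition. -/

open Complex Matrix
open scoped ComplexConjugate

namespace MP640201

theorem std_q (d : ℕ) (v : Fin d → ℂ) (j : Fin 1) : (std d).q v j = ∑ i, ‖v i‖ ^ 2 := by
  unfold HermForm.q std
  simp only [Matrix.one_mulVec, dotProduct, Complex.re_sum]
  refine Finset.sum_congr rfl fun i _ => ?_
  rw [Pi.star_apply, Complex.star_def, ← Complex.normSq_eq_conj_mul_self, Complex.ofReal_re,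
    Complex.normSq_eq_norm_sq]

theorem std_range (d : ℕ) (hd : 1 ≤ d) :
    Set.range (std d).q = {y : Fin 1 → ℝ | 0 ≤ y 0} := by
  ext y
  constructor
  · rintro ⟨v, rfl⟩
    show 0 ≤ (std d).q v 0
    rw [std_q]
    positivity
  · intro hy
    have hy' : 0 ≤ y 0 := hy
    refine ⟨Pi.single (⟨0, hd⟩ : Fin d) ((Real.sqrt (y 0) : ℝ) : ℂ), ?_⟩
    funext j
    rw [std_q, Finset.sum_eq_single (⟨0, hd⟩ : Fin d)]
    · rw [Pi.single_eq_same, Complex.norm_real, Real.norm_of_nonneg (Real.sqrt_nonneg _),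
        Real.sq_sqrt hy', Subsingleton.elim j 0]
    · intro b _ hb
      rw [Pi.single_eq_of_ne hb]
      simp
    · intro h
      exact absurd (Finset.mem_univ _) h

theorem std_cone (d : ℕ) (hd : 1 ≤ d) : (std d).Cone := by
  have hr := std_range d hd
  refine ⟨?_, ?_, ?_, ?_⟩
  · rw [hr]
    intro x hx y hy a b ha hb _
    show 0 ≤ (a • x + b • y) 0
    simp only [Pi.add_apply, Pi.smul_apply, smul_eq_mul]
    exact add_nonneg (mul_nonneg ha hx) (mul_nonneg hb hy)
  · rw [hr]
    intro y hy hy'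
    funext j
    have h1 : 0 ≤ y 0 := hy
    have h2 : 0 ≤ (-y) 0 := hy'
    rw [Pi.neg_apply] at h2
    rw [Subsingleton.elim j 0, Pi.zero_apply]
    linarith
  · rw [hr]
    refine ⟨fun _ => 1, ?_⟩
    rw [mem_interior]
    refine ⟨{y : Fin 1 → ℝ | 0 < y 0}, fun y (hy : 0 < y 0) => (show 0 ≤ y 0 from hy.le), ?_,
      show (0 : ℝ) < 1 from one_pos⟩
    exact isOpen_lt continuous_const (continuous_apply 0)
  · intro v hv h
    have h0 : ∑ i, ‖v i‖ ^ 2 = 0 := by
      rw [← std_q d v 0, h]; rfl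
    apply hv
    funext i
    have := (Finset.sum_eq_zero_iff_of_nonneg (fun i _ => sq_nonneg ‖v i‖)).1 h0 i
      (Finset.mem_univ _)
    simpa using this

end MP640201
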