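import Mathlib

/-! MP_640201_an: non-rational CR maps of class C^k between quadrics. Basic definitions. -/

open Complex
open scoped ComplexConjugate

namespace MP640201

/-- The Heisenberg group `ℝ × ℂ` (coordinates `(t, ζ)`), as a real normed space (sup norm). -/
abbrev Hs : Type := ℝ × ℂ

/-- Group law. -/
noncomputable def hmul (p q : Hs) : Hs :=
  (p.1 + q.1 + 2 * (p.2 * conj q.2).im, p.2 + q.2)

/-- Inverse. -/
noncomputable def hinv (p : Hs) : Hs := (-p.1, -p.2)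

/-- Dilation. -/
noncomputable def dil (r : ℝ) (q : Hs) : Hs := (r ^ 2 * q.1, (r : ℂ) * q.2)

/-- The left-invariant fields `T = ∂_t`, `X = ∂_x + 2y ∂_t`, `Y = ∂_y - 2x ∂_t`. -/
noncomputable def fld : Fin 3 → Hs → Hs
  | 0, _ => (1, 0)
  | 1, q => (2 * q.2.im, 1)
  | 2, q => (-2 * q.2.re, I)

/-- Homogeneous degree of the fields. -/
def deg : Fin 3 → ℕ
  | 0 => 2
  | 1 => 1
  | 2 => 1

section Real
variable {E : Type*} [NormedAddCommGroup E] [NormedSpace ℝ E]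

/-- Derivative along a field. -/
noncomputable def dX (i : Fin 3) (F : Hs → E) : Hs → E := fun q => fderiv ℝ F q (fld i q)

/-- `F` is of class `C^m` and all words of length `≤ m` in the fields, applied to `F`, are
bounded by `φ`. -/
def Adm : ℕ → (Hs → ℝ) → (Hs → E) → Prop
  | 0, φ, F => Continuous F ∧ ∀ q, ‖F q‖ ≤ φ q
  | m + 1, φ, F => ContDiff ℝ 1 F ∧ (∀ q, ‖F q‖ ≤ φ q) ∧ ∀ i, Adm m φ (dX i F)

/-- `F` is of class `C^m` and all words of length exactly `m` are bounded by `C`. -/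
def Top : ℕ → ℝ → (Hs → E) → Prop
  | 0, C, F => Continuous F ∧ ∀ q, ‖F q‖ ≤ C
  | m + 1, C, F => ContDiff ℝ 1 F ∧ ∀ i, Top m C (dX i F)

/-- All words of length `< m` vanish at `p`. -/
def Van : ℕ → Hs → (Hs → E) → Prop
  | 0, _, _ => True
  | m + 1, p, F => F p = 0 ∧ ∀ i, Van m p (dX i F)

/-- Words of length `l ≤ m` are bounded by `C (3‖q‖)^(m-l)`. -/
def Gr : ℕ → ℝ → (Hs → E) → Prop
  | 0, C, F => Continuous F ∧ ∀ q, ‖F q‖ ≤ C
  | m + 1, C, F => ContDiff ℝ 1 F ∧ (∀ q, ‖F q‖ ≤ C * (3 * ‖q‖) ^ (m + 1)) ∧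
      ∀ i, Gr m C (dX i F)

/-- Locally uniform summability of bounds. -/
def LUS {ι : Type*} (φ : ι → Hs → ℝ) : Prop :=
  ∀ q₀ : Hs, ∃ u : ι → ℝ, Summable u ∧ ∀ᶠ q in nhds q₀, ∀ n, φ n q ≤ u n

end Real

/-- CR functions (with values in a complex normed space). -/
def IsCR {E : Type*} [NormedAddCommGroup E] [NormedSpace ℂ E] (F : Hs → E) : Prop :=
  ∀ q, dX 2 F q = I • dX 1 F q

/-- Real part of the inner product. -/
noncomputable def rip {V : Type*} [NormedAddCommGroup V] [InnerProductSpace ℂ V] (x y : V) : ℝ :=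
  (inner ℂ x y).re

/-- The weight. -/
noncomputable def vw (q : Hs) : ℝ := 1 + ‖q.2‖ ^ 2 + |q.1|

/-- Negative powers of the weight. -/
noncomputable def wp (p : ℕ) (q : Hs) : ℝ := ((vw q)⁻¹) ^ p

/-- Lattice indices. -/
abbrev Idx : Type := ℤ × ℤ × ℤ

/-- Lattice points (`s = 1/N`): `(s² a, s (b + i c))`. -/
noncomputable def lat (N : ℕ) (n : Idx) : Hs :=
  ((n.1 : ℝ) / (N : ℝ) ^ 2,
    (((n.2.1 : ℝ) / (N : ℝ) : ℝ) : ℂ) + (((n.2.2 : ℝ) / (N : ℝ) : ℝ) : ℂ) * I)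

/-- `q_n = λ_n⁻¹ z`. -/
noncomputable def lq (N : ℕ) (n : Idx) (z : Hs) : Hs := hmul (hinv (lat N n)) z

/-- Colours. -/
abbrev Col (D : ℕ) : Type := ZMod D × ZMod D × ZMod D

/-- Colour of an index. -/
def col (D : ℕ) (n : Idx) : Col D := ((n.1 : ZMod D), (n.2.1 : ZMod D), (n.2.2 : ZMod D))

/-- `1 - i z₁` with `z₁ = t + i|ζ|²`. -/
noncomputable def yy (q : Hs) : ℂ := 1 + ((‖q.2‖ ^ 2 : ℝ) : ℂ) - I * (q.1 : ℂ)

noncomputable def Yf (q : Hs) : ℂ := (yy q)⁻¹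

noncomputable def Uf (q : Hs) : ℂ := conj q.2 * Yf q

noncomputable def Vf (q : Hs) : ℂ := q.2 * Yf q

/-- `(1, w₁, w₂)`, the Cayley transform; `|1|²+|w₁|²+|w₂|² = 2`. -/
noncomputable def vv (q : Hs) : Fin 3 → ℂ
  | 0 => 1
  | 1 => 2 * Yf q - 1
  | 2 => 2 * Vf q

/-- The space of values of `Wf`. -/
abbrev CI (m : ℕ) : Type := EuclideanSpace ℂ (Fin m → Fin 3)

/-- All products of `m` factors from `(1, w₁, w₂)`. -/
noncomputable def Wf (m : ℕ) (q : Hs) : CI m := WithLp.toLp 2 (fun f => ∏ i, vv q (f i))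

/-- `ξ₀ = t/ω, ξ₁ = x/ω, ξ₂ = y/ω, ξ₃ = 1/ω`, `ω = |1 - i z₁|²`. -/
noncomputable def xi : Fin 4 → Hs → ℝ
  | 0, q => q.1 / ‖yy q‖ ^ 2
  | 1, q => q.2.re / ‖yy q‖ ^ 2
  | 2, q => q.2.im / ‖yy q‖ ^ 2
  | 3, q => 1 / ‖yy q‖ ^ 2

/-- Products of `m` factors `ξ`. -/
noncomputable def xip (m : ℕ) (φ : Fin m → Fin 4) (q : Hs) : ℝ := ∏ i, xi (φ i) q

/-- The normalised lattice sum `Θ_s(z) = s⁴ Σ_n |Y(λ_n⁻¹ z)|^{2(m+8)}`, `s = 1/N`. -/
noncomputable def Th (m N : ℕ) (z : Hs) : ℝ :=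
  ((N : ℝ)⁻¹) ^ 4 * ∑' n : Idx, ‖Yf (lq N n z)‖ ^ (2 * (m + 8))

/-- The normalising factor `θ = s² / √Θ_s(0)`. -/
noncomputable def tht (m N : ℕ) : ℝ := Real.sqrt (((N : ℝ)⁻¹) ^ 4 / Th m N 0)

/-- The wave packet. -/
noncomputable def pk {V : Type*} [NormedAddCommGroup V] [InnerProductSpace ℂ V] (m : ℕ) (θ : ℝ)
    (A : CI m →L[ℂ] V) (r : ℝ) (q : Hs) : V :=
  ((θ : ℂ) * Yf q ^ (m + 8)) • A (Wf m (dil r q))

/-- A coloured orthogonal family of subspaces of `V`. -/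
structure Coloured (D m : ℕ) (V : Type*) [NormedAddCommGroup V] [InnerProductSpace ℂ V] where
  U : Col D → Submodule ℂ V
  orth : ∀ b b' : Col D, b ≠ b' → ∀ x ∈ U b, ∀ y ∈ U b', inner ℂ x y = 0
  big : ∀ b, 2 * 3 ^ m ≤ Module.finrank ℂ (U b)

end MP640201
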