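import Pool.Agent.H.MP_640201_an.Classes

/-! MP_640201_an: the Gaussian has bounded words. -/

open Complex
open scoped ComplexConjugate

namespace MP640201

/-- Monomials times the Gaussian. -/
noncomputable def gaussE (a b : ℕ) (q : Hs) : ℝ :=
  q.2.re ^ a * q.2.im ^ b * Real.exp (-2 * (q.2.re ^ 2 + q.2.im ^ 2))

theorem gauss_contDiff (a b : ℕ) {n : WithTop ℕ∞} : ContDiff ℝ n (gaussE a b) := by
  have h1 : ContDiff ℝ n (fun q : Hs => q.2.re) := Complex.reCLM.contDiff.comp contDiff_snd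
  have h2 : ContDiff ℝ n (fun q : Hs => q.2.im) := Complex.imCLM.contDiff.comp contDiff_snd
  unfold gaussE
  fun_prop

theorem gauss_one_bound (a : ℕ) (x : ℝ) :
    |x| ^ a * Real.exp (-2 * x ^ 2) ≤ (a.factorial : ℝ) * Real.exp (1 / 8) := by
  have h1 : |x| ^ a ≤ (a.factorial : ℝ) * Real.exp |x| := by
    have h := Real.pow_div_factorial_le_exp |x| (abs_nonneg x) a
    rw [div_le_iff₀ (by positivity)] at h
    linarith
  have h2 : Real.exp (-2 * x ^ 2) ≤ Real.exp (1 / 8 - |x|) := by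
    apply Real.exp_le_exp.2
    have h3 : x ^ 2 = |x| ^ 2 := (sq_abs x).symm
    rw [h3]
    nlinarith [sq_nonneg (|x| - 1 / 4)]
  calc |x| ^ a * Real.exp (-2 * x ^ 2)
      ≤ ((a.factorial : ℝ) * Real.exp |x|) * Real.exp (1 / 8 - |x|) :=
        mul_le_mul h1 h2 (Real.exp_pos _).le (by positivity)
    _ = (a.factorial : ℝ) * (Real.exp |x| * Real.exp (1 / 8 - |x|)) := by ring
    _ = (a.factorial : ℝ) * Real.exp (1 / 8) := by
        rw [← Real.exp_add]
        congr 2
        ring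

theorem gauss_bound (a b : ℕ) : ∃ C : ℝ, 0 ≤ C ∧ ∀ q : Hs, ‖gaussE a b q‖ ≤ C := by
  refine ⟨((a.factorial : ℝ) * Real.exp (1 / 8)) * ((b.factorial : ℝ) * Real.exp (1 / 8)),
    by positivity, fun q => ?_⟩
  have h : ‖gaussE a b q‖ = (|q.2.re| ^ a * Real.exp (-2 * q.2.re ^ 2)) *
      (|q.2.im| ^ b * Real.exp (-2 * q.2.im ^ 2)) := by
    rw [gaussE, norm_mul, norm_mul, Real.norm_eq_abs, Real.norm_eq_abs, Real.norm_eq_abs,
      abs_pow, abs_pow, Real.abs_exp, mul_add, Real.exp_add]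
    ring
  rw [h]
  exact mul_le_mul (gauss_one_bound a _) (gauss_one_bound b _) (by positivity) (by positivity)

theorem gauss_dX_eq (i : Fin 3) {F : Hs → ℝ} (hF : Differentiable ℝ F) (q : Hs) {D : ℝ}
    (h : HasDerivAt (fun s : ℝ => F (q + s • fld i q)) D 0) : dX i F q = D := by
  have h1 : HasDerivAt (fun s : ℝ => q + s • fld i q) (fld i q) 0 := by
    have h2 := ((hasDerivAt_id (0 : ℝ)).smul_const (fld i q)).const_add q
    simpa using h2
  have h3 : HasFDerivAt F (fderiv ℝ F q) (q + (0 : ℝ) • fld i q) := by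
    rw [zero_smul, add_zero]
    exact (hF q).hasFDerivAt
  have h4 := h3.comp_hasDerivAt (0 : ℝ) h1
  exact h4.unique h

theorem gauss_dX0 (a b : ℕ) : dX 0 (gaussE a b) = fun _ => 0 := by
  funext q
  apply gauss_dX_eq 0 ((gauss_contDiff a b (n := 1)).differentiable (by norm_num))
  have : (fun s : ℝ => gaussE a b (q + s • fld 0 q)) = fun _ => gaussE a b q := by
    funext s
    simp [gaussE]
  rw [this]
  exact hasDerivAt_const _ _

theorem gauss_dX1 (a b : ℕ) : dX 1 (gaussE a b) =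
    fun q => (a : ℝ) * gaussE (a - 1) b q - 4 * gaussE (a + 1) b q := by
  funext q
  apply gauss_dX_eq 1 ((gauss_contDiff a b (n := 1)).differentiable (by norm_num))
  have : (fun s : ℝ => gaussE a b (q + s • fld 1 q)) = fun s : ℝ => (q.2.re + s) ^ a * q.2.im ^ b *
      Real.exp (-2 * ((q.2.re + s) ^ 2 + q.2.im ^ 2)) := by
    funext s
    simp [gaussE]
  rw [this]
  have h1 : HasDerivAt (fun s : ℝ => q.2.re + s) 1 0 := (hasDerivAt_id (0 : ℝ)).const_add _
  have h2 := (((h1.fun_pow a).mul_const (q.2.im ^ b))).fun_mul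
    ((((h1.fun_pow 2).add_const (q.2.im ^ 2)).const_mul (-2)).exp)
  refine h2.congr_deriv ?_
  simp only [gaussE, add_zero, pow_succ]
  push_cast
  ring

theorem gauss_dX2 (a b : ℕ) : dX 2 (gaussE a b) =
    fun q => (b : ℝ) * gaussE a (b - 1) q - 4 * gaussE a (b + 1) q := by
  funext q
  apply gauss_dX_eq 2 ((gauss_contDiff a b (n := 1)).differentiable (by norm_num))
  have : (fun s : ℝ => gaussE a b (q + s • fld 2 q)) = fun s : ℝ => q.2.re ^ a * (q.2.im + s) ^ b *
      Real.exp (-2 * (q.2.re ^ 2 + (q.2.im + s) ^ 2)) := by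
    funext s
    simp [gaussE]
  rw [this]
  have h1 : HasDerivAt (fun s : ℝ => q.2.im + s) 1 0 := (hasDerivAt_id (0 : ℝ)).const_add _
  have h2 := (((h1.fun_pow b).const_mul (q.2.re ^ a))).fun_mul
    ((((h1.fun_pow 2).const_add (q.2.re ^ 2)).const_mul (-2)).exp)
  refine h2.congr_deriv ?_
  simp only [gaussE, add_zero, pow_succ]
  push_cast
  ring

theorem gauss_adm (m : ℕ) : ∀ a b : ℕ, ∃ C : ℝ, 0 ≤ C ∧ Adm m (fun _ => C) (gaussE a b) := by
  induction m with
  | zero =>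
    intro a b
    obtain ⟨C, hC, h⟩ := gauss_bound a b
    exact ⟨C, hC, (gauss_contDiff a b (n := 0)).continuous, h⟩
  | succ m ih =>
    intro a b
    obtain ⟨C, hC, h⟩ := gauss_bound a b
    obtain ⟨C1, hC1, h1⟩ := ih (a - 1) b
    obtain ⟨C2, hC2, h2⟩ := ih (a + 1) b
    obtain ⟨C3, hC3, h3⟩ := ih a (b - 1)
    obtain ⟨C4, hC4, h4⟩ := ih a (b + 1)
    set D1 : ℝ := 2 ^ m * (‖(a : ℝ)‖ * C1) + 2 ^ m * (‖(4 : ℝ)‖ * C2) with hD1
    set D2 : ℝ := 2 ^ m * (‖(b : ℝ)‖ * C3) + 2 ^ m * (‖(4 : ℝ)‖ * C4) with hD2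
    have hD1' : 0 ≤ D1 := by positivity
    have hD2' : 0 ≤ D2 := by positivity
    refine ⟨C + D1 + D2, by positivity, gauss_contDiff a b, fun q => ?_, fun i => ?_⟩
    · have := h q
      linarith
    · fin_cases i
      · show Adm m _ (dX 0 (gaussE a b))
        rw [gauss_dX0]
        refine (adm_const m (0 : ℝ)).mono fun q => ?_
        simp only [norm_zero]
        positivity
      · show Adm m _ (dX 1 (gaussE a b))
        rw [gauss_dX1]
        have h5 := ((adm_const m (a : ℝ)).mulR h1).sub ((adm_const m (4 : ℝ)).mulR h2)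
        refine h5.mono fun q => ?_
        show D1 ≤ C + D1 + D2
        linarith
      · show Adm m _ (dX 2 (gaussE a b))
        rw [gauss_dX2]
        have h5 := ((adm_const m (b : ℝ)).mulR h3).sub ((adm_const m (4 : ℝ)).mulR h4)
        refine h5.mono fun q => ?_
        show D2 ≤ C + D1 + D2
        linarith

theorem adm_gauss (m : ℕ) : ∃ C : ℝ, 0 ≤ C ∧
    Adm m (fun _ => C) (fun q : Hs => Real.exp (-2 * ‖q.2‖ ^ 2)) := by
  obtain ⟨C, hC, h⟩ := gauss_adm m 0 0
  refine ⟨C, hC, ?_⟩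
  have : (fun q : Hs => Real.exp (-2 * ‖q.2‖ ^ 2)) = gaussE 0 0 := by
    funext q
    rw [gaussE, pow_zero, pow_zero, one_mul, one_mul, ← Complex.normSq_eq_norm_sq,
      Complex.normSq_apply]
    congr 1
    ring
  rw [this]
  exact h

end MP640201
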