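import Pool.Agent.H.MP_640201_an.Ready
import Pool.Agent.H.MP_640201_an.Gauss

/-! MP_640201_an: the limit of the iteration: `1 - ε₀² exp(-2|ζ|²)` is a finite sum of squares of
CR functions of class `C^k`. -/

open Complex
open scoped ComplexConjugate

namespace MP640201

section Iter
variable {V : Type*} [NormedAddCommGroup V] [InnerProductSpace ℂ V]

theorem limit_norm_add_sq_rip (x y : V) : ‖x + y‖ ^ 2 = ‖x‖ ^ 2 + ‖y‖ ^ 2 + 2 * rip x y := by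
  have := norm_add_sq (𝕜 := ℂ) x y
  simp only [rip, RCLike.re_to_complex] at this ⊢
  linarith

theorem rip_smul_smul (a : ℝ) (x y : V) : rip (a • x) (a • y) = a ^ 2 * rip x y := by
  simp only [rip]
  rw [← Complex.coe_smul a x, ← Complex.coe_smul a y, inner_smul_left, inner_smul_right,
    Complex.conj_ofReal, ← mul_assoc, ← Complex.ofReal_mul, Complex.re_ofReal_mul]
  ring

theorem iter_sum {r ρ : ℝ} (hr : 0 < r) (hρ : 0 < ρ) {G g : ℕ → Hs → V}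
    (h0 : ∀ q, G 0 q = 0) (hG : ∀ n q, G (n + 1) q = ρ⁻¹ • (G n (dil r q) + g n q))
    (J : ℕ) (q : Hs) :
    ∑ j ∈ Finset.range J, ρ ^ j • g j (dil (r⁻¹ ^ (j + 1)) q) = ρ ^ J • G J (dil (r⁻¹ ^ J) q) := by
  induction J with
  | zero => simp [h0]
  | succ J ih =>
    have e : r * r⁻¹ ^ (J + 1) = r⁻¹ ^ J := by
      rw [pow_succ, mul_comm (r⁻¹ ^ J), ← mul_assoc, mul_inv_cancel₀ hr.ne', one_mul]
    rw [Finset.sum_range_succ, ih, hG, dil_dil, e, smul_smul]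
    have e2 : ρ ^ (J + 1) * ρ⁻¹ = ρ ^ J := by
      rw [pow_succ, mul_assoc, mul_inv_cancel₀ hρ.ne', mul_one]
    rw [e2, smul_add]

theorem iter_norm {r ρ : ℝ} (hr : 0 < r) (hρ : 0 < ρ) {b : ℕ → Hs → ℝ} {G g : ℕ → Hs → V}
    (h0 : ∀ q, G 0 q = 0) (hG : ∀ n q, G (n + 1) q = ρ⁻¹ • (G n (dil r q) + g n q))
    (hb : ∀ n q, b (n + 1) q = (ρ ^ 2)⁻¹ * (b n (dil r q) - ‖g n q‖ ^ 2 -
      2 * rip (G n (dil r q)) (g n q)))
    (J : ℕ) (q : Hs) :
    ‖∑ j ∈ Finset.range J, ρ ^ j • g j (dil (r⁻¹ ^ (j + 1)) q)‖ ^ 2 +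
      (ρ ^ 2) ^ J * b J (dil (r⁻¹ ^ J) q) = b 0 q := by
  induction J with
  | zero => simp [dil_one]
  | succ J ih =>
    have e : r * r⁻¹ ^ (J + 1) = r⁻¹ ^ J := by
      rw [pow_succ, mul_comm (r⁻¹ ^ J), ← mul_assoc, mul_inv_cancel₀ hr.ne', one_mul]
    rw [Finset.sum_range_succ, limit_norm_add_sq_rip, hb, dil_dil, e, ← ih]
    rw [iter_sum hr hρ h0 hG, rip_smul_smul, norm_smul, norm_smul, mul_pow, mul_pow]
    have hρ2 : (ρ ^ 2) ≠ 0 := (pow_pos hρ 2).ne'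
    have e1 : ‖ρ ^ J‖ ^ 2 = (ρ ^ 2) ^ J := by
      rw [Real.norm_eq_abs, sq_abs, ← pow_mul, ← pow_mul, mul_comm]
    have e2 : (ρ ^ J) ^ 2 = (ρ ^ 2) ^ J := by
      rw [← pow_mul, ← pow_mul, mul_comm]
    rw [e1, e2, pow_succ (ρ ^ 2) J]
    field_simp
    ring

end Iter

theorem limit_norm_smul_id_le {E : Type*} [NormedAddCommGroup E] [NormedSpace ℝ E] (a K : ℝ)
    (h : |a| ≤ K) : ‖a • ContinuousLinearMap.id ℝ E‖ ≤ K := by
  refine ContinuousLinearMap.opNorm_le_bound _ ((abs_nonneg a).trans h) (fun x => ?_)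
  rw [smul_apply, ContinuousLinearMap.id_apply, norm_smul, Real.norm_eq_abs]
  exact mul_le_mul_of_nonneg_right h (norm_nonneg _)

theorem sos_CR (k : ℕ) : ∃ (ε₀ : ℝ) (K : ℕ) (Γ : Hs → EuclideanSpace ℂ (Fin K)),
    0 < ε₀ ∧ ε₀ < 1 ∧ ContDiff ℝ k Γ ∧ IsCR Γ ∧
      ∀ q, ‖Γ q‖ ^ 2 + ε₀ ^ 2 * Real.exp (-2 * ‖q.2‖ ^ 2) = 1 := by
  obtain ⟨m, K, r, c, C₀, C₁, hkm, hm, hr, hr2, hc, hc2, hC₀, hC₁, hstep⟩ := step_ready (k + 1)
  obtain ⟨Cg, hCg, hGauss⟩ := adm_gauss m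
  obtain ⟨ε₀, hε0, hε1, hεc⟩ : ∃ ε₀ : ℝ, 0 < ε₀ ∧ ε₀ < 1 ∧ ε₀ ^ 2 * Cg ≤ c := by
    refine ⟨min (1 / 2) (c / (Cg + 1)), by positivity, ?_, ?_⟩
    · exact (min_le_left _ _).trans_lt (by norm_num)
    · have h1 : min (1 / 2) (c / (Cg + 1)) ≤ c / (Cg + 1) := min_le_right _ _
      have h2 : min (1 / 2) (c / (Cg + 1)) ≤ 1 / 2 := min_le_left _ _
      have h3 : 0 < min (1 / 2) (c / (Cg + 1)) := by positivity
      have h4 : min (1 / 2) (c / (Cg + 1)) * (Cg + 1) ≤ c := by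
        rw [← le_div_iff₀ (by positivity)]; exact h1
      nlinarith
  have hb0 : Adm m (fun _ => c)
      (fun q : Hs => (1 - ε₀ ^ 2 * Real.exp (-2 * ‖q.2‖ ^ 2)) - 1) := by
    have h1 := (hGauss.clm ((-(ε₀ ^ 2)) • ContinuousLinearMap.id ℝ ℝ) (K := ε₀ ^ 2) (by
      exact limit_norm_smul_id_le _ _ (by rw [abs_neg, abs_of_nonneg (by positivity)]))).mono
      (ψ := fun _ => c) (fun q => hεc)
    convert h1 using 2
    simp
  have hG0 : Top m C₁ (fun _ : Hs => (0 : EuclideanSpace ℂ (Fin K))) := by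
    refine (adm_const m (0 : EuclideanSpace ℂ (Fin K))).top.mono ?_
    simpa using hC₁
  choose g hgCR hgA hgb hgG using hstep
  let St := {p : (Hs → ℝ) × (Hs → EuclideanSpace ℂ (Fin K)) //
    Adm m (fun _ => c) (fun q => p.1 q - 1) ∧ Top m C₁ p.2}
  let next : St → St := fun s => ⟨(fun q => (r ^ (4 * (k + 1) + 2))⁻¹ *
      (s.1.1 (dil r q) - ‖g _ _ s.2.1 s.2.2 q‖ ^ 2 -
        2 * rip (s.1.2 (dil r q)) (g _ _ s.2.1 s.2.2 q)),
      fun q => ((r ^ (2 * (k + 1) + 1))⁻¹ : ℝ) • (s.1.2 (dil r q) + g _ _ s.2.1 s.2.2 q)),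
      hgb _ _ s.2.1 s.2.2, hgG _ _ s.2.1 s.2.2⟩
  let s0 : St := ⟨(fun q => 1 - ε₀ ^ 2 * Real.exp (-2 * ‖q.2‖ ^ 2), fun _ => 0), hb0, hG0⟩
  let S : ℕ → St := fun n => Nat.rec s0 (fun _ s => next s) n
  let b : ℕ → Hs → ℝ := fun n => (S n).1.1
  let G : ℕ → Hs → EuclideanSpace ℂ (Fin K) := fun n => (S n).1.2
  let gg : ℕ → Hs → EuclideanSpace ℂ (Fin K) := fun n => g _ _ (S n).2.1 (S n).2.2
  set ρ : ℝ := r ^ (2 * (k + 1) + 1) with hρd
  have hρ : 0 < ρ := by positivity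
  have hr1 : r < 1 := by linarith
  have hρ1 : ρ < 1 := pow_lt_one₀ hr.le hr1 (by omega)
  have hρ2 : r ^ (4 * (k + 1) + 2) = ρ ^ 2 := by
    rw [hρd, ← pow_mul]; congr 1; ring
  have h0 : ∀ q, G 0 q = 0 := fun q => rfl
  have hGs : ∀ n q, G (n + 1) q = ρ⁻¹ • (G n (dil r q) + gg n q) := fun n q => rfl
  have hbs : ∀ n q, b (n + 1) q = (ρ ^ 2)⁻¹ * (b n (dil r q) - ‖gg n q‖ ^ 2 -
      2 * rip (G n (dil r q)) (gg n q)) := fun n q => by
    rw [← hρ2]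
  have hbb : ∀ n q, |b n q| ≤ 1 + c := fun n q => by
    have h1 := (S n).2.1.bound q
    rw [Real.norm_eq_abs] at h1
    have h2 : b n q = 1 + ((S n).1.1 q - 1) := by simp [b]
    rw [h2]
    refine (abs_add_le _ _).trans ?_
    rw [abs_one]; linarith
  have hggA : ∀ n, Adm m (fun _ => C₀) (gg n) := fun n => hgA _ _ _ _
  have hggCR : ∀ n, IsCR (gg n) := fun n => hgCR _ _ _ _
  have hggD : ∀ n, Differentiable ℝ (gg n) := fun n =>
    (hggA n).contDiff.differentiable (by exact_mod_cast (by omega : m ≠ 0))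
  let γ : ℕ → Hs → EuclideanSpace ℂ (Fin K) :=
    fun j q => ρ ^ j • gg j (dil (r⁻¹ ^ (j + 1)) q)
  let φ : ℕ → Hs → ℝ := fun j _ => (r⁻¹ ^ (2 * (k + 1)) * C₀) * r ^ j
  have hγA : ∀ j, Adm (k + 1) (φ j) (γ j) := fun j => by
    have h1 : 1 ≤ r⁻¹ ^ (j + 1) := one_le_pow₀ ((one_le_inv₀ hr).2 hr1.le)
    have h2 := (((hggA j).of_le hkm).dil_big h1).clm
      ((ρ ^ j) • ContinuousLinearMap.id ℝ _) (K := ρ ^ j) (by
      exact limit_norm_smul_id_le _ _ (by rw [abs_of_nonneg (by positivity)]))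
    refine Adm.mono (φ := _) (F := γ j) h2 (fun q => le_of_eq ?_)
    simp only [φ]
    rw [hρd]
    simp only [inv_pow, ← pow_mul]
    have hr0 : r ≠ 0 := hr.ne'
    field_simp
    ring
  have hsum : Summable (fun j : ℕ => (r⁻¹ ^ (2 * (k + 1)) * C₀) * r ^ j) :=
    (summable_geometric_of_lt_one hr.le hr1).mul_left _
  have hLUS : LUS φ := fun q₀ => ⟨_, hsum, Filter.Eventually.of_forall fun q n => le_rfl⟩
  have hΓA : Adm (k + 1) (fun _ => ∑' j : ℕ, (r⁻¹ ^ (2 * (k + 1)) * C₀) * r ^ j)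
      (fun q => ∑' j, γ j q) := adm_tsum' hγA hLUS (fun q => le_rfl)
  refine ⟨ε₀, K, fun q => ∑' j, γ j q, hε0, hε1, ?_, ?_, ?_⟩
  · exact hΓA.contDiff.of_le (by exact_mod_cast Nat.le_succ k)
  · refine isCR_tsum (fun n => (hγA n).of_le (by omega)) hLUS (fun n => ?_)
    have h1 := IsCR.dil (hggCR n) (hggD n) (r⁻¹ ^ (n + 1))
    have h2 : Differentiable ℝ (fun q => gg n (dil (r⁻¹ ^ (n + 1)) q)) :=
      (hggD n).comp ((contDiff_dil (n := 1) _).differentiable (by norm_num))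
    have h3 := h1.clm h2 (((ρ ^ n : ℝ) : ℂ) • ContinuousLinearMap.id ℂ _)
    have e : γ n = fun q => (((ρ ^ n : ℝ) : ℂ) • ContinuousLinearMap.id ℂ
        (EuclideanSpace ℂ (Fin K))) (gg n (MP640201.dil (r⁻¹ ^ (n + 1)) q)) := by
      funext q
      simp only [γ, smul_apply, ContinuousLinearMap.id_apply]
      rw [Complex.coe_smul]
    rw [e]
    exact h3
  · intro q
    have hsq : Summable (fun j => γ j q) := by
      refine Summable.of_norm_bounded hsum (fun j => ?_)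
      exact (hγA j).bound q
    have ht1 : Filter.Tendsto (fun J => ‖∑ j ∈ Finset.range J, γ j q‖ ^ 2) Filter.atTop
        (nhds (‖∑' j, γ j q‖ ^ 2)) :=
      (hsq.hasSum.tendsto_sum_nat.norm).pow 2
    have hid : ∀ J, ‖∑ j ∈ Finset.range J, γ j q‖ ^ 2 =
        b 0 q - (ρ ^ 2) ^ J * b J (dil (r⁻¹ ^ J) q) := fun J => by
      have := iter_norm hr hρ h0 hGs hbs J q
      rw [← this]; simp [γ]
    have ht2 : Filter.Tendsto (fun J => b 0 q - (ρ ^ 2) ^ J * b J (dil (r⁻¹ ^ J) q))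
        Filter.atTop (nhds (b 0 q - 0)) := by
      refine tendsto_const_nhds.sub ?_
      have hp : Filter.Tendsto (fun J : ℕ => (ρ ^ 2) ^ J * (1 + c)) Filter.atTop
          (nhds (0 * (1 + c))) :=
        (tendsto_pow_atTop_nhds_zero_of_lt_one (by positivity)
          (pow_lt_one₀ hρ.le hρ1 (by norm_num))).mul_const _
      rw [zero_mul] at hp
      refine squeeze_zero_norm (fun J => ?_) hp
      rw [norm_mul, Real.norm_eq_abs, Real.norm_eq_abs, abs_of_nonneg (by positivity)]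
      exact mul_le_mul_of_nonneg_left (hbb _ _) (by positivity)
    have hfin : ‖∑' j, γ j q‖ ^ 2 = b 0 q := by
      have := tendsto_nhds_unique ht1 ((Filter.tendsto_congr hid).2 ht2)
      rw [this, sub_zero]
    rw [hfin]
    show (1 - ε₀ ^ 2 * Real.exp (-2 * ‖q.2‖ ^ 2)) + _ = 1
    ring

end MP640201
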