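import Pool.Agent.H.MP_640201_an.Target
import Pool.Agent.H.MP_640201_an.Limit

/-! MP_640201_an: the main theorem. -/

open Complex Matrix
open scoped ComplexConjugate

namespace MP640201

theorem main (k : ℕ) : ∃ (K : ℕ) (f : Cn 1 1 → Cn 1 K), 1 ≤ K ∧ (std 1).Cone ∧ (std K).Cone ∧
    Set.MapsTo f (std 1).M (std K).M ∧ IsClass (std 1) k f ∧ IsCRMap (std 1) (std K) f ∧
    ¬ IsRational (std 1) f := by
  obtain ⟨ε₀, K, Γ, h0, h1, hk, hCR, hΓ⟩ := sos_CR (k + 1)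
  have hK : 1 ≤ K := by
    by_contra hK
    have hK0 : K = 0 := by omega
    subst hK0
    have h := hΓ 0
    have h2 : Γ 0 = 0 := Subsingleton.elim _ _
    rw [h2] at h
    simp at h
    rcases h with h | h <;> linarith
  refine ⟨K, fmap ε₀ Γ, hK, std_cone 1 le_rfl, std_cone K hK, fmap_mapsTo h0 h1 hΓ,
    fmap_class h0 h1 (hk.of_le (by exact_mod_cast Nat.le_succ k)),
    fmap_cr h0 h1 (hk.of_le (by exact_mod_cast Nat.le_add_left 1 k)) hCR hΓ, fun h => ?_⟩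
  exact not_ratOn ε₀ h0 h1 (h.1 0)

theorem not_Q2 : ¬ (∀ (l d l' d' : ℕ) (A : HermForm l d) (B : HermForm l' d')
    (f : Cn l d → Cn l' d'), 1 ≤ l → 1 ≤ d → 1 ≤ l' → 1 ≤ d' → A.Cone → B.Cone →
    Set.MapsTo f A.M B.M → IsClass A (l + d) f → IsCRMap A B f → IsRational A f) := by
  intro h
  obtain ⟨K, f, hK, hA, hB, hf, hc, hcr, hr⟩ := main (1 + 1)
  exact hr (h 1 1 1 K (std 1) (std K) f le_rfl le_rfl le_rfl hK hA hB hf hc hcr)

end MP640201
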