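import Mathlib

/-! MP_640201_an: symmetry of the iterated derivatives of a function of finite smoothness. -/

open Equiv

namespace MP640201

section Symm
variable {E F : Type*} [NormedAddCommGroup E] [NormedSpace ℝ E] [NormedAddCommGroup F]
  [NormedSpace ℝ F]

theorem iteratedFDeriv_swap {f : E → F} : ∀ (n : ℕ), ContDiff ℝ (n + 1 : ℕ) f →
    ∀ (i : Fin n) (x : E) (v : Fin (n + 1) → E),
      iteratedFDeriv ℝ (n + 1) f x (v ∘ swap i.castSucc i.succ) =
        iteratedFDeriv ℝ (n + 1) f x v := by
  intro n
  induction n with
  | zero => intro _ i; exact i.elim0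
  | succ n ih =>
    intro hf i x v
    induction i using Fin.cases with
    | zero =>
      -- second derivative of the `n`-th iterated derivative
      have hC : ContDiff ℝ 2 (iteratedFDeriv ℝ n f) := by
        apply ContDiff.iteratedFDeriv_right (n := ((n + 1 + 1 : ℕ) : WithTop ℕ∞)) hf
        norm_cast
        omega
      have hsymm : IsSymmSndFDerivAt ℝ (iteratedFDeriv ℝ n f) x :=
        hC.contDiffAt.isSymmSndFDerivAt (by simp)
      have hd : DifferentiableAt ℝ (fderiv ℝ (iteratedFDeriv ℝ n f)) x :=
        (hC.fderiv_right (m := 1) (by norm_num)).differentiable one_ne_zero x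
      have key : ∀ w : Fin (n + 1 + 1) → E, iteratedFDeriv ℝ (n + 1 + 1) f x w =
          (fderiv ℝ (fderiv ℝ (iteratedFDeriv ℝ n f)) x (w 0) (w 1)) (Fin.tail (Fin.tail w)) := by
        intro w
        rw [iteratedFDeriv_succ_apply_left]
        have hd' : DifferentiableAt ℝ (iteratedFDeriv ℝ (n + 1) f) x := by
          apply (hf.differentiable_iteratedFDeriv _ x)
          norm_cast
          omega
        rw [← fderiv_continuousMultilinear_apply_const_apply hd']
        have e : (fun y => iteratedFDeriv ℝ (n + 1) f y (Fin.tail w)) =
            fun y => (fderiv ℝ (iteratedFDeriv ℝ n f) y (w 1)) (Fin.tail (Fin.tail w)) := by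
          funext y
          rw [iteratedFDeriv_succ_apply_left]
          rfl
        rw [e]
        have hd2 : DifferentiableAt ℝ (fun y => fderiv ℝ (iteratedFDeriv ℝ n f) y (w 1)) x :=
          hd.clm_apply (differentiableAt_const _)
        rw [fderiv_continuousMultilinear_apply_const_apply hd2]
        rw [fderiv_clm_apply hd (differentiableAt_const _)]
        simp
      rw [key, key]
      have e0 : (v ∘ swap (Fin.castSucc 0) (Fin.succ 0)) 0 = v 1 := by
        simp
      have e1 : (v ∘ swap (Fin.castSucc 0) (Fin.succ 0)) 1 = v 0 := by
        have : (1 : Fin (n + 1 + 1)) = Fin.succ 0 := rfl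
        rw [this]
        simp
      have e2 : Fin.tail (Fin.tail (v ∘ swap (Fin.castSucc 0) (Fin.succ 0))) =
          Fin.tail (Fin.tail v) := by
        funext j
        simp only [Fin.tail, Function.comp]
        rw [swap_apply_of_ne_of_ne]
        · simp only [Fin.castSucc_zero]
          exact Fin.succ_ne_zero _
        · intro h
          exact absurd (Fin.succ_injective _ h) (Fin.succ_ne_zero _)
      rw [e0, e1, e2]
      rw [hsymm.eq (v 1) (v 0)]
    | succ i =>
      rw [iteratedFDeriv_succ_apply_left, iteratedFDeriv_succ_apply_left]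
      have hd' : DifferentiableAt ℝ (iteratedFDeriv ℝ (n + 1) f) x := by
        apply (hf.differentiable_iteratedFDeriv _ x)
        norm_cast
        omega
      rw [← fderiv_continuousMultilinear_apply_const_apply hd',
        ← fderiv_continuousMultilinear_apply_const_apply hd']
      have e0 : (v ∘ swap (Fin.castSucc i.succ) (Fin.succ i.succ)) 0 = v 0 := by
        simp only [Function.comp]
        rw [swap_apply_of_ne_of_ne]
        · rw [Fin.castSucc_succ]
          exact (Fin.succ_ne_zero _).symm
        · exact (Fin.succ_ne_zero _).symm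
      have e1 : Fin.tail (v ∘ swap (Fin.castSucc i.succ) (Fin.succ i.succ)) =
          (Fin.tail v) ∘ swap i.castSucc i.succ := by
        funext j
        simp only [Fin.tail, Function.comp]
        congr 1
        rw [Fin.castSucc_succ]
        rcases eq_or_ne j i.castSucc with rfl | h1
        · rw [swap_apply_left, swap_apply_left]
        · rcases eq_or_ne j i.succ with rfl | h2
          · rw [swap_apply_right, swap_apply_right]
          · rw [swap_apply_of_ne_of_ne h1 h2, swap_apply_of_ne_of_ne]
            · exact fun h => h1 (Fin.succ_injective _ h)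
            · exact fun h => h2 (Fin.succ_injective _ h)
      rw [e0, e1]
      have e2 : (fun y => iteratedFDeriv ℝ (n + 1) f y (Fin.tail v ∘ swap i.castSucc i.succ)) =
          fun y => iteratedFDeriv ℝ (n + 1) f y (Fin.tail v) := by
        funext y
        exact ih (hf.of_le (by norm_cast; omega)) i y (Fin.tail v)
      rw [e2]

theorem iteratedFDeriv_perm {f : E → F} {n : ℕ} (hf : ContDiff ℝ n f) (σ : Perm (Fin n))
    (x : E) (v : Fin n → E) :
    iteratedFDeriv ℝ n f x (v ∘ σ) = iteratedFDeriv ℝ n f x v := by
  cases n with
  | zero =>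
    congr 1
    exact Subsingleton.elim _ _
  | succ n =>
    have hσ : σ ∈ Submonoid.closure (Set.range fun i : Fin n => swap i.castSucc i.succ) := by
      rw [Perm.mclosure_swap_castSucc_succ]
      trivial
    induction hσ using Submonoid.closure_induction generalizing v with
    | mem τ hτ =>
      obtain ⟨i, rfl⟩ := hτ
      exact iteratedFDeriv_swap n hf i x v
    | one => rfl
    | mul a b _ _ ha hb =>
      have : v ∘ (a * b : Perm (Fin (n + 1))) = (v ∘ a) ∘ b := rfl
      rw [this, hb, ha]

end Symm

end MP640201
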