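import Pool.Agent.H.MP_640201_an.Classes
import Pool.Agent.H.MP_640201_an.CR

/-! MP_640201_an: the functions Y, U, V, W. -/

open Complex
open scoped ComplexConjugate

namespace MP640201

theorem pq_yy_re (q : Hs) : (yy q).re = 1 + ‖q.2‖ ^ 2 := by
  simp only [yy, sub_re, add_re, one_re, ofReal_re, mul_re, I_re, I_im, ofReal_im]
  ring

theorem pq_yy_im (q : Hs) : (yy q).im = -q.1 := by
  simp only [yy, sub_im, add_im, one_im, ofReal_re, mul_im, I_re, I_im, ofReal_im]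
  ring

theorem pq_yy_eq (q : Hs) : yy q = 1 + q.2 * conj q.2 - I * (q.1 : ℂ) := by
  rw [Complex.mul_conj, Complex.normSq_eq_norm_sq, yy]

theorem pq_one_add_le_norm_yy (q : Hs) : 1 + ‖q.2‖ ^ 2 ≤ ‖yy q‖ := by
  rw [← pq_yy_re]; exact Complex.re_le_norm _

theorem pq_norm_yy_pos (q : Hs) : 0 < ‖yy q‖ :=
  lt_of_lt_of_le (by positivity) (pq_one_add_le_norm_yy q)

theorem yy_ne_zero (q : Hs) : yy q ≠ 0 := norm_pos_iff.1 (pq_norm_yy_pos q)

theorem pq_contDiff_zeta {n : WithTop ℕ∞} : ContDiff ℝ n (fun q : Hs => q.2) := contDiff_snd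

theorem pq_contDiff_conj_zeta {n : WithTop ℕ∞} : ContDiff ℝ n (fun q : Hs => conj q.2) :=
  (Complex.conjCLE.contDiff).comp contDiff_snd

theorem pq_contDiff_time {n : WithTop ℕ∞} : ContDiff ℝ n (fun q : Hs => (q.1 : ℂ)) :=
  (Complex.ofRealCLM.contDiff).comp contDiff_fst

theorem pq_contDiff_yy {n : WithTop ℕ∞} : ContDiff ℝ n yy := by
  have : yy = fun q : Hs => 1 + q.2 * conj q.2 - I * (q.1 : ℂ) := by funext q; exact pq_yy_eq q
  rw [this]
  exact (contDiff_const.add (pq_contDiff_zeta.mul pq_contDiff_conj_zeta)).sub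
    (contDiff_const.mul pq_contDiff_time)

theorem contDiff_Yf {n : WithTop ℕ∞} : ContDiff ℝ n Yf := pq_contDiff_yy.inv yy_ne_zero

theorem contDiff_Uf {n : WithTop ℕ∞} : ContDiff ℝ n Uf := pq_contDiff_conj_zeta.mul contDiff_Yf

theorem contDiff_Vf {n : WithTop ℕ∞} : ContDiff ℝ n Vf := pq_contDiff_zeta.mul contDiff_Yf

theorem pq_dX_mulC (i : Fin 3) {F G : Hs → ℂ} (hF : Differentiable ℝ F) (hG : Differentiable ℝ G) :
    dX i (fun q => F q * G q) = fun q => dX i F q * G q + F q * dX i G q := by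
  have := dX_bilin i (ContinuousLinearMap.mul ℝ ℂ) hF hG
  simpa only [ContinuousLinearMap.mul_apply'] using this

theorem pq_dX_lin {E : Type*} [NormedAddCommGroup E] [NormedSpace ℝ E] (i : Fin 3)
    (L : Hs →L[ℝ] E) (q : Hs) : dX i (fun q => L q) q = L (fld i q) := by
  simp [dX]

theorem pq_dX_zeta (i : Fin 3) (q : Hs) : dX i (fun q : Hs => q.2) q = (fld i q).2 :=
  pq_dX_lin i (ContinuousLinearMap.snd ℝ ℝ ℂ) q

theorem pq_dX_conj_zeta (i : Fin 3) (q : Hs) :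
    dX i (fun q : Hs => conj q.2) q = conj (fld i q).2 :=
  pq_dX_lin i ((Complex.conjCLE : ℂ →L[ℝ] ℂ).comp (ContinuousLinearMap.snd ℝ ℝ ℂ)) q

theorem pq_dX_time (i : Fin 3) (q : Hs) :
    dX i (fun q : Hs => (q.1 : ℂ)) q = ((fld i q).1 : ℂ) :=
  pq_dX_lin i (Complex.ofRealCLM.comp (ContinuousLinearMap.fst ℝ ℝ ℂ)) q

theorem pq_differentiable_zeta : Differentiable ℝ (fun q : Hs => q.2) :=
  (pq_contDiff_zeta (n := 1)).differentiable one_ne_zero

theorem pq_differentiable_conj_zeta : Differentiable ℝ (fun q : Hs => conj q.2) :=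
  (pq_contDiff_conj_zeta (n := 1)).differentiable one_ne_zero

theorem pq_differentiable_time : Differentiable ℝ (fun q : Hs => (q.1 : ℂ)) :=
  (pq_contDiff_time (n := 1)).differentiable one_ne_zero

theorem pq_differentiable_yy : Differentiable ℝ yy :=
  (pq_contDiff_yy (n := 1)).differentiable one_ne_zero

theorem pq_differentiable_Yf : Differentiable ℝ Yf :=
  (contDiff_Yf (n := 1)).differentiable one_ne_zero

theorem pq_differentiable_Uf : Differentiable ℝ Uf :=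
  (contDiff_Uf (n := 1)).differentiable one_ne_zero

theorem pq_differentiable_Vf : Differentiable ℝ Vf :=
  (contDiff_Vf (n := 1)).differentiable one_ne_zero

theorem pq_dX_yy (i : Fin 3) (q : Hs) : dX i yy q =
    (fld i q).2 * conj q.2 + q.2 * conj (fld i q).2 - I * ((fld i q).1 : ℂ) := by
  have h0 : yy = fun q : Hs => (1 + q.2 * conj q.2) - I * (q.1 : ℂ) := by
    funext q; exact pq_yy_eq q
  have h1 : Differentiable ℝ (fun q : Hs => q.2 * conj q.2) :=
    pq_differentiable_zeta.mul pq_differentiable_conj_zeta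
  have h2 : Differentiable ℝ (fun q : Hs => I * (q.1 : ℂ)) := pq_differentiable_time.const_mul I
  have h3 : Differentiable ℝ (fun q : Hs => 1 + q.2 * conj q.2) := h1.const_add 1
  have hc : Differentiable ℝ (fun _ : Hs => (1 : ℂ)) := differentiable_const _
  rw [h0, dX_sub i h3 h2, dX_add i hc h1,
    dX_const, pq_dX_mulC i pq_differentiable_zeta pq_differentiable_conj_zeta,
    pq_dX_mulC i (differentiable_const I) pq_differentiable_time, dX_const]
  simp only [pq_dX_zeta, pq_dX_conj_zeta, pq_dX_time]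
  ring

theorem pq_dX_inv (i : Fin 3) (q : Hs) : dX i Yf q = - Yf q ^ 2 * dX i yy q := by
  have h1 : (fun q => yy q * Yf q) = fun _ => (1 : ℂ) := by
    funext q; exact mul_inv_cancel₀ (yy_ne_zero q)
  have h2 := pq_dX_mulC i pq_differentiable_yy pq_differentiable_Yf
  rw [h1, dX_const] at h2
  have h3 := congrFun h2 q
  have h4 : Yf q * yy q = 1 := inv_mul_cancel₀ (yy_ne_zero q)
  linear_combination (-Yf q) * h3 - dX i Yf q * h4

theorem pq_conj_id1 (z : ℂ) : conj z + z - I * ((2 * z.im : ℝ) : ℂ) = 2 * conj z := by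
  apply Complex.ext
  · simp; ring
  · simp

theorem pq_conj_id2 (z : ℂ) : I * conj z + z * (-I) - I * ((-2 * z.re : ℝ) : ℂ) =
    2 * I * conj z := by
  apply Complex.ext
  · simp; ring
  · simp

theorem dX_Yf (q : Hs) : dX 0 Yf q = I * Yf q ^ 2 ∧ dX 1 Yf q = -2 * Uf q * Yf q ∧
    dX 2 Yf q = -2 * I * Uf q * Yf q := by
  refine ⟨?_, ?_, ?_⟩
  · rw [pq_dX_inv, pq_dX_yy]
    simp
    ring
  · rw [pq_dX_inv, pq_dX_yy, fld_one, Uf]
    have h := pq_conj_id1 q.2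
    simp only [map_one, one_mul, mul_one]
    rw [h]
    ring
  · rw [pq_dX_inv, pq_dX_yy, fld_two, Uf]
    have h := pq_conj_id2 q.2
    simp only [conj_I]
    rw [h]
    ring

theorem dX_Uf (q : Hs) : dX 0 Uf q = I * Uf q * Yf q ∧ dX 1 Uf q = Yf q - 2 * Uf q ^ 2 ∧
    dX 2 Uf q = -I * Yf q - 2 * I * Uf q ^ 2 := by
  have key : ∀ i, dX i Uf q = conj (fld i q).2 * Yf q + conj q.2 * dX i Yf q := by
    intro i
    have := congrFun (pq_dX_mulC i pq_differentiable_conj_zeta pq_differentiable_Yf) q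
    simp only [pq_dX_conj_zeta] at this
    exact this
  obtain ⟨h0, h1, h2⟩ := dX_Yf q
  refine ⟨?_, ?_, ?_⟩
  · rw [key, h0]; simp [Uf]; ring
  · rw [key, h1]; simp [Uf]; ring
  · rw [key, h2]; simp [Uf]; ring

theorem dX_Vf (q : Hs) : dX 0 Vf q = I * Vf q * Yf q ∧ dX 1 Vf q = Yf q - 2 * Uf q * Vf q ∧
    dX 2 Vf q = I * (Yf q - 2 * Uf q * Vf q) := by
  have key : ∀ i, dX i Vf q = (fld i q).2 * Yf q + q.2 * dX i Yf q := by
    intro i
    have := congrFun (pq_dX_mulC i pq_differentiable_zeta pq_differentiable_Yf) q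
    simp only [pq_dX_zeta] at this
    exact this
  obtain ⟨h0, h1, h2⟩ := dX_Yf q
  refine ⟨?_, ?_, ?_⟩
  · rw [key, h0]; simp [Vf]; ring
  · rw [key, h1]; simp [Vf, Uf]; ring
  · rw [key, h2]; simp [Vf, Uf]; ring

theorem norm_Yf_le (q : Hs) : ‖Yf q‖ ≤ 2 * wp 1 q := by
  have h1 : vw q ≤ 2 * ‖yy q‖ := by
    have h2 := Complex.abs_re_le_norm (yy q)
    have h3 := Complex.abs_im_le_norm (yy q)
    rw [pq_yy_re, abs_of_nonneg (by positivity)] at h2
    rw [pq_yy_im, abs_neg] at h3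
    unfold vw; linarith
  rw [Yf, norm_inv, wp, pow_one, ← div_eq_mul_inv, inv_eq_one_div,
    div_le_div_iff₀ (pq_norm_yy_pos q) (vw_pos q)]
  linarith

theorem pq_norm_Yf_le' (q : Hs) : ‖Yf q‖ ≤ (1 + ‖q.2‖ ^ 2)⁻¹ := by
  rw [Yf, norm_inv]
  exact inv_anti₀ (by positivity) (pq_one_add_le_norm_yy q)

theorem norm_Yf_le_one (q : Hs) : ‖Yf q‖ ≤ 1 :=
  (pq_norm_Yf_le' q).trans (inv_le_one_of_one_le₀ (by nlinarith [sq_nonneg ‖q.2‖]))

theorem pq_norm_zeta_mul_Yf_le (q : Hs) : ‖q.2‖ * ‖Yf q‖ ≤ 1 := by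
  have h := mul_le_mul_of_nonneg_left (pq_norm_Yf_le' q) (norm_nonneg q.2)
  refine h.trans ?_
  rw [← div_eq_mul_inv, div_le_one (by positivity)]
  nlinarith [sq_nonneg (‖q.2‖ - 1), norm_nonneg q.2]

theorem norm_Uf_le_one (q : Hs) : ‖Uf q‖ ≤ 1 := by
  rw [Uf, norm_mul, RCLike.norm_conj]; exact pq_norm_zeta_mul_Yf_le q

theorem norm_Vf_le_one (q : Hs) : ‖Vf q‖ ≤ 1 := by
  rw [Vf, norm_mul]; exact pq_norm_zeta_mul_Yf_le q

/-! ### Bounded classes -/

/-- All words of length at most `m` bounded. -/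
def PqBA {E : Type*} [NormedAddCommGroup E] [NormedSpace ℝ E] (m : ℕ) (F : Hs → E) : Prop :=
  ∃ C : ℝ, 0 ≤ C ∧ Adm m (fun _ => C) F

section PqBA
variable {E E₁ E₂ : Type*} [NormedAddCommGroup E] [NormedSpace ℝ E]
  [NormedAddCommGroup E₁] [NormedSpace ℝ E₁] [NormedAddCommGroup E₂] [NormedSpace ℝ E₂]

theorem PqBA.of_adm {m : ℕ} {C : ℝ} {F : Hs → E} (h : Adm m (fun _ => C) F) : PqBA m F :=
  ⟨C, h.nonneg 0, h⟩

theorem PqBA.const (m : ℕ) (c : E) : PqBA m (fun _ : Hs => c) := PqBA.of_adm (adm_const m c)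

theorem PqBA.add {m : ℕ} {F G : Hs → E} (hF : PqBA m F) (hG : PqBA m G) :
    PqBA m (fun q => F q + G q) := by
  obtain ⟨C, _, h⟩ := hF
  obtain ⟨D, _, h'⟩ := hG
  exact PqBA.of_adm (h.add h')

theorem PqBA.sub {m : ℕ} {F G : Hs → E} (hF : PqBA m F) (hG : PqBA m G) :
    PqBA m (fun q => F q - G q) := by
  obtain ⟨C, _, h⟩ := hF
  obtain ⟨D, _, h'⟩ := hG
  exact PqBA.of_adm (h.sub h')

theorem PqBA.mulC {m : ℕ} {F G : Hs → ℂ} (hF : PqBA m F) (hG : PqBA m G) :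
    PqBA m (fun q => F q * G q) := by
  obtain ⟨C, _, h⟩ := hF
  obtain ⟨D, _, h'⟩ := hG
  exact PqBA.of_adm (h.mulC h')

theorem PqBA.mulR {m : ℕ} {F G : Hs → ℝ} (hF : PqBA m F) (hG : PqBA m G) :
    PqBA m (fun q => F q * G q) := by
  obtain ⟨C, _, h⟩ := hF
  obtain ⟨D, _, h'⟩ := hG
  exact PqBA.of_adm (h.mulR h')

theorem PqBA.smulC {V : Type*} [NormedAddCommGroup V] [NormedSpace ℂ V] {m : ℕ}
    {F : Hs → ℂ} {G : Hs → V} (hF : PqBA m F) (hG : PqBA m G) :
    PqBA m (fun q => F q • G q) := by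
  obtain ⟨C, _, h⟩ := hF
  obtain ⟨D, _, h'⟩ := hG
  exact PqBA.of_adm (h.smulC h')

theorem PqBA.clm {m : ℕ} {F : Hs → E₁} (hF : PqBA m F) (L : E₁ →L[ℝ] E₂) :
    PqBA m (fun q => L (F q)) := by
  obtain ⟨C, _, h⟩ := hF
  exact PqBA.of_adm (h.clm L le_rfl)

theorem PqBA.sum {ι : Type*} (s : Finset ι) {m : ℕ} {F : ι → Hs → E}
    (hF : ∀ j ∈ s, PqBA m (F j)) : PqBA m (fun q => ∑ j ∈ s, F j q) := by
  classical
  have h : ∀ j, ∃ C : ℝ, j ∈ s → Adm m (fun _ => C) (F j) := by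
    intro j
    by_cases hj : j ∈ s
    · obtain ⟨C, _, h⟩ := hF j hj
      exact ⟨C, fun _ => h⟩
    · exact ⟨0, fun h => (hj h).elim⟩
  choose C hC using h
  exact PqBA.of_adm (Adm.sum s hC)

theorem PqBA.succ {m : ℕ} {F : Hs → E} (h1 : ContDiff ℝ 1 F) {c : ℝ} (h2 : ∀ q, ‖F q‖ ≤ c)
    (h3 : ∀ i, PqBA m (dX i F)) : PqBA (m + 1) F := by
  choose C hC0 hC using h3
  have hS : ∀ i, C i ≤ ∑ j, C j := fun i =>
    Finset.single_le_sum (fun j _ => hC0 j) (Finset.mem_univ i)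
  have hc : 0 ≤ c := (norm_nonneg _).trans (h2 0)
  have hs : 0 ≤ ∑ j, C j := Finset.sum_nonneg fun j _ => hC0 j
  refine ⟨c + ∑ j, C j, add_nonneg hc hs, h1, fun q => (h2 q).trans (by linarith), fun i => ?_⟩
  exact (hC i).mono fun q => by have := hS i; linarith

theorem PqBA.prodC {ι : Type*} (s : Finset ι) {m : ℕ} {F : ι → Hs → ℂ}
    (hF : ∀ j ∈ s, PqBA m (F j)) : PqBA m (fun q => ∏ j ∈ s, F j q) := by
  classical
  induction s using Finset.induction_on with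
  | empty => simpa using PqBA.const m (1 : ℂ)
  | insert a s ha ih =>
    simp only [Finset.prod_insert ha]
    exact (hF a (Finset.mem_insert_self a s)).mulC
      (ih fun j hj => hF j (Finset.mem_insert_of_mem hj))

theorem PqBA.prodR {ι : Type*} (s : Finset ι) {m : ℕ} {F : ι → Hs → ℝ}
    (hF : ∀ j ∈ s, PqBA m (F j)) : PqBA m (fun q => ∏ j ∈ s, F j q) := by
  classical
  induction s using Finset.induction_on with
  | empty => simpa using PqBA.const m (1 : ℝ)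
  | insert a s ha ih =>
    simp only [Finset.prod_insert ha]
    exact (hF a (Finset.mem_insert_self a s)).mulR
      (ih fun j hj => hF j (Finset.mem_insert_of_mem hj))

end PqBA

theorem pq_ba_YUV (m : ℕ) : PqBA m Yf ∧ PqBA m Uf ∧ PqBA m Vf := by
  induction m with
  | zero =>
    refine ⟨⟨1, zero_le_one, ?_⟩, ⟨1, zero_le_one, ?_⟩, ⟨1, zero_le_one, ?_⟩⟩
    · exact ⟨(contDiff_Yf (n := 1)).continuous, norm_Yf_le_one⟩
    · exact ⟨(contDiff_Uf (n := 1)).continuous, norm_Uf_le_one⟩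
    · exact ⟨(contDiff_Vf (n := 1)).continuous, norm_Vf_le_one⟩
  | succ m ih =>
    obtain ⟨hY, hU, hV⟩ := ih
    have cst : ∀ c : ℂ, PqBA m (fun _ : Hs => c) := PqBA.const m
    refine ⟨PqBA.succ contDiff_Yf norm_Yf_le_one fun i => ?_,
      PqBA.succ contDiff_Uf norm_Uf_le_one fun i => ?_,
      PqBA.succ contDiff_Vf norm_Vf_le_one fun i => ?_⟩
    · fin_cases i
      · have : dX 0 Yf = fun q => I * (Yf q * Yf q) := by
          funext q; rw [(dX_Yf q).1]; ring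
        show PqBA m (dX 0 Yf)
        rw [this]
        exact (cst I).mulC (hY.mulC hY)
      · have : dX 1 Yf = fun q => (-2) * (Uf q * Yf q) := by
          funext q; rw [(dX_Yf q).2.1]; ring
        show PqBA m (dX 1 Yf)
        rw [this]
        exact (cst (-2)).mulC (hU.mulC hY)
      · have : dX 2 Yf = fun q => (-2 * I) * (Uf q * Yf q) := by
          funext q; rw [(dX_Yf q).2.2]; ring
        show PqBA m (dX 2 Yf)
        rw [this]
        exact (cst (-2 * I)).mulC (hU.mulC hY)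
    · fin_cases i
      · have : dX 0 Uf = fun q => I * (Uf q * Yf q) := by
          funext q; rw [(dX_Uf q).1]; ring
        show PqBA m (dX 0 Uf)
        rw [this]
        exact (cst I).mulC (hU.mulC hY)
      · have : dX 1 Uf = fun q => Yf q - 2 * (Uf q * Uf q) := by
          funext q; rw [(dX_Uf q).2.1]; ring
        show PqBA m (dX 1 Uf)
        rw [this]
        exact hY.sub ((cst 2).mulC (hU.mulC hU))
      · have : dX 2 Uf = fun q => (-I) * Yf q - (2 * I) * (Uf q * Uf q) := by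
          funext q; rw [(dX_Uf q).2.2]; ring
        show PqBA m (dX 2 Uf)
        rw [this]
        exact ((cst (-I)).mulC hY).sub ((cst (2 * I)).mulC (hU.mulC hU))
    · fin_cases i
      · have : dX 0 Vf = fun q => I * (Vf q * Yf q) := by
          funext q; rw [(dX_Vf q).1]; ring
        show PqBA m (dX 0 Vf)
        rw [this]
        exact (cst I).mulC (hV.mulC hY)
      · have : dX 1 Vf = fun q => Yf q - 2 * (Uf q * Vf q) := by
          funext q; rw [(dX_Vf q).2.1]; ring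
        show PqBA m (dX 1 Vf)
        rw [this]
        exact hY.sub ((cst 2).mulC (hU.mulC hV))
      · have : dX 2 Vf = fun q => I * (Yf q - 2 * (Uf q * Vf q)) := by
          funext q; rw [(dX_Vf q).2.2]; ring
        show PqBA m (dX 2 Vf)
        rw [this]
        exact (cst I).mulC (hY.sub ((cst 2).mulC (hU.mulC hV)))

theorem adm_YUV (m : ℕ) : ∃ C : ℝ, 0 ≤ C ∧ Adm m (fun _ => C) Yf ∧ Adm m (fun _ => C) Uf ∧
    Adm m (fun _ => C) Vf := by
  obtain ⟨⟨a, ha, hY⟩, ⟨b, hb, hU⟩, ⟨c, hc, hV⟩⟩ := pq_ba_YUV m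
  exact ⟨a + b + c, by positivity, hY.mono fun q => by linarith, hU.mono fun q => by linarith,
    hV.mono fun q => by linarith⟩

theorem pq_dX_pow (i : Fin 3) (g : Hs → ℂ) (hg : ∀ q, dX i Yf q = g q * Yf q) (M : ℕ) :
    dX i (fun q => Yf q ^ M) = fun q => ((M : ℂ) * g q) * Yf q ^ M := by
  induction M with
  | zero => simp only [pow_zero]; rw [dX_const]; funext q; simp
  | succ M ih =>
    have h1 : (fun q => Yf q ^ (M + 1)) = fun q => Yf q ^ M * Yf q := by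
      funext q; rw [pow_succ]
    have hd : Differentiable ℝ (fun q => Yf q ^ M) := pq_differentiable_Yf.pow M
    rw [h1, pq_dX_mulC i hd pq_differentiable_Yf, ih]
    funext q
    simp only [hg]
    push_cast
    ring

theorem adm_Ypow (m M : ℕ) : ∃ C : ℝ, 0 ≤ C ∧
    Adm m (fun q => C * wp M q) (fun q => Yf q ^ M) := by
  have hval : ∀ q, ‖Yf q ^ M‖ ≤ 2 ^ M * wp M q := by
    intro q
    rw [norm_pow]
    calc ‖Yf q‖ ^ M ≤ (2 * wp 1 q) ^ M := pow_le_pow_left₀ (norm_nonneg _) (norm_Yf_le q) M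
      _ = 2 ^ M * wp M q := by rw [mul_pow, wp, wp, pow_one]
  induction m with
  | zero =>
    exact ⟨2 ^ M, by positivity, ((contDiff_Yf (n := 1)).pow M).continuous, hval⟩
  | succ m ih =>
    obtain ⟨C, hC, ih⟩ := ih
    have key : ∀ i, ∃ g : Hs → ℂ, PqBA m g ∧ ∀ q, dX i Yf q = g q * Yf q := by
      intro i
      obtain ⟨hY, hU, hV⟩ := pq_ba_YUV m
      fin_cases i
      · exact ⟨fun q => I * Yf q, (PqBA.const m I).mulC hY, fun q => by
          show dX 0 Yf q = _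
          rw [(dX_Yf q).1]; ring⟩
      · exact ⟨fun q => (-2) * Uf q, (PqBA.const m (-2 : ℂ)).mulC hU, fun q => (dX_Yf q).2.1⟩
      · exact ⟨fun q => (-2 * I) * Uf q, (PqBA.const m (-2 * I)).mulC hU, fun q => (dX_Yf q).2.2⟩
    have key2 : ∀ i, ∃ D : ℝ, 0 ≤ D ∧
        Adm m (fun q => D * wp M q) (dX i (fun q => Yf q ^ M)) := by
      intro i
      obtain ⟨g, hg, hgq⟩ := key i
      obtain ⟨c, hc, hgc⟩ := (PqBA.const m (M : ℂ)).mulC hg
      rw [pq_dX_pow i g hgq M]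
      exact ⟨2 ^ m * (c * C), by positivity, (hgc.mulC ih).mono fun q => le_of_eq (by ring)⟩
    choose D hD0 hD using key2
    have hS : ∀ i, D i ≤ ∑ j, D j := fun i =>
      Finset.single_le_sum (fun j _ => hD0 j) (Finset.mem_univ i)
    have hs : 0 ≤ ∑ j, D j := Finset.sum_nonneg fun j _ => hD0 j
    refine ⟨2 ^ M + ∑ j, D j, by positivity, contDiff_Yf.pow M, fun q => ?_, fun i => ?_⟩
    · refine (hval q).trans (mul_le_mul_of_nonneg_right (by linarith) (wp_nonneg M q))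
    · refine (hD i).mono fun q => mul_le_mul_of_nonneg_right ?_ (wp_nonneg M q)
      have := hS i
      have h2 : (0 : ℝ) ≤ 2 ^ M := by positivity
      linarith

theorem isCR_Yf : IsCR Yf := by
  intro q
  rw [(dX_Yf q).2.1, (dX_Yf q).2.2, smul_eq_mul]; ring

theorem isCR_Vf : IsCR Vf := by
  intro q
  rw [(dX_Vf q).2.1, (dX_Vf q).2.2, smul_eq_mul]

theorem pq_normSq_yy (q : Hs) : ‖yy q‖ ^ 2 = (1 + ‖q.2‖ ^ 2) ^ 2 + q.1 ^ 2 := by
  rw [← Complex.normSq_eq_norm_sq, Complex.normSq_apply, pq_yy_re, pq_yy_im]; ring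

theorem pq_Yf_re (q : Hs) : (Yf q).re = (1 + ‖q.2‖ ^ 2) / ‖yy q‖ ^ 2 := by
  rw [Yf, Complex.inv_re, pq_yy_re, Complex.normSq_eq_norm_sq]

theorem pq_Yf_im (q : Hs) : (Yf q).im = q.1 / ‖yy q‖ ^ 2 := by
  rw [Yf, Complex.inv_im, pq_yy_im, Complex.normSq_eq_norm_sq, neg_neg]

theorem sum_norm_vv (q : Hs) : ∑ j, ‖vv q j‖ ^ 2 = 2 := by
  have hpos : 0 < ‖yy q‖ := pq_norm_yy_pos q
  have h1 : ‖2 * Yf q - 1‖ ^ 2 = 4 * ‖Yf q‖ ^ 2 - 4 * (Yf q).re + 1 := by
    rw [← Complex.normSq_eq_norm_sq, ← Complex.normSq_eq_norm_sq, Complex.normSq_apply,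
      Complex.normSq_apply]
    simp
    ring
  have h2 : ‖Yf q‖ ^ 2 = 1 / ‖yy q‖ ^ 2 := by rw [Yf, norm_inv]; ring
  have h3 : ‖2 * Vf q‖ ^ 2 = 4 * (‖q.2‖ ^ 2 * ‖Yf q‖ ^ 2) := by
    rw [Vf, norm_mul, norm_mul]; norm_num; ring
  rw [Fin.sum_univ_three]
  simp only [vv]
  rw [h1, h3, h2, pq_Yf_re, norm_one]
  field_simp
  ring

theorem norm_sq_Wf (m : ℕ) (q : Hs) : ‖Wf m q‖ ^ 2 = 2 ^ m := by
  rw [EuclideanSpace.norm_sq_eq, ← sum_norm_vv q, Fintype.sum_pow]
  refine Finset.sum_congr rfl fun f _ => ?_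
  simp only [Wf]
  rw [norm_prod, Finset.prod_pow]

theorem pq_contDiff_vv (j : Fin 3) {n : WithTop ℕ∞} : ContDiff ℝ n (fun q => vv q j) := by
  fin_cases j
  · exact contDiff_const
  · exact (contDiff_const.mul contDiff_Yf).sub contDiff_const
  · exact contDiff_const.mul contDiff_Vf

theorem pq_contDiff_comp (m : ℕ) (f : Fin m → Fin 3) {n : WithTop ℕ∞} :
    ContDiff ℝ n (fun q => ∏ i, vv q (f i)) :=
  contDiff_prod fun i _ => pq_contDiff_vv (f i)

theorem pq_Wf_eq_sum (m : ℕ) : Wf m = fun q => ∑ f : Fin m → Fin 3,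
    (∏ i, vv q (f i)) • (EuclideanSpace.single f (1 : ℂ) : CI m) := by
  funext q
  ext g
  simp [Wf, Pi.single_apply]

theorem contDiff_Wf (m : ℕ) {n : WithTop ℕ∞} : ContDiff ℝ n (Wf m) := by
  rw [pq_Wf_eq_sum]
  exact ContDiff.sum fun f _ => (pq_contDiff_comp m f).smul contDiff_const

theorem pq_ba_vv (k : ℕ) (j : Fin 3) : PqBA k (fun q => vv q j) := by
  obtain ⟨hY, hU, hV⟩ := pq_ba_YUV k
  fin_cases j
  · exact PqBA.const k (1 : ℂ)
  · exact ((PqBA.const k (2 : ℂ)).mulC hY).sub (PqBA.const k (1 : ℂ))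
  · exact (PqBA.const k (2 : ℂ)).mulC hV

theorem adm_Wf (m k : ℕ) : ∃ C : ℝ, 0 ≤ C ∧ Adm k (fun _ => C) (Wf m) := by
  rw [pq_Wf_eq_sum]
  exact PqBA.sum _ fun f _ => (PqBA.prodC _ fun i _ => pq_ba_vv k (f i)).smulC (PqBA.const k _)

theorem pq_isCR_vv (j : Fin 3) : IsCR (fun q => vv q j) := by
  fin_cases j
  · exact isCR_const (1 : ℂ)
  · have h1 : IsCR (fun q => (2 : ℂ) * Yf q) :=
      (isCR_const (2 : ℂ)).mul isCR_Yf (differentiable_const _) pq_differentiable_Yf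
    exact h1.add (isCR_const (-1 : ℂ)) (pq_differentiable_Yf.const_mul 2) (differentiable_const _)
  · exact (isCR_const (2 : ℂ)).mul isCR_Vf (differentiable_const _) pq_differentiable_Vf

theorem isCR_Wf (m : ℕ) : IsCR (Wf m) := by
  refine isCR_pi ((contDiff_Wf m (n := 1)).differentiable one_ne_zero) fun f => ?_
  exact IsCR.prod Finset.univ (fun i _ => pq_isCR_vv (f i))
    (fun i _ => (pq_contDiff_vv (f i) (n := 1)).differentiable one_ne_zero)

theorem pq_ba_xi (k : ℕ) (j : Fin 4) : PqBA k (xi j) := by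
  obtain ⟨hY, hU, hV⟩ := pq_ba_YUV k
  have hcY : PqBA k (fun q => conj (Yf q)) := hY.clm (Complex.conjCLE : ℂ →L[ℝ] ℂ)
  have hN : ∀ q, Yf q * conj (Yf q) = ((1 / ‖yy q‖ ^ 2 : ℝ) : ℂ) := by
    intro q
    rw [Complex.mul_conj, Complex.normSq_eq_norm_sq, Yf, norm_inv]
    congr 1
    ring
  fin_cases j
  · have h : xi 0 = fun q => Complex.imCLM (Yf q) := by
      funext q; exact (pq_Yf_im q).symm
    show PqBA k (xi 0)
    rw [h]; exact hY.clm _
  · have h : xi 1 = fun q => Complex.reCLM (Vf q * conj (Yf q)) := by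
      funext q
      show q.2.re / ‖yy q‖ ^ 2 = (Vf q * conj (Yf q)).re
      rw [Vf, mul_assoc, hN, Complex.re_mul_ofReal]; ring
    show PqBA k (xi 1)
    rw [h]; exact (hV.mulC hcY).clm _
  · have h : xi 2 = fun q => Complex.imCLM (Vf q * conj (Yf q)) := by
      funext q
      show q.2.im / ‖yy q‖ ^ 2 = (Vf q * conj (Yf q)).im
      rw [Vf, mul_assoc, hN, Complex.im_mul_ofReal]; ring
    show PqBA k (xi 2)
    rw [h]; exact (hV.mulC hcY).clm _
  · have h : xi 3 = fun q => Complex.reCLM (Yf q * conj (Yf q)) := by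
      funext q
      show 1 / ‖yy q‖ ^ 2 = (Yf q * conj (Yf q)).re
      rw [hN, Complex.ofReal_re]
    show PqBA k (xi 3)
    rw [h]; exact (hY.mulC hcY).clm _

theorem adm_xip (m k : ℕ) : ∃ C : ℝ, 0 ≤ C ∧ ∀ φ : Fin m → Fin 4,
    Adm k (fun _ => C) (xip m φ) := by
  have h : ∀ φ : Fin m → Fin 4, PqBA k (xip m φ) := fun φ =>
    PqBA.prodR Finset.univ fun i _ => pq_ba_xi k (φ i)
  choose C hC0 hC using h
  refine ⟨∑ φ, C φ, Finset.sum_nonneg fun φ _ => hC0 φ, fun φ => (hC φ).mono fun q => ?_⟩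
  exact Finset.single_le_sum (fun j _ => hC0 j) (Finset.mem_univ φ)

end MP640201
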