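import Pool.Agent.H.MP_640201_an.CD
import Pool.Agent.H.MP_640201_an.Packet
import Pool.Agent.H.MP_640201_an.JetsSymm

/-! MP_640201_an: jets at the origin are realised by combinations of the `xip`. -/

open Complex
open scoped ComplexConjugate

namespace MP640201

/-- The basis of `Hs`. -/
noncomputable def jbas : Fin 3 → Hs := ![(1, 0), (0, 1), (0, I)]

/-- The coordinates. -/
noncomputable def jco (q : Hs) : Fin 3 → ℝ := ![q.1, q.2.re, q.2.im]

theorem jbas_sum (q : Hs) : q = ∑ k, jco q k • jbas k := by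
  rw [Fin.sum_univ_three]
  simp only [jco, jbas, Matrix.cons_val_zero, Matrix.cons_val_one, Matrix.cons_val_two]
  ext <;> simp

theorem norm_jbas (k : Fin 3) : ‖jbas k‖ ≤ 1 := by
  fin_cases k <;> simp [jbas, Prod.norm_def]

/-- The index attached to `ψ`. -/
def jidx (j d : ℕ) (ψ : Fin j → Fin 3) : Fin (j + d) → Fin 4 :=
  Fin.append (fun i => (ψ i).castSucc) (fun _ => 3)

theorem xi_castSucc (k : Fin 3) (q : Hs) : xi k.castSucc q = jco q k / ‖yy q‖ ^ 2 := by
  fin_cases k <;> rfl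

theorem xip_jidx (j d : ℕ) (ψ : Fin j → Fin 3) (q : Hs) :
    xip (j + d) (jidx j d ψ) q = (∏ i, jco q (ψ i)) * ((‖yy q‖ ^ 2) ^ (j + d))⁻¹ := by
  unfold xip
  rw [Fin.prod_univ_add]
  have h1 : ∀ i : Fin j, xi (jidx j d ψ (Fin.castAdd d i)) q = jco q (ψ i) * (‖yy q‖ ^ 2)⁻¹ := by
    intro i
    rw [jidx, Fin.append_left, xi_castSucc, div_eq_mul_inv]
  have h2 : ∀ i : Fin d, xi (jidx j d ψ (Fin.natAdd j i)) q = (‖yy q‖ ^ 2)⁻¹ := by
    intro i
    rw [jidx, Fin.append_right]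
    show 1 / ‖yy q‖ ^ 2 = _
    rw [one_div]
  simp_rw [h1, h2]
  rw [Finset.prod_mul_distrib]
  simp only [Finset.prod_const, Finset.card_univ, Fintype.card_fin]
  rw [mul_assoc, ← pow_add, inv_pow]

theorem jexpand {j : ℕ} (A : ContinuousMultilinearMap ℝ (fun _ : Fin j => Hs) ℝ) (q : Hs) :
    A (fun _ => q) = ∑ ψ : Fin j → Fin 3, (∏ i, jco q (ψ i)) * A (fun i => jbas (ψ i)) := by
  have h : (fun _ : Fin j => q) = fun _ : Fin j => ∑ k, jco q k • jbas k := by
    funext _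
    exact jbas_sum q
  conv_lhs => rw [h]
  have h2 := A.toMultilinearMap.map_sum (fun (_ : Fin j) (k : Fin 3) => jco q k • jbas k)
  simp only [ContinuousMultilinearMap.coe_coe] at h2
  rw [h2]
  refine Finset.sum_congr rfl fun ψ _ => ?_
  have h3 := A.map_smul_univ (fun i => jco q (ψ i)) (fun i => jbas (ψ i))
  rw [smul_eq_mul] at h3
  exact h3

/-- The factor. -/
noncomputable def jfac (m : ℕ) (q : Hs) : ℝ := ((‖yy q‖ ^ 2) ^ m)⁻¹

theorem yy_zero : yy 0 = 1 := by simp [yy]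

theorem jfac_zero (m : ℕ) : jfac m 0 = 1 := by simp [jfac, yy_zero]

theorem contDiff_jfac (m : ℕ) {n : WithTop ℕ∞} : ContDiff ℝ n (jfac m) := by
  unfold jfac
  have h2 : (fun q : Hs => ‖yy q‖ ^ 2) = fun q : Hs =>
      (1 + (q.2.re ^ 2 + q.2.im ^ 2)) ^ 2 + q.1 ^ 2 := by
    funext q
    rw [← Complex.normSq_eq_norm_sq, Complex.normSq_apply]
    have h3 : ‖q.2‖ ^ 2 = q.2.re ^ 2 + q.2.im ^ 2 := by
      rw [← Complex.normSq_eq_norm_sq, Complex.normSq_apply]; ring
    have h4 : (yy q).re = 1 + (q.2.re ^ 2 + q.2.im ^ 2) := by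
      unfold yy
      rw [h3]
      simp [-Complex.ofReal_pow, -Complex.ofReal_add]
    have h5 : (yy q).im = - q.1 := by
      unfold yy
      simp [-Complex.ofReal_pow]
    rw [h4, h5]
    ring
  have h6 : ContDiff ℝ n (fun q : Hs => ‖yy q‖ ^ 2) := by
    rw [h2]
    have h7 : ContDiff ℝ n (fun q : Hs => q.2.re) := Complex.reCLM.contDiff.comp contDiff_snd
    have h8 : ContDiff ℝ n (fun q : Hs => q.2.im) := Complex.imCLM.contDiff.comp contDiff_snd
    fun_prop
  refine ContDiff.inv (h6.pow m) fun q => ?_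
  have := norm_pos_iff.2 (yy_ne_zero q)
  positivity

/-- Low derivatives of a homogeneous polynomial vanish at the origin. -/
theorem jpoly_low {j : ℕ} (A : ContinuousMultilinearMap ℝ (fun _ : Fin j => Hs) ℝ) {i : ℕ}
    (hi : i < j) : iteratedFDeriv ℝ i (fun q : Hs => A (fun _ => q)) 0 = 0 := by
  have hC : ∀ n : WithTop ℕ∞, ContDiff ℝ n (fun q : Hs => A (fun _ => q)) := fun n =>
    A.contDiff.comp (contDiff_pi.2 fun _ => contDiff_id)
  have h1 := iteratedFDeriv_comp_const_smul (𝕜 := ℝ) (i := i) (2 : ℝ) (hC i)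
  have h2 : (fun z : Hs => (fun q : Hs => A (fun _ => q)) ((2:ℝ) • z)) =
      fun z : Hs => (2:ℝ) ^ j • (fun q : Hs => A (fun _ => q)) z := by
    funext z
    have h3 := A.map_smul_univ (fun _ => (2:ℝ)) (fun _ => z)
    simp only [Finset.prod_const, Finset.card_univ, Fintype.card_fin] at h3
    exact h3
  rw [h2] at h1
  have h4 := congrFun h1 0
  rw [iteratedFDeriv_const_smul_apply' (hC i).contDiffAt] at h4
  simp only [smul_zero] at h4
  have h5 : ((2:ℝ) ^ j - 2 ^ i) • iteratedFDeriv ℝ i (fun q : Hs => A (fun _ => q)) 0 = 0 := by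
    rw [sub_smul, h4, sub_self]
  rcases smul_eq_zero.1 h5 with h6 | h6
  · have : (2:ℝ) ^ i < 2 ^ j := pow_lt_pow_right₀ (by norm_num) hi
    linarith
  · exact h6

/-- The correction step: a homogeneous polynomial of degree `j ≤ m` divided by `ω^m`. -/
theorem jet_step (m j : ℕ) (hj : j ≤ m) : ∃ C : ℝ, 0 ≤ C ∧
    ∀ (F : Hs → ℝ), ContDiff ℝ j F → (∀ i < j, iteratedFDeriv ℝ i F 0 = 0) →
      ∃ a : (Fin m → Fin 4) → ℝ, (∀ φ, |a φ| ≤ C * ‖iteratedFDeriv ℝ j F 0‖) ∧
        ∀ i ≤ j, iteratedFDeriv ℝ i (fun q => F q - ∑ φ, a φ * xip m φ q) 0 = 0 := by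
  classical
  obtain ⟨d, rfl⟩ := Nat.exists_eq_add_of_le hj
  refine ⟨3 ^ j, by positivity, fun F hF hlow => ?_⟩
  set A := iteratedFDeriv ℝ j F 0 with hA
  set c : ℝ := ((j.factorial : ℝ))⁻¹ with hc
  have hc0 : 0 ≤ c := by positivity
  have hc1 : c ≤ 1 := by
    rw [hc]
    apply inv_le_one_of_one_le₀
    exact_mod_cast Nat.succ_le_of_lt j.factorial_pos
  set a : (Fin (j + d) → Fin 4) → ℝ := fun φ => ∑ ψ : Fin j → Fin 3,
    if jidx j d ψ = φ then c * A (fun i => jbas (ψ i)) else 0 with ha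
  have hAb : ∀ ψ : Fin j → Fin 3, |c * A (fun i => jbas (ψ i))| ≤ ‖A‖ := by
    intro ψ
    rw [abs_mul, abs_of_nonneg hc0]
    have h1 : |A (fun i => jbas (ψ i))| ≤ ‖A‖ := by
      rw [← Real.norm_eq_abs]
      refine (A.le_opNorm _).trans ?_
      refine mul_le_of_le_one_right (norm_nonneg _) ?_
      exact Finset.prod_le_one (fun i _ => norm_nonneg _) (fun i _ => norm_jbas _)
    calc c * |A (fun i => jbas (ψ i))| ≤ 1 * ‖A‖ :=
          mul_le_mul hc1 h1 (abs_nonneg _) zero_le_one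
      _ = ‖A‖ := one_mul _
  refine ⟨a, fun φ => ?_, ?_⟩
  · calc |a φ| ≤ ∑ ψ : Fin j → Fin 3, |if jidx j d ψ = φ then c * A (fun i => jbas (ψ i)) else 0| :=
          Finset.abs_sum_le_sum_abs _ _
      _ ≤ ∑ ψ : Fin j → Fin 3, ‖A‖ := by
          refine Finset.sum_le_sum fun ψ _ => ?_
          split_ifs
          · exact hAb ψ
          · simp
      _ = 3 ^ j * ‖A‖ := by
          rw [Finset.sum_const, Finset.card_univ]
          simp
  -- the sum
  set p : Hs → ℝ := fun q => c * A (fun _ => q) with hp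
  have hsum : ∀ q, ∑ φ, a φ * xip (j + d) φ q = p q * jfac (j + d) q := by
    intro q
    simp only [ha, Finset.sum_mul]
    rw [Finset.sum_comm]
    simp only [hp]
    rw [jexpand A q, Finset.mul_sum, Finset.sum_mul]
    refine Finset.sum_congr rfl fun ψ _ => ?_
    rw [Finset.sum_eq_single (jidx j d ψ)]
    · rw [if_pos rfl, xip_jidx, jfac]
      ring
    · intro φ _ hφ
      rw [if_neg (Ne.symm hφ), zero_mul]
    · intro h
      exact absurd (Finset.mem_univ _) h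
  have hpC : ∀ n : WithTop ℕ∞, ContDiff ℝ n p := fun n =>
    contDiff_const.mul (A.contDiff.comp (contDiff_pi.2 fun _ => contDiff_id))
  have hqC : ∀ n : WithTop ℕ∞, ContDiff ℝ n (fun q : Hs => A (fun _ => q)) := fun n =>
    A.contDiff.comp (contDiff_pi.2 fun _ => contDiff_id)
  have hpsm : p = fun q => c • (fun q : Hs => A (fun _ => q)) q := rfl
  have hplow : ∀ i < j, iteratedFDeriv ℝ i p 0 = 0 := by
    intro i hi
    rw [hpsm, iteratedFDeriv_const_smul_apply' (hqC i).contDiffAt, jpoly_low A hi, smul_zero]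
  have hptop : iteratedFDeriv ℝ j p 0 = A := by
    rw [hpsm, iteratedFDeriv_const_smul_apply' (hqC j).contDiffAt]
    ext v
    rw [smul_apply,
      ContinuousMultilinearMap.iteratedFDeriv_comp_diagonal]
    have h1 : ∀ σ : Equiv.Perm (Fin j), A (fun i => v (σ i)) = A v := fun σ =>
      iteratedFDeriv_perm hF σ 0 v
    simp_rw [h1]
    rw [Finset.sum_const, Finset.card_univ, Fintype.card_perm, Fintype.card_fin, nsmul_eq_mul,
      smul_eq_mul, hc, ← mul_assoc, inv_mul_cancel₀, one_mul]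
    exact_mod_cast j.factorial_ne_zero
  set g : Hs → ℝ := fun q => jfac (j + d) q - 1 with hg
  have hgC : ∀ n : WithTop ℕ∞, ContDiff ℝ n g := fun n => (contDiff_jfac _).sub contDiff_const
  have hg0 : g 0 = 0 := by simp [hg, jfac_zero]
  have hprod : ∀ i ≤ j, iteratedFDeriv ℝ i (fun q => p q * g q) 0 = 0 := by
    intro i hi
    have h1 := norm_iteratedFDeriv_mul_le (hpC i) (hgC i) (0 : Hs) (n := i) le_rfl
    have h2 : ∑ l ∈ Finset.range (i + 1), (i.choose l : ℝ) * ‖iteratedFDeriv ℝ l p 0‖ *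
        ‖iteratedFDeriv ℝ (i - l) g 0‖ = 0 := by
      refine Finset.sum_eq_zero fun l hl => ?_
      have hl' := Finset.mem_range.1 hl
      rcases Nat.lt_or_ge l j with h3 | h3
      · rw [hplow l h3]; simp
      · have h4 : i - l = 0 := by omega
        rw [h4, norm_iteratedFDeriv_zero, hg0]; simp
    rw [h2] at h1
    exact norm_le_zero_iff.1 h1
  intro i hi
  have hFi : ContDiff ℝ i F := hF.of_le (by exact_mod_cast hi)
  have e : (fun q => F q - ∑ φ, a φ * xip (j + d) φ q) =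
      fun q => (F q - p q) - (p q * g q) := by
    funext q
    rw [hsum]
    simp only [hg]
    ring
  have e1 := iteratedFDeriv_sub_apply (x := (0 : Hs)) (hFi.sub (hpC i)).contDiffAt
    ((hpC i).mul (hgC i)).contDiffAt
  have e2 := iteratedFDeriv_sub_apply (x := (0 : Hs)) hFi.contDiffAt (hpC i).contDiffAt
  have e3 : iteratedFDeriv ℝ i (fun q => (F q - p q) - (p q * g q)) 0 =
      iteratedFDeriv ℝ i F 0 - iteratedFDeriv ℝ i p 0 - iteratedFDeriv ℝ i (fun q => p q * g q) 0 := by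
    rw [← e2]
    exact e1
  rw [e, e3, hprod i hi, sub_zero]
  rcases Nat.lt_or_ge i j with h3 | h3
  · rw [hlow i h3, hplow i h3, sub_zero]
  · have h4 : i = j := le_antisymm hi h3
    subst h4
    rw [hptop, sub_self]

theorem adm_const_mul {m : ℕ} {C : ℝ} {F : Hs → ℝ} (hF : Adm m (fun _ => C) F) (a : ℝ) :
    Adm m (fun _ => |a| * C) (fun q => a * F q) := by
  have h := hF.clm (a • ContinuousLinearMap.id ℝ ℝ) (K := |a|) (by
    rw [norm_smul, Real.norm_eq_abs]
    exact mul_le_of_le_one_right (abs_nonneg _) ContinuousLinearMap.norm_id_le)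
  simpa using h

theorem jet_claim (m : ℕ) : ∀ j ≤ m, ∃ C : ℝ, 0 ≤ C ∧ ∀ (c : ℝ) (F : Hs → ℝ),
    Adm m (fun _ => c) F → ∃ a : (Fin m → Fin 4) → ℝ, (∀ φ, |a φ| ≤ C * c) ∧
      ∀ i < j, iteratedFDeriv ℝ i (fun q => F q - ∑ φ, a φ * xip m φ q) 0 = 0 := by
  obtain ⟨Cx, hCx, hx⟩ := adm_xip m m
  obtain ⟨Cd, hCd, hd⟩ := norm_iteratedFDeriv_zero_le m
  intro j
  induction j with
  | zero =>
    intro _
    refine ⟨0, le_rfl, fun c F hF => ⟨fun _ => 0, fun φ => ?_, fun i hi => ?_⟩⟩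
    · simp
    · exact absurd hi (Nat.not_lt_zero _)
  | succ j ih =>
    intro hj
    obtain ⟨C, hC, hcl⟩ := ih (by omega)
    obtain ⟨Cs, hCs, hst⟩ := jet_step m j (by omega)
    refine ⟨C + Cs * (Cd * (1 + (4 : ℝ) ^ m * (C * Cx))), by positivity, fun c F hF => ?_⟩
    have hc : 0 ≤ c := hF.nonneg 0
    obtain ⟨a, ha, hlow⟩ := hcl c F hF
    set F' : Hs → ℝ := fun q => F q - ∑ φ, a φ * xip m φ q with hF'
    have hadm : Adm m (fun _ => (1 + (4 : ℝ) ^ m * (C * Cx)) * c) F' := by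
      have h1 : Adm m (fun q : Hs => ∑ φ : Fin m → Fin 4, |a φ| * Cx)
          (fun q => ∑ φ, a φ * xip m φ q) :=
        Adm.sum Finset.univ (fun φ _ => adm_const_mul (hx φ) (a φ))
      refine (hF.sub h1).mono fun q => ?_
      have h2 : ∑ φ : Fin m → Fin 4, |a φ| * Cx ≤ ∑ φ : Fin m → Fin 4, C * c * Cx :=
        Finset.sum_le_sum fun φ _ => mul_le_mul_of_nonneg_right (ha φ) hCx
      rw [Finset.sum_const, Finset.card_univ] at h2
      simp only [Fintype.card_pi, Fintype.card_fin, Finset.prod_const, Finset.card_univ,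
        nsmul_eq_mul, Nat.cast_pow, Nat.cast_ofNat] at h2
      calc c + ∑ φ : Fin m → Fin 4, |a φ| * Cx ≤ c + 4 ^ m * (C * c * Cx) := by linarith
        _ = (1 + (4 : ℝ) ^ m * (C * Cx)) * c := by ring
    have hCD : ContDiff ℝ j F' := (hadm.of_le (show j ≤ m by omega)).contDiff
    obtain ⟨b, hb, hlow'⟩ := hst F' hCD hlow
    refine ⟨fun φ => a φ + b φ, fun φ => ?_, fun i hi => ?_⟩
    · have h3 := hd _ F' hadm j (by omega)
      calc |a φ + b φ| ≤ |a φ| + |b φ| := abs_add_le _ _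
        _ ≤ C * c + Cs * ‖iteratedFDeriv ℝ j F' 0‖ := add_le_add (ha φ) (hb φ)
        _ ≤ C * c + Cs * (Cd * ((1 + (4 : ℝ) ^ m * (C * Cx)) * c)) := by gcongr
        _ = (C + Cs * (Cd * (1 + (4 : ℝ) ^ m * (C * Cx)))) * c := by ring
    · have e : (fun q => F q - ∑ φ, (a φ + b φ) * xip m φ q) =
          fun q => F' q - ∑ φ, b φ * xip m φ q := by
        funext q
        simp only [hF', add_mul, Finset.sum_add_distrib]
        ring
      rw [e]
      exact hlow' i (by omega)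

theorem jet_match (m : ℕ) : ∃ C : ℝ, 0 ≤ C ∧ ∀ (c : ℝ) (F : Hs → ℝ), Adm m (fun _ => c) F →
    ∃ a : (Fin m → Fin 4) → ℝ, (∀ φ, |a φ| ≤ C * c) ∧
      Van m 0 (fun q => F q - ∑ φ, a φ * xip m φ q) := by
  obtain ⟨C, hC, hcl⟩ := jet_claim m m le_rfl
  obtain ⟨Cx, hCx, hx⟩ := adm_xip m m
  refine ⟨C, hC, fun c F hF => ?_⟩
  obtain ⟨a, ha, hlow⟩ := hcl c F hF
  refine ⟨a, ha, van_of_iteratedFDeriv ?_ hlow⟩
  have h1 : Adm m (fun q : Hs => ∑ φ : Fin m → Fin 4, |a φ| * Cx)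
      (fun q => ∑ φ, a φ * xip m φ q) :=
    Adm.sum Finset.univ (fun φ _ => adm_const_mul (hx φ) (a φ))
  exact (hF.sub h1).contDiff

end MP640201
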