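import Pool.Agent.H.MP_640201_an.Basic

/-! MP_640201_an: one-dimensional sums for the lattice sum bound. -/

open Complex
open scoped ComplexConjugate ENNReal

namespace MP640201

namespace LatAux

theorem sum_range_le (M : ℕ) (hM : 1 ≤ M) (K : ℕ) :
    ∑ m ∈ Finset.range (K + 1), ((1 + (m : ℝ) / M)⁻¹) ^ 2 ≤ 1 + M - (M : ℝ) ^ 2 / (M + K) := by
  have hM0 : (0 : ℝ) < M := by exact_mod_cast hM
  induction K with
  | zero =>
    simp
    field_simp
    simp
  | succ K ih =>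
    rw [Finset.sum_range_succ]
    have h1 : (0 : ℝ) < M + K := by positivity
    have h2 : (0 : ℝ) < M + (K + 1) := by positivity
    have h3 : ((1 + ((K + 1 : ℕ) : ℝ) / M)⁻¹) ^ 2 = (M : ℝ) ^ 2 / (M + (K + 1)) ^ 2 := by
      push_cast
      field_simp
    have h4 : (M : ℝ) ^ 2 / (M + (K + 1)) ^ 2 ≤
        (M : ℝ) ^ 2 / (M + K) - (M : ℝ) ^ 2 / (M + (K + 1)) := by
      rw [div_sub_div _ _ h1.ne' h2.ne', div_le_div_iff₀ (by positivity) (by positivity)]
      nlinarith [mul_pos (mul_pos hM0 hM0) h2]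
    rw [h3]
    push_cast
    linarith

theorem tsum_nat_le (M : ℕ) (hM : 1 ≤ M) :
    ∑' m : ℕ, ENNReal.ofReal (((1 + (m : ℝ) / M)⁻¹) ^ 2) ≤ ENNReal.ofReal (1 + M) := by
  have hM0 : (0 : ℝ) < M := by exact_mod_cast hM
  refine ENNReal.tsum_le_of_sum_range_le fun K => ?_
  rw [← ENNReal.ofReal_sum_of_nonneg (fun _ _ => by positivity)]
  apply ENNReal.ofReal_le_ofReal
  rcases K with _ | K
  · simp; positivity
  · have := sum_range_le M hM K
    have h2 : (0 : ℝ) ≤ (M : ℝ) ^ 2 / (M + K) := by positivity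
    linarith

/-- The one-dimensional sum. -/
theorem tsum_int_le (M : ℕ) (hM : 1 ≤ M) (τ : ℝ) :
    ∑' a : ℤ, ENNReal.ofReal (((1 + |τ - a / M|)⁻¹) ^ 2) ≤ ENNReal.ofReal (5 * M) := by
  have hM0 : (0 : ℝ) < M := by exact_mod_cast hM
  have hM1 : (1 : ℝ) ≤ M := by exact_mod_cast hM
  set a₀ : ℤ := ⌊τ * M⌋ with ha₀
  have hf1 : (a₀ : ℝ) ≤ τ * M := Int.floor_le _
  have hf2 : τ * M < a₀ + 1 := Int.lt_floor_add_one _
  rw [← (Equiv.addRight a₀).tsum_eq]
  rw [tsum_of_nat_of_neg_add_one ENNReal.summable ENNReal.summable]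
  have key : ∀ (u v : ℝ), 0 ≤ v → v ≤ |u| * M →
      ENNReal.ofReal (((1 + |u|)⁻¹) ^ 2) ≤ ENNReal.ofReal (((1 + v / M)⁻¹) ^ 2) := by
    intro u v hv huv
    apply ENNReal.ofReal_le_ofReal
    have h1 : v / M ≤ |u| := by rw [div_le_iff₀ hM0]; exact huv
    gcongr
  have e1 : ∑' n : ℕ, ENNReal.ofReal
      (((1 + |τ - ((Equiv.addRight a₀ (n : ℤ) : ℤ) : ℝ) / M|)⁻¹) ^ 2) ≤
      1 + ENNReal.ofReal (1 + M) := by
    rw [tsum_eq_zero_add' ENNReal.summable]
    refine add_le_add ?_ ((ENNReal.tsum_le_tsum fun n => ?_).trans (tsum_nat_le M hM))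
    · rw [← ENNReal.ofReal_one]
      apply ENNReal.ofReal_le_ofReal
      apply pow_le_one₀ (by positivity)
      apply inv_le_one_of_one_le₀
      linarith [abs_nonneg (τ - ((Equiv.addRight a₀ ((0 : ℕ) : ℤ) : ℤ) : ℝ) / M)]
    · refine key _ _ (by positivity) ?_
      have h1 : |τ - ((Equiv.addRight a₀ ((n + 1 : ℕ) : ℤ) : ℤ) : ℝ) / M| * M =
          |τ * M - ((n + 1) + a₀)| := by
        rw [← abs_of_pos hM0, ← abs_mul, abs_of_pos hM0]
        congr 1
        rw [sub_mul, div_mul_cancel₀ _ hM0.ne']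
        simp
      rw [h1, abs_sub_comm, le_abs]
      left
      linarith
  have e2 : ∑' n : ℕ, ENNReal.ofReal
      (((1 + |τ - ((Equiv.addRight a₀ (-((n : ℤ) + 1)) : ℤ) : ℝ) / M|)⁻¹) ^ 2) ≤
      ENNReal.ofReal (1 + M) := by
    refine (ENNReal.tsum_le_tsum fun n => ?_).trans (tsum_nat_le M hM)
    refine key _ _ (by positivity) ?_
    have h1 : |τ - ((Equiv.addRight a₀ (-((n : ℤ) + 1)) : ℤ) : ℝ) / M| * M =
        |τ * M - (-(n + 1) + a₀)| := by
      rw [← abs_of_pos hM0, ← abs_mul, abs_of_pos hM0]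
      congr 1
      rw [sub_mul, div_mul_cancel₀ _ hM0.ne']
      simp
    rw [h1, le_abs]
    left
    linarith
  refine (add_le_add e1 e2).trans ?_
  rw [← ENNReal.ofReal_one, ← ENNReal.ofReal_add (by norm_num) (by positivity),
    ← ENNReal.ofReal_add (by positivity) (by positivity)]
  apply ENNReal.ofReal_le_ofReal
  linarith

/-- The same with `(1 + u²)⁻¹`. -/
theorem tsum_int_le' (M : ℕ) (hM : 1 ≤ M) (τ : ℝ) :
    ∑' a : ℤ, ENNReal.ofReal ((1 + (τ - a / M) ^ 2)⁻¹) ≤ ENNReal.ofReal (10 * M) := by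
  have hM0 : (0 : ℝ) < M := by exact_mod_cast hM
  have h1 : ∀ a : ℤ, ENNReal.ofReal ((1 + (τ - a / M) ^ 2)⁻¹) ≤
      ENNReal.ofReal 2 * ENNReal.ofReal (((1 + |τ - a / M|)⁻¹) ^ 2) := by
    intro a
    rw [← ENNReal.ofReal_mul (by norm_num)]
    apply ENNReal.ofReal_le_ofReal
    set u := τ - a / M
    rw [inv_pow, inv_le_iff_one_le_mul₀ (by positivity), mul_comm, ← mul_assoc,
      ← div_eq_mul_inv, one_le_div (by positivity)]
    nlinarith [sq_nonneg (1 - |u|), sq_abs u]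
  refine (ENNReal.tsum_le_tsum h1).trans ?_
  rw [ENNReal.tsum_mul_left]
  refine (mul_le_mul_right (tsum_int_le M hM τ) _).trans ?_
  rw [← ENNReal.ofReal_mul (by norm_num)]
  apply ENNReal.ofReal_le_ofReal
  linarith

end LatAux

end MP640201
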