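import Pool.Agent.H.MP_640201_an.Classes
import Pool.Agent.H.MP_640201_an.LatticeAux

/-! MP_640201_an: the lattice, lattice sums, separation. -/

open Complex
open scoped ComplexConjugate

namespace MP640201

/-- Group law on the indices. -/
def imul (n k : Idx) : Idx :=
  (n.1 + k.1 + 2 * (n.2.2 * k.2.1 - n.2.1 * k.2.2), n.2.1 + k.2.1, n.2.2 + k.2.2)

theorem lat_imul {N : ℕ} (hN : 1 ≤ N) (n k : Idx) :
    lat N (imul n k) = hmul (lat N n) (lat N k) := by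
  have hN0 : (N : ℝ) ≠ 0 := by
    have : (0 : ℝ) < N := by exact_mod_cast hN
    exact this.ne'
  apply Prod.ext
  · simp only [lat, imul, hmul]
    push_cast
    simp
    field_simp
    ring
  · simp only [lat, imul, hmul]
    push_cast
    ring

theorem lat_neg (N : ℕ) (n : Idx) : lat N (-n) = hinv (lat N n) := by
  apply Prod.ext
  · simp [lat, hinv, neg_div]
  · simp [lat, hinv, neg_div]
    ring

/-- Left multiplication is a bijection of the indices. -/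
theorem exists_equiv_left (n : Idx) : ∃ e : Idx ≃ Idx, ∀ k, e k = imul n k := by
  refine ⟨⟨fun k => imul n k, fun k => imul (-n) k, fun k => ?_, fun k => ?_⟩, fun k => rfl⟩
  · simp only [imul]
    refine Prod.ext ?_ (Prod.ext ?_ ?_) <;> simp <;> ring
  · simp only [imul]
    refine Prod.ext ?_ (Prod.ext ?_ ?_) <;> simp <;> ring

/-- Right multiplication is a bijection of the indices. -/
theorem exists_equiv_right (n : Idx) : ∃ e : Idx ≃ Idx, ∀ k, e k = imul k n := by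
  refine ⟨⟨fun k => imul k n, fun k => imul k (-n), fun k => ?_, fun k => ?_⟩, fun k => rfl⟩
  · simp only [imul]
    refine Prod.ext ?_ (Prod.ext ?_ ?_) <;> simp <;> ring
  · simp only [imul]
    refine Prod.ext ?_ (Prod.ext ?_ ?_) <;> simp <;> ring

/-- Left invariance of lattice sums. -/
theorem tsum_lq_left {E : Type*} [NormedAddCommGroup E] {N : ℕ} (hN : 1 ≤ N) (F : Hs → E)
    (n : Idx) (z : Hs) :
    ∑' k, F (lq N k (hmul (lat N n) z)) = ∑' k, F (lq N k z) := by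
  obtain ⟨e, he⟩ := exists_equiv_left (-n)
  rw [← e.tsum_eq (fun k => F (lq N k z))]
  refine tsum_congr fun k => ?_
  rw [he]
  congr 1
  unfold lq
  rw [lat_imul hN, lat_neg, hinv_hmul_rev, hinv_hinv, hmul_assoc]

/-- Invariance of the sums under shifts from inside. -/
theorem tsum_lq_shift {E : Type*} [NormedAddCommGroup E] {N : ℕ} (hN : 1 ≤ N) (F : Hs → E)
    (n : Idx) (z : Hs) :
    ∑' k, F (hmul (lat N n) (lq N k z)) = ∑' k, F (lq N k z) := by
  obtain ⟨e, he⟩ := exists_equiv_right (-n)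
  rw [← e.tsum_eq (fun k => F (lq N k z))]
  refine tsum_congr fun k => ?_
  rw [he]
  congr 1
  unfold lq
  rw [lat_imul hN, lat_neg, hinv_hmul_rev, hinv_hinv, hmul_assoc]

/-- coordinates of `lq` -/
theorem lq_fst (N : ℕ) (n : Idx) (z : Hs) :
    (lq N n z).1 = (z.1 + 2 * ((n.2.1 : ℝ) / N * z.2.im - (n.2.2 : ℝ) / N * z.2.re)) -
      (n.1 : ℝ) / ((N ^ 2 : ℕ) : ℝ) := by
  simp only [lq, hmul, hinv, lat]
  simp
  ring

theorem lq_re (N : ℕ) (n : Idx) (z : Hs) : (lq N n z).2.re = z.2.re - (n.2.1 : ℝ) / N := by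
  simp only [lq, hmul, hinv, lat]
  simp
  ring

theorem lq_im (N : ℕ) (n : Idx) (z : Hs) : (lq N n z).2.im = z.2.im - (n.2.2 : ℝ) / N := by
  simp only [lq, hmul, hinv, lat]
  simp
  ring

theorem wp4_le (q : Hs) :
    wp 4 q ≤ ((1 + |q.1|)⁻¹) ^ 2 * ((1 + q.2.re ^ 2)⁻¹ * (1 + q.2.im ^ 2)⁻¹) := by
  have h1 : ‖q.2‖ ^ 2 = q.2.re ^ 2 + q.2.im ^ 2 := by
    rw [← Complex.normSq_eq_norm_sq, Complex.normSq_apply]; ring
  have h2 : 1 + |q.1| ≤ vw q := by
    unfold vw; rw [h1]; nlinarith [sq_nonneg q.2.re, sq_nonneg q.2.im]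
  have h3 : 1 + q.2.re ^ 2 ≤ vw q := by
    unfold vw; rw [h1]; nlinarith [sq_nonneg q.2.re, sq_nonneg q.2.im, abs_nonneg q.1]
  have h4 : 1 + q.2.im ^ 2 ≤ vw q := by
    unfold vw; rw [h1]; nlinarith [sq_nonneg q.2.re, sq_nonneg q.2.im, abs_nonneg q.1]
  have e : wp 4 q = ((vw q)⁻¹) ^ 2 * ((vw q)⁻¹ * (vw q)⁻¹) := by unfold wp; ring
  rw [e]
  have := vw_pos q
  gcongr

/-- The lattice sum bound. -/
theorem lat_sum : ∃ C : ℝ, 1 ≤ C ∧ ∀ N : ℕ, 1 ≤ N → ∀ z : Hs,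
    Summable (fun n : Idx => wp 4 (lq N n z)) ∧
      ∑' n : Idx, wp 4 (lq N n z) ≤ C * (N : ℝ) ^ 4 := by
  refine ⟨500, by norm_num, fun N hN z => ?_⟩
  have hN0 : (0 : ℝ) < N := by exact_mod_cast hN
  have hN2 : 1 ≤ N ^ 2 := Nat.one_le_pow _ _ hN
  have hE : ∑' n : Idx, ENNReal.ofReal (wp 4 (lq N n z)) ≤ ENNReal.ofReal (500 * (N : ℝ) ^ 4) := by
    set H : ℝ → ℤ → ENNReal := fun x b => ENNReal.ofReal ((1 + (x - b / N) ^ 2)⁻¹) with hH
    have h1 : ∀ n : Idx, ENNReal.ofReal (wp 4 (lq N n z)) ≤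
        ENNReal.ofReal (((1 + |(z.1 + 2 * ((n.2.1 : ℝ) / N * z.2.im - (n.2.2 : ℝ) / N * z.2.re)) -
          (n.1 : ℝ) / ((N ^ 2 : ℕ) : ℝ)|)⁻¹) ^ 2) * (H z.2.re n.2.1 * H z.2.im n.2.2) := by
      intro n
      rw [hH]
      simp only
      rw [← ENNReal.ofReal_mul (by positivity), ← ENNReal.ofReal_mul (by positivity)]
      apply ENNReal.ofReal_le_ofReal
      have := wp4_le (lq N n z)
      rwa [lq_fst, lq_re, lq_im] at this
    refine (ENNReal.tsum_le_tsum h1).trans ?_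
    rw [ENNReal.tsum_prod', ENNReal.tsum_comm]
    have h2 : ∀ bc : ℤ × ℤ, ∑' a : ℤ,
        ENNReal.ofReal (((1 + |(z.1 + 2 * ((bc.1 : ℝ) / N * z.2.im - (bc.2 : ℝ) / N * z.2.re)) -
          (a : ℝ) / ((N ^ 2 : ℕ) : ℝ)|)⁻¹) ^ 2) * (H z.2.re bc.1 * H z.2.im bc.2) ≤
        ENNReal.ofReal (5 * ((N ^ 2 : ℕ) : ℝ)) * (H z.2.re bc.1 * H z.2.im bc.2) := by
      intro bc
      rw [ENNReal.tsum_mul_right]
      exact mul_le_mul_left (LatAux.tsum_int_le (N ^ 2) hN2 _) _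
    refine (ENNReal.tsum_le_tsum h2).trans ?_
    rw [ENNReal.tsum_mul_left, ENNReal.tsum_prod']
    have h3 : ∀ b : ℤ, ∑' c : ℤ, H z.2.re b * H z.2.im c ≤
        H z.2.re b * ENNReal.ofReal (10 * N) := by
      intro b
      rw [ENNReal.tsum_mul_left]
      exact mul_le_mul_right (LatAux.tsum_int_le' N hN _) _
    have h4 : ∑' b : ℤ, ∑' c : ℤ, H z.2.re b * H z.2.im c ≤
        ENNReal.ofReal (10 * N) * ENNReal.ofReal (10 * N) := by
      refine (ENNReal.tsum_le_tsum h3).trans ?_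
      rw [ENNReal.tsum_mul_right]
      exact mul_le_mul_left (LatAux.tsum_int_le' N hN _) _
    refine (mul_le_mul_right h4 _).trans ?_
    rw [← ENNReal.ofReal_mul (by positivity), ← ENNReal.ofReal_mul (by positivity)]
    apply ENNReal.ofReal_le_ofReal
    push_cast
    apply le_of_eq
    ring
  have hfin : ∀ u : Finset Idx, ∑ n ∈ u, wp 4 (lq N n z) ≤ 500 * (N : ℝ) ^ 4 := by
    intro u
    rw [← ENNReal.ofReal_le_ofReal_iff (by positivity),
      ENNReal.ofReal_sum_of_nonneg (fun n _ => wp_nonneg 4 _)]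
    exact (ENNReal.sum_le_tsum u).trans hE
  have hs : Summable (fun n : Idx => wp 4 (lq N n z)) :=
    summable_of_sum_le (fun n => wp_nonneg 4 _) hfin
  exact ⟨hs, hs.tsum_le_of_sum_le hfin⟩

theorem lus_lq {N : ℕ} (hN : 1 ≤ N) {p : ℕ} (hp : 4 ≤ p) (K : ℝ) (hK : 0 ≤ K) :
    LUS (fun (n : Idx) (q : Hs) => K * wp p (lq N n q)) := by
  obtain ⟨C, -, hC⟩ := lat_sum
  intro q₀
  refine ⟨fun n => K * (6 ^ p * wp p (lq N n q₀)), ?_, ?_⟩
  · have h1 : Summable (fun n : Idx => wp p (lq N n q₀)) :=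
      Summable.of_nonneg_of_le (fun n => wp_nonneg p _) (fun n => wp_anti hp _) (hC N hN q₀).1
    exact (h1.mul_left (6 ^ p)).mul_left K
  · have hcont : Continuous (fun q : Hs => vw (hmul (hinv q) q₀)) := by
      refine continuous_vw.comp ?_
      unfold hmul hinv
      fun_prop
    have h0 : vw (hmul (hinv q₀) q₀) < 2 := by
      rw [hinv_hmul]
      simp [vw]
    filter_upwards [(hcont.tendsto q₀).eventually_lt_const h0] with q hq n
    refine mul_le_mul_of_nonneg_left ?_ hK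
    have h1 : lq N n q₀ = hmul (lq N n q) (hmul (hinv q) q₀) := by
      unfold lq
      rw [hmul_assoc, ← hmul_assoc q, hmul_hinv, zero_hmul]
    have h2 : vw (lq N n q₀) ≤ 6 * vw (lq N n q) := by
      rw [h1]
      refine (vw_hmul_le _ _).trans ?_
      have := vw_pos (lq N n q)
      nlinarith
    rw [wp, wp, ← mul_pow]
    have h3 := vw_pos (lq N n q)
    have h4 := vw_pos (lq N n q₀)
    apply pow_le_pow_left₀ (inv_nonneg.2 h3.le)
    rw [← div_eq_mul_inv, le_div_iff₀ h4, inv_mul_le_iff₀ h3]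
    linarith

/-- Every point is equivalent to a bounded one. -/
theorem exists_cell {N : ℕ} (hN : 1 ≤ N) (z : Hs) :
    ∃ (n : Idx) (z' : Hs), z = hmul (lat N n) z' ∧ ‖z'‖ ≤ 2 := by
  have hN0 : (0 : ℝ) < N := by exact_mod_cast hN
  have hN1 : (1 : ℝ) ≤ N := by exact_mod_cast hN
  set b : ℤ := ⌊(N : ℝ) * z.2.re⌋ with hb
  set c : ℤ := ⌊(N : ℝ) * z.2.im⌋ with hc
  set s : ℝ := z.1 + 2 * ((b : ℝ) / N * z.2.im - (c : ℝ) / N * z.2.re) with hs
  set a : ℤ := ⌊((N ^ 2 : ℕ) : ℝ) * s⌋ with ha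
  have key : ∀ (M : ℕ) (x : ℝ), 1 ≤ M → |x - (⌊(M : ℝ) * x⌋ : ℝ) / M| ≤ 1 := by
    intro M x hM
    have hM0 : (0 : ℝ) < M := by exact_mod_cast hM
    have hM1 : (1 : ℝ) ≤ M := by exact_mod_cast hM
    have h1 := Int.floor_le ((M : ℝ) * x)
    have h2 := Int.lt_floor_add_one ((M : ℝ) * x)
    have h3 : x - (⌊(M : ℝ) * x⌋ : ℝ) / M = ((M : ℝ) * x - ⌊(M : ℝ) * x⌋) / M := by
      field_simp
    rw [h3, abs_of_nonneg (div_nonneg (by linarith) hM0.le), div_le_one hM0]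
    linarith
  refine ⟨(a, b, c), lq N (a, b, c) z, ?_, ?_⟩
  · unfold lq
    rw [← hmul_assoc, hmul_hinv, zero_hmul]
  · rw [Prod.norm_def]
    apply max_le
    · rw [lq_fst, Real.norm_eq_abs]
      have := key (N ^ 2) s (Nat.one_le_pow _ _ hN)
      have h2 : |s - (a : ℝ) / ((N ^ 2 : ℕ) : ℝ)| ≤ 1 := this
      exact h2.trans (by norm_num)
    · refine (Complex.norm_le_abs_re_add_abs_im _).trans ?_
      rw [lq_re, lq_im]
      have h1 : |z.2.re - (b : ℝ) / N| ≤ 1 := key N z.2.re hN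
      have h2 : |z.2.im - (c : ℝ) / N| ≤ 1 := key N z.2.im hN
      change |z.2.re - (b : ℝ) / N| + |z.2.im - (c : ℝ) / N| ≤ 2
      linarith

/-- Separation of lattice points of the same colour. -/
theorem sep {N D : ℕ} (hN : 1 ≤ N) (hD : 1 ≤ D) {n k : Idx} (hnk : n ≠ k)
    (hc : col D n = col D k) (z : Hs) :
    wp 1 (lq N n z) * wp 1 (lq N k z) ≤ 3 * (N : ℝ) ^ 2 / D := by
  have hN0 : (0 : ℝ) < N := by exact_mod_cast hN
  have hD0 : (0 : ℝ) < D := by exact_mod_cast hD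
  have hD1 : (1 : ℝ) ≤ D := by exact_mod_cast hD
  have h1 : hmul (lq N n z) (hinv (lq N k z)) = lat N (imul (-n) k) := by
    rw [lat_imul hN, lat_neg]
    unfold lq
    rw [hinv_hmul_rev, hinv_hinv, hmul_assoc, ← hmul_assoc z, hmul_hinv, zero_hmul]
  have h2 := vw_hmul_le (lq N n z) (hinv (lq N k z))
  rw [h1, vw_hinv] at h2
  have p1 := vw_pos (lq N n z)
  have p2 := vw_pos (lq N k z)
  have hdvd : ∀ x y : ℤ, (x : ZMod D) = (y : ZMod D) → x ≠ y → (D : ℝ) ≤ |(y : ℝ) - x| := by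
    intro x y hxy hne
    have h3 : (D : ℤ) ∣ y - x := (ZMod.intCast_eq_intCast_iff_dvd_sub x y D).mp hxy
    have h4 : (D : ℤ) ≤ |y - x| := by
      have h5 : y - x ≠ 0 := sub_ne_zero.mpr (Ne.symm hne)
      exact Int.le_of_dvd (abs_pos.mpr h5) ((dvd_abs _ _).mpr h3)
    have h6 : ((D : ℤ) : ℝ) ≤ ((|y - x| : ℤ) : ℝ) := by exact_mod_cast h4
    simpa using h6
  have hc1 : (n.1 : ZMod D) = (k.1 : ZMod D) := congrArg Prod.fst hc
  have hc2 : (n.2.1 : ZMod D) = (k.2.1 : ZMod D) := congrArg (fun x => x.2.1) hc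
  have hc3 : (n.2.2 : ZMod D) = (k.2.2 : ZMod D) := congrArg (fun x => x.2.2) hc
  have hsq : ∀ x : ℝ, (D : ℝ) ≤ |x| → (D : ℝ) / (N : ℝ) ^ 2 ≤ (x / N) ^ 2 := by
    intro x hx
    rw [div_pow]
    gcongr
    rw [← sq_abs]
    nlinarith
  have hlatre : (lat N (imul (-n) k)).2.re = ((k.2.1 : ℝ) - n.2.1) / N := by
    simp [lat, imul]; ring
  have hlatim : (lat N (imul (-n) k)).2.im = ((k.2.2 : ℝ) - n.2.2) / N := by
    simp [lat, imul]; ring
  have hnorm : ‖(lat N (imul (-n) k)).2‖ ^ 2 =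
      (((k.2.1 : ℝ) - n.2.1) / N) ^ 2 + (((k.2.2 : ℝ) - n.2.2) / N) ^ 2 := by
    rw [← Complex.normSq_eq_norm_sq, Complex.normSq_apply, hlatre, hlatim]; ring
  have h3 : (D : ℝ) / (N : ℝ) ^ 2 ≤ vw (lat N (imul (-n) k)) := by
    unfold vw
    rw [hnorm]
    by_cases hb : n.2.1 = k.2.1
    · by_cases hcc : n.2.2 = k.2.2
      · have ha : n.1 ≠ k.1 := by
          intro ha
          exact hnk (Prod.ext ha (Prod.ext hb hcc))
        have h4 := hdvd _ _ hc1 ha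
        have h5 : (lat N (imul (-n) k)).1 = ((k.1 : ℝ) - n.1) / (N : ℝ) ^ 2 := by
          simp only [lat, imul]
          simp only [Prod.fst_neg, Prod.snd_neg, hb, hcc]
          push_cast
          ring
        rw [h5, abs_div, abs_of_pos (show (0 : ℝ) < (N : ℝ) ^ 2 by positivity)]
        have h6 : (D : ℝ) / (N : ℝ) ^ 2 ≤ |(k.1 : ℝ) - n.1| / (N : ℝ) ^ 2 := by gcongr
        have h7 := sq_nonneg (((k.2.1 : ℝ) - n.2.1) / N)
        have h8 := sq_nonneg (((k.2.2 : ℝ) - n.2.2) / N)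
        linarith
      · have h4 := hsq _ (hdvd _ _ hc3 hcc)
        have h7 := sq_nonneg (((k.2.1 : ℝ) - n.2.1) / N)
        have h8 := abs_nonneg (lat N (imul (-n) k)).1
        linarith
    · have h4 := hsq _ (hdvd _ _ hc2 hb)
      have h7 := sq_nonneg (((k.2.2 : ℝ) - n.2.2) / N)
      have h8 := abs_nonneg (lat N (imul (-n) k)).1
      linarith
  have h4 : (D : ℝ) / (N : ℝ) ^ 2 ≤ 3 * vw (lq N n z) * vw (lq N k z) := h3.trans h2
  unfold wp
  rw [pow_one, pow_one, ← mul_inv, inv_le_iff_one_le_mul₀ (by positivity), div_mul_eq_mul_div,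
    le_div_iff₀ hD0]
  rw [div_le_iff₀ (by positivity)] at h4
  linarith

end MP640201
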