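import Pool.Agent.H.MP_640201_an.Classes

/-! MP_640201_an: locally uniformly summable series in the classes. -/

open Complex
open scoped ComplexConjugate

namespace MP640201

variable {ι : Type*} {E : Type*} [NormedAddCommGroup E] [NormedSpace ℝ E] [CompleteSpace E]

theorem LUS.summable {φ : ι → Hs → ℝ} (h : LUS φ) (h0 : ∀ n q, 0 ≤ φ n q) (q : Hs) :
    Summable (fun n => φ n q) := by
  obtain ⟨u, hu, hq⟩ := h q
  exact Summable.of_nonneg_of_le (fun n => h0 n q) (fun n => hq.self_of_nhds n) hu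

omit [CompleteSpace E] in
theorem Tsum_fderiv_le {F : Hs → E} {φ : Hs → ℝ} (hF : Adm 1 φ F) (q : Hs) :
    ‖fderiv ℝ F q‖ ≤ (3 + 4 * ‖q‖) * φ q := by
  have hφ := hF.nonneg q
  apply ContinuousLinearMap.opNorm_le_bound _ (by positivity)
  intro v
  rw [fderiv_eq_dX]
  have hX : ∀ i, ‖dX i F q‖ ≤ φ q := fun i => (hF.2.2 i).2 q
  have q1 : |q.2.im| ≤ ‖q‖ := (Complex.abs_im_le_norm _).trans (norm_snd_le q)
  have q2 : |q.2.re| ≤ ‖q‖ := (Complex.abs_re_le_norm _).trans (norm_snd_le q)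
  have v0 : |v.1| ≤ ‖v‖ := norm_fst_le v
  have v1 : |v.2.im| ≤ ‖v‖ := (Complex.abs_im_le_norm _).trans (norm_snd_le v)
  have v2 : |v.2.re| ≤ ‖v‖ := (Complex.abs_re_le_norm _).trans (norm_snd_le v)
  have nq := norm_nonneg q
  have nv := norm_nonneg v
  have c0 : |v.1 - 2 * q.2.im * v.2.re + 2 * q.2.re * v.2.im| ≤ (1 + 4 * ‖q‖) * ‖v‖ := by
    have e1 : |2 * q.2.im * v.2.re| ≤ 2 * ‖q‖ * ‖v‖ := by
      rw [abs_mul, abs_mul, abs_two]
      exact mul_le_mul (mul_le_mul_of_nonneg_left q1 (by norm_num)) v2 (abs_nonneg _)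
        (by positivity)
    have e2 : |2 * q.2.re * v.2.im| ≤ 2 * ‖q‖ * ‖v‖ := by
      rw [abs_mul, abs_mul, abs_two]
      exact mul_le_mul (mul_le_mul_of_nonneg_left q2 (by norm_num)) v1 (abs_nonneg _)
        (by positivity)
    have e3 := abs_add_le (v.1 - 2 * q.2.im * v.2.re) (2 * q.2.re * v.2.im)
    have e4 := abs_sub v.1 (2 * q.2.im * v.2.re)
    nlinarith
  calc ‖(v.1 - 2 * q.2.im * v.2.re + 2 * q.2.re * v.2.im) • dX 0 F q
      + v.2.re • dX 1 F q + v.2.im • dX 2 F q‖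
      ≤ ‖(v.1 - 2 * q.2.im * v.2.re + 2 * q.2.re * v.2.im) • dX 0 F q‖
        + ‖v.2.re • dX 1 F q‖ + ‖v.2.im • dX 2 F q‖ := norm_add₃_le
    _ ≤ ((1 + 4 * ‖q‖) * ‖v‖) * φ q + ‖v‖ * φ q + ‖v‖ * φ q := by
        rw [norm_smul, norm_smul, norm_smul]
        refine add_le_add (add_le_add ?_ ?_) ?_
        · exact mul_le_mul c0 (hX 0) (norm_nonneg _) (by positivity)
        · exact mul_le_mul v2 (hX 1) (norm_nonneg _) (by positivity)
        · exact mul_le_mul v1 (hX 2) (norm_nonneg _) (by positivity)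
    _ = (3 + 4 * ‖q‖) * φ q * ‖v‖ := by ring

omit [CompleteSpace E] in
/-- local bounds for the derivatives -/
theorem Tsum_local {F : ι → Hs → E} {φ : ι → Hs → ℝ} (hF : ∀ n, Adm 1 (φ n) (F n))
    (hφ : LUS φ) (q₀ : Hs) :
    ∃ (u : ι → ℝ) (ρ : ℝ), Summable u ∧ 0 < ρ ∧
      ∀ n, ∀ q ∈ Metric.ball q₀ ρ, ‖fderiv ℝ (F n) q‖ ≤ u n := by
  obtain ⟨u, hu, hq⟩ := hφ q₀
  obtain ⟨ρ, hρ, hb⟩ := Metric.eventually_nhds_iff_ball.1 hq
  refine ⟨fun n => (3 + 4 * (‖q₀‖ + ρ)) * u n, ρ, hu.mul_left _, hρ, fun n q hqb => ?_⟩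
  have h1 := Tsum_fderiv_le (hF n) q
  have h2 := hb q hqb n
  have h3 := (hF n).nonneg q
  have h4 : ‖q‖ ≤ ‖q₀‖ + ρ := by
    rw [mem_ball_iff_norm] at hqb
    have := norm_add_le (q - q₀) q₀
    rw [sub_add_cancel] at this
    linarith
  refine h1.trans (mul_le_mul (by linarith) h2 h3 ?_)
  have := norm_nonneg q₀
  linarith

omit [CompleteSpace E] in
theorem Tsum_summable_F {m : ℕ} {F : ι → Hs → E} {φ : ι → Hs → ℝ}
    (hF : ∀ n, Adm m (φ n) (F n)) (hφ : LUS φ) (q : Hs) : Summable (fun n => ‖F n q‖) :=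
  Summable.of_nonneg_of_le (fun _ => norm_nonneg _) (fun n => (hF n).bound q)
    (hφ.summable (fun n q => (hF n).nonneg q) q)

theorem Tsum_hasFDerivAt {F : ι → Hs → E} {φ : ι → Hs → ℝ} (hF : ∀ n, Adm 1 (φ n) (F n))
    (hφ : LUS φ) (q : Hs) :
    HasFDerivAt (fun q => ∑' n, F n q) (∑' n, fderiv ℝ (F n) q) q := by
  obtain ⟨u, ρ, hu, hρ, hb⟩ := Tsum_local hF hφ q
  exact hasFDerivAt_tsum_of_isPreconnected hu Metric.isOpen_ball
    (convex_ball q ρ).isPreconnected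
    (fun n x _ => (((hF n).1.differentiable one_ne_zero) x).hasFDerivAt) hb
    (Metric.mem_ball_self hρ) (Tsum_summable_F hF hφ q).of_norm (Metric.mem_ball_self hρ)

theorem Tsum_contDiff {F : ι → Hs → E} {φ : ι → Hs → ℝ} (hF : ∀ n, Adm 1 (φ n) (F n))
    (hφ : LUS φ) : ContDiff ℝ 1 (fun q => ∑' n, F n q) := by
  rw [contDiff_one_iff_fderiv]
  refine ⟨fun q => (Tsum_hasFDerivAt hF hφ q).differentiableAt, ?_⟩
  have e : fderiv ℝ (fun q => ∑' n, F n q) = fun q => ∑' n, fderiv ℝ (F n) q := by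
    funext q
    exact (Tsum_hasFDerivAt hF hφ q).fderiv
  rw [e, continuous_iff_continuousAt]
  intro q₀
  obtain ⟨u, ρ, hu, hρ, hb⟩ := Tsum_local hF hφ q₀
  have h1 : ContinuousOn (fun q => ∑' n, fderiv ℝ (F n) q) (Metric.ball q₀ ρ) :=
    continuousOn_tsum (fun n => ((hF n).1.continuous_fderiv one_ne_zero).continuousOn) hu hb
  exact h1.continuousAt (Metric.isOpen_ball.mem_nhds (Metric.mem_ball_self hρ))

theorem dX_tsum {F : ι → Hs → E} {φ : ι → Hs → ℝ} (hF : ∀ n, Adm 1 (φ n) (F n))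
    (hφ : LUS φ) (i : Fin 3) :
    dX i (fun q => ∑' n, F n q) = fun q => ∑' n, dX i (F n) q := by
  funext q
  obtain ⟨u, ρ, hu, hρ, hb⟩ := Tsum_local hF hφ q
  have hs : Summable (fun n => fderiv ℝ (F n) q) :=
    Summable.of_norm (Summable.of_nonneg_of_le (fun _ => norm_nonneg _)
      (fun n => hb n q (Metric.mem_ball_self hρ)) hu)
  unfold dX
  rw [(Tsum_hasFDerivAt hF hφ q).fderiv]
  exact (ContinuousLinearMap.apply ℝ E (fld i q)).map_tsum hs

theorem Tsum_continuous {m : ℕ} {F : ι → Hs → E} {φ : ι → Hs → ℝ}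
    (hF : ∀ n, Adm m (φ n) (F n)) (hφ : LUS φ) : Continuous (fun q => ∑' n, F n q) := by
  rw [continuous_iff_continuousAt]
  intro q₀
  obtain ⟨u, hu, hq⟩ := hφ q₀
  obtain ⟨ρ, hρ, hb⟩ := Metric.eventually_nhds_iff_ball.1 hq
  have h1 : ContinuousOn (fun q => ∑' n, F n q) (Metric.ball q₀ ρ) :=
    continuousOn_tsum (fun n => (hF n).continuous.continuousOn) hu
      (fun n q hqb => ((hF n).bound q).trans (hb q hqb n))
  exact h1.continuousAt (Metric.isOpen_ball.mem_nhds (Metric.mem_ball_self hρ))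

/-- Series with an abstract bound `Φ` for the sums of sequences bounded by `φ`, under linear
constraints `T n v = v`. -/
theorem adm_tsum {m : ℕ} {F : ι → Hs → E} {φ : ι → Hs → ℝ} {Φ : Hs → ℝ}
    (T : ι → E →L[ℝ] E) (hF : ∀ n, Adm m (φ n) (F n)) (hT : ∀ n q, T n (F n q) = F n q)
    (hφ : LUS φ)
    (hΦ : ∀ (q : Hs) (v : ι → E), (∀ n, T n (v n) = v n) → (∀ n, ‖v n‖ ≤ φ n q) →
      ‖∑' n, v n‖ ≤ Φ q) :
    Adm m Φ (fun q => ∑' n, F n q) := by
  induction m generalizing F with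
  | zero =>
    exact ⟨Tsum_continuous hF hφ, fun q => hΦ q (fun n => F n q) (fun n => hT n q)
      (fun n => (hF n).bound q)⟩
  | succ m ih =>
    have h1 : ∀ n, Adm 1 (φ n) (F n) := fun n => (hF n).of_le (by omega)
    refine ⟨Tsum_contDiff h1 hφ, fun q => hΦ q (fun n => F n q) (fun n => hT n q)
      (fun n => (hF n).bound q), fun i => ?_⟩
    rw [dX_tsum h1 hφ i]
    refine ih (fun n => (hF n).2.2 i) (fun n q => ?_)
    have e1 : (fun q => T n (F n q)) = F n := funext (hT n)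
    have e2 := dX_clm i (T n) ((hF n).1.differentiable one_ne_zero)
    rw [e1] at e2
    exact (congrFun e2 q).symm

theorem adm_tsum' {m : ℕ} {F : ι → Hs → E} {φ : ι → Hs → ℝ} {Φ : Hs → ℝ}
    (hF : ∀ n, Adm m (φ n) (F n)) (hφ : LUS φ) (hΦ : ∀ q, ∑' n, φ n q ≤ Φ q) :
    Adm m Φ (fun q => ∑' n, F n q) := by
  refine adm_tsum (fun _ => ContinuousLinearMap.id ℝ E) hF (fun _ _ => rfl) hφ ?_
  intro q v _ hv
  have hs := hφ.summable (fun n q => (hF n).nonneg q) q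
  have hsv : Summable (fun n => ‖v n‖) :=
    Summable.of_nonneg_of_le (fun _ => norm_nonneg _) hv hs
  exact (norm_tsum_le_tsum_norm hsv).trans ((hsv.tsum_le_tsum hv hs).trans (hΦ q))

theorem isCR_tsum {V : Type*} [NormedAddCommGroup V] [NormedSpace ℂ V] [CompleteSpace V]
    {F : ι → Hs → V} {φ : ι → Hs → ℝ} (hF : ∀ n, Adm 1 (φ n) (F n)) (hφ : LUS φ)
    (hCR : ∀ n, IsCR (F n)) : IsCR (fun q => ∑' n, F n q) := by
  intro q
  rw [dX_tsum hF hφ 2, dX_tsum hF hφ 1]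
  change ∑' n, dX 2 (F n) q = I • ∑' n, dX 1 (F n) q
  rw [← tsum_const_smul'']
  congr 1
  funext n
  exact hCR n q

end MP640201
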