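import Pool.Agent.H.MP_640201_an.Tele
import Pool.Agent.H.MP_640201_an.Tsum
import Pool.Agent.H.MP_640201_an.Packet

/-! MP_640201_an: the lattice sum of |Y|^{2(m+8)} is nearly constant. -/

open Complex
open scoped ComplexConjugate

namespace MP640201

/-- Lattice sums of functions with a bound `K wp 6`. -/
theorem nu_adm_sum {N : ℕ} (hN : 1 ≤ N) {k : ℕ} {K : ℝ} (hK : 0 ≤ K) {G : Hs → ℝ}
    (hG : Adm k (fun q => K * wp 6 q) G) :
    ∃ B : ℝ, Adm k (fun _ => B) (fun z => ∑' n : Idx, G (lq N n z)) := by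
  obtain ⟨C, hC1, hC⟩ := lat_sum
  refine ⟨K * (C * (N : ℝ) ^ 4), ?_⟩
  refine adm_tsum' (φ := fun (n : Idx) (q : Hs) => K * wp 6 (lq N n q))
    (fun n => hG.hmul (hinv (lat N n))) (lus_lq hN (by norm_num) K hK) (fun q => ?_)
  rw [tsum_mul_left]
  apply mul_le_mul_of_nonneg_left _ hK
  obtain ⟨h1, h2⟩ := hC N hN q
  have h3 : Summable (fun n : Idx => wp 6 (lq N n q)) :=
    Summable.of_nonneg_of_le (fun n => wp_nonneg _ _) (fun n => wp_anti (by norm_num) _) h1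
  exact (h3.tsum_le_tsum (fun n => wp_anti (by norm_num) _) h1).trans h2

theorem nu_dX_mul (i : Fin 3) (c : ℝ) {F : Hs → ℝ} (hF : Differentiable ℝ F) :
    dX i (fun q => c * F q) = fun q => c * dX i F q := by
  have := dX_clm i (c • ContinuousLinearMap.id ℝ ℝ) hF
  simpa using this

/-- Derivatives of lattice sums. -/
theorem nu_dX_sum {N : ℕ} (hN : 1 ≤ N) {K : ℝ} (hK : 0 ≤ K) {G : Hs → ℝ}
    (hG : Adm 1 (fun q => K * wp 6 q) G) (i : Fin 3) :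
    dX i (fun z => ((N : ℝ)⁻¹) ^ 4 * ∑' n : Idx, G (lq N n z)) =
      fun z => ((N : ℝ)⁻¹) ^ 4 * ∑' n : Idx, dX i G (lq N n z) := by
  obtain ⟨B, hB⟩ := nu_adm_sum hN hK hG
  rw [nu_dX_mul i _ (hB.1.differentiable (by norm_num))]
  have h1 := dX_tsum (F := fun (n : Idx) (z : Hs) => G (lq N n z))
    (φ := fun (n : Idx) (q : Hs) => K * wp 6 (lq N n q))
    (fun n => hG.hmul (hinv (lat N n))) (lus_lq hN (by norm_num) K hK) i
  rw [h1]
  funext z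
  congr 1
  apply tsum_congr
  intro n
  have h2 := dX_hmul i (hinv (lat N n)) (hG.1.differentiable (by norm_num))
  exact congrFun h2 z

theorem nu_contDiff {N : ℕ} (hN : 1 ≤ N) {K : ℝ} (hK : 0 ≤ K) {G : Hs → ℝ}
    (hG : Adm 1 (fun q => K * wp 6 q) G) :
    ContDiff ℝ 1 (fun z => ((N : ℝ)⁻¹) ^ 4 * ∑' n : Idx, G (lq N n z)) := by
  obtain ⟨B, hB⟩ := nu_adm_sum hN hK hG
  exact contDiff_const.mul hB.1

theorem nu_continuous {N : ℕ} (hN : 1 ≤ N) {K : ℝ} (hK : 0 ≤ K) {G : Hs → ℝ}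
    (hG : Adm 0 (fun q => K * wp 6 q) G) :
    Continuous (fun z => ((N : ℝ)⁻¹) ^ 4 * ∑' n : Idx, G (lq N n z)) := by
  obtain ⟨B, hB⟩ := nu_adm_sum hN hK hG
  exact continuous_const.mul hB.1

theorem nu_K_nonneg {k : ℕ} {K : ℝ} {G : Hs → ℝ} (hG : Adm k (fun q => K * wp 6 q) G) :
    0 ≤ K := by
  have h := hG.nonneg 0
  have h2 := wp_pos 6 0
  by_contra hK
  exact absurd h (not_le.2 (mul_neg_of_neg_of_pos (not_le.1 hK) h2))

/-- Lattice sums of derivatives are small in all the classes. -/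
theorem nu_claim : ∃ C : ℝ, 1 ≤ C ∧ ∀ (N : ℕ), 1 ≤ N → ∀ (k : ℕ) (K : ℝ) (F : Hs → ℝ)
    (i : Fin 3), Adm (k + 2) (fun q => K * wp 6 q) F →
    Adm k (fun _ => C * K / (N : ℝ))
      (fun z => ((N : ℝ)⁻¹) ^ 4 * ∑' n : Idx, dX i F (lq N n z)) := by
  obtain ⟨C, hC1, hC⟩ := tele
  refine ⟨C, hC1, fun N hN k => ?_⟩
  induction k with
  | zero =>
    intro K F i hF
    have hK := nu_K_nonneg hF
    refine ⟨nu_continuous hN hK ((hF.2.2 i).of_le (Nat.zero_le _)), fun z => ?_⟩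
    rw [Real.norm_eq_abs]
    exact hC N K F i hN hF z
  | succ k ih =>
    intro K F i hF
    have hK := nu_K_nonneg hF
    refine ⟨nu_contDiff hN hK ((hF.2.2 i).of_le (by omega)), fun z => ?_, fun j => ?_⟩
    · rw [Real.norm_eq_abs]
      exact hC N K F i hN (hF.of_le (by omega)) z
    · rw [nu_dX_sum hN hK ((hF.2.2 i).of_le (by omega)) j]
      exact ih K (dX i F) j (hF.2.2 i)

theorem nu_norm_yy_le (q : Hs) : ‖yy q‖ ≤ vw q := by
  unfold yy vw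
  refine (norm_sub_le _ _).trans ?_
  have h1 : ‖(1 : ℂ) + ((‖q.2‖ ^ 2 : ℝ) : ℂ)‖ ≤ 1 + ‖q.2‖ ^ 2 := by
    refine (norm_add_le _ _).trans ?_
    rw [Complex.norm_real, Real.norm_eq_abs, abs_of_nonneg (sq_nonneg _)]
    simp
  have h2 : ‖I * (q.1 : ℂ)‖ = |q.1| := by simp
  rw [h2]
  linarith

/-- The function `|Y|^{2(m+8)}`. -/
theorem nu_adm_K0 (m k : ℕ) : ∃ K : ℝ, 0 ≤ K ∧
    Adm k (fun q => K * wp 6 q) (fun q => ‖Yf q‖ ^ (2 * (m + 8))) := by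
  obtain ⟨C, hC0, hC⟩ := adm_Ypow k (m + 8)
  have h := Adm.normSq hC
  refine ⟨2 ^ k * (C * C), by positivity, ?_⟩
  have e : (fun q => ‖Yf q‖ ^ (2 * (m + 8))) = fun q => ‖Yf q ^ (m + 8)‖ ^ 2 := by
    funext q; rw [norm_pow, ← pow_mul, mul_comm]
  rw [e]
  refine h.mono (fun q => ?_)
  have h1 : wp (m + 8) q * wp (m + 8) q ≤ wp 6 q := by
    rw [← wp_add]; exact wp_anti (by omega) q
  calc 2 ^ k * (C * wp (m + 8) q * (C * wp (m + 8) q))
      = 2 ^ k * (C * C) * (wp (m + 8) q * wp (m + 8) q) := by ring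
    _ ≤ 2 ^ k * (C * C) * wp 6 q := mul_le_mul_of_nonneg_left h1 (by positivity)

theorem nu_Th_nonneg (m N : ℕ) (z : Hs) : 0 ≤ Th m N z := by
  unfold Th
  exact mul_nonneg (by positivity) (tsum_nonneg fun n => by positivity)

/-- The lower bound for the lattice sum at the origin. -/
theorem nu_lower (m : ℕ) : ∀ N : ℕ, 1 ≤ N → ((4 : ℝ) ^ (2 * (m + 8)))⁻¹ ≤ Th m N 0 := by
  intro N hN
  obtain ⟨K, hK, hKK⟩ := nu_adm_K0 m 0
  have hN0 : (0 : ℝ) < N := by exact_mod_cast hN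
  obtain ⟨C, hC1, hC⟩ := lat_sum
  have hsum : Summable (fun n : Idx => ‖Yf (lq N n 0)‖ ^ (2 * (m + 8))) := by
    refine Summable.of_nonneg_of_le (fun n => by positivity) (fun n => ?_)
      ((hC N hN 0).1.mul_left K)
    have h1 := hKK.bound (lq N n 0)
    rw [Real.norm_eq_abs, abs_of_nonneg (by positivity)] at h1
    exact h1.trans (mul_le_mul_of_nonneg_left (wp_anti (by norm_num) _) hK)
  set s : Finset Idx := (Finset.Ico (0 : ℤ) ((N : ℤ) ^ 2)) ×ˢ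
    ((Finset.Ico (0 : ℤ) (N : ℤ)) ×ˢ (Finset.Ico (0 : ℤ) (N : ℤ))) with hs
  have hcard : (s.card : ℝ) = (N : ℝ) ^ 4 := by
    rw [hs, Finset.card_product, Finset.card_product, Int.card_Ico, Int.card_Ico]
    have e1 : (((N : ℤ) ^ 2 - 0).toNat : ℕ) = N ^ 2 := by
      rw [sub_zero]
      have : ((N : ℤ) ^ 2) = ((N ^ 2 : ℕ) : ℤ) := by push_cast; rfl
      rw [this, Int.toNat_natCast]
    have e2 : (((N : ℤ) - 0).toNat : ℕ) = N := by rw [sub_zero, Int.toNat_natCast]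
    rw [e1, e2]
    push_cast
    ring
  have hterm : ∀ n ∈ s, ((4 : ℝ) ^ (2 * (m + 8)))⁻¹ ≤ ‖Yf (lq N n 0)‖ ^ (2 * (m + 8)) := by
    intro n hn
    rw [hs, Finset.mem_product, Finset.mem_product, Finset.mem_Ico, Finset.mem_Ico,
      Finset.mem_Ico] at hn
    obtain ⟨⟨ha0, ha⟩, ⟨hb0, hb⟩, ⟨hc0, hc⟩⟩ := hn
    have ha0' : (0 : ℝ) ≤ (n.1 : ℝ) := by exact_mod_cast ha0
    have hb0' : (0 : ℝ) ≤ (n.2.1 : ℝ) := by exact_mod_cast hb0
    have hc0' : (0 : ℝ) ≤ (n.2.2 : ℝ) := by exact_mod_cast hc0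
    have ha' : (n.1 : ℝ) ≤ (N : ℝ) ^ 2 := by exact_mod_cast ha.le
    have hb' : (n.2.1 : ℝ) ≤ (N : ℝ) := by exact_mod_cast hb.le
    have hc' : (n.2.2 : ℝ) ≤ (N : ℝ) := by exact_mod_cast hc.le
    have e1 : lq N n 0 = hinv (lat N n) := hmul_zero _
    have hv : vw (lat N n) ≤ 4 := by
      have h1 : |(lat N n).1| ≤ 1 := by
        simp only [lat]
        rw [abs_of_nonneg (by positivity)]
        exact (div_le_one (by positivity)).2 ha'
      have h2 : ‖(lat N n).2‖ ^ 2 ≤ 2 := by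
        have e2 : (lat N n).2 = ⟨(n.2.1 : ℝ) / N, (n.2.2 : ℝ) / N⟩ := by
          apply Complex.ext <;> simp [lat]
        rw [e2, ← Complex.normSq_eq_norm_sq, Complex.normSq_mk]
        have hb1 : (n.2.1 : ℝ) / N ≤ 1 := (div_le_one hN0).2 hb'
        have hc1 : (n.2.2 : ℝ) / N ≤ 1 := (div_le_one hN0).2 hc'
        have hb2 : 0 ≤ (n.2.1 : ℝ) / N := by positivity
        have hc2 : 0 ≤ (n.2.2 : ℝ) / N := by positivity
        nlinarith
      unfold vw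
      linarith
    have h3 : ‖yy (lq N n 0)‖ ≤ 4 := by
      refine (nu_norm_yy_le _).trans ?_
      rw [e1, vw_hinv]
      exact hv
    have h4 : (4 : ℝ)⁻¹ ≤ ‖Yf (lq N n 0)‖ := by
      unfold Yf
      rw [norm_inv]
      exact inv_anti₀ (norm_pos_iff.2 (yy_ne_zero _)) h3
    rw [← inv_pow]
    exact pow_le_pow_left₀ (by norm_num) h4 _
  have h1 : (N : ℝ) ^ 4 * ((4 : ℝ) ^ (2 * (m + 8)))⁻¹ ≤
      ∑' n : Idx, ‖Yf (lq N n 0)‖ ^ (2 * (m + 8)) := by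
    rw [← hcard, ← nsmul_eq_mul]
    exact (Finset.card_nsmul_le_sum s _ _ hterm).trans
      (hsum.sum_le_tsum s (fun n _ => by positivity))
  unfold Th
  calc ((4 : ℝ) ^ (2 * (m + 8)))⁻¹
      = ((N : ℝ)⁻¹) ^ 4 * ((N : ℝ) ^ 4 * ((4 : ℝ) ^ (2 * (m + 8)))⁻¹) := by
        rw [← mul_assoc, ← mul_pow, inv_mul_cancel₀ hN0.ne', one_pow, one_mul]
    _ ≤ _ := mul_le_mul_of_nonneg_left h1 (by positivity)

theorem near_unity (m : ℕ) : ∃ C : ℝ, 1 ≤ C ∧ ∀ N : ℕ, 1 ≤ N →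
    C⁻¹ ≤ Th m N 0 ∧ Adm m (fun _ => C / (N : ℝ)) (fun z => Th m N z - Th m N 0) := by
  obtain ⟨C, hC1, hC⟩ := nu_claim
  obtain ⟨K, hK0, hK⟩ := nu_adm_K0 m (m + 2)
  set D : ℝ := max (6 * (C * K)) ((4 : ℝ) ^ (2 * (m + 8))) with hD
  have hD4 : (4 : ℝ) ^ (2 * (m + 8)) ≤ D := le_max_right _ _
  have h41 : (1 : ℝ) ≤ (4 : ℝ) ^ (2 * (m + 8)) := one_le_pow₀ (by norm_num)
  have hD6 : 6 * (C * K) ≤ D := le_max_left _ _
  have hCK : 0 ≤ C * K := mul_nonneg (by linarith) hK0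
  refine ⟨D, h41.trans hD4, fun N hN => ⟨?_, ?_⟩⟩
  · refine (inv_anti₀ (by positivity) hD4).trans (nu_lower m N hN)
  have hN0 : (0 : ℝ) < N := by exact_mod_cast hN
  have hdX : ∀ i, dX i (fun z => Th m N z) = fun z => ((N : ℝ)⁻¹) ^ 4 *
      ∑' n : Idx, dX i (fun q => ‖Yf q‖ ^ (2 * (m + 8))) (lq N n z) := by
    intro i
    exact nu_dX_sum hN hK0 (hK.of_le (by omega)) i
  have hsmooth : ContDiff ℝ 1 (fun z => Th m N z) := nu_contDiff hN hK0 (hK.of_le (by omega))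
  have hb : ∀ i q, ‖dX i (fun z => Th m N z) q‖ ≤ C * K / N := by
    intro i q
    rw [hdX i]
    exact (hC N hN m K _ i hK).bound q
  have hval : ∀ z, ‖Th m N z - Th m N 0‖ ≤ D / N := by
    intro z
    obtain ⟨n, z', rfl, hz'⟩ := exists_cell hN z
    have e : Th m N (hmul (lat N n) z') = Th m N z' := by
      unfold Th
      rw [tsum_lq_left hN (fun q => ‖Yf q‖ ^ (2 * (m + 8))) n z']
    rw [e]
    refine (norm_sub_le_of_dX hsmooth hb z').trans ?_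
    calc 3 * (C * K / N) * ‖z'‖ ≤ 3 * (C * K / N) * 2 :=
          mul_le_mul_of_nonneg_left hz' (by positivity)
      _ = 6 * (C * K) / N := by ring
      _ ≤ D / N := div_le_div_of_nonneg_right hD6 hN0.le
  cases m with
  | zero => exact ⟨hsmooth.continuous.sub continuous_const, hval⟩
  | succ m' =>
    refine ⟨hsmooth.sub contDiff_const, hval, fun i => ?_⟩
    rw [dX_sub i (hsmooth.differentiable (by norm_num)) (differentiable_const _), dX_const]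
    simp only [sub_zero]
    rw [hdX i]
    refine (hC N hN m' K _ i (hK.of_le (by omega))).mono (fun q => ?_)
    exact div_le_div_of_nonneg_right (by linarith) hN0.le

theorem tht_nonneg (m N : ℕ) : 0 ≤ tht m N := Real.sqrt_nonneg _

theorem tht_sq (m N : ℕ) : tht m N ^ 2 = ((N : ℝ)⁻¹) ^ 4 / Th m N 0 := by
  unfold tht
  exact Real.sq_sqrt (div_nonneg (by positivity) (nu_Th_nonneg m N 0))

theorem tht_le (m : ℕ) : ∃ C : ℝ, 1 ≤ C ∧ ∀ N : ℕ, 1 ≤ N → tht m N ≤ C / (N : ℝ) ^ 2 := by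
  obtain ⟨C, hC1, hC⟩ := near_unity m
  refine ⟨C, hC1, fun N hN => ?_⟩
  have hN0 : (0 : ℝ) < N := by exact_mod_cast hN
  have hC0 : 0 < C := by linarith
  obtain ⟨h1, -⟩ := hC N hN
  have h2 : tht m N ^ 2 ≤ (C / (N : ℝ) ^ 2) ^ 2 := by
    rw [tht_sq]
    have h3 : ((N : ℝ)⁻¹) ^ 4 / Th m N 0 ≤ ((N : ℝ)⁻¹) ^ 4 / C⁻¹ :=
      div_le_div_of_nonneg_left (by positivity) (by positivity) h1
    refine h3.trans ?_
    rw [div_inv_eq_mul, div_pow, ← pow_mul, inv_pow, div_eq_inv_mul]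
    refine mul_le_mul_of_nonneg_left ?_ (by positivity)
    nlinarith
  exact (abs_le_of_sq_le_sq' h2 (by positivity)).2

end MP640201
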