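import Pool.Agent.H.MP_640201_an.Cone

/-! MP_640201_an: non-rationality of the first component. -/

open Complex Matrix
open scoped ComplexConjugate

namespace MP640201

/-- `f₁ = ε₀ e^{i z₁}`. -/
noncomputable def f1 (ε₀ : ℝ) (z : Cn 1 1) : ℂ := (ε₀ : ℂ) * Complex.exp (I * z.1 0)

theorem nonRat_mem (ζ : ℂ) (t : ℝ) :
    (((fun _ => (t : ℂ) + ((‖ζ‖ ^ 2 : ℝ) : ℂ) * I), fun _ => ζ) : Cn 1 1) ∈ (std 1).M := by
  intro j
  rw [std_q]
  simp only [add_im, ofReal_im, mul_im, ofReal_re, I_im, mul_one, I_re, mul_zero, add_zero,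
    zero_add, Finset.univ_unique, Finset.sum_const, Finset.card_singleton, one_smul]

theorem norm_f1 (ε₀ : ℝ) (h0 : 0 ≤ ε₀) (z : Cn 1 1) (hz : z ∈ (std 1).M) :
    ‖f1 ε₀ z‖ = ε₀ * Real.exp (-‖z.2 0‖ ^ 2) := by
  have h1 : (z.1 0).im = ‖z.2 0‖ ^ 2 := by
    have := hz 0
    rw [std_q] at this
    simpa using this
  unfold f1
  rw [norm_mul, Complex.norm_real, Real.norm_of_nonneg h0, Complex.norm_exp]
  congr 2
  rw [← h1]
  simp

/-- restriction of a polynomial to the line `(X, ζ)` -/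
noncomputable def nonRatLine (ζ : ℂ) : MvPolynomial (Fin 1 ⊕ Fin 1) ℂ →ₐ[ℂ] Polynomial ℂ :=
  MvPolynomial.aeval (Sum.elim (fun _ => Polynomial.X) (fun _ => Polynomial.C ζ))

theorem nonRat_eval (ζ x : ℂ) (R : MvPolynomial (Fin 1 ⊕ Fin 1) ℂ) :
    Polynomial.eval x (nonRatLine ζ R) =
      MvPolynomial.eval (Sum.elim (fun _ => x) (fun _ => ζ)) R := by
  have h : (Polynomial.aeval x).comp (nonRatLine ζ) =
      MvPolynomial.aeval (Sum.elim (fun _ => x) (fun _ => ζ)) := by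
    apply MvPolynomial.algHom_ext
    intro i
    cases i <;> simp [nonRatLine]
  have h2 := congrArg (fun f => f R) h
  simp only [AlgHom.comp_apply] at h2
  rw [← Polynomial.coe_aeval_eq_eval, h2]
  rfl

theorem nonRat_aux (ε₀ : ℝ) (R S : MvPolynomial (Fin 1 ⊕ Fin 1) ℂ)
    (h : ∀ z ∈ (std 1).M, peval R z * f1 ε₀ z = peval S z) (ζ : ℂ) (t : ℝ) :
    nonRatLine ζ R * Polynomial.C ((ε₀ : ℂ) *
      Complex.exp (I * ((t : ℂ) + ((‖ζ‖ ^ 2 : ℝ) : ℂ) * I))) - nonRatLine ζ S = 0 := by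
  set c : ℂ := (ε₀ : ℂ) * Complex.exp (I * ((t : ℂ) + ((‖ζ‖ ^ 2 : ℝ) : ℂ) * I)) with hc
  apply Polynomial.eq_zero_of_infinite_isRoot
  have hinj : Function.Injective (fun j : ℕ =>
      (((t + j * (2 * Real.pi) : ℝ) : ℂ) + ((‖ζ‖ ^ 2 : ℝ) : ℂ) * I)) := by
    intro i j hij
    simp only [add_left_inj] at hij
    have h2 : t + i * (2 * Real.pi) = t + j * (2 * Real.pi) := Complex.ofReal_injective hij
    have h3 : (i : ℝ) = j := by
      have hpi := Real.pi_pos
      have : (i : ℝ) * (2 * Real.pi) = j * (2 * Real.pi) := by linarith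
      exact mul_right_cancel₀ (by positivity) this
    exact_mod_cast h3
  refine (Set.infinite_range_of_injective hinj).mono ?_
  rintro _ ⟨j, rfl⟩
  simp only [Set.mem_ofPred_eq, Polynomial.IsRoot.def, Polynomial.eval_sub, Polynomial.eval_mul,
    Polynomial.eval_C]
  rw [nonRat_eval, nonRat_eval]
  have h1 := h _ (nonRat_mem ζ (t + j * (2 * Real.pi)))
  have h2 : f1 ε₀ (((fun _ => ((t + j * (2 * Real.pi) : ℝ) : ℂ) + ((‖ζ‖ ^ 2 : ℝ) : ℂ) * I),
      fun _ => ζ) : Cn 1 1) = c := by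
    unfold f1
    simp only
    rw [hc]
    congr 1
    rw [Complex.exp_eq_exp_iff_exists_int]
    refine ⟨j, ?_⟩
    push_cast
    ring
  rw [h2] at h1
  unfold peval at h1
  simp only at h1
  rw [h1, sub_self]

/-- No nontrivial relation `R e^{i z₁} = S` on the quadric. -/
theorem exp_relation (ε₀ : ℝ) (h0 : ε₀ ≠ 0) (R S : MvPolynomial (Fin 1 ⊕ Fin 1) ℂ)
    (h : ∀ z ∈ (std 1).M, peval R z * f1 ε₀ z = peval S z) : R = 0 ∧ S = 0 := by
  have key : ∀ ζ : ℂ, nonRatLine ζ R = 0 ∧ nonRatLine ζ S = 0 := by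
    intro ζ
    have h1 := nonRat_aux ε₀ R S h ζ 0
    have h2 := nonRat_aux ε₀ R S h ζ Real.pi
    set c : ℂ := (ε₀ : ℂ) * Complex.exp (I * (((0 : ℝ) : ℂ) + ((‖ζ‖ ^ 2 : ℝ) : ℂ) * I)) with hc
    have hc0 : c ≠ 0 := mul_ne_zero (by exact_mod_cast h0) (Complex.exp_ne_zero _)
    have h3 : (ε₀ : ℂ) * Complex.exp (I * ((Real.pi : ℂ) + ((‖ζ‖ ^ 2 : ℝ) : ℂ) * I)) = -c := by
      rw [hc, mul_add, Complex.exp_add, mul_comm I (Real.pi : ℂ), Complex.exp_pi_mul_I]
      simp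
    rw [h3] at h2
    have h4 : nonRatLine ζ R * Polynomial.C c = nonRatLine ζ S := sub_eq_zero.1 h1
    have h5 : nonRatLine ζ R * Polynomial.C (-c) = nonRatLine ζ S := sub_eq_zero.1 h2
    have h6 : nonRatLine ζ R * Polynomial.C c = nonRatLine ζ R * Polynomial.C (-c) :=
      h4.trans h5.symm
    have h7 : nonRatLine ζ R * Polynomial.C (2 * c) = 0 := by
      have e : Polynomial.C (2 * c) = Polynomial.C c - Polynomial.C (-c) := by
        rw [← Polynomial.C_sub]; congr 1; ring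
      rw [e, mul_sub, h6, sub_self]
    have h8 : nonRatLine ζ R = 0 := by
      rcases mul_eq_zero.1 h7 with h | h
      · exact h
      · rw [Polynomial.C_eq_zero] at h
        exact absurd h (mul_ne_zero two_ne_zero hc0)
    refine ⟨h8, ?_⟩
    rw [← h4, h8, zero_mul]
  have hx : ∀ x : Fin 1 ⊕ Fin 1 → ℂ,
      x = Sum.elim (fun _ : Fin 1 => x (Sum.inl 0)) (fun _ : Fin 1 => x (Sum.inr 0)) := by
    intro x
    funext i
    rcases i with i | i <;> fin_cases i <;> rfl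
  constructor
  · apply MvPolynomial.funext
    intro x
    rw [hx x, ← nonRat_eval, (key _).1]
    simp
  · apply MvPolynomial.funext
    intro x
    rw [hx x, ← nonRat_eval, (key _).2]
    simp

theorem not_ratOn (ε₀ : ℝ) (h0 : 0 < ε₀) (h1 : ε₀ < 1) :
    ¬ RatOn (std 1) (fun z => I * (1 + f1 ε₀ z) / (1 - f1 ε₀ z)) := by
  rintro ⟨P, Q, hQ, h⟩
  have hne : ∀ z ∈ (std 1).M, (1 : ℂ) - f1 ε₀ z ≠ 0 := by
    intro z hz h2
    have h3 : f1 ε₀ z = 1 := (sub_eq_zero.1 h2).symm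
    have h4 := norm_f1 ε₀ h0.le z hz
    rw [h3, norm_one] at h4
    have h5 : Real.exp (-‖z.2 0‖ ^ 2) ≤ 1 := Real.exp_le_one_iff.2 (by
      have := sq_nonneg ‖z.2 0‖
      linarith)
    nlinarith
  have hrel := exp_relation ε₀ h0.ne' (MvPolynomial.C I * Q + P) (P - MvPolynomial.C I * Q) (by
    intro z hz
    have h2 := h z hz
    have h3 := hne z hz
    simp only at h2
    rw [← mul_div_assoc, div_eq_iff h3] at h2
    unfold peval at h2 ⊢
    simp only [map_add, map_sub, map_mul, MvPolynomial.eval_C]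
    linear_combination h2)
  obtain ⟨hR, hS⟩ := hrel
  have h4 : MvPolynomial.C (2 * I) * Q = 0 := by
    have e : MvPolynomial.C (2 * I) * Q =
        (MvPolynomial.C I * Q + P) - (P - MvPolynomial.C I * Q) := by
      have e2 : (MvPolynomial.C (2 * I) : MvPolynomial (Fin 1 ⊕ Fin 1) ℂ) =
          MvPolynomial.C I + MvPolynomial.C I := by
        rw [← MvPolynomial.C_add]; congr 1; ring
      rw [e2]; ring
    rw [e, hR, hS, sub_zero]
  rcases mul_eq_zero.1 h4 with h5 | h5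
  · rw [MvPolynomial.C_eq_zero] at h5
    exact absurd h5 (mul_ne_zero two_ne_zero I_ne_zero)
  · exact hQ h5

end MP640201
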