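import Pool.Agent.H.MP_640201_an.Classes

/-! MP_640201_an: isometries orthogonal to finitely many jets. -/

open Complex
open scoped ComplexConjugate

namespace MP640201

variable {V : Type*} [NormedAddCommGroup V] [InnerProductSpace ℂ V]

theorem ortho_jet_aux (m : ℕ) (C : ℝ) (G : Hs → V) (hG : Top m C G) (p : Hs) :
    ∃ S : Submodule ℂ V, FiniteDimensional ℂ S ∧ 2 * Module.finrank ℂ S + 1 ≤ 3 ^ m ∧
      ∀ {W : Type} [NormedAddCommGroup W] [NormedSpace ℂ W] (L : V →L[ℂ] W),
        (∀ x ∈ S, L x = 0) → Van m p (fun q => L (G q)) := by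
  induction m generalizing G with
  | zero =>
    refine ⟨⊥, inferInstance, by simp, fun L _ => trivial⟩
  | succ m ih =>
    choose S hfin hrank hvan using fun i => ih (dX i G) (hG.2 i)
    have h0 := hfin 0
    have h1 := hfin 1
    have h2 := hfin 2
    refine ⟨Submodule.span ℂ {G p} ⊔ S 0 ⊔ S 1 ⊔ S 2, inferInstance, ?_, ?_⟩
    · have e0 : Module.finrank ℂ (Submodule.span ℂ {G p}) ≤ 1 := by
        have := finrank_span_le_card (R := ℂ) ({G p} : Set V)
        simpa using this
      have e1 := Submodule.finrank_add_le_finrank_add_finrank (Submodule.span ℂ {G p}) (S 0)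
      have e2 := Submodule.finrank_add_le_finrank_add_finrank (Submodule.span ℂ {G p} ⊔ S 0) (S 1)
      have e3 := Submodule.finrank_add_le_finrank_add_finrank
        (Submodule.span ℂ {G p} ⊔ S 0 ⊔ S 1) (S 2)
      have r0 := hrank 0
      have r1 := hrank 1
      have r2 := hrank 2
      rw [pow_succ]
      omega
    · intro W _ _ L hL
      have hle : ∀ i, S i ≤ Submodule.span ℂ {G p} ⊔ S 0 ⊔ S 1 ⊔ S 2 := by
        intro i
        fin_cases i
        · exact le_sup_of_le_left (le_sup_of_le_left le_sup_right)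
        · exact le_sup_of_le_left le_sup_right
        · exact le_sup_right
      have hGp : G p ∈ Submodule.span ℂ {G p} ⊔ S 0 ⊔ S 1 ⊔ S 2 := by
        have h3 : Submodule.span ℂ {G p} ≤ Submodule.span ℂ {G p} ⊔ S 0 ⊔ S 1 ⊔ S 2 :=
          le_sup_of_le_left (le_sup_of_le_left le_sup_left)
        exact h3 (Submodule.mem_span_singleton_self _)
      refine ⟨hL _ hGp, fun i => ?_⟩
      have h4 : dX i (fun q => L (G q)) = fun q => L (dX i G q) :=
        dX_clm i (L.restrictScalars ℝ) hG.diff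
      rw [h4]
      exact hvan i L fun x hx => hL x (hle i hx)

/-- The words of length `< m` of `G` at `p` span a space of dimension `≤ 3^m`. -/
theorem exists_jet_space (m : ℕ) (C : ℝ) (G : Hs → V) (hG : Top m C G) (p : Hs) :
    ∃ S : Submodule ℂ V, FiniteDimensional ℂ S ∧ Module.finrank ℂ S ≤ 3 ^ m ∧
      ∀ {W : Type} [NormedAddCommGroup W] [NormedSpace ℂ W] (L : V →L[ℂ] W),
        (∀ x ∈ S, L x = 0) → Van m p (fun q => L (G q)) := by
  obtain ⟨S, h1, h2, h3⟩ := ortho_jet_aux m C G hG p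
  exact ⟨S, h1, by omega, h3⟩

/-- Existence of isometries of `CI m` into a large subspace, orthogonal to the jet of `G` at `p`. -/
theorem exists_ortho [FiniteDimensional ℂ V] (m : ℕ) (C : ℝ) (G : Hs → V) (hG : Top m C G)
    (p : Hs) (U : Submodule ℂ V) (hU : 2 * 3 ^ m ≤ Module.finrank ℂ U) :
    ∃ (J : CI m →L[ℂ] V) (J' : V →L[ℂ] CI m), (∀ x, ‖J x‖ = ‖x‖) ∧ ‖J'‖ ≤ 1 ∧
      (∀ x, J x ∈ U) ∧ (∀ x y, inner ℂ (J x) y = inner ℂ x (J' y)) ∧
      Van m 0 (fun q => J' (G (hmul p q))) := by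
  have : CompleteSpace V := FiniteDimensional.complete ℂ V
  obtain ⟨S, _, hS, hvan⟩ := exists_jet_space m C G hG p
  -- the subspace
  have hdim : 3 ^ m ≤ Module.finrank ℂ (U ⊓ Sᗮ : Submodule ℂ V) := by
    have h1 := Submodule.finrank_sup_add_finrank_inf_eq U Sᗮ
    have h2 := Submodule.finrank_le (U ⊔ Sᗮ)
    have h3 := Submodule.finrank_add_finrank_orthogonal S
    omega
  have hcard : Fintype.card (Fin m → Fin 3) ≤ Fintype.card
      (Fin (Module.finrank ℂ (U ⊓ Sᗮ : Submodule ℂ V))) := by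
    simpa using hdim
  obtain ⟨ι⟩ := Function.Embedding.nonempty_of_card_le hcard
  set b := stdOrthonormalBasis ℂ (U ⊓ Sᗮ : Submodule ℂ V) with hb
  set e : (Fin m → Fin 3) → V := fun f => (b (ι f) : V) with he
  have heo : Orthonormal ℂ e := by
    have h1 : Orthonormal ℂ (fun i => (b i : V)) :=
      b.orthonormal.comp_linearIsometry (U ⊓ Sᗮ : Submodule ℂ V).subtypeₗᵢ
    exact h1.comp ι ι.injective
  set B := EuclideanSpace.basisFun (Fin m → Fin 3) ℂ with hB
  set L : CI m →ₗ[ℂ] V := B.toBasis.constr ℂ e with hL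
  have hLe : L ∘ B.toBasis = e := by
    funext f
    simp [hL]
  have hf : Orthonormal ℂ (L ∘ B.toBasis) := by rw [hLe]; exact heo
  have hv : Orthonormal ℂ B.toBasis := by
    rw [OrthonormalBasis.coe_toBasis]
    exact B.orthonormal
  set J₀ : CI m →ₗᵢ[ℂ] V := L.isometryOfOrthonormal hv hf with hJ₀
  have hmem : ∀ x, J₀ x ∈ (U ⊓ Sᗮ : Submodule ℂ V) := by
    intro x
    have h1 : LinearMap.range L ≤ (U ⊓ Sᗮ : Submodule ℂ V) := by
      rw [hL, Module.Basis.constr_range, Submodule.span_le]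
      rintro _ ⟨f, rfl⟩
      exact (b (ι f)).2
    exact h1 ⟨x, rfl⟩
  set J := J₀.toContinuousLinearMap with hJ
  have hnorm : ‖J‖ ≤ 1 := J₀.norm_toContinuousLinearMap_le
  have hadj : ∀ x y, inner ℂ (J x) y = inner ℂ x (ContinuousLinearMap.adjoint J y) := by
    intro x y
    rw [ContinuousLinearMap.adjoint_inner_right]
  refine ⟨J, ContinuousLinearMap.adjoint J, fun x => J₀.norm_map x, ?_,
    fun x => (hmem x).1, hadj, ?_⟩
  · rw [LinearIsometryEquiv.norm_map]
    exact hnorm
  · have hzero : ∀ x ∈ S, ContinuousLinearMap.adjoint J x = 0 := by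
      intro x hx
      rw [← inner_self_eq_zero (𝕜 := ℂ), ← hadj]
      exact (Submodule.mem_orthogonal' S _).1 (hmem _).2 x hx
    have h1 : Van m p (fun q => ContinuousLinearMap.adjoint J (G q)) := hvan _ hzero
    exact Van.hmul (hG.clm ((ContinuousLinearMap.adjoint J).restrictScalars ℝ) le_rfl) h1

end MP640201
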