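import Pool.Agent.H.MP_640201_an.NearUnity

/-! MP_640201_an: bounds for the wave packets. -/

open Complex
open scoped ComplexConjugate

namespace MP640201

/-- Bounds of a single wave packet. -/
theorem adm_pk (m : ℕ) : ∃ C : ℝ, 1 ≤ C ∧
    ∀ (V : Type) [NormedAddCommGroup V] [InnerProductSpace ℂ V] (A : CI m →L[ℂ] V) (θ r : ℝ),
      ‖A‖ ≤ 1 → 0 ≤ θ → 0 ≤ r → r ≤ 1 →
      Adm m (fun q => C * θ * wp (m + 8) q) (pk m θ A r) := by
  obtain ⟨C1, hC1, h1⟩ := adm_Ypow m (m + 8)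
  obtain ⟨C2, hC2, h2⟩ := adm_Wf m m
  refine ⟨2 ^ m * C1 * C2 + 1, by
    have : 0 ≤ 2 ^ m * C1 * C2 := by positivity
    linarith, ?_⟩
  intro V _ _ A θ r hA hθ hr0 hr1
  have h3 : Adm m (fun q => θ * (C1 * wp (m + 8) q)) (fun q => (θ : ℂ) * Yf q ^ (m + 8)) := by
    have h := h1.clm (θ • ContinuousLinearMap.id ℝ ℂ) (norm_smul_id_le hθ)
    simpa using h
  have h4 : Adm m (fun _ => 1 * C2) (fun q => A (Wf m (dil r q))) := by
    have h := (h2.dil hr0 hr1).clm (A.restrictScalars ℝ) (K := 1)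
      (by rwa [ContinuousLinearMap.norm_restrictScalars])
    simpa using h
  have h5 := h3.smulC h4
  refine Adm.mono h5 fun q => ?_
  have h6 : 0 ≤ θ * wp (m + 8) q := mul_nonneg hθ (wp_nonneg _ _)
  nlinarith

theorem contDiff_pk {V : Type*} [NormedAddCommGroup V] [InnerProductSpace ℂ V] (m : ℕ) (θ : ℝ)
    (A : CI m →L[ℂ] V) (r : ℝ) {n : WithTop ℕ∞} : ContDiff ℝ n (pk m θ A r) := by
  have h1 : ContDiff ℝ n (fun q => (θ : ℂ) * Yf q ^ (m + 8)) :=
    contDiff_const.mul (contDiff_Yf.pow _)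
  have h2 : ContDiff ℝ n (fun q => A (Wf m (dil r q))) :=
    (A.restrictScalars ℝ).contDiff.comp ((contDiff_Wf m).comp (contDiff_dil r))
  exact h1.smul h2

theorem isCR_pk {V : Type*} [NormedAddCommGroup V] [InnerProductSpace ℂ V] (m : ℕ) (θ : ℝ)
    (A : CI m →L[ℂ] V) (r : ℝ) : IsCR (pk m θ A r) := by
  have dY : Differentiable ℝ Yf := (contDiff_Yf (n := 1)).differentiable (by norm_num)
  have dW : Differentiable ℝ (Wf m) := (contDiff_Wf m (n := 1)).differentiable (by norm_num)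
  have dD : Differentiable ℝ (dil r) := (contDiff_dil r (n := 1)).differentiable (by norm_num)
  have dY8 : Differentiable ℝ (fun q => Yf q ^ (m + 8)) := dY.pow _
  have h1 : IsCR (fun q => Yf q ^ (m + 8)) := isCR_Yf.pow dY (m + 8)
  have h2 : IsCR (fun q => (θ : ℂ) * Yf q ^ (m + 8)) :=
    (isCR_const (θ : ℂ)).mul h1 (differentiable_const _) dY8
  have dWD : Differentiable ℝ (fun q => Wf m (dil r q)) := dW.comp dD
  have h3 : IsCR (fun q => Wf m (dil r q)) := (isCR_Wf m).dil dW r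
  have h4 : IsCR (fun q => A (Wf m (dil r q))) := h3.clm dWD A
  have dA : Differentiable ℝ (fun q => A (Wf m (dil r q))) :=
    (A.restrictScalars ℝ).differentiable.comp dWD
  exact h2.smul h4 (dY8.const_mul _) dA

end MP640201
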