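import Mathlib

/-! MP_640201_an: quadratic manifolds, CR maps, rationality. -/

open Complex Matrix
open scoped ComplexConjugate

namespace MP640201

/-- An `ℝ^l`-valued Hermitian form on `ℂ^d`, given by `l` Hermitian matrices. -/
structure HermForm (l d : ℕ) where
  mat : Fin l → Matrix (Fin d) (Fin d) ℂ
  herm : ∀ j, (mat j).IsHermitian

/-- The ambient space `ℂ^(l+d)`, with coordinates `(z', z'')`. -/
abbrev Cn (l d : ℕ) : Type := (Fin l → ℂ) × (Fin d → ℂ)

variable {l d l' d' : ℕ}

/-- The values `F(v,v) ∈ ℝ^l`. -/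
noncomputable def HermForm.q (A : HermForm l d) (v : Fin d → ℂ) : Fin l → ℝ :=
  fun j => (star v ⬝ᵥ (A.mat j) *ᵥ v).re

/-- The quadratic manifold `Im z' = F(z'', z'')`. -/
def HermForm.M (A : HermForm l d) : Set (Cn l d) := {z | ∀ j, (z.1 j).im = A.q z.2 j}

/-- The cone condition: the values `F(v,v)` form a convex cone (closed under multiplication by
positive numbers automatically), pointed, with non-empty interior, and `F(v,v) ≠ 0` for
`v ≠ 0`. -/
structure HermForm.Cone (A : HermForm l d) : Prop where
  convex : Convex ℝ (Set.range A.q)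
  pointed : ∀ y ∈ Set.range A.q, -y ∈ Set.range A.q → y = 0
  interior : (interior (Set.range A.q)).Nonempty
  nondeg : ∀ v, v ≠ 0 → A.q v ≠ 0

/-- The global parametrisation `(x, ζ) ↦ (x + i F(ζ,ζ), ζ)` of the quadratic manifold. -/
noncomputable def HermForm.param (A : HermForm l d) (u : (Fin l → ℝ) × (Fin d → ℂ)) : Cn l d :=
  (fun j => (u.1 j : ℂ) + I * (A.q u.2 j : ℂ), u.2)

/-- The coordinates of a point of the manifold. -/
def coords (z : Cn l d) : (Fin l → ℝ) × (Fin d → ℂ) := (fun j => (z.1 j).re, z.2)

/-- The real (Fréchet) derivative of `g` at `u` in the direction `v`. -/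
noncomputable def ddir {E F : Type} [NormedAddCommGroup E] [NormedSpace ℝ E]
    [NormedAddCommGroup F] [NormedSpace ℝ F] (g : E → F) (u v : E) : F :=
  fderiv ℝ g u v

/-- Derivative of the parametrisation at `u` in the direction `v` (a tangent vector). -/
noncomputable def HermForm.dparam (A : HermForm l d) (u v : (Fin l → ℝ) × (Fin d → ℂ)) : Cn l d :=
  ddir A.param u v

/-- Derivative of `f ∘ param` at `u` in the direction `v`; this is `df(w)` for the tangent vector
`w = A.dparam u v`. -/
noncomputable def dmap (A : HermForm l d) (f : Cn l d → Cn l' d')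
    (u v : (Fin l → ℝ) × (Fin d → ℂ)) : Cn l' d' :=
  ddir (f ∘ A.param) u v

/-- Tangent space at the point with parameter `u`. -/
noncomputable def HermForm.tang (A : HermForm l d) (u : (Fin l → ℝ) × (Fin d → ℂ)) :
    Set (Cn l d) := Set.range (A.dparam u)

/-- Complex tangent space at the point with parameter `u`: vectors `w` with `w` and `i w`
tangent. -/
noncomputable def HermForm.ctang (A : HermForm l d) (u : (Fin l → ℝ) × (Fin d → ℂ)) :
    Set (Cn l d) := {w | w ∈ A.tang u ∧ I • w ∈ A.tang u}

/-- `f : M₁ → M₂` is CR: continuous, and its differential maps the complex tangent space of `M₁`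
complex-linearly into the complex tangent space of `M₂`. Here `w = A.dparam u v` and
`i w = A.dparam u v'`, so that `df(w) = dmap A f u v`, `df(i w) = dmap A f u v'`. -/
def IsCRMap (A : HermForm l d) (B : HermForm l' d') (f : Cn l d → Cn l' d') : Prop :=
  Continuous (f ∘ A.param) ∧
  ∀ u v v', A.dparam u v' = I • A.dparam u v →
    dmap A f u v' = I • dmap A f u v ∧ dmap A f u v ∈ B.ctang (coords (f (A.param u)))

/-- `f` is of class `C^k` on the manifold. -/
def IsClass (A : HermForm l d) (k : ℕ) (f : Cn l d → Cn l' d') : Prop :=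
  ContDiff ℝ k (f ∘ A.param)

/-- Evaluation of a polynomial in the coordinates of `ℂ^(l+d)`. -/
noncomputable def peval (P : MvPolynomial (Fin l ⊕ Fin d) ℂ) (z : Cn l d) : ℂ :=
  MvPolynomial.eval (Sum.elim z.1 z.2) P

/-- A function `g` on the manifold is rational: `Q g = P` on the manifold for polynomials
`P, Q` with `Q ≠ 0`. -/
def RatOn (A : HermForm l d) (g : Cn l d → ℂ) : Prop :=
  ∃ P Q : MvPolynomial (Fin l ⊕ Fin d) ℂ, Q ≠ 0 ∧ ∀ z ∈ A.M, peval Q z * g z = peval P z

/-- All components of `f` are rational. -/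
def IsRational (A : HermForm l d) (f : Cn l d → Cn l' d') : Prop :=
  (∀ j, RatOn A (fun z => (f z).1 j)) ∧ (∀ j, RatOn A (fun z => (f z).2 j))

/-- The standard form `|v|²` on `ℂ^d`; its manifold is `Im z₁ = |z''|²`. -/
noncomputable def std (d : ℕ) : HermForm 1 d where
  mat := fun _ => 1
  herm := fun _ => Matrix.isHermitian_one

end MP640201
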