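import Pool.Agent.H.MP_640201_an.Step
import Pool.Agent.H.MP_640201_an.ColSpace

/-! MP_640201_an: choice of parameters. -/

open Complex
open scoped ComplexConjugate

namespace MP640201

/-- The arithmetic of the parameters. -/
theorem ready_arith {C c r p : ℝ} {N : ℕ} (hC : 1 ≤ C) (hc : 0 < c) (hc1 : c ≤ 1) (hr : 0 < r)
    (hp : 0 < p) (hp1 : p ≤ 1) (hpr : p ≤ r) (h8 : 8 * C * r ≤ 1) (h512 : 512 * C ^ 4 * r ≤ c ^ 3)
    (hN1 : 4 * C / (p ^ 2 * c) ≤ N) (hN2 : (N : ℝ) ≤ 4 * C / (p ^ 2 * c) + 1) :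
    C / (N : ℝ) + C * c * (p ^ 7 * r) + p ^ 2 * c / 4 + C * (N : ℝ) ^ 2 * (2 * C / p) * (p ^ 7 * r)
      ≤ p ^ 2 * c := by
  have hC0 : 0 < C := by linarith
  have hp2 : 0 < p ^ 2 := by positivity
  have hpc : 0 < p ^ 2 * c := by positivity
  have hNpos : (0 : ℝ) < N := lt_of_lt_of_le (by positivity) hN1
  have t1 : C / (N : ℝ) ≤ p ^ 2 * c / 4 := by
    rw [div_le_iff₀ hNpos]
    rw [div_le_iff₀ hpc] at hN1
    nlinarith
  have t2 : C * c * (p ^ 7 * r) ≤ p ^ 2 * c / 4 := by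
    have h1 : p ^ 5 ≤ 1 := pow_le_one₀ hp.le hp1
    have h2 : C * r ≤ 1 / 4 := by nlinarith
    have h3 : C * r * p ^ 5 ≤ 1 / 4 := by
      calc C * r * p ^ 5 ≤ C * r * 1 := by
            apply mul_le_mul_of_nonneg_left h1; positivity
        _ ≤ 1 / 4 := by linarith
    calc C * c * (p ^ 7 * r) = (C * r * p ^ 5) * (p ^ 2 * c) := by ring
      _ ≤ 1 / 4 * (p ^ 2 * c) := mul_le_mul_of_nonneg_right h3 hpc.le
      _ = p ^ 2 * c / 4 := by ring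
  have hN3 : (N : ℝ) ≤ 8 * C / (p ^ 2 * c) := by
    have h1 : 1 ≤ 4 * C / (p ^ 2 * c) := by
      rw [le_div_iff₀ hpc]
      have : p ^ 2 * c ≤ 1 := mul_le_one₀ (pow_le_one₀ hp.le hp1) hc.le hc1
      nlinarith
    calc (N : ℝ) ≤ 4 * C / (p ^ 2 * c) + 4 * C / (p ^ 2 * c) := by linarith
      _ = 8 * C / (p ^ 2 * c) := by ring
  have t4 : C * (N : ℝ) ^ 2 * (2 * C / p) * (p ^ 7 * r) ≤ p ^ 2 * c / 4 := by
    have h1 : (N : ℝ) ^ 2 ≤ (8 * C / (p ^ 2 * c)) ^ 2 := pow_le_pow_left₀ hNpos.le hN3 2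
    have h2 : C * (N : ℝ) ^ 2 * (2 * C / p) * (p ^ 7 * r) ≤
        C * (8 * C / (p ^ 2 * c)) ^ 2 * (2 * C / p) * (p ^ 7 * r) := by
      have : 0 ≤ (2 * C / p) * (p ^ 7 * r) := by positivity
      calc C * (N : ℝ) ^ 2 * (2 * C / p) * (p ^ 7 * r)
          = (C * (N : ℝ) ^ 2) * ((2 * C / p) * (p ^ 7 * r)) := by ring
        _ ≤ (C * (8 * C / (p ^ 2 * c)) ^ 2) * ((2 * C / p) * (p ^ 7 * r)) :=
            mul_le_mul_of_nonneg_right (mul_le_mul_of_nonneg_left h1 hC0.le) this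
        _ = _ := by ring
    refine h2.trans ?_
    have h3 : C * (8 * C / (p ^ 2 * c)) ^ 2 * (2 * C / p) * (p ^ 7 * r)
        = (512 * C ^ 4 * r) * (p ^ 2 / (4 * c ^ 2)) := by
      field_simp
      ring
    have h4 : p ^ 2 * c / 4 = c ^ 3 * (p ^ 2 / (4 * c ^ 2)) := by
      field_simp
    rw [h3, h4]
    exact mul_le_mul_of_nonneg_right h512 (by positivity)
  linarith

theorem step_ready (k : ℕ) : ∃ (m K : ℕ) (r c C₀ C₁ : ℝ), k ≤ m ∧ 1 ≤ m ∧ 0 < r ∧ r ≤ 1 / 2 ∧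
    0 < c ∧ c ≤ 1 / 2 ∧ 0 ≤ C₀ ∧ 0 ≤ C₁ ∧
    ∀ (b : Hs → ℝ) (G : Hs → EuclideanSpace ℂ (Fin K)),
      Adm m (fun _ => c) (fun q => b q - 1) → Top m C₁ G →
      ∃ g : Hs → EuclideanSpace ℂ (Fin K), IsCR g ∧ Adm m (fun _ => C₀) g ∧
        Adm m (fun _ => c) (fun q => (r ^ (4 * k + 2))⁻¹ *
          (b (dil r q) - ‖g q‖ ^ 2 - 2 * rip (G (dil r q)) (g q)) - 1) ∧
        Top m C₁ (fun q => ((r ^ (2 * k + 1))⁻¹ : ℝ) • (G (dil r q) + g q)) := by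
  obtain ⟨C, hC1, c, hc0, hc2, hstep⟩ := step_lemma (14 * k + 8) (by omega)
  have hC0 : 0 < C := by linarith
  obtain ⟨r, hr0, hr2, hrc, hr8, hr512⟩ : ∃ r : ℝ, 0 < r ∧ r ≤ 1 / 2 ∧ r ≤ c ∧ 8 * C * r ≤ 1 ∧
      512 * C ^ 4 * r ≤ c ^ 3 := by
    refine ⟨min (min (1 / 2) c) (min (1 / (8 * C)) (c ^ 3 / (512 * C ^ 4))), by positivity, ?_, ?_,
      ?_, ?_⟩
    · exact (min_le_left _ _).trans (min_le_left _ _)
    · exact (min_le_left _ _).trans (min_le_right _ _)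
    · calc 8 * C * _ ≤ 8 * C * (1 / (8 * C)) :=
            mul_le_mul_of_nonneg_left ((min_le_right _ _).trans (min_le_left _ _)) (by positivity)
        _ = 1 := by field_simp
    · calc 512 * C ^ 4 * _ ≤ 512 * C ^ 4 * (c ^ 3 / (512 * C ^ 4)) :=
            mul_le_mul_of_nonneg_left ((min_le_right _ _).trans (min_le_right _ _)) (by positivity)
        _ = c ^ 3 := by field_simp
  have hr1 : r ≤ 1 := by linarith
  obtain ⟨p, hp⟩ : ∃ p, p = r ^ (2 * k + 1) := ⟨_, rfl⟩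
  have hp0 : 0 < p := by rw [hp]; positivity
  have hp1 : p ≤ 1 := by rw [hp]; exact pow_le_one₀ hr0.le hr1
  have hpr : p ≤ r := by
    rw [hp]; simpa using pow_le_pow_of_le_one hr0.le hr1 (show 1 ≤ 2 * k + 1 by omega)
  have he : r ^ (4 * k + 2) = p ^ 2 := by
    rw [hp, ← pow_mul]; congr 1; ring
  have hrm : r ^ (14 * k + 8) = p ^ 7 * r := by
    rw [hp, ← pow_mul, ← pow_succ]; congr 1; ring
  have hc1 : c ≤ 1 := by linarith
  have hpc : 0 < p ^ 2 * c := by positivity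
  have hN0 : 0 ≤ 4 * C / (p ^ 2 * c) := by positivity
  obtain ⟨N, hN⟩ : ∃ N : ℕ, N = ⌈4 * C / (p ^ 2 * c)⌉₊ := ⟨_, rfl⟩
  have hN1 : 4 * C / (p ^ 2 * c) ≤ N := by rw [hN]; exact Nat.le_ceil _
  have hN2 : (N : ℝ) ≤ 4 * C / (p ^ 2 * c) + 1 := by
    rw [hN]; exact (Nat.ceil_lt_add_one hN0).le
  have hNpos : 1 ≤ N := by
    rw [hN]; exact Nat.ceil_pos.2 (by positivity)
  obtain ⟨D, hD, hmain⟩ := hstep N hNpos (p ^ 2 * c / 4) (by positivity)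
  obtain ⟨K, ⟨U⟩⟩ := exists_coloured D (14 * k + 8) hD
  have hbound := ready_arith hC1 hc0 hc1 hr0 hp0 hp1 hpr hr8 hr512 hN1 hN2
  have hpc2 : p ^ 2 ≤ c := by
    have : p ^ 2 ≤ p := by nlinarith
    linarith
  refine ⟨14 * k + 8, K, r, c, C, 2 * C / p, by omega, by omega, hr0, hr2, hc0, hc2, hC0.le,
    by positivity, ?_⟩
  intro b G hb hG
  obtain ⟨g, hg1, hg2, hg3⟩ := hmain (EuclideanSpace ℂ (Fin K)) U c (p ^ 2) r (2 * C / p) le_rfl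
    (by positivity) hpc2 hr0.le hr1 b G hb hG
  refine ⟨g, hg1, hg2, ?_, ?_⟩
  · have h1 := hg3.clm (((p ^ 2)⁻¹ : ℝ) • ContinuousLinearMap.id ℝ ℝ) (K := (p ^ 2)⁻¹)
      (norm_smul_id_le (by positivity))
    rw [he]
    have h2 : (fun q => (p ^ 2)⁻¹ * (b (dil r q) - ‖g q‖ ^ 2 - 2 * rip (G (dil r q)) (g q)) - 1)
        = fun q => (((p ^ 2)⁻¹ : ℝ) • ContinuousLinearMap.id ℝ ℝ)
          (b (dil r q) - p ^ 2 - ‖g q‖ ^ 2 - 2 * rip (G (dil r q)) (g q)) := by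
      funext q
      simp only [ContinuousLinearMap.smul_apply, ContinuousLinearMap.id_apply, smul_eq_mul]
      field_simp
      ring
    rw [h2]
    refine h1.mono fun q => ?_
    rw [inv_mul_le_iff₀ (by positivity), hrm]
    exact hbound
  · have hp' : r ^ (2 * k + 1) = p := hp.symm
    rw [hp']
    have h1 : Top (14 * k + 8) (r ^ (14 * k + 8) * (2 * C / p) + C)
        (fun q => G (dil r q) + g q) := (hG.dil hr0.le hr1).add hg2.top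
    have h2 := h1.clm ((p⁻¹ : ℝ) • ContinuousLinearMap.id ℝ _) (K := p⁻¹)
      (norm_smul_id_le (by positivity))
    refine Top.mono h2 ?_
    rw [hrm]
    have h3 : p⁻¹ * (p ^ 7 * r * (2 * C / p) + C) = (p ^ 6 * r) * (2 * C / p) + C / p := by
      field_simp
    rw [h3]
    have h4 : p ^ 6 * r ≤ 1 / 2 := by
      have : p ^ 6 ≤ 1 := pow_le_one₀ hp0.le hp1
      nlinarith
    have h5 : 0 ≤ 2 * C / p := by positivity
    have h6 : (p ^ 6 * r) * (2 * C / p) ≤ 1 / 2 * (2 * C / p) := mul_le_mul_of_nonneg_right h4 h5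
    have h7 : 1 / 2 * (2 * C / p) + C / p = 2 * C / p := by ring
    linarith

end MP640201
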