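import Pool.Agent.H.MP_640201_an.PkBound

/-! MP_640201_an: the cross term. -/

open Complex
open scoped ComplexConjugate

namespace MP640201

/-- `rip x` as a continuous linear map. -/
noncomputable def crossL {V : Type*} [NormedAddCommGroup V] [InnerProductSpace ℂ V] (x : V) :
    V →L[ℝ] ℝ :=
  Complex.reCLM.comp ((innerSL ℂ x).restrictScalars ℝ)

theorem crossL_apply {V : Type*} [NormedAddCommGroup V] [InnerProductSpace ℂ V] (x y : V) :
    crossL x y = rip x y := rfl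

theorem cross_rip_adj {V W : Type*} [NormedAddCommGroup V] [InnerProductSpace ℂ V]
    [NormedAddCommGroup W] [InnerProductSpace ℂ W] (J : W →L[ℂ] V) (J' : V →L[ℂ] W)
    (h : ∀ x y, inner ℂ (J x) y = inner ℂ x (J' y)) (x : V) (y : W) :
    rip x (J y) = rip (J' x) y := by
  unfold rip
  rw [← inner_conj_symm, h, inner_conj_symm]

theorem cross_pk_comp {V : Type*} [NormedAddCommGroup V] [InnerProductSpace ℂ V] (m : ℕ) (θ : ℝ)
    (J : CI m →L[ℂ] V) (B : CI m →L[ℂ] CI m) (r : ℝ) (q : Hs) :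
    pk m θ (J.comp B) r q = J (pk m θ B r q) := by
  unfold pk
  rw [map_smul]
  rfl

theorem cross_hmul_lq (N : ℕ) (n : Idx) (z : Hs) : hmul (lat N n) (lq N n z) = z := by
  unfold lq
  rw [← hmul_assoc, hmul_hinv, zero_hmul]

theorem step_cross (m : ℕ) : ∃ C : ℝ, 1 ≤ C ∧ ∀ N : ℕ, 1 ≤ N →
    ∀ (V : Type) [NormedAddCommGroup V] [InnerProductSpace ℂ V] [FiniteDimensional ℂ V]
      (B : Idx → CI m →L[ℂ] CI m) (J : Idx → CI m →L[ℂ] V) (J' : Idx → V →L[ℂ] CI m)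
      (G : Hs → V) (C₁ r : ℝ), 0 ≤ r → r ≤ 1 → (∀ n, ‖B n‖ ≤ 1) → (∀ n, ‖J n‖ ≤ 1) →
      (∀ n, ‖J' n‖ ≤ 1) → (∀ n x y, inner ℂ (J n x) y = inner ℂ x (J' n y)) → Top m C₁ G →
      (∀ n, Van m 0 (fun q => J' n (G (hmul (dil r (lat N n)) q)))) →
      Adm m (fun _ => C * (N : ℝ) ^ 2 * C₁ * r ^ m)
        (fun z => rip (G (dil r z)) (∑' n, pk m (tht m N) ((J n).comp (B n)) r (lq N n z))) := by
  obtain ⟨Cp, hCp1, hpk⟩ := adm_pk m
  obtain ⟨Ct, hCt1, htht⟩ := tht_le m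
  obtain ⟨Cl, hCl1, hlat⟩ := lat_sum
  refine ⟨2 ^ m * 4 ^ m * Cp * Cl * Ct, ?_, ?_⟩
  · have h1 : (1 : ℝ) ≤ 2 ^ m := one_le_pow₀ (by norm_num)
    have h2 : (1 : ℝ) ≤ 4 ^ m := one_le_pow₀ (by norm_num)
    have h3 : (1 : ℝ) ≤ 2 ^ m * 4 ^ m := one_le_mul_of_one_le_of_one_le h1 h2
    have h4 := one_le_mul_of_one_le_of_one_le h3 hCp1
    have h5 := one_le_mul_of_one_le_of_one_le h4 hCl1
    exact one_le_mul_of_one_le_of_one_le h5 hCt1
  intro N hN V _ _ _ B J J' G C₁ r hr0 hr1 hB hJ hJ' hadj hG hvan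
  have hN0 : (0 : ℝ) < N := by exact_mod_cast hN
  have hCp0 : 0 < Cp := by linarith
  have hCt0 : 0 < Ct := by linarith
  have hCl0 : 0 < Cl := by linarith
  have hV : CompleteSpace V := FiniteDimensional.complete ℂ V
  set θ := tht m N with hθ
  have hθ0 : 0 ≤ θ := tht_nonneg m N
  have hθ1 : θ ≤ Ct / (N : ℝ) ^ 2 := htht N hN
  -- the functions R
  have hR : ∀ n, Gr m C₁ (fun q => J' n (G (hmul (dil r (lat N n)) q))) := by
    intro n
    have h1 : Top m (1 * C₁) (fun q => ((J' n).restrictScalars ℝ)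
        (G (hmul (dil r (lat N n)) q))) :=
      (hG.hmul (dil r (lat N n))).clm ((J' n).restrictScalars ℝ) (K := 1)
        (by rw [ContinuousLinearMap.norm_restrictScalars]; exact hJ' n)
    rw [one_mul] at h1
    exact gr_of_top_van h1 (hvan n)
  have hC1 : 0 ≤ C₁ := (hR 0).nonneg
  set K : ℝ := 2 ^ m * 4 ^ m * Cp * (C₁ * r ^ m) * θ with hK
  have hK0 : 0 ≤ K := by positivity
  set h : Idx → Hs → ℝ := fun n q =>
    rip (J' n (G (hmul (dil r (lat N n)) (dil r q)))) (pk m θ (B n) r q) with hh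
  have hadm : ∀ n, Adm m (fun q => K * wp 8 q) (h n) := by
    intro n
    have h1 := ((hR n).dil hr0 hr1).adm
    have h2 := hpk (CI m) (B n) θ r (hB n) hθ0 hr0 hr1
    refine (Adm.rip h1 h2).mono fun q => ?_
    have h3 : (1 + 3 * ‖q‖) ^ m ≤ 4 ^ m * vw q ^ m := by
      rw [← mul_pow]
      apply pow_le_pow_left₀ (by positivity)
      have := norm_le_vw q
      have := one_le_vw q
      linarith
    have h4 := vw_pow_mul_wp m 8 q
    have h5 := wp_nonneg (m + 8) q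
    calc 2 ^ m * (C₁ * r ^ m * (1 + 3 * ‖q‖) ^ m * (Cp * θ * wp (m + 8) q))
        ≤ 2 ^ m * (C₁ * r ^ m * (4 ^ m * vw q ^ m) * (Cp * θ * wp (m + 8) q)) := by gcongr
      _ = K * (vw q ^ m * wp (m + 8) q) := by rw [hK]; ring
      _ = K * wp 8 q := by rw [h4]
  have hF : ∀ n, Adm m (fun z => K * wp 8 (lq N n z)) (fun z => h n (lq N n z)) :=
    fun n => (hadm n).hmul (hinv (lat N n))
  have hsum : ∀ z, ∑' n : Idx, K * wp 8 (lq N n z) ≤ K * (Cl * (N : ℝ) ^ 4) := by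
    intro z
    have h1 : Summable (fun n : Idx => wp 8 (lq N n z)) :=
      Summable.of_nonneg_of_le (fun n => wp_nonneg 8 _) (fun n => wp_anti (by norm_num) _)
        (hlat N hN z).1
    rw [tsum_mul_left]
    refine mul_le_mul_of_nonneg_left ?_ hK0
    exact (h1.tsum_le_tsum (fun n => wp_anti (by norm_num) _) (hlat N hN z).1).trans
      (hlat N hN z).2
  have hmain := adm_tsum' (Φ := fun _ => K * (Cl * (N : ℝ) ^ 4)) hF
    (lus_lq hN (p := 8) (by norm_num) K hK0) hsum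
  have heq : (fun z => rip (G (dil r z)) (∑' n, pk m θ ((J n).comp (B n)) r (lq N n z))) =
      fun z => ∑' n, h n (lq N n z) := by
    funext z
    have hs : Summable (fun n : Idx => pk m θ ((J n).comp (B n)) r (lq N n z)) := by
      refine Summable.of_norm_bounded (g := fun n : Idx => Cp * θ * wp 4 (lq N n z))
        ((hlat N hN z).1.mul_left _) fun n => ?_
      have h1 := (hpk V ((J n).comp (B n)) θ r ((ContinuousLinearMap.opNorm_comp_le _ _).trans
        (mul_le_one₀ (hJ n) (norm_nonneg _) (hB n))) hθ0 hr0 hr1).bound (lq N n z)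
      refine h1.trans ?_
      have := wp_anti (show 4 ≤ m + 8 by omega) (lq N n z)
      gcongr
    rw [← crossL_apply, ContinuousLinearMap.map_tsum _ hs]
    refine tsum_congr fun n => ?_
    rw [crossL_apply, cross_pk_comp, cross_rip_adj (J n) (J' n) (hadj n)]
    rw [hh]
    simp only
    rw [← dil_hmul, cross_hmul_lq]
  rw [heq]
  refine hmain.mono fun z => ?_
  rw [hK]
  calc 2 ^ m * 4 ^ m * Cp * (C₁ * r ^ m) * θ * (Cl * (N : ℝ) ^ 4)
      ≤ 2 ^ m * 4 ^ m * Cp * (C₁ * r ^ m) * (Ct / (N : ℝ) ^ 2) * (Cl * (N : ℝ) ^ 4) := by gcongr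
    _ = 2 ^ m * 4 ^ m * Cp * Cl * Ct * (N : ℝ) ^ 2 * C₁ * r ^ m := by field_simp

end MP640201
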