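import Pool.Agent.H.MP_640201_an.PkBound

/-! MP_640201_an: the diagonal term. -/

open Complex
open scoped ComplexConjugate

namespace MP640201

theorem StepDiag_lq (N : ℕ) (r : ℝ) (n : Idx) (z : Hs) :
    hmul (dil r (lat N n)) (dil r (lq N n z)) = dil r z := by
  rw [← dil_hmul, lq, ← hmul_assoc, hmul_hinv, zero_hmul]

theorem StepDiag_norm_pk {V : Type*} [NormedAddCommGroup V] [InnerProductSpace ℂ V] (m : ℕ)
    (θ : ℝ) (A : CI m →L[ℂ] V) (r : ℝ) (q : Hs) :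
    ‖pk m θ A r q‖ ^ 2 = θ ^ 2 * (‖Yf q ^ (m + 8)‖ ^ 2 * ‖A (Wf m (dil r q))‖ ^ 2) := by
  rw [pk, norm_smul, norm_mul, Complex.norm_real, mul_pow, mul_pow, Real.norm_eq_abs, sq_abs]
  ring

theorem StepDiag_weight (m : ℕ) (q : Hs) :
    wp (m + 8) q * wp (m + 8) q * (1 + 3 * ‖q‖) ^ m ≤ 4 ^ m * wp 4 q := by
  have h1 : (1 + 3 * ‖q‖) ^ m ≤ 4 ^ m * vw q ^ m := by
    rw [← mul_pow]
    apply pow_le_pow_left₀ (by positivity)
    have := norm_le_vw q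
    have := one_le_vw q
    linarith
  have h2 : wp (m + 8) q * wp (m + 8) q = wp (m + (m + 16)) q := by
    rw [← wp_add]
    congr 1
    ring
  rw [h2]
  calc wp (m + (m + 16)) q * (1 + 3 * ‖q‖) ^ m
      ≤ wp (m + (m + 16)) q * (4 ^ m * vw q ^ m) :=
        mul_le_mul_of_nonneg_left h1 (wp_nonneg _ _)
    _ = 4 ^ m * (vw q ^ m * wp (m + (m + 16)) q) := by ring
    _ = 4 ^ m * wp (m + 16) q := by rw [vw_pow_mul_wp]
    _ ≤ 4 ^ m * wp 4 q := by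
        apply mul_le_mul_of_nonneg_left (wp_anti (by omega) q) (by positivity)

theorem step_diag (m : ℕ) : ∃ C : ℝ, 1 ≤ C ∧ ∀ N : ℕ, 1 ≤ N →
    ∀ (V : Type) [NormedAddCommGroup V] [InnerProductSpace ℂ V]
      (A : Idx → CI m →L[ℂ] V) (b : Hs → ℝ) (c ε δ r : ℝ), (∀ n, ‖A n‖ ≤ 1) →
      0 ≤ r → r ≤ 1 → c ≤ 1 → 0 ≤ ε → ε ≤ 1 → Adm m (fun _ => c) (fun q => b q - 1) →
      (∀ n, Gr m δ (fun q => (b (hmul (dil r (lat N n)) q) - 1 - ε) -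
        (‖A n (Wf m q)‖ ^ 2 - 1))) →
      Adm m (fun _ => C / (N : ℝ) + C * δ * r ^ m)
        (fun z => (b (dil r z) - ε) - ∑' n, ‖pk m (tht m N) (A n) r (lq N n z)‖ ^ 2) := by
  obtain ⟨Cn, hCn1, hCn⟩ := near_unity m
  obtain ⟨Cy, hCy0, hCy⟩ := adm_Ypow m (m + 8)
  obtain ⟨Cl, hCl1, hCl⟩ := lat_sum
  set K' : ℝ := 2 ^ m * (2 ^ m * (Cy * Cy)) * 4 ^ m with hK'
  have hK'0 : 0 ≤ K' := by positivity
  refine ⟨1 + 2 ^ m * (2 ^ m * (2 * Cn) * Cn) + 2 ^ m * (K' * Cl * Cn), ?_, ?_⟩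
  · have h1 : 0 ≤ 2 ^ m * (2 ^ m * (2 * Cn) * Cn) := by positivity
    have h2 : 0 ≤ 2 ^ m * (K' * Cl * Cn) := by positivity
    linarith
  intro N hN V _ _ A b c ε δ r hA hr0 hr1 hc hε0 hε1 hb hGr
  obtain ⟨hTh, hThAdm⟩ := hCn N hN
  have hTh0 : 0 < Th m N 0 := lt_of_lt_of_le (by positivity) hTh
  have hThinv : (Th m N 0)⁻¹ ≤ Cn := by
    rw [inv_le_comm₀ hTh0 (by positivity)]
    exact hTh
  have hδ : 0 ≤ δ := (hGr 0).nonneg
  have hN0 : (0 : ℝ) < N := by exact_mod_cast hN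
  -- the function `y`
  set y : Idx → Hs → ℝ := fun n z => ‖Yf (lq N n z) ^ (m + 8)‖ ^ 2 with hy
  have hybd : ∀ q : Hs, ‖Yf q ^ (m + 8)‖ ^ 2 ≤ Cy ^ 2 * wp 4 q := by
    intro q
    have h1 : ‖Yf q ^ (m + 8)‖ ≤ Cy * wp (m + 8) q := hCy.bound q
    calc ‖Yf q ^ (m + 8)‖ ^ 2 ≤ (Cy * wp (m + 8) q) ^ 2 :=
          pow_le_pow_left₀ (norm_nonneg _) h1 2
      _ = Cy ^ 2 * (wp (m + 8) q * wp (m + 8) q) := by ring
      _ ≤ Cy ^ 2 * (wp 4 q * 1) := by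
          apply mul_le_mul_of_nonneg_left _ (by positivity)
          exact mul_le_mul (wp_anti (by omega) q) (wp_le_one _ _) (wp_nonneg _ _) (wp_nonneg _ _)
      _ = Cy ^ 2 * wp 4 q := by ring
  have hysum : ∀ z, Summable (fun n => y n z) := by
    intro z
    refine Summable.of_nonneg_of_le (fun n => by positivity) (fun n => hybd _)
      ((hCl N hN z).1.mul_left (Cy ^ 2))
  have hThy : ∀ z, Th m N z = ((N : ℝ)⁻¹) ^ 4 * ∑' n, y n z := by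
    intro z
    rw [Th]
    congr 1
    apply tsum_congr
    intro n
    rw [hy]
    simp only
    rw [norm_pow, ← pow_mul, mul_comm (m + 8) 2]
  -- the remainders
  set R : Idx → Hs → ℝ := fun n q => (b (hmul (dil r (lat N n)) q) - 1 - ε) -
        (‖A n (Wf m q)‖ ^ 2 - 1) with hR
  set h : Idx → Hs → ℝ := fun n z => y n z * R n (dil r (lq N n z)) with hh
  set K : ℝ := K' * (δ * r ^ m) with hK
  have hK0 : 0 ≤ K := by positivity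
  have hAdmh : ∀ n, Adm m (fun z => K * wp 4 (lq N n z)) (h n) := by
    intro n
    have h1 : Adm m (fun q => 2 ^ m * (Cy * wp (m + 8) q * (Cy * wp (m + 8) q)))
        (fun q => ‖Yf q ^ (m + 8)‖ ^ 2) := hCy.normSq
    have h2 : Adm m (fun q => δ * r ^ m * (1 + 3 * ‖q‖) ^ m) (fun q => R n (dil r q)) :=
      ((hGr n).dil hr0 hr1).adm
    have h3 := (h1.mulR h2).mono (ψ := fun q => K * wp 4 q) (by
      intro q
      have h4 := StepDiag_weight m q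
      calc 2 ^ m * (2 ^ m * (Cy * wp (m + 8) q * (Cy * wp (m + 8) q)) *
            (δ * r ^ m * (1 + 3 * ‖q‖) ^ m))
          = 2 ^ m * (2 ^ m * (Cy * Cy)) * (δ * r ^ m) *
            (wp (m + 8) q * wp (m + 8) q * (1 + 3 * ‖q‖) ^ m) := by ring
        _ ≤ 2 ^ m * (2 ^ m * (Cy * Cy)) * (δ * r ^ m) * (4 ^ m * wp 4 q) :=
            mul_le_mul_of_nonneg_left h4 (by positivity)
        _ = K * wp 4 q := by rw [hK, hK']; ring)
    exact h3.hmul (hinv (lat N n))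
  have hhsum : ∀ z, Summable (fun n => h n z) := by
    intro z
    refine Summable.of_norm_bounded ((hCl N hN z).1.mul_left K) (fun n => ?_)
    exact (hAdmh n).bound z
  have hAdmH : Adm m (fun _ => K * (Cl * (N : ℝ) ^ 4)) (fun z => ∑' n, h n z) := by
    refine adm_tsum' hAdmh (lus_lq hN le_rfl K hK0) ?_
    intro q
    rw [tsum_mul_left]
    exact mul_le_mul_of_nonneg_left (hCl N hN q).2 hK0
  -- the identity
  have hid : (fun z => (b (dil r z) - ε) - ∑' n, ‖pk m (tht m N) (A n) r (lq N n z)‖ ^ 2) =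
      fun z => -((b (dil r z) - 1 + (1 - ε)) * (Th m N z - Th m N 0) * (Th m N 0)⁻¹) +
        (∑' n, h n z) * (((N : ℝ)⁻¹) ^ 4 * (Th m N 0)⁻¹) := by
    funext z
    have h1 : ∀ n, ‖pk m (tht m N) (A n) r (lq N n z)‖ ^ 2 =
        ((N : ℝ)⁻¹) ^ 4 * (Th m N 0)⁻¹ * ((b (dil r z) - ε) * y n z - h n z) := by
      intro n
      rw [StepDiag_norm_pk, tht_sq]
      have h2 : b (hmul (dil r (lat N n)) (dil r (lq N n z))) = b (dil r z) := by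
        rw [StepDiag_lq]
      simp only [hh, hR, hy, h2]
      rw [div_eq_mul_inv]
      ring
    have h3 : ∑' n, ‖pk m (tht m N) (A n) r (lq N n z)‖ ^ 2 =
        ((N : ℝ)⁻¹) ^ 4 * (Th m N 0)⁻¹ * ((b (dil r z) - ε) * ∑' n, y n z - ∑' n, h n z) := by
      rw [tsum_congr h1, tsum_mul_left, Summable.tsum_sub ((hysum z).mul_left _) (hhsum z),
        tsum_mul_left]
    rw [h3, hThy z]
    have h4 : (Th m N 0)⁻¹ * Th m N 0 = 1 := inv_mul_cancel₀ hTh0.ne'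
    have h6 : (b (dil r z) - 1 + (1 - ε)) = b (dil r z) - ε := by ring
    rw [h6]
    linear_combination (-(b (dil r z) - ε)) * h4
  rw [hid]
  -- first term
  have hB : Adm m (fun _ => (2 : ℝ)) (fun z => b (dil r z) - 1 + (1 - ε)) := by
    refine ((hb.dil hr0 hr1).add (adm_const m (1 - ε))).mono ?_
    intro q
    have : ‖(1 - ε : ℝ)‖ ≤ 1 := by
      rw [Real.norm_eq_abs, abs_le]
      constructor <;> linarith
    linarith
  have h1 := (((hB.mulR hThAdm).mulR (adm_const m (Th m N 0)⁻¹)).neg).add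
    (hAdmH.mulR (adm_const m (((N : ℝ)⁻¹) ^ 4 * (Th m N 0)⁻¹)))
  refine h1.mono ?_
  intro q
  have hTi0 : 0 < (Th m N 0)⁻¹ := inv_pos.2 hTh0
  have hn1 : ‖(Th m N 0)⁻¹‖ ≤ Cn := by
    rw [Real.norm_eq_abs, abs_of_pos hTi0]
    exact hThinv
  have hn2 : ‖((N : ℝ)⁻¹) ^ 4 * (Th m N 0)⁻¹‖ ≤ ((N : ℝ)⁻¹) ^ 4 * Cn := by
    rw [Real.norm_eq_abs, abs_of_pos (by positivity)]
    exact mul_le_mul_of_nonneg_left hThinv (by positivity)
  have hNN : (N : ℝ) ^ 4 * ((N : ℝ)⁻¹) ^ 4 = 1 := by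
    rw [← mul_pow, mul_inv_cancel₀ hN0.ne', one_pow]
  have e1 : 2 ^ m * (2 ^ m * (2 * (Cn / (N : ℝ))) * ‖(Th m N 0)⁻¹‖) ≤
      2 ^ m * (2 ^ m * (2 * Cn) * Cn) / (N : ℝ) := by
    calc 2 ^ m * (2 ^ m * (2 * (Cn / (N : ℝ))) * ‖(Th m N 0)⁻¹‖)
        ≤ 2 ^ m * (2 ^ m * (2 * (Cn / (N : ℝ))) * Cn) := by gcongr
      _ = 2 ^ m * (2 ^ m * (2 * Cn) * Cn) / (N : ℝ) := by ring
  have e2 : 2 ^ m * (K * (Cl * (N : ℝ) ^ 4) * ‖((N : ℝ)⁻¹) ^ 4 * (Th m N 0)⁻¹‖) ≤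
      2 ^ m * (K' * Cl * Cn) * δ * r ^ m := by
    calc 2 ^ m * (K * (Cl * (N : ℝ) ^ 4) * ‖((N : ℝ)⁻¹) ^ 4 * (Th m N 0)⁻¹‖)
        ≤ 2 ^ m * (K * (Cl * (N : ℝ) ^ 4) * (((N : ℝ)⁻¹) ^ 4 * Cn)) := by gcongr
      _ = 2 ^ m * (K * Cl * Cn) * ((N : ℝ) ^ 4 * ((N : ℝ)⁻¹) ^ 4) := by ring
      _ = 2 ^ m * (K' * Cl * Cn) * δ * r ^ m := by rw [hNN, hK]; ring
  have e3 : 0 ≤ 2 ^ m * (2 ^ m * (2 * Cn) * Cn) := by positivity
  have e4 : 0 ≤ 2 ^ m * (K' * Cl * Cn) := by positivity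
  have e5 : (1 + 2 ^ m * (2 ^ m * (2 * Cn) * Cn) + 2 ^ m * (K' * Cl * Cn)) / (N : ℝ) =
      2 ^ m * (2 ^ m * (2 * Cn) * Cn) / (N : ℝ) + (1 + 2 ^ m * (K' * Cl * Cn)) / (N : ℝ) := by
    ring
  have e6 : (1 + 2 ^ m * (2 ^ m * (2 * Cn) * Cn) + 2 ^ m * (K' * Cl * Cn)) * δ * r ^ m =
      2 ^ m * (K' * Cl * Cn) * δ * r ^ m + (1 + 2 ^ m * (2 ^ m * (2 * Cn) * Cn)) * δ * r ^ m := by
    ring
  have e7 : 0 ≤ (1 + 2 ^ m * (K' * Cl * Cn)) / (N : ℝ) := by positivity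
  have e8 : 0 ≤ (1 + 2 ^ m * (2 ^ m * (2 * Cn) * Cn)) * δ * r ^ m := by positivity
  rw [e5, e6]
  linarith

end MP640201
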