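import Pool.Agent.H.MP_640201_an.StepG
import Pool.Agent.H.MP_640201_an.StepDiag
import Pool.Agent.H.MP_640201_an.StepCross
import Pool.Agent.H.MP_640201_an.Amplitude
import Pool.Agent.H.MP_640201_an.Ortho

/-! MP_640201_an: the step lemma. -/

open Complex
open scoped ComplexConjugate

namespace MP640201

theorem step_lemma (m : ℕ) (hm : 1 ≤ m) : ∃ C : ℝ, 1 ≤ C ∧ ∃ cs : ℝ, 0 < cs ∧ cs ≤ 1 / 2 ∧
    ∀ N : ℕ, 1 ≤ N → ∀ tol : ℝ, 0 < tol → ∃ D : ℕ, 1 ≤ D ∧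
    ∀ (V : Type) [NormedAddCommGroup V] [InnerProductSpace ℂ V] [FiniteDimensional ℂ V]
      (_ : Coloured D m V) (c ε r C₁ : ℝ), c ≤ cs → 0 ≤ ε → ε ≤ c → 0 ≤ r → r ≤ 1 →
      ∀ (b : Hs → ℝ) (G : Hs → V), Adm m (fun _ => c) (fun q => b q - 1) → Top m C₁ G →
      ∃ g : Hs → V, IsCR g ∧ Adm m (fun _ => C) g ∧
        Adm m (fun _ => C / (N : ℝ) + C * c * r ^ m + tol + C * (N : ℝ) ^ 2 * C₁ * r ^ m)
          (fun q => b (dil r q) - ε - ‖g q‖ ^ 2 - 2 * rip (G (dil r q)) (g q)) := by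
  obtain ⟨CA, hCA1, cA, hcA, hamp⟩ := amplitude m hm
  obtain ⟨Cg, hCg1, hg⟩ := step_g m hm
  obtain ⟨Cd, hCd1, hd⟩ := step_diag m
  obtain ⟨Cx, hCx1, hx⟩ := step_cross m
  have hprod : 0 ≤ CA * Cd := by positivity
  refine ⟨Cg + Cd + 2 * (CA * Cd) + 2 * Cx, by linarith, min (cA / 2) (1 / 2),
    lt_min (by linarith) (by norm_num), min_le_right _ _, ?_⟩
  intro N hN tol htol
  obtain ⟨Dg, hDg⟩ := hg N hN
  obtain ⟨Do, hDo⟩ := step_off m N hN tol htol
  refine ⟨max (max Dg Do) 1, le_max_right _ _, ?_⟩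
  intro V _ _ _ U c ε r C₁ hc hε0 hεc hr0 hr1 b G hb hG
  have hNp : (0 : ℝ) < N := by exact_mod_cast hN
  set D : ℕ := max (max Dg Do) 1 with hD
  have hD1 : 1 ≤ D := le_max_right _ _
  have hDg' : Dg ≤ D := (le_max_left _ _).trans (le_max_left _ _)
  have hDo' : Do ≤ D := (le_max_right _ _).trans (le_max_left _ _)
  have hc0 : 0 ≤ c := hb.nonneg 0
  have hcA2 : 2 * c ≤ cA := by
    have := hc.trans (min_le_left _ _)
    linarith
  have hch : c ≤ 1 / 2 := hc.trans (min_le_right _ _)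
  -- the amplitudes
  have hF : ∀ n : Idx, Adm m (fun _ => 2 * c)
      (fun q => b (hmul (dil r (lat N n)) q) - 1 - ε) := fun n => by
    have h1 := (hb.hmul (dil r (lat N n))).sub (adm_const m ε)
    refine h1.mono fun q => ?_
    rw [Real.norm_of_nonneg hε0]
    linarith
  have hBex := fun n : Idx => hamp (2 * c) _ hcA2 (hF n)
  choose B hB1 hBG using hBex
  have hJex := fun n : Idx => exists_ortho m C₁ G hG (dil r (lat N n)) (U.U (col D n)) (U.big _)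
  choose J J' hJiso hJ'1 hJU hJadj hJvan using hJex
  have hJ1 : ∀ n, ‖J n‖ ≤ 1 := fun n =>
    ContinuousLinearMap.opNorm_le_bound _ zero_le_one fun x => by rw [hJiso, one_mul]
  set A : Idx → CI m →L[ℂ] V := fun n => (J n).comp (B n) with hA
  have hAn : ∀ n x, ‖A n x‖ = ‖B n x‖ := fun n x => hJiso n (B n x)
  have hA1 : ∀ n, ‖A n‖ ≤ 1 := fun n =>
    ContinuousLinearMap.opNorm_le_bound _ zero_le_one fun x => by
      rw [hAn]
      exact (B n).le_of_opNorm_le (hB1 n) x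
  have hAU : ∀ n x, A n x ∈ U.U (col D n) := fun n x => hJU n (B n x)
  obtain ⟨hgA, hgCR⟩ := hDg D hDg' hD1 V U A r hA1 hAU hr0 hr1
  have hoff := hDo D hDo' hD1 V U A r hA1 hAU hr0 hr1
  have hdiag := hd N hN V A b c ε (CA * (2 * c)) r hA1 hr0 hr1 (by linarith) hε0 (by linarith) hb
    (fun n => by
      have := hBG n
      simp only [← hAn] at this
      exact this)
  have hcross := hx N hN V B J J' G C₁ r hr0 hr1 hB1 hJ1 hJ'1 hJadj hG hJvan
  refine ⟨fun z => ∑' n, pk m (tht m N) (A n) r (lq N n z), hgCR, ?_, ?_⟩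
  · refine hgA.mono fun q => ?_
    linarith
  · have h1 := (hdiag.sub hoff).sub (hcross.add hcross)
    have hx0 : 0 ≤ (N : ℝ) ^ 2 * C₁ * r ^ m := by
      have h2 := hcross.nonneg 0
      have h3 : 0 ≤ Cx * ((N : ℝ) ^ 2 * C₁ * r ^ m) := by
        calc (0 : ℝ) ≤ Cx * (N : ℝ) ^ 2 * C₁ * r ^ m := h2
          _ = _ := by ring
      exact nonneg_of_mul_nonneg_right h3 (by linarith)
    have hrm : 0 ≤ c * r ^ m := mul_nonneg hc0 (pow_nonneg hr0 m)
    have hNi : 0 ≤ 1 / (N : ℝ) := by positivity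
    have h4 : (fun z => b (dil r z) - ε - ∑' n, ‖pk m (tht m N) (A n) r (lq N n z)‖ ^ 2 -
          (‖∑' n, pk m (tht m N) (A n) r (lq N n z)‖ ^ 2 -
            ∑' n, ‖pk m (tht m N) (A n) r (lq N n z)‖ ^ 2) -
          (rip (G (dil r z)) (∑' n, pk m (tht m N) ((J n).comp (B n)) r (lq N n z)) +
            rip (G (dil r z)) (∑' n, pk m (tht m N) ((J n).comp (B n)) r (lq N n z))))
        = (fun q => b (dil r q) - ε - ‖∑' n, pk m (tht m N) (A n) r (lq N n q)‖ ^ 2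
          - 2 * rip (G (dil r q)) (∑' n, pk m (tht m N) (A n) r (lq N n q))) := by
      funext z
      simp only [hA]
      ring
    rw [h4] at h1
    refine h1.mono fun q => ?_
    have e1 : Cd / (N : ℝ) = Cd * (1 / (N : ℝ)) := by ring
    have e2 : (Cg + Cd + 2 * (CA * Cd) + 2 * Cx) / (N : ℝ)
        = (Cg + Cd + 2 * (CA * Cd) + 2 * Cx) * (1 / (N : ℝ)) := by ring
    have i1 : Cd * (1 / (N : ℝ)) ≤ (Cg + Cd + 2 * (CA * Cd) + 2 * Cx) * (1 / (N : ℝ)) :=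
      mul_le_mul_of_nonneg_right (by linarith) hNi
    have i2 : (2 * (CA * Cd)) * (c * r ^ m)
        ≤ (Cg + Cd + 2 * (CA * Cd) + 2 * Cx) * (c * r ^ m) :=
      mul_le_mul_of_nonneg_right (by linarith) hrm
    have i3 : (2 * Cx) * ((N : ℝ) ^ 2 * C₁ * r ^ m)
        ≤ (Cg + Cd + 2 * (CA * Cd) + 2 * Cx) * ((N : ℝ) ^ 2 * C₁ * r ^ m) :=
      mul_le_mul_of_nonneg_right (by linarith) hx0
    rw [e1, e2]
    linarith

end MP640201
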