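import Pool.Agent.H.MP_640201_an.PkBound
import Pool.Agent.H.MP_640201_an.Colored

/-! MP_640201_an: the sum `g` of the wave packets, and its off-diagonal part. -/

open Complex
open scoped ComplexConjugate

namespace MP640201

/-- Bounds of a translated wave packet. -/
theorem adm_pk_lq (m : ℕ) : ∃ C : ℝ, 1 ≤ C ∧
    ∀ (V : Type) [NormedAddCommGroup V] [InnerProductSpace ℂ V] (A : CI m →L[ℂ] V) (θ r : ℝ),
      ‖A‖ ≤ 1 → 0 ≤ θ → 0 ≤ r → r ≤ 1 → ∀ (N : ℕ) (n : Idx),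
      Adm m (fun z => C * θ * wp 5 (lq N n z)) (fun z => pk m θ A r (lq N n z)) := by
  obtain ⟨C, hC, h⟩ := adm_pk m
  refine ⟨C, hC, ?_⟩
  intro V _ _ A θ r hA hθ h0 h1 N n
  refine ((h V A θ r hA hθ h0 h1).hmul (hinv (lat N n))).mono fun z => ?_
  exact mul_le_mul_of_nonneg_left (wp_anti (by omega) _) (by positivity)

theorem pk_mem {D m : ℕ} {V : Type} [NormedAddCommGroup V] [InnerProductSpace ℂ V]
    (U : Coloured D m V) {A : CI m →L[ℂ] V} {b : Col D} (hA : ∀ x, A x ∈ U.U b) (θ r : ℝ)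
    (q : Hs) : pk m θ A r q ∈ U.U b :=
  Submodule.smul_mem _ _ (hA _)

theorem step_g (m : ℕ) (hm : 1 ≤ m) : ∃ C : ℝ, 1 ≤ C ∧ ∀ N : ℕ, 1 ≤ N → ∃ D₀ : ℕ, ∀ D : ℕ, D₀ ≤ D → 1 ≤ D →
    ∀ (V : Type) [NormedAddCommGroup V] [InnerProductSpace ℂ V] [FiniteDimensional ℂ V]
      (U : Coloured D m V) (A : Idx → CI m →L[ℂ] V) (r : ℝ), (∀ n, ‖A n‖ ≤ 1) →
      (∀ n x, A n x ∈ U.U (col D n)) → 0 ≤ r → r ≤ 1 →
      Adm m (fun _ => C) (fun z => ∑' n, pk m (tht m N) (A n) r (lq N n z)) ∧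
        IsCR (fun z => ∑' n, pk m (tht m N) (A n) r (lq N n z)) := by
  obtain ⟨Cp, hCp, hpk⟩ := adm_pk_lq m
  obtain ⟨Ct, hCt, htht⟩ := tht_le m
  obtain ⟨Cc, hCc, hcol⟩ := colored_bound
  have hCC : 1 ≤ 2 * Cc * Cp * Ct := by
    have h1 : 1 ≤ Cc * Cp := one_le_mul_of_one_le_of_one_le hCc hCp
    have h2 : 1 ≤ Cc * Cp * Ct := one_le_mul_of_one_le_of_one_le h1 hCt
    nlinarith
  refine ⟨2 * Cc * Cp * Ct, hCC, ?_⟩
  intro N hN
  refine ⟨N ^ 6, ?_⟩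
  intro D hD hD1 V _ _ _ U A r hA hAU h0 h1
  have hcomp : CompleteSpace V := FiniteDimensional.complete ℂ V
  have hN0 : (0 : ℝ) < N := by exact_mod_cast hN
  have hD0 : (0 : ℝ) < D := by exact_mod_cast hD1
  have hθ := tht_nonneg m N
  set K : ℝ := Cp * tht m N with hK
  have hK0 : 0 ≤ K := by positivity
  have hF : ∀ n, Adm m (fun z => K * wp 5 (lq N n z))
      (fun z => pk m (tht m N) (A n) r (lq N n z)) :=
    fun n => hpk V (A n) (tht m N) r (hA n) hθ h0 h1 N n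
  have hLUS : LUS (fun (n : Idx) (q : Hs) => K * wp 5 (lq N n q)) :=
    lus_lq hN (by norm_num) K hK0
  have hT : ∀ (n : Idx) (v : V),
      ((U.U (col D n)).starProjection.restrictScalars ℝ : V →L[ℝ] V) v = v ↔
        v ∈ U.U (col D n) := by
    intro n v
    rw [ContinuousLinearMap.coe_restrictScalars']
    exact Submodule.starProjection_eq_self_iff
  have hKN : K ^ 2 * (N : ℝ) ^ 4 ≤ (Cp * Ct) ^ 2 := by
    have h2 : K * (N : ℝ) ^ 2 ≤ Cp * Ct := by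
      have h3 := htht N hN
      rw [le_div_iff₀ (by positivity)] at h3
      rw [hK, mul_assoc]
      exact mul_le_mul_of_nonneg_left h3 (by linarith)
    have h4 : K ^ 2 * (N : ℝ) ^ 4 = (K * (N : ℝ) ^ 2) ^ 2 := by ring
    rw [h4]
    exact pow_le_pow_left₀ (by positivity) h2 2
  have hND : (N : ℝ) ^ 10 / D ≤ (N : ℝ) ^ 4 := by
    rw [div_le_iff₀ hD0]
    have : ((N : ℝ) ^ 6) ≤ D := by exact_mod_cast hD
    calc (N : ℝ) ^ 10 = (N : ℝ) ^ 4 * (N : ℝ) ^ 6 := by ring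
      _ ≤ _ := mul_le_mul_of_nonneg_left this (by positivity)
  refine ⟨?_, ?_⟩
  · refine adm_tsum (fun n => (U.U (col D n)).starProjection.restrictScalars ℝ) hF
      (fun n q => (hT n _).mpr (pk_mem U (hAU n) _ _ _)) hLUS ?_
    intro q v hv hvb
    have h2 := hcol N D m hN hD1 V U v K q hK0 (fun n => (hT n _).mp (hv n)) hvb
    refine abs_le_of_sq_le_sq' (a := ‖∑' n, v n‖) ?_ (by linarith) |>.2
    refine h2.trans ?_
    have h3 : Cc * (N : ℝ) ^ 4 + Cc * (N : ℝ) ^ 10 / D ≤ 2 * Cc * (N : ℝ) ^ 4 := by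
      rw [mul_div_assoc]
      have := mul_le_mul_of_nonneg_left hND (by linarith : (0 : ℝ) ≤ Cc)
      linarith
    have h5 : (1 : ℝ) ≤ 2 * Cc := by linarith
    calc K ^ 2 * (Cc * (N : ℝ) ^ 4 + Cc * (N : ℝ) ^ 10 / D)
        ≤ K ^ 2 * (2 * Cc * (N : ℝ) ^ 4) := mul_le_mul_of_nonneg_left h3 (by positivity)
      _ = 2 * Cc * (K ^ 2 * (N : ℝ) ^ 4) := by ring
      _ ≤ 2 * Cc * (Cp * Ct) ^ 2 := mul_le_mul_of_nonneg_left hKN (by linarith)
      _ ≤ (2 * Cc) ^ 2 * (Cp * Ct) ^ 2 := by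
          refine mul_le_mul_of_nonneg_right ?_ (by positivity)
          nlinarith
      _ = (2 * Cc * Cp * Ct) ^ 2 := by ring
  · refine isCR_tsum (fun n => (hF n).of_le hm) hLUS fun n => ?_
    exact IsCR.hmul (isCR_pk m _ _ _)
      ((contDiff_pk (n := 1) m _ _ _).differentiable (by norm_num)) (hinv (lat N n))

theorem step_off (m N : ℕ) (hN : 1 ≤ N) (tol : ℝ) (htol : 0 < tol) : ∃ D₀ : ℕ, ∀ D : ℕ, D₀ ≤ D →
    1 ≤ D → ∀ (V : Type) [NormedAddCommGroup V] [InnerProductSpace ℂ V] [FiniteDimensional ℂ V]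
      (U : Coloured D m V) (A : Idx → CI m →L[ℂ] V) (r : ℝ), (∀ n, ‖A n‖ ≤ 1) →
      (∀ n x, A n x ∈ U.U (col D n)) → 0 ≤ r → r ≤ 1 →
      Adm m (fun _ => tol) (fun z => ‖∑' n, pk m (tht m N) (A n) r (lq N n z)‖ ^ 2 -
        ∑' n, ‖pk m (tht m N) (A n) r (lq N n z)‖ ^ 2) := by
  obtain ⟨Cp, hCp, hpk⟩ := adm_pk_lq m
  obtain ⟨Co, hCo, hoff⟩ := off_sum
  obtain ⟨Cl, hCl, hlat⟩ := lat_sum
  have hθ := tht_nonneg m N
  set K : ℝ := Cp * tht m N with hK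
  have hK0 : 0 ≤ K := by positivity
  set K' : ℝ := 2 ^ m * K ^ 2 with hK'
  have hK'0 : 0 ≤ K' := by positivity
  refine ⟨⌈K' * (Co * (N : ℝ) ^ 10) / tol⌉₊, ?_⟩
  intro D hD hD1 V _ _ _ U A r hA hAU h0 h1
  have hcomp : CompleteSpace V := FiniteDimensional.complete ℂ V
  have hD0 : (0 : ℝ) < D := by exact_mod_cast hD1
  have hF : ∀ n, Adm m (fun z => K * wp 5 (lq N n z))
      (fun z => pk m (tht m N) (A n) r (lq N n z)) :=
    fun n => hpk V (A n) (tht m N) r (hA n) hθ h0 h1 N n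
  have heq : (fun z => ‖∑' n, pk m (tht m N) (A n) r (lq N n z)‖ ^ 2 -
        ∑' n, ‖pk m (tht m N) (A n) r (lq N n z)‖ ^ 2) =
      fun z => ∑' o : OffP D, rip (pk m (tht m N) (A o.1.1) r (lq N o.1.1 z))
        (pk m (tht m N) (A o.1.2) r (lq N o.1.2 z)) := by
    funext z
    have hs : Summable (fun n => ‖pk m (tht m N) (A n) r (lq N n z)‖) := by
      refine Summable.of_nonneg_of_le (fun n => norm_nonneg _) (fun n => ?_)
        ((hlat N hN z).1.mul_left K)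
      exact ((hF n).bound z).trans (mul_le_mul_of_nonneg_left (wp_anti (by norm_num) _) hK0)
    rw [(colored_norm_sq U (fun n => pk m (tht m N) (A n) r (lq N n z)) hs
      (fun n => pk_mem U (hAU n) _ _ _)).2.2, add_sub_cancel_left]
  rw [heq]
  refine adm_tsum' (φ := fun (o : OffP D) (q : Hs) =>
    K' * (wp 5 (lq N o.1.1 q) * wp 5 (lq N o.1.2 q))) (fun o => ?_) (lus_off hN D K' hK'0) ?_
  · refine ((hF o.1.1).rip (hF o.1.2)).mono fun q => le_of_eq ?_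
    rw [hK']
    ring
  · intro q
    rw [tsum_mul_left]
    have h2 := mul_le_mul_of_nonneg_left (hoff N D hN hD1 q).2 hK'0
    refine h2.trans ?_
    have h3 : K' * (Co * (N : ℝ) ^ 10) / tol ≤ D :=
      (Nat.le_ceil _).trans (by exact_mod_cast hD)
    rw [div_le_iff₀ htol] at h3
    rw [← mul_div_assoc, div_le_iff₀ hD0]
    linarith

end MP640201
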