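import Pool.Agent.H.MP_640201_an.NonRat
import Pool.Agent.H.MP_640201_an.CR

/-! MP_640201_an: the final map, from the solution `Γ` of `|Γ|² + |f₁|² = 1`. -/

open Complex Matrix
open scoped ComplexConjugate

namespace MP640201

/-- The map `z ↦ (i (1+f₁)/(1-f₁), Γ/(1-f₁))`. -/
noncomputable def fmap (ε₀ : ℝ) {K : ℕ} (Γ : Hs → EuclideanSpace ℂ (Fin K)) (z : Cn 1 1) :
    Cn 1 K :=
  (fun _ => I * (1 + f1 ε₀ z) / (1 - f1 ε₀ z),
    fun j => Γ ((z.1 0).re, z.2 0) j / (1 - f1 ε₀ z))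

/-! ### The map in terms of `Hs` -/

/-- `f₁` as a function on the Heisenberg group. -/
noncomputable def tF (ε₀ : ℝ) (q : Hs) : ℂ :=
  (ε₀ : ℂ) * Complex.exp (I * ((q.1 : ℂ) + I * ((‖q.2‖ ^ 2 : ℝ) : ℂ)))

noncomputable def tL1 (K : ℕ) : ℂ →L[ℂ] Cn 1 K :=
  (ContinuousLinearMap.pi (fun _ => ContinuousLinearMap.id ℂ ℂ)).prod 0

noncomputable def tL2 (K : ℕ) : EuclideanSpace ℂ (Fin K) →L[ℂ] Cn 1 K :=
  (0 : EuclideanSpace ℂ (Fin K) →L[ℂ] (Fin 1 → ℂ)).prod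
    (ContinuousLinearMap.pi (fun j => EuclideanSpace.proj j))

/-- The map as a function on the Heisenberg group. -/
noncomputable def tH (ε₀ : ℝ) {K : ℕ} (Γ : Hs → EuclideanSpace ℂ (Fin K)) (q : Hs) : Cn 1 K :=
  tL1 K (I * (1 + tF ε₀ q) * (1 - tF ε₀ q)⁻¹) + tL2 K ((1 - tF ε₀ q)⁻¹ • Γ q)

/-- The projection to `Hs`. -/
noncomputable def tpi : ((Fin 1 → ℝ) × (Fin 1 → ℂ)) →L[ℝ] Hs :=
  ((ContinuousLinearMap.proj 0).comp (ContinuousLinearMap.fst ℝ (Fin 1 → ℝ) (Fin 1 → ℂ))).prod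
    ((ContinuousLinearMap.proj 0).comp (ContinuousLinearMap.snd ℝ (Fin 1 → ℝ) (Fin 1 → ℂ)))

theorem tpi_apply (u : (Fin 1 → ℝ) × (Fin 1 → ℂ)) : tpi u = (u.1 0, u.2 0) := rfl

theorem param_mem (d : ℕ) (u : (Fin 1 → ℝ) × (Fin d → ℂ)) : (std d).param u ∈ (std d).M := by
  intro j
  simp [HermForm.param]

theorem f1_param (ε₀ : ℝ) (u : (Fin 1 → ℝ) × (Fin 1 → ℂ)) :
    f1 ε₀ ((std 1).param u) = tF ε₀ (tpi u) := by
  unfold f1 tF HermForm.param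
  rw [tpi_apply]
  simp only [std_q, Finset.univ_unique, Fin.default_eq_zero, Finset.sum_singleton]

theorem fmap_param (ε₀ : ℝ) {K : ℕ} (Γ : Hs → EuclideanSpace ℂ (Fin K)) :
    fmap ε₀ Γ ∘ (std 1).param = fun u => tH ε₀ Γ (tpi u) := by
  funext u
  have h1 : ((((std 1).param u).1 0).re, ((std 1).param u).2 0) = tpi u := by
    rw [tpi_apply]
    simp [HermForm.param]
  simp only [Function.comp, fmap, f1_param, h1, tH, tL1, tL2]
  ext j
  · simp [div_eq_mul_inv]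
  · simp [div_eq_mul_inv, mul_comm]

theorem norm_tF {ε₀ : ℝ} (h0 : 0 < ε₀) (q : Hs) : ‖tF ε₀ q‖ = ε₀ * Real.exp (-‖q.2‖ ^ 2) := by
  unfold tF
  rw [norm_mul, Complex.norm_real, Real.norm_of_nonneg h0.le, Complex.norm_exp]
  congr 2
  simp [Complex.mul_re]
  rw [← Complex.ofReal_pow, Complex.ofReal_re]

theorem norm_tF_lt {ε₀ : ℝ} (h0 : 0 < ε₀) (h1 : ε₀ < 1) (q : Hs) : ‖tF ε₀ q‖ < 1 := by
  rw [norm_tF h0]
  have : Real.exp (-‖q.2‖ ^ 2) ≤ 1 := Real.exp_le_one_iff.2 (by nlinarith [sq_nonneg ‖q.2‖])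
  nlinarith [Real.exp_pos (-‖q.2‖ ^ 2)]

theorem one_sub_tF_ne {ε₀ : ℝ} (h0 : 0 < ε₀) (h1 : ε₀ < 1) (q : Hs) : 1 - tF ε₀ q ≠ 0 := by
  intro h
  have h2 : tF ε₀ q = 1 := (sub_eq_zero.1 h).symm
  have h3 := norm_tF_lt h0 h1 q
  rw [h2] at h3
  simp at h3

theorem contDiff_tF (ε₀ : ℝ) {n : WithTop ℕ∞} : ContDiff ℝ n (tF ε₀) := by
  unfold tF
  have h1 : ContDiff ℝ n (fun q : Hs => (q.1 : ℂ)) := Complex.ofRealCLM.contDiff.comp contDiff_fst
  have h2 : ContDiff ℝ n (fun q : Hs => ((‖q.2‖ ^ 2 : ℝ) : ℂ)) :=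
    Complex.ofRealCLM.contDiff.comp (contDiff_snd.norm_sq ℝ)
  exact contDiff_const.mul (contDiff_const.mul (h1.add (contDiff_const.mul h2))).cexp

theorem contDiff_tH {ε₀ : ℝ} (h0 : 0 < ε₀) (h1 : ε₀ < 1) {K : ℕ} {n : WithTop ℕ∞}
    {Γ : Hs → EuclideanSpace ℂ (Fin K)} (hk : ContDiff ℝ n Γ) : ContDiff ℝ n (tH ε₀ Γ) := by
  have hF := contDiff_tF ε₀ (n := n)
  have hi : ContDiff ℝ n (fun q => (1 - tF ε₀ q)⁻¹) :=
    (contDiff_const.sub hF).inv (one_sub_tF_ne h0 h1)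
  unfold tH
  refine ContDiff.add ?_ ?_
  · exact ((tL1 K).restrictScalars ℝ).contDiff.comp
      ((contDiff_const.mul (contDiff_const.add hF)).mul hi)
  · exact ((tL2 K).restrictScalars ℝ).contDiff.comp (hi.smul hk)

theorem isCR_tF (ε₀ : ℝ) : IsCR (tF ε₀) := by
  have hd1 : Differentiable ℝ (fun q : Hs => (q.1 : ℂ) + I * ((‖q.2‖ ^ 2 : ℝ) : ℂ)) := by
    have h1 : ContDiff ℝ 1 (fun q : Hs => (q.1 : ℂ)) :=
      Complex.ofRealCLM.contDiff.comp contDiff_fst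
    have h2 : ContDiff ℝ 1 (fun q : Hs => ((‖q.2‖ ^ 2 : ℝ) : ℂ)) :=
      Complex.ofRealCLM.contDiff.comp (contDiff_snd.norm_sq ℝ)
    exact (h1.add (contDiff_const.mul h2)).differentiable one_ne_zero
  have hI : IsCR (fun _ : Hs => I) := isCR_const I
  have h1 := hI.mul isCR_z1 (differentiable_const _) hd1
  have hd2 : Differentiable ℝ (fun q : Hs => I * ((q.1 : ℂ) + I * ((‖q.2‖ ^ 2 : ℝ) : ℂ))) :=
    (differentiable_const _).mul hd1
  have h2 := h1.cexp hd2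
  exact (isCR_const (ε₀ : ℂ)).mul h2 (differentiable_const _) hd2.cexp

theorem isCR_tH {ε₀ : ℝ} (h0 : 0 < ε₀) (h1 : ε₀ < 1) {K : ℕ}
    {Γ : Hs → EuclideanSpace ℂ (Fin K)} (hk : ContDiff ℝ 1 Γ) (hCR : IsCR Γ) :
    IsCR (tH ε₀ Γ) := by
  have hF := isCR_tF ε₀
  have dF : Differentiable ℝ (tF ε₀) := (contDiff_tF ε₀ (n := 1)).differentiable one_ne_zero
  have dΓ : Differentiable ℝ Γ := hk.differentiable one_ne_zero
  have hp : IsCR (fun q : Hs => 1 + tF ε₀ q) :=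
    (isCR_const (1 : ℂ)).add hF (differentiable_const _) dF
  have dp : Differentiable ℝ (fun q : Hs => 1 + tF ε₀ q) := (differentiable_const _).add dF
  have hm : IsCR (fun q : Hs => 1 - tF ε₀ q) := by
    have h2 := (isCR_const (-1 : ℂ)).mul hF (differentiable_const _) dF
    have h3 := (isCR_const (1 : ℂ)).add h2 (differentiable_const _)
      ((differentiable_const _).mul dF)
    have h4 : (fun q : Hs => 1 - tF ε₀ q) = fun q => 1 + (-1) * tF ε₀ q := by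
      funext q; ring
    rw [h4]; exact h3
  have dm : Differentiable ℝ (fun q : Hs => 1 - tF ε₀ q) := (differentiable_const _).sub dF
  have hne := one_sub_tF_ne h0 h1
  have hi : IsCR (fun q : Hs => (1 - tF ε₀ q)⁻¹) := hm.inv dm hne
  have di : Differentiable ℝ (fun q : Hs => (1 - tF ε₀ q)⁻¹) := dm.inv hne
  have hIp : IsCR (fun q : Hs => I * (1 + tF ε₀ q)) :=
    (isCR_const I).mul hp (differentiable_const _) dp
  have dIp : Differentiable ℝ (fun q : Hs => I * (1 + tF ε₀ q)) := (differentiable_const _).mul dp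
  have hA := (hIp.mul hi dIp di).clm (dIp.mul di) (tL1 K)
  have hB := (hi.smul hCR di dΓ).clm (di.smul dΓ) (tL2 K)
  have dA : Differentiable ℝ (fun q : Hs => tL1 K (I * (1 + tF ε₀ q) * (1 - tF ε₀ q)⁻¹)) :=
    ((tL1 K).restrictScalars ℝ).differentiable.comp (dIp.mul di)
  have dB : Differentiable ℝ (fun q : Hs => tL2 K ((1 - tF ε₀ q)⁻¹ • Γ q)) :=
    ((tL2 K).restrictScalars ℝ).differentiable.comp (di.smul dΓ)
  exact hA.add hB dA dB

/-! ### The manifold -/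

theorem contDiff_param (d : ℕ) {n : WithTop ℕ∞} : ContDiff ℝ n (std d).param := by
  have : (std d).param = fun u : (Fin 1 → ℝ) × (Fin d → ℂ) =>
      ((fun j => (u.1 j : ℂ) + I * ((∑ i, ‖u.2 i‖ ^ 2 : ℝ) : ℂ), u.2) : Cn 1 d) := by
    funext u
    simp only [HermForm.param, std_q]
  rw [this]
  refine ContDiff.prodMk ?_ contDiff_snd
  rw [contDiff_pi]
  intro j
  have h1 : ContDiff ℝ n (fun u : (Fin 1 → ℝ) × (Fin d → ℂ) => (u.1 j : ℂ)) :=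
    Complex.ofRealCLM.contDiff.comp ((contDiff_apply ℝ ℝ j).comp contDiff_fst)
  have h2 : ContDiff ℝ n (fun u : (Fin 1 → ℝ) × (Fin d → ℂ) => (∑ i, ‖u.2 i‖ ^ 2 : ℝ)) := by
    refine ContDiff.sum fun i _ => ?_
    exact ((contDiff_apply ℝ ℂ i).comp contDiff_snd).norm_sq ℝ
  exact h1.add (contDiff_const.mul (Complex.ofRealCLM.contDiff.comp h2))

theorem param_coords {d : ℕ} {z : Cn 1 d} (hz : z ∈ (std d).M) :
    (std d).param (coords z) = z := by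
  refine Prod.ext ?_ rfl
  funext j
  have h := hz j
  simp only [HermForm.param, coords]
  rw [← h, mul_comm]
  exact Complex.re_add_im (z.1 j)

theorem fmap_mapsTo {ε₀ : ℝ} (h0 : 0 < ε₀) (h1 : ε₀ < 1) {K : ℕ}
    {Γ : Hs → EuclideanSpace ℂ (Fin K)}
    (hΓ : ∀ q : Hs, ‖Γ q‖ ^ 2 + ε₀ ^ 2 * Real.exp (-2 * ‖q.2‖ ^ 2) = 1) :
    Set.MapsTo (fmap ε₀ Γ) (std 1).M (std K).M := by
  intro z hz j
  have hn := norm_f1 ε₀ h0.le z hz
  have hn2 : ‖f1 ε₀ z‖ ^ 2 = ε₀ ^ 2 * Real.exp (-2 * ‖z.2 0‖ ^ 2) := by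
    rw [hn, mul_pow, ← Real.exp_nat_mul]
    congr 2
    push_cast; ring
  set f := f1 ε₀ z with hf
  have hlt : ‖f‖ < 1 := by
    rw [hn]
    have : Real.exp (-‖z.2 0‖ ^ 2) ≤ 1 :=
      Real.exp_le_one_iff.2 (by nlinarith [sq_nonneg ‖z.2 0‖])
    nlinarith [Real.exp_pos (-‖z.2 0‖ ^ 2)]
  have hne : 1 - f ≠ 0 := by
    intro h
    have h2 : f = 1 := (sub_eq_zero.1 h).symm
    rw [h2] at hlt
    simp at hlt
  have hne' : ‖1 - f‖ ^ 2 ≠ 0 := pow_ne_zero _ (norm_ne_zero_iff.2 hne)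
  rw [std_q]
  simp only [fmap, ← hf, norm_div, div_pow]
  rw [← Finset.sum_div]
  have h3 := hΓ ((z.1 0).re, z.2 0)
  rw [EuclideanSpace.norm_sq_eq] at h3
  simp only at h3
  rw [← hn2] at h3
  have h4 : ∑ i, ‖Γ ((z.1 0).re, z.2 0) i‖ ^ 2 = 1 - ‖f‖ ^ 2 := by linarith
  rw [h4, eq_div_iff hne']
  have h5 : I * (1 + f) / (1 - f) * ((‖1 - f‖ ^ 2 : ℝ) : ℂ) = I * (1 + f) * conj (1 - f) := by
    rw [Complex.ofReal_pow, ← Complex.conj_mul', div_mul_eq_mul_div, div_eq_iff hne]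
    ring
  have h6 : (I * (1 + f) / (1 - f)).im * ‖1 - f‖ ^ 2 =
      (I * (1 + f) / (1 - f) * ((‖1 - f‖ ^ 2 : ℝ) : ℂ)).im := by
    rw [Complex.im_mul_ofReal]
  rw [h6, h5, ← Complex.normSq_eq_norm_sq]
  simp [Complex.normSq_apply]
  ring

theorem fmap_class {ε₀ : ℝ} (h0 : 0 < ε₀) (h1 : ε₀ < 1) {K k : ℕ}
    {Γ : Hs → EuclideanSpace ℂ (Fin K)} (hk : ContDiff ℝ k Γ) :
    IsClass (std 1) k (fmap ε₀ Γ) := by
  unfold IsClass
  rw [fmap_param]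
  exact (contDiff_tH h0 h1 hk).comp tpi.contDiff

theorem fderiv_param_std1 (u v : (Fin 1 → ℝ) × (Fin 1 → ℂ)) :
    fderiv ℝ (std 1).param u v =
      (fun _ => (v.1 0 : ℂ) + I * ((2 * ((u.2 0).re * (v.2 0).re + (u.2 0).im * (v.2 0).im) : ℝ) : ℂ),
        v.2) := by
  have hparam : (std 1).param = fun u : (Fin 1 → ℝ) × (Fin 1 → ℂ) =>
      ((fun j => (u.1 j : ℂ) + I * ((‖u.2 0‖ ^ 2 : ℝ) : ℂ), u.2) : Cn 1 1) := by
    funext u
    simp only [HermForm.param, std_q, Finset.univ_unique, Fin.default_eq_zero,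
      Finset.sum_singleton]
  have h2 : HasFDerivAt (fun u : (Fin 1 → ℝ) × (Fin 1 → ℂ) => ‖u.2 0‖ ^ 2)
      (2 • (innerSL ℝ (u.2 0)).comp ((ContinuousLinearMap.proj 0).comp
        (ContinuousLinearMap.snd ℝ (Fin 1 → ℝ) (Fin 1 → ℂ)))) u :=
    HasFDerivAt.norm_sq (((ContinuousLinearMap.proj 0).comp
        (ContinuousLinearMap.snd ℝ (Fin 1 → ℝ) (Fin 1 → ℂ)))).hasFDerivAt
  have h3 : HasFDerivAt (fun u : (Fin 1 → ℝ) × (Fin 1 → ℂ) =>
      (fun j : Fin 1 => (u.1 j : ℂ) + I * ((‖u.2 0‖ ^ 2 : ℝ) : ℂ)))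
      (ContinuousLinearMap.pi (fun j : Fin 1 =>
        Complex.ofRealCLM.comp ((ContinuousLinearMap.proj j).comp
          (ContinuousLinearMap.fst ℝ (Fin 1 → ℝ) (Fin 1 → ℂ))) +
        I • Complex.ofRealCLM.comp (2 • (innerSL ℝ (u.2 0)).comp ((ContinuousLinearMap.proj 0).comp
        (ContinuousLinearMap.snd ℝ (Fin 1 → ℝ) (Fin 1 → ℂ)))))) u := by
    rw [hasFDerivAt_pi]
    intro j
    refine HasFDerivAt.add ?_ ?_
    · exact (Complex.ofRealCLM.comp ((ContinuousLinearMap.proj j).comp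
          (ContinuousLinearMap.fst ℝ (Fin 1 → ℝ) (Fin 1 → ℂ)))).hasFDerivAt
    · exact (Complex.ofRealCLM.hasFDerivAt.comp u h2).const_mul I
  have h4 := h3.prodMk (ContinuousLinearMap.snd ℝ (Fin 1 → ℝ) (Fin 1 → ℂ)).hasFDerivAt (x := u)
  rw [hparam]
  have h5 : fderiv ℝ (fun u : (Fin 1 → ℝ) × (Fin 1 → ℂ) =>
      ((fun j => (u.1 j : ℂ) + I * ((‖u.2 0‖ ^ 2 : ℝ) : ℂ), u.2) : Cn 1 1)) u = _ := h4.fderiv
  rw [h5]
  refine Prod.ext ?_ rfl
  funext j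
  have hj : j = 0 := Subsingleton.elim _ _
  subst hj
  simp [Complex.inner]
  ring

theorem fmap_cr {ε₀ : ℝ} (h0 : 0 < ε₀) (h1 : ε₀ < 1) {K : ℕ}
    {Γ : Hs → EuclideanSpace ℂ (Fin K)} (hk : ContDiff ℝ 1 Γ) (hCR : IsCR Γ)
    (hΓ : ∀ q : Hs, ‖Γ q‖ ^ 2 + ε₀ ^ 2 * Real.exp (-2 * ‖q.2‖ ^ 2) = 1) :
    IsCRMap (std 1) (std K) (fmap ε₀ Γ) := by
  have hH := contDiff_tH h0 h1 hk
  have hHCR := isCR_tH h0 h1 hk hCR
  have hHd : Differentiable ℝ (tH ε₀ Γ) := hH.differentiable one_ne_zero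
  have hc : ContDiff ℝ 1 (fmap ε₀ Γ ∘ (std 1).param) := by
    rw [fmap_param]; exact hH.comp tpi.contDiff
  have hcd := hc.differentiable one_ne_zero
  refine ⟨hc.continuous, ?_⟩
  intro u v v' hv
  have hder : ∀ w, fderiv ℝ (fmap ε₀ Γ ∘ (std 1).param) u w =
      fderiv ℝ (tH ε₀ Γ) (tpi u) (tpi w) := by
    intro w
    rw [fmap_param]
    have := ((hHd (tpi u)).hasFDerivAt.comp u tpi.hasFDerivAt).fderiv
    have h2 : fderiv ℝ (fun u => tH ε₀ Γ (tpi u)) u =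
        (fderiv ℝ (tH ε₀ Γ) (tpi u)).comp tpi := this
    rw [h2]; rfl
  change fderiv ℝ (std 1).param u v' = I • fderiv ℝ (std 1).param u v at hv
  rw [fderiv_param_std1, fderiv_param_std1] at hv
  have hv2 : v'.2 0 = I * v.2 0 := congrFun (congrArg Prod.snd hv) 0
  have hv1 : (v'.1 0 : ℂ) + I * ((2 * ((u.2 0).re * (v'.2 0).re + (u.2 0).im * (v'.2 0).im) : ℝ) : ℂ)
      = I * ((v.1 0 : ℂ) +
        I * ((2 * ((u.2 0).re * (v.2 0).re + (u.2 0).im * (v.2 0).im) : ℝ) : ℂ)) :=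
    congrFun (congrArg Prod.fst hv) 0
  have hre := congrArg Complex.re hv1
  have him := congrArg Complex.im hv1
  have hkey : fderiv ℝ (fmap ε₀ Γ ∘ (std 1).param) u v' =
      I • fderiv ℝ (fmap ε₀ Γ ∘ (std 1).param) u v := by
    rw [hder, hder, fderiv_eq_dX, fderiv_eq_dX, hHCR (tpi u)]
    simp only [tpi_apply]
    simp only [Complex.add_re, Complex.add_im, Complex.mul_re, Complex.mul_im, Complex.I_re,
      Complex.I_im, Complex.ofReal_re, Complex.ofReal_im, zero_mul, one_mul, mul_zero,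
      zero_sub, sub_zero, zero_add, add_zero, hv2] at hre him
    have hz' : (v'.1 0 - 2 * (u.2 0).im * (v'.2 0).re + 2 * (u.2 0).re * (v'.2 0).im) = 0 := by
      rw [hv2]
      simp only [Complex.mul_re, Complex.mul_im, Complex.I_re,
      Complex.I_im, zero_mul, one_mul, zero_sub, zero_add]
      linarith
    have hz : (v.1 0 - 2 * (u.2 0).im * (v.2 0).re + 2 * (u.2 0).re * (v.2 0).im) = 0 := by
      linarith
    simp only [hz, hz', zero_smul, zero_add]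
    simp only [← Complex.coe_smul, smul_smul, ← add_smul]
    congr 1
    rw [hv2]
    apply Complex.ext <;> simp
  refine ⟨hkey, ?_⟩
  have hM : ∀ w, (fmap ε₀ Γ ∘ (std 1).param) w ∈ (std K).M := fun w =>
    fmap_mapsTo h0 h1 hΓ (param_mem 1 w)
  set h : (Fin 1 → ℝ) × (Fin 1 → ℂ) → (Fin 1 → ℝ) × (Fin K → ℂ) :=
    fun w => coords ((fmap ε₀ Γ ∘ (std 1).param) w) with hh
  have hcomp : fmap ε₀ Γ ∘ (std 1).param = (std K).param ∘ h := by
    funext w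
    exact (param_coords (hM w)).symm
  have hhd : DifferentiableAt ℝ h u := by
    refine DifferentiableAt.prodMk ?_ (hcd u).snd
    rw [differentiableAt_pi]
    intro j
    exact Complex.reCLM.differentiableAt.comp u (differentiableAt_pi.1 (hcd u).fst j)
  have hrange : ∀ w, fderiv ℝ (fmap ε₀ Γ ∘ (std 1).param) u w ∈ (std K).tang (h u) := by
    intro w
    refine ⟨fderiv ℝ h u w, ?_⟩
    rw [hcomp]
    have hd := ((contDiff_param K (n := 1)).differentiable one_ne_zero) (h u)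
    rw [fderiv_comp u hd hhd]
    rfl
  refine ⟨hrange v, ?_⟩
  have h3 := hrange v'
  rw [hkey] at h3
  exact h3

end MP640201
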