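import Pool.Agent.H.MP_640201_an.Lattice

/-! MP_640201_an: lattice sums of derivatives are small (discrete telescoping). -/

open Complex
open scoped ComplexConjugate

namespace MP640201

/-- Second order Taylor estimate. -/
theorem tele_taylor {f g h : ℝ → ℝ} {s M : ℝ} (hs : 0 ≤ s) (hf : ∀ τ, HasDerivAt f (g τ) τ)
    (hg : ∀ τ, HasDerivAt g (h τ) τ) (hM : ∀ τ, 0 ≤ τ → τ ≤ s → |h τ| ≤ M) :
    |f s - f 0 - s * g 0| ≤ s ^ 2 * M := by
  have h1 : ∀ τ ∈ Set.Icc 0 s, ‖g τ - g 0‖ ≤ M * (τ - 0) :=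
    norm_image_sub_le_of_norm_deriv_le_segment' (fun τ _ => (hg τ).hasDerivWithinAt)
      (fun τ hτ => hM τ hτ.1 hτ.2.le)
  have hM0 : 0 ≤ M := (abs_nonneg _).trans (hM 0 le_rfl hs)
  have h2 : ∀ τ, HasDerivAt (fun τ => f τ - τ * g 0) (g τ - g 0) τ := fun τ => by
    have h := (hf τ).fun_sub ((hasDerivAt_id τ).mul_const (g 0))
    exact h.congr_deriv (by ring)
  have h3 := norm_image_sub_le_of_norm_deriv_le_segment' (f := fun τ => f τ - τ * g 0)
    (f' := fun τ => g τ - g 0) (a := 0) (b := s) (C := M * s)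
    (fun τ _ => (h2 τ).hasDerivWithinAt)
    (fun τ hτ => (h1 τ ⟨hτ.1, hτ.2.le⟩).trans (by
      rw [sub_zero]; exact mul_le_mul_of_nonneg_left hτ.2.le hM0)) s ⟨hs, le_rfl⟩
  rw [Real.norm_eq_abs] at h3
  calc |f s - f 0 - s * g 0| = |f s - s * g 0 - (f 0 - 0 * g 0)| := by congr 1; ring
    _ ≤ M * s * (s - 0) := h3
    _ = s ^ 2 * M := by ring

/-- Abstract telescoping. -/
theorem tele_abs {C₀ : ℝ} (hC₀ : ∀ N : ℕ, 1 ≤ N → ∀ z : Hs,
    Summable (fun n : Idx => wp 4 (lq N n z)) ∧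
      ∑' n : Idx, wp 4 (lq N n z) ≤ C₀ * (N : ℝ) ^ 4)
    {N : ℕ} (hN : 1 ≤ N) {s K : ℝ} (hs : 0 < s) (e : Idx) {F G : Hs → ℝ}
    (hF : ∀ q, |F q| ≤ K * wp 4 q) (hG : ∀ q, |G q| ≤ K * wp 4 q)
    (hT : ∀ q, |F (hmul (lat N e) q) - F q - s * G q| ≤ s ^ 2 * (K * wp 4 q)) (z : Hs) :
    |((N : ℝ)⁻¹) ^ 4 * ∑' n : Idx, G (lq N n z)| ≤ s * (K * C₀) := by
  obtain ⟨hsum, hle⟩ := hC₀ N hN z
  have hK : 0 ≤ K := by
    have h1 := (abs_nonneg _).trans (hF 0)
    exact nonneg_of_mul_nonneg_left h1 (wp_pos 4 0)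
  have sK : Summable (fun n : Idx => K * wp 4 (lq N n z)) := hsum.mul_left K
  have sF : Summable (fun n : Idx => F (lq N n z)) :=
    Summable.of_norm_bounded sK (fun n => hF _)
  have sG : Summable (fun n : Idx => G (lq N n z)) :=
    Summable.of_norm_bounded sK (fun n => hG _)
  have sD : Summable (fun n : Idx => F (hmul (lat N e) (lq N n z)) - F (lq N n z)
      - s * G (lq N n z)) :=
    Summable.of_norm_bounded (sK.mul_left (s ^ 2)) (fun n => hT _)
  have sM : Summable (fun n : Idx => F (hmul (lat N e) (lq N n z))) := by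
    have := (sD.add sF).add (sG.mul_left s)
    refine this.congr fun n => ?_
    ring
  have e1 : ∑' n : Idx, (F (hmul (lat N e) (lq N n z)) - F (lq N n z) - s * G (lq N n z))
      = -(s * ∑' n : Idx, G (lq N n z)) := by
    rw [(sM.sub sF).tsum_sub (sG.mul_left s), sM.tsum_sub sF, tsum_mul_left,
      tsum_lq_shift hN F e z]
    ring
  have e2 : |∑' n : Idx, (F (hmul (lat N e) (lq N n z)) - F (lq N n z) - s * G (lq N n z))|
      ≤ s ^ 2 * (K * (C₀ * (N : ℝ) ^ 4)) := by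
    have h1 := norm_tsum_le_tsum_norm sD.norm
    have h2 : ∑' n : Idx, ‖F (hmul (lat N e) (lq N n z)) - F (lq N n z) - s * G (lq N n z)‖
        ≤ ∑' n : Idx, s ^ 2 * (K * wp 4 (lq N n z)) :=
      sD.norm.tsum_le_tsum (fun n => hT _) (sK.mul_left (s ^ 2))
    rw [tsum_mul_left, tsum_mul_left] at h2
    refine (h1.trans h2).trans ?_
    gcongr
  rw [e1, abs_neg, abs_mul, abs_of_pos hs] at e2
  have e3 : |∑' n : Idx, G (lq N n z)| ≤ s * (K * (C₀ * (N : ℝ) ^ 4)) := by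
    refine le_of_mul_le_mul_left ?_ hs
    calc _ ≤ _ := e2
      _ = _ := by ring
  have hNp : (0 : ℝ) < N := by exact_mod_cast hN
  rw [abs_mul, abs_of_nonneg (by positivity)]
  calc ((N : ℝ)⁻¹) ^ 4 * |∑' n : Idx, G (lq N n z)|
      ≤ ((N : ℝ)⁻¹) ^ 4 * (s * (K * (C₀ * (N : ℝ) ^ 4))) := by gcongr
    _ = s * (K * C₀) := by field_simp

theorem tele_wp {a q : Hs} (ha : vw a ≤ 2) :
    wp 4 (hmul a q) ≤ 1296 * wp 4 q := by
  have h1 := wp_le_hmul 4 (hinv a) (hmul a q)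
  have h2 : hmul (hinv a) (hmul a q) = q := by
    rw [← hmul_assoc, hinv_hmul, zero_hmul]
  rw [h2, vw_hinv] at h1
  refine h1.trans ?_
  have h3 : (3 * vw a) ^ 4 ≤ 1296 := by
    calc (3 * vw a) ^ 4 ≤ (3 * 2) ^ 4 := by
          have := vw_pos a
          gcongr
      _ = 1296 := by norm_num
  exact mul_le_mul_of_nonneg_right h3 (wp_nonneg 4 q)

/-- Telescoping along a one-parameter subgroup. -/
theorem tele_curve {C₀ : ℝ} (hC₀ : ∀ N : ℕ, 1 ≤ N → ∀ z : Hs,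
    Summable (fun n : Idx => wp 4 (lq N n z)) ∧
      ∑' n : Idx, wp 4 (lq N n z) ≤ C₀ * (N : ℝ) ^ 4)
    {N : ℕ} (hN : 1 ≤ N) {s K : ℝ} (hs : 0 < s) (hs1 : s ≤ 1) (e : Idx) (a : ℝ → Hs)
    (ha0 : a 0 = 0) (hae : a s = lat N e) (hav : ∀ τ, 0 ≤ τ → τ ≤ 1 → vw (a τ) ≤ 2)
    {F G H : Hs → ℝ} (hFG : ∀ q τ, HasDerivAt (fun τ => F (hmul (a τ) q)) (G (hmul (a τ) q)) τ)
    (hGH : ∀ q τ, HasDerivAt (fun τ => G (hmul (a τ) q)) (H (hmul (a τ) q)) τ)
    (hF : ∀ q, |F q| ≤ K * wp 4 q) (hG : ∀ q, |G q| ≤ K * wp 4 q)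
    (hH : ∀ q, |H q| ≤ K * wp 4 q) (z : Hs) :
    |((N : ℝ)⁻¹) ^ 4 * ∑' n : Idx, G (lq N n z)| ≤ s * (1296 * K * C₀) := by
  have hK : 0 ≤ K := by
    have h1 := (abs_nonneg _).trans (hF 0)
    exact nonneg_of_mul_nonneg_left h1 (wp_pos 4 0)
  have hmono : ∀ q, K * wp 4 q ≤ 1296 * K * wp 4 q := fun q => by
    have := mul_nonneg hK (wp_nonneg 4 q)
    nlinarith
  refine tele_abs hC₀ hN hs e (fun q => (hF q).trans (hmono q))
    (fun q => (hG q).trans (hmono q)) (fun q => ?_) z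
  have h1 := tele_taylor (f := fun τ => F (hmul (a τ) q)) (g := fun τ => G (hmul (a τ) q))
    (h := fun τ => H (hmul (a τ) q)) (M := 1296 * K * wp 4 q) hs.le (hFG q) (hGH q)
    (fun τ h0 h1 => by
      refine (hH _).trans ?_
      calc K * wp 4 (hmul (a τ) q) ≤ K * (1296 * wp 4 q) :=
            mul_le_mul_of_nonneg_left (tele_wp (hav τ h0 (h1.trans hs1))) hK
        _ = 1296 * K * wp 4 q := by ring)
  simp only [ha0, hae, zero_hmul] at h1
  exact h1

theorem tele_inv_le {N : ℕ} (hN : 1 ≤ N) : (N : ℝ)⁻¹ ≤ 1 := by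
  apply inv_le_one_of_one_le₀
  exact_mod_cast hN

theorem tele_deriv0 {F : Hs → ℝ} (hF : ContDiff ℝ 1 F) (q : Hs) (τ : ℝ) :
    HasDerivAt (fun τ : ℝ => F (hmul ((τ, 0) : Hs) q)) (dX 0 F (hmul ((τ, 0) : Hs) q)) τ := by
  have e : ∀ τ : ℝ, hmul ((τ, 0) : Hs) q = (τ + q.1, q.2) := fun τ => by
    ext <;> simp [hmul]
  simp only [e]
  have h1 : HasDerivAt (fun τ : ℝ => ((τ + q.1, q.2) : Hs)) ((1, 0) : Hs) τ :=
    ((hasDerivAt_id τ).add_const q.1).prodMk (hasDerivAt_const τ q.2)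
  exact ((hF.differentiable one_ne_zero (τ + q.1, q.2)).hasFDerivAt).comp_hasDerivAt τ h1

/-- The sum of `T F` over the lattice. -/
theorem tele_T : ∃ C : ℝ, 1 ≤ C ∧ ∀ (N : ℕ) (K : ℝ) (F : Hs → ℝ), 1 ≤ N →
    Adm 2 (fun q => K * wp 4 q) F → ∀ z : Hs,
      |((N : ℝ)⁻¹) ^ 4 * ∑' n : Idx, dX 0 F (lq N n z)| ≤ C * K / (N : ℝ) := by
  obtain ⟨C₀, hC1, hC₀⟩ := lat_sum
  refine ⟨1296 * C₀, by linarith, ?_⟩
  intro N K F hN hA z
  have hNp : (0 : ℝ) < N := by exact_mod_cast hN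
  have hinv0 : (0 : ℝ) < (N : ℝ)⁻¹ := inv_pos.2 hNp
  have hinv1 := tele_inv_le hN
  have hs : (0 : ℝ) < ((N : ℝ)⁻¹) ^ 2 := by positivity
  have hs1 : ((N : ℝ)⁻¹) ^ 2 ≤ (N : ℝ)⁻¹ := by nlinarith
  have hK : 0 ≤ K := by
    have h1 := hA.nonneg 0
    exact nonneg_of_mul_nonneg_left h1 (wp_pos 4 0)
  have h := tele_curve hC₀ hN hs (hs1.trans hinv1) (1, 0, 0) (fun τ => ((τ, 0) : Hs)) rfl
    (by ext <;> simp [lat]) (fun τ h0 h1 => by
      simp only [vw, norm_zero, abs_of_nonneg h0]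
      nlinarith)
    (F := F) (G := dX 0 F) (H := dX 0 (dX 0 F))
    (fun q τ => tele_deriv0 hA.1 q τ) (fun q τ => tele_deriv0 (hA.2.2 0).1 q τ)
    (fun q => hA.bound q) (fun q => (hA.2.2 0).bound q) (fun q => ((hA.2.2 0).2.2 0).bound q) z
  refine h.trans ?_
  calc ((N : ℝ)⁻¹) ^ 2 * (1296 * K * C₀) ≤ (N : ℝ)⁻¹ * (1296 * K * C₀) := by
        apply mul_le_mul_of_nonneg_right hs1
        have : 0 ≤ C₀ := by linarith
        positivity
    _ = 1296 * C₀ * K / N := by ring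

/-- The horizontal directions. -/
theorem tele_hor {C₀ C₁ : ℝ} (hC₀ : ∀ N : ℕ, 1 ≤ N → ∀ z : Hs,
    Summable (fun n : Idx => wp 4 (lq N n z)) ∧
      ∑' n : Idx, wp 4 (lq N n z) ≤ C₀ * (N : ℝ) ^ 4)
    (hC₁ : ∀ (N : ℕ) (K : ℝ) (F : Hs → ℝ), 1 ≤ N →
      Adm 2 (fun q => K * wp 4 q) F → ∀ z : Hs,
      |((N : ℝ)⁻¹) ^ 4 * ∑' n : Idx, dX 0 F (lq N n z)| ≤ C₁ * K / (N : ℝ))
    (i : Fin 3) (c : Hs → ℝ) (a : ℝ → Hs) (e : Idx)
    (ha0 : a 0 = 0) (hae : ∀ N : ℕ, 1 ≤ N → a ((N : ℝ)⁻¹) = lat N e)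
    (hav : ∀ τ, 0 ≤ τ → τ ≤ 1 → vw (a τ) ≤ 2)
    (hca : ∀ q τ, c (hmul (a τ) q) = c q)
    (hc : ∀ q, |c q| ≤ 4 * ‖q.2‖)
    (hcA : Adm 2 (fun q => 4 * vw q) c) (hc0 : ∀ q, dX 0 c q = 0)
    (hd : ∀ F : Hs → ℝ, ContDiff ℝ 1 F → ∀ q τ, HasDerivAt (fun τ => F (hmul (a τ) q))
      (dX i F (hmul (a τ) q) + c q * dX 0 F (hmul (a τ) q)) τ)
    {N : ℕ} {K : ℝ} {F : Hs → ℝ} (hN : 1 ≤ N) (hA : Adm 2 (fun q => K * wp 6 q) F) (z : Hs) :
    |((N : ℝ)⁻¹) ^ 4 * ∑' n : Idx, dX i F (lq N n z)|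
      ≤ (41472 * C₀ + 16 * C₁) * K / (N : ℝ) := by
  have hNp : (0 : ℝ) < N := by exact_mod_cast hN
  have hinv0 : (0 : ℝ) < (N : ℝ)⁻¹ := inv_pos.2 hNp
  have hinv1 := tele_inv_le hN
  have hK : 0 ≤ K := by
    have h1 := hA.nonneg 0
    exact nonneg_of_mul_nonneg_left h1 (wp_pos 6 0)
  have hw6 : ∀ q, vw q * wp 6 q = wp 5 q := fun q => by
    have := vw_pow_mul_wp 1 5 q
    simpa using this
  have hsq : ∀ q, (1 + |c q|) ^ 2 ≤ 32 * vw q := fun q => by
    have h1 := hc q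
    have h2 : 0 ≤ |q.1| := abs_nonneg _
    have h3 := abs_nonneg (c q)
    have h4 : |c q| ^ 2 ≤ 16 * ‖q.2‖ ^ 2 := by
      calc |c q| ^ 2 ≤ (4 * ‖q.2‖) ^ 2 := by gcongr
        _ = _ := by ring
    simp only [vw]
    nlinarith [sq_nonneg (|c q| - 1)]
  have hone : ∀ q, 1 ≤ 1 + |c q| := fun q => by linarith [abs_nonneg (c q)]
  have hwK : ∀ q, (1 + |c q|) ^ 2 * (K * wp 6 q) ≤ 32 * K * wp 4 q := fun q => by
    calc (1 + |c q|) ^ 2 * (K * wp 6 q) ≤ (32 * vw q) * (K * wp 6 q) :=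
          mul_le_mul_of_nonneg_right (hsq q) (mul_nonneg hK (wp_nonneg 6 q))
      _ = 32 * K * (vw q * wp 6 q) := by ring
      _ = 32 * K * wp 5 q := by rw [hw6]
      _ ≤ 32 * K * wp 4 q := mul_le_mul_of_nonneg_left (wp_anti (by norm_num) q)
          (by positivity)
  have hA0 := hA.2.2 0
  have hAi := hA.2.2 i
  set G : Hs → ℝ := fun q => dX i F q + c q * dX 0 F q with hGdef
  set H : Hs → ℝ := fun q => (dX i (dX i F) q + c q * dX 0 (dX i F) q)
    + c q * (dX i (dX 0 F) q + c q * dX 0 (dX 0 F) q) with hHdef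
  have hbG : ∀ q, |G q| ≤ 32 * K * wp 4 q := fun q => by
    have b0 : |dX 0 F q| ≤ K * wp 6 q := hA0.bound q
    have bi : |dX i F q| ≤ K * wp 6 q := hAi.bound q
    have hp := mul_nonneg hK (wp_nonneg 6 q)
    refine le_trans ?_ (hwK q)
    calc |G q| ≤ |dX i F q| + |c q| * |dX 0 F q| := by
          rw [← abs_mul]; exact abs_add_le _ _
      _ ≤ K * wp 6 q + |c q| * (K * wp 6 q) := by gcongr
      _ = (1 + |c q|) ^ 1 * (K * wp 6 q) := by ring
      _ ≤ (1 + |c q|) ^ 2 * (K * wp 6 q) := by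
          apply mul_le_mul_of_nonneg_right _ hp
          exact pow_le_pow_right₀ (hone q) (by norm_num)
  have hbF : ∀ q, |F q| ≤ 32 * K * wp 4 q := fun q => by
    have b : |F q| ≤ K * wp 6 q := hA.bound q
    have hp := mul_nonneg hK (wp_nonneg 6 q)
    refine le_trans ?_ (hwK q)
    calc |F q| ≤ 1 ^ 2 * (K * wp 6 q) := by simpa using b
      _ ≤ (1 + |c q|) ^ 2 * (K * wp 6 q) := by
          apply mul_le_mul_of_nonneg_right _ hp
          exact pow_le_pow_left₀ zero_le_one (hone q) 2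
  have hbH : ∀ q, |H q| ≤ 32 * K * wp 4 q := fun q => by
    have b00 : |dX 0 (dX 0 F) q| ≤ K * wp 6 q := (hA0.2.2 0).bound q
    have b0i : |dX 0 (dX i F) q| ≤ K * wp 6 q := (hAi.2.2 0).bound q
    have bi0 : |dX i (dX 0 F) q| ≤ K * wp 6 q := (hA0.2.2 i).bound q
    have bii : |dX i (dX i F) q| ≤ K * wp 6 q := (hAi.2.2 i).bound q
    have hp := mul_nonneg hK (wp_nonneg 6 q)
    refine le_trans ?_ (hwK q)
    calc |H q| ≤ |dX i (dX i F) q + c q * dX 0 (dX i F) q|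
          + |c q * (dX i (dX 0 F) q + c q * dX 0 (dX 0 F) q)| := abs_add_le _ _
      _ ≤ (|dX i (dX i F) q| + |c q| * |dX 0 (dX i F) q|)
          + |c q| * (|dX i (dX 0 F) q| + |c q| * |dX 0 (dX 0 F) q|) := by
          rw [abs_mul (c q) (dX i (dX 0 F) q + c q * dX 0 (dX 0 F) q), ← abs_mul (c q) (dX 0 (dX i F) q),
            ← abs_mul (c q) (dX 0 (dX 0 F) q)]
          gcongr
          · exact abs_add_le _ _
          · exact abs_add_le _ _
      _ ≤ (K * wp 6 q + |c q| * (K * wp 6 q))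
          + |c q| * (K * wp 6 q + |c q| * (K * wp 6 q)) := by gcongr
      _ = (1 + |c q|) ^ 2 * (K * wp 6 q) := by ring
  have key := tele_curve hC₀ hN hinv0 hinv1 e a ha0 (hae N hN) hav (F := F) (G := G) (H := H)
    (fun q τ => by
      have := hd F hA.1 q τ
      simp only [hGdef, hca]
      exact this)
    (fun q τ => by
      have h1 := hd (dX i F) hAi.1 q τ
      have h2 := (hd (dX 0 F) hA0.1 q τ).const_mul (c q)
      have h3 := h1.add h2
      simp only [hGdef, hHdef, hca]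
      exact h3)
    hbF hbG hbH z
  -- the correction term
  have hcF : Adm 2 (fun q => 16 * K * wp 4 q) (fun q => c q * F q) := by
    refine (hcA.mulR hA).mono fun q => ?_
    calc 2 ^ 2 * (4 * vw q * (K * wp 6 q)) = 16 * K * (vw q * wp 6 q) := by ring
      _ = 16 * K * wp 5 q := by rw [hw6]
      _ ≤ 16 * K * wp 4 q := mul_le_mul_of_nonneg_left (wp_anti (by norm_num) q)
          (by positivity)
  have key2 := hC₁ N (16 * K) _ hN hcF z
  have hdX : ∀ q, dX 0 (fun q => c q * F q) q = c q * dX 0 F q := fun q => by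
    have hcd : DifferentiableAt ℝ c q := hcA.1.differentiable one_ne_zero q
    have hFd : DifferentiableAt ℝ F q := hA.1.differentiable one_ne_zero q
    have h0 := hc0 q
    unfold dX at h0 ⊢
    rw [fderiv_fun_mul hcd hFd]
    simp only [add_apply, smul_apply, smul_eq_mul]
    rw [h0]; ring
  simp only [hdX] at key2
  obtain ⟨hsum, -⟩ := hC₀ N hN z
  have sG : Summable (fun n : Idx => G (lq N n z)) :=
    Summable.of_norm_bounded (hsum.mul_left (32 * K)) (fun n => hbG _)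
  have sC : Summable (fun n : Idx => c (lq N n z) * dX 0 F (lq N n z)) := by
    refine Summable.of_norm_bounded (hsum.mul_left (16 * K)) (fun n => ?_)
    have := (hcF.2.2 0).bound (lq N n z)
    rwa [hdX] at this
  have e1 : ∑' n : Idx, dX i F (lq N n z)
      = ∑' n : Idx, G (lq N n z) - ∑' n : Idx, c (lq N n z) * dX 0 F (lq N n z) := by
    rw [← sG.tsum_sub sC]
    refine tsum_congr fun n => ?_
    simp only [hGdef]; ring
  rw [e1, mul_sub]
  refine (abs_sub _ _).trans ?_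
  refine (add_le_add key key2).trans (le_of_eq ?_)
  field_simp
  ring

theorem tele_dX_im (i : Fin 3) (q : Hs) : dX i (fun q : Hs => q.2.im) q = (fld i q).2.im := by
  have h : HasFDerivAt (fun q : Hs => q.2.im)
      (Complex.imCLM.comp (ContinuousLinearMap.snd ℝ ℝ ℂ)) q :=
    (Complex.imCLM.comp (ContinuousLinearMap.snd ℝ ℝ ℂ)).hasFDerivAt
  unfold dX
  rw [h.fderiv]
  rfl

theorem tele_dX_re (i : Fin 3) (q : Hs) : dX i (fun q : Hs => q.2.re) q = (fld i q).2.re := by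
  have h : HasFDerivAt (fun q : Hs => q.2.re)
      (Complex.reCLM.comp (ContinuousLinearMap.snd ℝ ℝ ℂ)) q :=
    (Complex.reCLM.comp (ContinuousLinearMap.snd ℝ ℝ ℂ)).hasFDerivAt
  unfold dX
  rw [h.fderiv]
  rfl

theorem tele_adm_lin {c : Hs → ℝ} (hc1 : ContDiff ℝ 1 c) (hc : ∀ q, |c q| ≤ 4 * ‖q.2‖)
    (hd : ∀ i, ∃ k : ℝ, |k| ≤ 4 ∧ dX i c = fun _ => k) : Adm 2 (fun q => 4 * vw q) c := by
  have hv : ∀ q : Hs, ‖q.2‖ ≤ vw q := fun q => (le_max_right _ _).trans (norm_le_vw q)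
  refine ⟨hc1, fun q => (hc q).trans (mul_le_mul_of_nonneg_left (hv q) (by norm_num)), ?_⟩
  intro i
  obtain ⟨k, hk, e⟩ := hd i
  rw [e]
  refine (adm_const 1 k).mono fun q => ?_
  rw [Real.norm_eq_abs]
  nlinarith [one_le_vw q]

/-- The sum of `X_i F` over the lattice. -/
theorem tele : ∃ C : ℝ, 1 ≤ C ∧ ∀ (N : ℕ) (K : ℝ) (F : Hs → ℝ) (i : Fin 3), 1 ≤ N →
    Adm 2 (fun q => K * wp 6 q) F → ∀ z : Hs,
      |((N : ℝ)⁻¹) ^ 4 * ∑' n : Idx, dX i F (lq N n z)| ≤ C * K / (N : ℝ) := by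
  obtain ⟨C₀, hC01, hC₀⟩ := lat_sum
  obtain ⟨C₁, hC11, hC₁⟩ := tele_T
  refine ⟨41472 * C₀ + 16 * C₁, by linarith, ?_⟩
  intro N K F i hN hA z
  have hNp : (0 : ℝ) < N := by exact_mod_cast hN
  have hK : 0 ≤ K := by
    have h1 := hA.nonneg 0
    exact nonneg_of_mul_nonneg_left h1 (wp_pos 6 0)
  have hC00 : 0 ≤ C₀ := by linarith
  have hC10 : 0 ≤ C₁ := by linarith
  have hre : ContDiff ℝ 1 (fun q : Hs => q.2.re) := Complex.reCLM.contDiff.comp contDiff_snd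
  have him : ContDiff ℝ 1 (fun q : Hs => q.2.im) := Complex.imCLM.contDiff.comp contDiff_snd
  have hmulc : ∀ (k : ℝ) (f : Hs → ℝ), ContDiff ℝ 1 f → ∀ i q,
      dX i (fun q => k * f q) q = k * dX i f q := fun k f hf i q => by
    unfold dX
    rw [fderiv_const_mul (hf.differentiable one_ne_zero q)]
    simp
  fin_cases i
  · -- T direction
    have hA' : Adm 2 (fun q => K * wp 4 q) F :=
      hA.mono fun q => mul_le_mul_of_nonneg_left (wp_anti (by norm_num) q) hK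
    refine (hC₁ N K F hN hA' z).trans ?_
    apply div_le_div_of_nonneg_right _ hNp.le
    apply mul_le_mul_of_nonneg_right _ hK
    linarith
  · -- X direction
    refine tele_hor hC₀ hC₁ 1 (fun q => -4 * q.2.im) (fun τ => ((0, (τ : ℂ)) : Hs)) (0, 1, 0)
      (by simp) (fun N _ => by ext <;> simp [lat]) ?_ ?_ ?_ ?_ ?_ ?_ hN hA z
    · intro τ h0 h1
      simp only [vw, Complex.norm_real, Real.norm_eq_abs, abs_of_nonneg h0, abs_zero]
      nlinarith
    · intro q τ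
      simp [hmul]
    · intro q
      rw [abs_mul]
      have := Complex.abs_im_le_norm q.2
      norm_num
      linarith
    · refine tele_adm_lin (contDiff_const.mul him) ?_ ?_
      · intro q
        rw [abs_mul]
        have := Complex.abs_im_le_norm q.2
        norm_num
        linarith
      · intro i
        refine ⟨-4 * (fld i 0).2.im, ?_, ?_⟩
        · fin_cases i <;> simp
        · funext q
          rw [hmulc _ _ him, tele_dX_im]
          fin_cases i <;> simp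
    · intro q
      rw [hmulc _ _ him, tele_dX_im]
      simp
    · intro F hF q τ
      have e : ∀ τ : ℝ, hmul ((0, (τ : ℂ)) : Hs) q = (q.1 - 2 * q.2.im * τ, q.2 + τ) := fun τ => by
        ext <;> simp [hmul] <;> ring
      have h1 : HasDerivAt (fun τ : ℝ => ((q.1 - 2 * q.2.im * τ, q.2 + τ) : Hs))
          ((-(2 * q.2.im), 1) : Hs) τ := by
        refine HasDerivAt.prodMk ?_ ?_
        · simpa using ((hasDerivAt_id τ).const_mul (2 * q.2.im)).const_sub q.1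
        · simpa using (Complex.ofRealCLM.hasDerivAt (x := τ)).const_add q.2
      have h2 := ((hF.differentiable one_ne_zero (q.1 - 2 * q.2.im * τ, q.2 + τ)).hasFDerivAt).comp_hasDerivAt τ h1
      simp only [e]
      refine h2.congr_deriv ?_
      rw [fderiv_eq_dX]
      simp
      ring
  · -- Y direction
    refine tele_hor hC₀ hC₁ 2 (fun q => 4 * q.2.re) (fun τ => ((0, (τ : ℂ) * I) : Hs)) (0, 0, 1)
      (by simp) (fun N _ => by ext <;> simp [lat]) ?_ ?_ ?_ ?_ ?_ ?_ hN hA z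
    · intro τ h0 h1
      simp only [vw, norm_mul, Complex.norm_real, Real.norm_eq_abs, abs_of_nonneg h0, abs_zero,
        Complex.norm_I]
      nlinarith
    · intro q τ
      simp [hmul]
    · intro q
      rw [abs_mul]
      have := Complex.abs_re_le_norm q.2
      norm_num
      linarith
    · refine tele_adm_lin (contDiff_const.mul hre) ?_ ?_
      · intro q
        rw [abs_mul]
        have := Complex.abs_re_le_norm q.2
        norm_num
        linarith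
      · intro i
        refine ⟨4 * (fld i 0).2.re, ?_, ?_⟩
        · fin_cases i <;> simp
        · funext q
          rw [hmulc _ _ hre, tele_dX_re]
          fin_cases i <;> simp
    · intro q
      rw [hmulc _ _ hre, tele_dX_re]
      simp
    · intro F hF q τ
      have e : ∀ τ : ℝ, hmul ((0, (τ : ℂ) * I) : Hs) q = (q.1 + 2 * q.2.re * τ, q.2 + τ * I) :=
        fun τ => by
        ext <;> simp [hmul] <;> ring
      have h1 : HasDerivAt (fun τ : ℝ => ((q.1 + 2 * q.2.re * τ, q.2 + τ * I) : Hs))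
          ((2 * q.2.re, I) : Hs) τ := by
        refine HasDerivAt.prodMk ?_ ?_
        · simpa using ((hasDerivAt_id τ).const_mul (2 * q.2.re)).const_add q.1
        · simpa using ((Complex.ofRealCLM.hasDerivAt (x := τ)).mul_const I).const_add q.2
      have h2 := ((hF.differentiable one_ne_zero (q.1 + 2 * q.2.re * τ, q.2 + τ * I)).hasFDerivAt).comp_hasDerivAt τ h1
      simp only [e]
      refine h2.congr_deriv ?_
      rw [fderiv_eq_dX]
      simp
      ring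

end MP640201
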